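import Mathlib

set_option autoImplicit false
set_option linter.unusedSectionVars false

open scoped BigOperators ENNReal

namespace Pool.Agent.Helper116.Chain

variable {X : Type} [Fintype X] [DecidableEq X]

/-- distribution after `k` steps -/
noncomputable def dist (K : X → PMF X) (k : ℕ) (p : PMF X) : PMF X :=
  Nat.iterate (fun p : PMF X => p.bind K) k p

/-- mass outside `z` -/
noncomputable def miss (z : X) (p : PMF X) : ℝ≥0∞ := ∑ y, if y = z then 0 else p y

lemma sum_pmf (p : PMF X) : ∑ y, p y = 1 := by
  have h := p.tsum_coe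
  rwa [tsum_fintype] at h

lemma miss_add (z : X) (p : PMF X) : miss z p + p z = 1 := by
  rw [← sum_pmf p, miss, ← Finset.sum_erase_add Finset.univ (fun y => p y) (Finset.mem_univ z)]
  congr 1
  rw [← Finset.sum_erase_add Finset.univ (fun y => if y = z then 0 else p y) (Finset.mem_univ z)]
  simp only [if_true, add_zero]
  refine Finset.sum_congr rfl (fun y hy => ?_)
  simp [Finset.ne_of_mem_erase hy]

lemma miss_eq (z : X) (p : PMF X) : miss z p = 1 - p z := by
  have h := miss_add z p
  have hz : p z ≠ ∞ := p.apply_ne_top z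
  rw [← h]
  exact (ENNReal.add_sub_cancel_right hz).symm

lemma miss_le_one (z : X) (p : PMF X) : miss z p ≤ 1 := by
  rw [miss_eq]; exact tsub_le_self

lemma bind_apply_sum (p : PMF X) (f : X → PMF X) (y : X) : (p.bind f) y = ∑ x, p x * f x y := by
  rw [PMF.bind_apply, tsum_fintype]

lemma miss_bind (z : X) (p : PMF X) (f : X → PMF X) :
    miss z (p.bind f) = ∑ x, p x * miss z (f x) := by
  simp only [miss, bind_apply_sum, Finset.mul_sum]
  rw [Finset.sum_comm]
  refine Finset.sum_congr rfl (fun y _ => ?_)
  split_ifs <;> simp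

lemma dist_bind (K : X → PMF X) (k : ℕ) (p : PMF X) (f : X → PMF X) :
    dist K k (p.bind f) = p.bind (fun x => dist K k (f x)) := by
  induction k generalizing f with
  | zero => rfl
  | succ k ih =>
    unfold dist at *
    simp only [Function.iterate_succ, Function.comp]
    rw [PMF.bind_bind, ih]

lemma dist_pure (K : X → PMF X) (k : ℕ) (p : PMF X) :
    dist K k p = p.bind (fun x => dist K k (PMF.pure x)) := by
  conv_lhs => rw [← PMF.bind_pure p]
  rw [dist_bind]

lemma dist_succ_pure (K : X → PMF X) (k : ℕ) (x : X) :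
    dist K (k + 1) (PMF.pure x) = (K x).bind (fun y => dist K k (PMF.pure y)) := by
  have : dist K (k + 1) (PMF.pure x) = dist K k (K x) := by
    unfold dist
    simp only [Function.iterate_succ, Function.comp, PMF.pure_bind]
  rw [this, dist_pure]

/-- expected number of steps before reaching `z` -/
noncomputable def H (K : X → PMF X) (z : X) (x : X) : ℝ≥0∞ :=
  ∑' k, miss z (dist K k (PMF.pure x))

lemma H_init (K : X → PMF X) (z : X) (p : PMF X) :
    ∑' k, (1 - (dist K k p) z) = ∑ x, p x * H K z x := by
  have h1 : ∀ k, (1 - (dist K k p) z) = ∑ x, p x * miss z (dist K k (PMF.pure x)) := by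
    intro k
    rw [← miss_eq, dist_pure, miss_bind]
  simp_rw [h1]
  rw [Summable.tsum_finsetSum (fun i _ => ENNReal.summable)]
  refine Finset.sum_congr rfl (fun x _ => ?_)
  rw [ENNReal.tsum_mul_left, H]

lemma miss_pure (z x : X) : miss z (PMF.pure x) = if x = z then 0 else 1 := by
  rw [miss_eq, PMF.pure_apply]
  by_cases h : x = z
  · subst h; simp
  · simp [h, Ne.symm h]

lemma H_step (K : X → PMF X) (z x : X) :
    H K z x = (if x = z then 0 else 1) + ∑ y, K x y * H K z y := by
  rw [H, tsum_eq_zero_add' ENNReal.summable]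
  congr 1
  · exact miss_pure z x
  · simp_rw [dist_succ_pure, miss_bind]
    rw [Summable.tsum_finsetSum (fun i _ => ENNReal.summable)]
    refine Finset.sum_congr rfl (fun y _ => ?_)
    rw [ENNReal.tsum_mul_left, H]

lemma H_z (K : X → PMF X) (z : X) (hz : K z = PMF.pure z) : H K z z = 0 := by
  have h : ∀ k, dist K k (PMF.pure z) = PMF.pure z := by
    intro k
    induction k with
    | zero => rfl
    | succ k ih => rw [dist_succ_pure, hz, PMF.pure_bind, ih]
  simp [H, h, miss_pure]

lemma H_le (K : X → PMF X) (z : X) (V : X → ℝ≥0∞)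
    (hV : ∀ x, (if x = z then 0 else 1) + ∑ y, K x y * V y ≤ V x) (x : X) : H K z x ≤ V x := by
  have h : ∀ N x, ∑ k ∈ Finset.range N, miss z (dist K k (PMF.pure x)) ≤ V x := by
    intro N
    induction N with
    | zero => intro x; simp
    | succ N ih =>
      intro x
      rw [Finset.sum_range_succ']
      have h0 : miss z (dist K 0 (PMF.pure x)) = if x = z then 0 else 1 := miss_pure z x
      rw [h0, add_comm]
      refine le_trans ?_ (hV x)
      gcongr
      simp_rw [dist_succ_pure, miss_bind]
      rw [Finset.sum_comm]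
      refine Finset.sum_le_sum (fun y _ => ?_)
      rw [← Finset.mul_sum]
      gcongr
      exact ih y
  rw [H]
  exact ENNReal.tsum_le_of_sum_range_le (fun N => h N x)

/-- real expectation -/
noncomputable def E {A : Type} [Fintype A] (p : PMF A) (f : A → ℝ) : ℝ :=
  ∑ a, (p a).toReal * f a

section Exp

variable {A B : Type} [Fintype A] [Fintype B]

lemma sum_toReal (p : PMF A) : ∑ a, (p a).toReal = 1 := by
  have h := p.tsum_coe
  rw [tsum_fintype] at h
  rw [← ENNReal.toReal_sum (fun a _ => p.apply_ne_top a), h]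
  rfl

lemma E_const (p : PMF A) (c : ℝ) : E p (fun _ => c) = c := by
  rw [E, ← Finset.sum_mul, sum_toReal, one_mul]

lemma E_mono (p : PMF A) {f g : A → ℝ} (h : ∀ a, f a ≤ g a) : E p f ≤ E p g :=
  Finset.sum_le_sum (fun a _ => mul_le_mul_of_nonneg_left (h a) ENNReal.toReal_nonneg)

lemma E_add (p : PMF A) (f g : A → ℝ) : E p (fun a => f a + g a) = E p f + E p g := by
  simp [E, mul_add, Finset.sum_add_distrib]

lemma E_sub (p : PMF A) (f g : A → ℝ) : E p (fun a => f a - g a) = E p f - E p g := by
  simp [E, mul_sub, Finset.sum_sub_distrib]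

lemma E_mul (p : PMF A) (c : ℝ) (f : A → ℝ) : E p (fun a => c * f a) = c * E p f := by
  simp only [E, Finset.mul_sum]
  exact Finset.sum_congr rfl (fun a _ => by ring)

lemma E_pure [DecidableEq A] (a : A) (f : A → ℝ) : E (PMF.pure a) f = f a := by
  rw [E, Finset.sum_eq_single a]
  · simp
  · intro b _ hb; simp [hb]
  · intro h; exact absurd (Finset.mem_univ _) h

lemma E_bind (p : PMF A) (g : A → PMF B) (f : B → ℝ) :
    E (p.bind g) f = E p (fun a => E (g a) f) := by
  simp only [E]
  have h : ∀ b, ((p.bind g) b).toReal = ∑ a, (p a).toReal * (g a b).toReal := by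
    intro b
    rw [PMF.bind_apply, tsum_fintype, ENNReal.toReal_sum]
    · exact Finset.sum_congr rfl (fun a _ => ENNReal.toReal_mul)
    · intro a _; exact ENNReal.mul_ne_top (p.apply_ne_top a) ((g a).apply_ne_top b)
  simp_rw [h, Finset.sum_mul, Finset.mul_sum]
  rw [Finset.sum_comm]
  exact Finset.sum_congr rfl (fun a _ => Finset.sum_congr rfl (fun b _ => by ring))

lemma E_map [DecidableEq B] (p : PMF A) (g : A → B) (f : B → ℝ) :
    E (p.map g) f = E p (fun a => f (g a)) := by
  rw [PMF.map, E_bind]
  congr 1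
  funext a
  exact E_pure _ _

lemma E_uniform [Nonempty A] (f : A → ℝ) :
    E (PMF.uniformOfFintype A) f = (∑ a, f a) / Fintype.card A := by
  simp only [E, PMF.uniformOfFintype_apply]
  rw [Finset.sum_div]
  refine Finset.sum_congr rfl (fun a _ => ?_)
  simp [div_eq_inv_mul]

/-- mixture: with probability `r` use `p`, otherwise `q` -/
noncomputable def mix (r : NNReal) (hr : r ≤ 1) (p q : PMF A) : PMF A :=
  (PMF.bernoulli r hr).bind (fun c => if c then p else q)

lemma E_mix (r : NNReal) (hr : r ≤ 1) (p q : PMF A) (f : A → ℝ) :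
    E (mix r hr p q) f = r * E p f + (1 - r) * E q f := by
  rw [mix, E_bind]
  simp only [E, Fintype.sum_bool]
  simp [PMF.bernoulli_apply, ENNReal.toReal_sub_of_le, hr]

end Exp

/-- real-valued expected hitting time -/
noncomputable def t (K : X → PMF X) (z x : X) : ℝ := (H K z x).toReal

lemma t_nonneg (K : X → PMF X) (z x : X) : 0 ≤ t K z x := ENNReal.toReal_nonneg

lemma t_z (K : X → PMF X) (z : X) (hz : K z = PMF.pure z) : t K z z = 0 := by
  simp [t, H_z K z hz]

lemma t_step (K : X → PMF X) (z : X) (hfin : ∀ y, H K z y ≠ ∞) (x : X) (hx : x ≠ z) :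
    t K z x = 1 + E (K x) (t K z) := by
  have h := H_step K z x
  rw [if_neg hx] at h
  rw [t, h, ENNReal.toReal_add ENNReal.one_ne_top, ENNReal.toReal_sum, E]
  · simp [t, ENNReal.toReal_mul]
  · intro a _; exact ENNReal.mul_ne_top ((K x).apply_ne_top a) (hfin a)
  · apply (ENNReal.sum_lt_top.mpr _).ne
    intro a _
    exact ENNReal.mul_lt_top ((K x).apply_lt_top a) (lt_top_iff_ne_top.mpr (hfin a))

/-- global Lyapunov bound, real version -/
lemma t_le (K : X → PMF X) (z : X) (hz : K z = PMF.pure z) (V : X → ℝ) (hV0 : ∀ x, 0 ≤ V x)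
    (hV : ∀ x, x ≠ z → 1 + E (K x) (fun y => if y = z then 0 else V y) ≤ V x) :
    (∀ x, H K z x ≠ ∞) ∧ (∀ x, t K z x ≤ V x) := by
  have key : ∀ x, H K z x ≤ ENNReal.ofReal (if x = z then 0 else V x) := by
    apply H_le
    intro x
    by_cases hx : x = z
    · subst hx
      simp only [if_true, zero_add, hz, ENNReal.ofReal_zero, nonpos_iff_eq_zero]
      apply Finset.sum_eq_zero
      intro y _
      by_cases hy : y = x
      · subst hy; simp
      · simp [PMF.pure_apply, hy]
    · rw [if_neg hx, if_neg hx]
      have h1 := hV x hx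
      have h2 : ∑ y, (K x) y * ENNReal.ofReal (if y = z then 0 else V y)
          = ENNReal.ofReal (E (K x) (fun y => if y = z then 0 else V y)) := by
        rw [E, ENNReal.ofReal_sum_of_nonneg]
        · refine Finset.sum_congr rfl (fun y _ => ?_)
          rw [ENNReal.ofReal_mul ENNReal.toReal_nonneg, ENNReal.ofReal_toReal ((K x).apply_ne_top y)]
        · intro y _
          apply mul_nonneg ENNReal.toReal_nonneg
          beta_reduce
          split_ifs
          · exact le_refl _
          · exact hV0 y
      rw [h2, ← ENNReal.ofReal_one, ← ENNReal.ofReal_add zero_le_one]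
      · exact ENNReal.ofReal_le_ofReal h1
      · apply Finset.sum_nonneg
        intro y _
        apply mul_nonneg ENNReal.toReal_nonneg
        beta_reduce
        split_ifs
        · exact le_refl _
        · exact hV0 y
  refine ⟨fun x => ne_top_of_le_ne_top ENNReal.ofReal_ne_top (key x), fun x => ?_⟩
  have := ENNReal.toReal_mono ENNReal.ofReal_ne_top (key x)
  rw [ENNReal.toReal_ofReal] at this
  · refine this.trans ?_
    split_ifs
    · exact hV0 x
    · exact le_refl _
  · split_ifs
    · exact le_refl _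
    · exact hV0 x

/-- finite maximum principle -/
lemma max_principle (D : X → Prop) (mu : X → PMF X) (u V : X → ℝ) (c c' : ℝ) (hc : c < c')
    (hu : ∀ x, D x → u x ≤ c + E (mu x) u)
    (hV : ∀ x, D x → c' + E (mu x) V ≤ V x)
    (ho : ∀ x, ¬ D x → u x ≤ V x) (x : X) : u x ≤ V x := by
  have : Nonempty X := ⟨x⟩
  obtain ⟨m, hm⟩ := Finite.exists_max (fun x => u x - V x)
  by_contra hcon
  push Not at hcon
  have hpos : 0 < u m - V m := lt_of_lt_of_le (sub_pos.mpr hcon) (hm x)
  have hDm : D m := by
    by_contra hD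
    have := ho m hD
    linarith
  have h1 := hu m hDm
  have h2 := hV m hDm
  have h3 : E (mu m) (fun y => u y - V y) ≤ E (mu m) (fun _ => u m - V m) :=
    E_mono _ (fun y => hm y)
  rw [E_const, E_sub] at h3
  linarith

end Pool.Agent.Helper116.Chain
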