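import Mathlib
import Pool.Agent.Helper116.Chain

set_option autoImplicit false
set_option linter.unusedSectionVars false

open scoped BigOperators ENNReal
open Finset

namespace Pool.Agent.Helper116.Alg

open Pool.Agent.Helper116.Chain

inductive Idx (m g s : ℕ) : Type
  | e
  | b (j : Fin 6)
  | t (j : Fin 7)
  | G (i : Fin g)
  | R (i : Fin g)
  | S (c : Fin 6) (i : Fin s)
  | M (j : Fin m)
  deriving DecidableEq, Fintype

/-- parameters of the algorithm -/
structure Par where
  m : ℕ
  g : ℕ
  s1 : ℕ
  L : ℕ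
  w : ℕ
  enc : ℕ → ℕ → Fin g → Bool
  hm : 0 < m
  hg : 0 < g
  hs : 0 < s1
  enc_inj : ∀ p ≤ m, ∀ l ≤ L, ∀ p' ≤ m, ∀ l' ≤ L, enc p l = enc p' l' → p = p' ∧ l = l'
  enc_wt : ∀ p ≤ m, ∀ l ≤ L, (univ.filter (fun i => enc p l i = true)).card + l = w

abbrev Par.I (P : Par) : Type := Idx P.m P.g (8 * P.s1)
abbrev Par.St (P : Par) : Type := P.I → Bool

/-- number of bits -/
def Par.n (P : Par) : ℕ := Fintype.card P.I

/-- flip the bits in `A` -/
def fl {I : Type} [DecidableEq I] (x : I → Bool) (A : Finset I) : I → Bool :=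
  fun i => if i ∈ A then !(x i) else x i

def wr {I : Type} (z x : I → Bool) (A : Finset I) : ℕ := (A.filter (fun i => x i ≠ z i)).card
def ri {I : Type} (z x : I → Bool) (A : Finset I) : ℕ := (A.filter (fun i => x i = z i)).card

/-- next point -/
def nx {I : Type} [DecidableEq I] (z x : I → Bool) (A : Finset I) : I → Bool :=
  if ri z x A ≤ wr z x A then fl x A else x

/-- uniform distribution on a nonempty finset, mapped -/
noncomputable def uf {A B : Type} (s : Finset A) (hs : s.Nonempty) (f : A → B) : PMF B :=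
  (PMF.uniformOfFinset s hs).map f

lemma E_uf {A B : Type} [Fintype A] [Fintype B] [DecidableEq B] (s : Finset A) (hs : s.Nonempty)
    (f : A → B) (F : B → ℝ) : E (uf s hs f) F = (∑ a ∈ s, F (f a)) / s.card := by
  classical
  rw [uf, E_map, E]
  rw [Finset.sum_div, ← Finset.sum_subset (Finset.subset_univ s)]
  · refine Finset.sum_congr rfl (fun a ha => ?_)
    rw [PMF.uniformOfFinset_apply_of_mem hs ha]
    simp [div_eq_inv_mul]
  · intro a _ ha
    rw [PMF.uniformOfFinset_apply_of_notMem hs ha]
    simp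

variable (P : Par)

def isM {m g s : ℕ} : Idx m g s → Bool
  | .M _ => true
  | _ => false
def isB {m g s : ℕ} : Idx m g s → Bool
  | .b _ => true
  | _ => false
def isE {m g s : ℕ} : Idx m g s → Bool
  | .e => true
  | _ => false

/-- control bits except `e` -/
def ctlE : Finset P.I := univ.filter (fun i => isM i = false ∧ isE i = false)
/-- control bits except the `b` bits -/
def ctlF : Finset P.I := univ.filter (fun i => isM i = false ∧ isB i = false)
def allM : Finset P.I := univ.filter (fun i => isM i = true)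
def noe : Finset P.I := univ.filter (fun i => isE i = false)

lemma Par.n_pos : 0 < P.n := Fintype.card_pos_iff.mpr ⟨Idx.e⟩

lemma ctlE_ne : (ctlE P).Nonempty := ⟨Idx.t 0, Finset.mem_filter.mpr ⟨mem_univ _, rfl, rfl⟩⟩
lemma ctlF_ne : (ctlF P).Nonempty := ⟨Idx.e, Finset.mem_filter.mpr ⟨mem_univ _, rfl, rfl⟩⟩
lemma allM_ne : (allM P).Nonempty := ⟨Idx.M ⟨0, P.hm⟩, Finset.mem_filter.mpr ⟨mem_univ _, rfl⟩⟩
lemma noe_ne : (noe P).Nonempty := ⟨Idx.t 0, Finset.mem_filter.mpr ⟨mem_univ _, rfl⟩⟩

lemma Par.two_le_n : 2 ≤ P.n := by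
  have h : ({Idx.e, Idx.t 0} : Finset P.I).card ≤ P.n := Finset.card_le_univ _
  rwa [Finset.card_pair (by simp)] at h

noncomputable def Par.r4 : NNReal := 1 / (P.n : NNReal) ^ 4
noncomputable def Par.r1 : NNReal := 1 / (P.n : NNReal)

lemma Par.one_le_n : (1 : NNReal) ≤ (P.n : NNReal) := by
  exact_mod_cast P.n_pos

lemma Par.r4_le : P.r4 ≤ 1 := by
  unfold Par.r4
  rw [div_le_one (by have := P.one_le_n; positivity)]
  exact one_le_pow₀ P.one_le_n

lemma Par.r1_le : P.r1 ≤ 1 := by
  unfold Par.r1
  rw [div_le_one (by have := P.one_le_n; positivity)]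
  exact P.one_le_n

lemma half_le : (1 / 2 : NNReal) ≤ 1 := by
  rw [div_le_one (by norm_num)]; norm_num

lemma q_le : (1 / 16 : NNReal) ≤ 1 := by
  rw [div_le_one (by norm_num)]; norm_num

lemma S_ne : (univ : Finset (Fin 6 × Fin (8 * P.s1))).Nonempty :=
  ⟨(0, ⟨0, by have := P.hs; omega⟩), Finset.mem_univ _⟩
lemma Sf_ne : (univ : Finset (Fin 6 → Fin (8 * P.s1))).Nonempty :=
  ⟨fun _ => ⟨0, by have := P.hs; omega⟩, Finset.mem_univ _⟩
lemma six_ne : (univ : Finset (Fin 6)).Nonempty := ⟨0, Finset.mem_univ _⟩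
lemma g_ne : (univ : Finset (Fin P.g)).Nonempty := ⟨⟨0, P.hg⟩, Finset.mem_univ _⟩

/-- flip a designated bit together with a uniformly random `S` bit -/
noncomputable def sop (d : P.I) : PMF (Finset P.I) :=
  uf univ (S_ne P) (fun ci => {d, Idx.S ci.1 ci.2})

/-- switch to the final mode: flip all `b` bits and one random `S` bit per pool -/
noncomputable def finMv : PMF (Finset P.I) :=
  uf univ (Sf_ne P) (fun f => univ.image (fun j : Fin 6 => (Idx.b j : P.I)) ∪
    univ.image (fun c : Fin 6 => (Idx.S c (f c) : P.I)))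

def chg (A B : Fin P.g → Bool) : Finset P.I := (univ.filter (fun i => A i ≠ B i)).image Idx.G

def pat (x : P.St) : Fin P.g → Bool := fun i => xor (x (Idx.G i)) (x (Idx.R i))

noncomputable def mainMv (p l : ℕ) : PMF (Finset P.I) :=
  if hp : p < P.m then
    mix (1 / 16) q_le
      (if l < P.L then PMF.pure (insert (Idx.M ⟨p, hp⟩) (chg P (P.enc p l) (P.enc p (l + 1))))
        else PMF.pure ∅)
      (PMF.pure (insert (Idx.M ⟨p, hp⟩) (chg P (P.enc p l) (P.enc (p + 1) (l - 1)))))
  else finMv P

open Classical in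
/-- normal move, used when `e` is false -/
noncomputable def nrm (x : P.St) : PMF (Finset P.I) :=
  if ∃ j, x (Idx.b j) = true then
    mix P.r1 P.r1_le (uf univ six_ne (fun j => {Idx.b j}))
      (uf (ctlF P) (ctlF_ne P) (fun i => {i}))
  else if h : ∃ j : Fin 7, j.val < 6 ∧ x (Idx.t j) = false then
    mix P.r1 P.r1_le (sop P (Idx.t h.choose))
      (mix (1 / 2) half_le (uf univ (g_ne P) (fun i => {Idx.G i}))
        ((PMF.uniformOfFinset univ (g_ne P)).bind (fun i =>
          if x (Idx.R i) = x (Idx.G i) then PMF.pure ∅ else sop P (Idx.R i))))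
  else if x (Idx.t 6) = false then
    if h : ∃ i, pat P x i ≠ P.enc 0 0 i then sop P (Idx.G h.choose) else sop P (Idx.t 6)
  else if h : ∃ pl : ℕ × ℕ, pl.1 ≤ P.m ∧ pl.2 ≤ P.L ∧ pat P x = P.enc pl.1 pl.2 then
    mainMv P h.choose.1 h.choose.2
  else PMF.pure ∅

open Classical in
/-- distribution of the flip set -/
noncomputable def sig (x : P.St) : PMF (Finset P.I) :=
  if x Idx.e = true then
    mix P.r4 P.r4_le (PMF.pure {Idx.e})
      (mix (1 / 2) half_le (uf (ctlE P) (ctlE_ne P) (fun i => {i}))
        (uf (allM P) (allM_ne P) (fun i => {i})))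
  else
    mix P.r4 P.r4_le (uf (noe P) (noe_ne P) (fun i => {Idx.e, i})) (nrm P x)

/-- transition kernel for target `z` -/
noncomputable def K (z x : P.St) : PMF P.St := (sig P x).map (nx z x)

/-- Hamming distance -/
def d {I : Type} [Fintype I] (z x : I → Bool) : ℕ := (univ.filter (fun i => x i ≠ z i)).card

section flips
variable {I : Type} [DecidableEq I] [Fintype I]

lemma d_fl (z x : I → Bool) (A : Finset I) : d z (fl x A) + wr z x A = d z x + ri z x A := by
  classical
  have h1 : d z (fl x A) = (Aᶜ.filter (fun i => x i ≠ z i)).card + ri z x A := by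
    rw [d, ri, ← Finset.card_union_of_disjoint]
    · congr 1
      ext i
      simp only [mem_union, mem_filter, mem_univ, true_and, mem_compl]
      simp only [fl]
      by_cases hi : i ∈ A
      · simp only [hi, if_true, not_true_eq_false, false_and, false_or, true_and]
        cases x i <;> cases z i <;> simp
      · simp [hi]
    · rw [Finset.disjoint_left]
      intro i hi hi2
      simp only [mem_filter, mem_compl] at hi hi2
      exact hi.1 hi2.1
  have h2 : d z x = (Aᶜ.filter (fun i => x i ≠ z i)).card + wr z x A := by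
    rw [d, wr, ← Finset.card_union_of_disjoint]
    · congr 1
      ext i
      by_cases hi : i ∈ A <;> simp [hi]
    · rw [Finset.disjoint_left]
      intro i hi hi2
      simp only [mem_filter, mem_compl] at hi hi2
      exact hi.1 hi2.1
  omega

lemma d_nx_le (z x : I → Bool) (A : Finset I) : d z (nx z x A) ≤ d z x := by
  unfold nx
  split_ifs with h
  · have := d_fl z x A; omega
  · exact le_refl _

lemma wr_singleton (z x : I → Bool) (i : I) : wr z x {i} = if x i = z i then 0 else 1 := by
  unfold wr
  by_cases h : x i = z i <;> simp [h, Finset.filter_singleton]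

lemma ri_singleton (z x : I → Bool) (i : I) : ri z x {i} = if x i = z i then 1 else 0 := by
  unfold ri
  by_cases h : x i = z i <;> simp [h, Finset.filter_singleton]

lemma nx_singleton (z x : I → Bool) (i : I) :
    nx z x {i} = if x i = z i then x else fl x {i} := by
  unfold nx
  rw [wr_singleton, ri_singleton]
  by_cases h : x i = z i <;> simp [h]

lemma d_eq_zero {z x : I → Bool} : d z x = 0 ↔ x = z := by
  unfold d
  rw [Finset.card_eq_zero, Finset.filter_eq_empty_iff]
  constructor
  · intro h; funext i; simpa using h (Finset.mem_univ i)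
  · intro h i _; simp [h]

lemma nx_empty (z x : I → Bool) : nx z x ∅ = x := by
  unfold nx
  split_ifs
  · funext i; simp [fl]
  · rfl

lemma nx_self (z : I → Bool) (A : Finset I) : nx z z A = z := by
  unfold nx
  split_ifs with h
  · have h1 : wr z z A = 0 := by simp [wr]
    have h2 : ri z z A = A.card := by simp [ri]
    rw [h1, h2] at h
    have : A = ∅ := Finset.card_eq_zero.mp (by omega)
    subst this
    funext i; simp [fl]
  · rfl

end flips

lemma K_z (z : P.St) : K P z z = PMF.pure z := by
  rw [K]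
  have : nx z z = fun _ => z := by funext A; exact nx_self z A
  rw [this]
  exact PMF.map_const _ _

lemma E_K (z x : P.St) (F : P.St → ℝ) : E (K P z x) F = E (sig P x) (fun A => F (nx z x A)) := by
  rw [K, E_map]

end Pool.Agent.Helper116.Alg
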