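import Mathlib
import Pool.Agent.Helper116.Alg

set_option autoImplicit false
set_option linter.unusedSectionVars false

open scoped BigOperators ENNReal
open Finset

namespace Pool.Agent.Helper116.Alg

open Pool.Agent.Helper116.Chain

lemma avg_le {A : Type} (s : Finset A) (hs : s.Nonempty) (F : A → ℝ) (V0 : ℝ)
    (h : ∀ i ∈ s, F i ≤ V0) : (∑ i ∈ s, F i) / s.card ≤ V0 := by
  have hc : (0 : ℝ) < s.card := by exact_mod_cast hs.card_pos
  rw [div_le_iff₀ hc]
  calc ∑ i ∈ s, F i ≤ ∑ _i ∈ s, V0 := Finset.sum_le_sum h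
    _ = V0 * s.card := by rw [Finset.sum_const, nsmul_eq_mul, mul_comm]

lemma avg_drop {A : Type} [DecidableEq A] (s : Finset A) (hs : s.Nonempty) (F : A → ℝ) (V0 δ : ℝ)
    (bad : Finset A) (hb : bad ⊆ s) (h1 : ∀ i ∈ s, F i ≤ V0) (h2 : ∀ i ∈ bad, F i ≤ V0 - δ) :
    (∑ i ∈ s, F i) / s.card ≤ V0 - bad.card * δ / s.card := by
  have hc : (0 : ℝ) < s.card := by exact_mod_cast hs.card_pos
  rw [div_le_iff₀ hc, sub_mul, div_mul_cancel₀ _ hc.ne']
  calc ∑ i ∈ s, F i ≤ ∑ i ∈ s, (V0 - if i ∈ bad then δ else 0) := by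
        apply Finset.sum_le_sum
        intro i hi
        split_ifs with hib
        · exact h2 i hib
        · simpa using h1 i hi
    _ = V0 * s.card - bad.card * δ := by
        rw [Finset.sum_sub_distrib, Finset.sum_const, nsmul_eq_mul, mul_comm, ← Finset.sum_filter,
          Finset.sum_const, nsmul_eq_mul, Finset.filter_mem_eq_inter,
          Finset.inter_eq_right.mpr hb]

variable (P : Par)

noncomputable def Par.N : ℝ := (P.n : ℝ)

lemma Par.N2 : 2 ≤ P.N := by unfold Par.N; exact_mod_cast P.two_le_n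
lemma Par.N0 : 0 < P.N := by have := P.N2; linarith

lemma Par.r4R : (P.r4 : ℝ) = 1 / P.N ^ 4 := by
  unfold Par.r4 Par.N; push_cast; rfl
lemma Par.r1R : (P.r1 : ℝ) = 1 / P.N := by
  unfold Par.r1 Par.N; push_cast; rfl

lemma Par.r4_half : (P.r4 : ℝ) ≤ 1 / 2 := by
  rw [P.r4R]
  have h := P.N2
  have h4 : (2 : ℝ) ≤ P.N ^ 4 := by
    calc (2 : ℝ) ≤ P.N := h
      _ ≤ P.N ^ 4 := by
        apply le_self_pow₀ (by linarith) (by norm_num)
  exact one_div_le_one_div_of_le (by norm_num) h4

lemma card_le_N (s : Finset P.I) : (s.card : ℝ) ≤ P.N := by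
  unfold Par.N Par.n; exact_mod_cast Finset.card_le_univ s

lemma d_le_N (z x : P.St) : (d z x : ℝ) ≤ P.N := card_le_N P _

/-- global potential -/
noncomputable def V0 (z x : P.St) : ℝ := P.N ^ 5 * (d z x + if x Idx.e = true then 0 else 1)

lemma V0_nonneg (z x : P.St) : 0 ≤ V0 P z x := by
  unfold V0
  have := P.N0
  have h1 : (0 : ℝ) ≤ d z x := Nat.cast_nonneg _
  split_ifs <;> positivity

lemma V0_nx_false (z x : P.St) (A : Finset P.I) (hx : x Idx.e = false) :
    V0 P z (nx z x A) ≤ V0 P z x := by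
  unfold V0
  have h0 := P.N0
  apply mul_le_mul_of_nonneg_left _ (by positivity)
  have h1 : (d z (nx z x A) : ℝ) ≤ d z x := by exact_mod_cast d_nx_le z x A
  simp only [hx, Bool.false_eq_true, if_false]
  split_ifs <;> linarith

lemma fl_mem {I : Type} [DecidableEq I] (x : I → Bool) (A : Finset I) (i : I) (h : i ∈ A) :
    fl x A i = !(x i) := by simp [fl, h]
lemma fl_notMem {I : Type} [DecidableEq I] (x : I → Bool) (A : Finset I) (i : I) (h : i ∉ A) :
    fl x A i = x i := by simp [fl, h]

lemma d_fl_single_wrong {I : Type} [DecidableEq I] [Fintype I] (z x : I → Bool) (i : I)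
    (h : x i ≠ z i) : d z (fl x {i}) + 1 = d z x := by
  have := d_fl z x {i}
  rw [wr_singleton, ri_singleton, if_neg h, if_neg h] at this
  simpa using this

lemma V0_single_ne (z x : P.St) (i : P.I) (hi : i ≠ Idx.e) :
    V0 P z (nx z x {i}) ≤ V0 P z x := by
  rw [nx_singleton]
  split_ifs with h
  · exact le_refl _
  · unfold V0
    have h0 := P.N0
    apply mul_le_mul_of_nonneg_left _ (by positivity)
    have h1 := d_fl_single_wrong z x i h
    have h2 : (d z (fl x {i}) : ℝ) + 1 = d z x := by exact_mod_cast h1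
    rw [fl_notMem x {i} Idx.e (by simp [Ne.symm hi])]
    split_ifs <;> linarith

lemma V0_single_wrong (z x : P.St) (i : P.I) (hi : i ≠ Idx.e) (h : x i ≠ z i) :
    V0 P z (nx z x {i}) ≤ V0 P z x - P.N ^ 5 := by
  rw [nx_singleton, if_neg h]
  unfold V0
  have h1 := d_fl_single_wrong z x i h
  have h2 : (d z (fl x {i}) : ℝ) + 1 = d z x := by exact_mod_cast h1
  rw [fl_notMem x {i} Idx.e (by simp [Ne.symm hi]), ← h2]
  apply le_of_eq
  ring

lemma V0_e (z x : P.St) (hx : x Idx.e = true) :
    V0 P z (nx z x {Idx.e}) ≤ V0 P z x := by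
  rw [nx_singleton]
  split_ifs with h
  · exact le_refl _
  · unfold V0
    have h0 := P.N0
    apply mul_le_mul_of_nonneg_left _ (by positivity)
    have h1 := d_fl_single_wrong z x _ h
    have h2 : (d z (fl x {Idx.e}) : ℝ) + 1 = d z x := by exact_mod_cast h1
    rw [fl_mem x {Idx.e} Idx.e (by simp), hx]
    simp
    linarith

lemma not_isM_isE {i : P.I} (hi : i ≠ Idx.e) : i ∈ ctlE P ∨ i ∈ allM P := by
  unfold ctlE allM
  rw [Finset.mem_filter, Finset.mem_filter]
  cases i <;> simp_all [isM, isE]

lemma mem_ctlE_ne {i : P.I} (hi : i ∈ ctlE P) : i ≠ Idx.e := by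
  unfold ctlE at hi
  rw [Finset.mem_filter] at hi
  rintro rfl
  simp [isE] at hi

lemma mem_allM_ne {i : P.I} (hi : i ∈ allM P) : i ≠ Idx.e := by
  unfold allM at hi
  rw [Finset.mem_filter] at hi
  rintro rfl
  simp [isM] at hi

lemma mem_noe {i : P.I} : i ∈ noe P ↔ i ≠ Idx.e := by
  unfold noe
  rw [Finset.mem_filter]
  cases i <;> simp [isE]

/-- accepted rare move -/
lemma rare_e (z x : P.St) (hx : x Idx.e = false) (i : P.I) (hi : i ≠ Idx.e)
    (h : x Idx.e ≠ z Idx.e ∨ x i ≠ z i) :
    nx z x {Idx.e, i} = fl x {Idx.e, i} := by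
  have hne : (Idx.e : P.I) ≠ i := Ne.symm hi
  unfold nx
  rw [if_pos]
  unfold ri wr
  rw [Finset.filter_insert, Finset.filter_insert, Finset.filter_singleton, Finset.filter_singleton]
  by_cases h1 : x Idx.e = z Idx.e <;> by_cases h2 : x i = z i <;> simp_all

lemma E_sig_true (x : P.St) (hx : x Idx.e = true) (F : Finset P.I → ℝ) :
    E (sig P x) F = P.r4 * F {Idx.e} + (1 - P.r4) *
      (1 / 2 * ((∑ i ∈ ctlE P, F {i}) / (ctlE P).card) +
        1 / 2 * ((∑ i ∈ allM P, F {i}) / (allM P).card)) := by
  unfold sig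
  rw [if_pos hx, E_mix, E_mix, E_pure, E_uf, E_uf]
  norm_num

lemma E_sig_false (x : P.St) (hx : x Idx.e = false) (F : Finset P.I → ℝ) :
    E (sig P x) F = P.r4 * ((∑ i ∈ noe P, F {Idx.e, i}) / (noe P).card)
      + (1 - P.r4) * E (nrm P x) F := by
  unfold sig
  rw [if_neg (by simp [hx]), E_mix, E_uf]

/-- drift of the global potential -/
lemma V0_drift (z x : P.St) (hxz : x ≠ z) :
    1 + E (K P z x) (fun y => if y = z then 0 else V0 P z y) ≤ V0 P z x := by
  classical
  rw [E_K]
  have hN := P.N2
  have hN0 := P.N0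
  have hr := P.r4_half
  have hr0 : (0 : ℝ) ≤ P.r4 := NNReal.coe_nonneg _
  have hrR := P.r4R
  have hW : ∀ y, (if y = z then 0 else V0 P z y) ≤ V0 P z y := by
    intro y; split_ifs
    · exact V0_nonneg P z y
    · exact le_refl _
  have h5 : 0 < P.N ^ 5 := by positivity
  by_cases hx : x Idx.e = true
  · rw [E_sig_true P x hx]
    beta_reduce
    set F : Finset P.I → ℝ := fun A => if nx z x A = z then 0 else V0 P z (nx z x A) with hF
    have hFle : ∀ i ∈ ctlE P, F {i} ≤ V0 P z x := fun i hi =>
      (hW _).trans (V0_single_ne P z x i (mem_ctlE_ne P hi))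
    have hFle2 : ∀ i ∈ allM P, F {i} ≤ V0 P z x := fun i hi =>
      (hW _).trans (V0_single_ne P z x i (mem_allM_ne P hi))
    have hFe : F {Idx.e} ≤ V0 P z x := (hW _).trans (V0_e P z x hx)
    have ha := avg_le (ctlE P) (ctlE_ne P) (fun i => F {i}) _ hFle
    have hb := avg_le (allM P) (allM_ne P) (fun i => F {i}) _ hFle2
    by_cases hw : ∃ i, i ≠ Idx.e ∧ x i ≠ z i
    · obtain ⟨i, hi, hiw⟩ := hw
      have hbound : ∀ s : Finset P.I, s.Nonempty → 4 ≤ 1 * P.N ^ 5 / s.card := by
        intro s hs
        have hc : (0 : ℝ) < s.card := by exact_mod_cast hs.card_pos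
        rw [le_div_iff₀ hc, one_mul]
        have := card_le_N P s
        calc 4 * (s.card : ℝ) ≤ 4 * P.N := by linarith
          _ ≤ P.N ^ 4 * P.N := by
            apply mul_le_mul_of_nonneg_right _ hN0.le
            calc (4 : ℝ) ≤ 2 ^ 4 := by norm_num
              _ ≤ P.N ^ 4 := pow_le_pow_left₀ (by norm_num) hN 4
          _ = P.N ^ 5 := by ring
      rcases not_isM_isE P hi with hc | hc
      · have := avg_drop (ctlE P) (ctlE_ne P) (fun i => F {i}) _ (P.N ^ 5) {i}
          (by simpa using hc) hFle (by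
            intro j hj
            rw [Finset.mem_singleton] at hj
            subst hj
            exact (hW _).trans (V0_single_wrong P z x j hi hiw))
        rw [Finset.card_singleton] at this
        have h4 := hbound _ (ctlE_ne P)
        push_cast at this
        nlinarith [this, h4, ha, hb, hFe]
      · have := avg_drop (allM P) (allM_ne P) (fun i => F {i}) _ (P.N ^ 5) {i}
          (by simpa using hc) hFle2 (by
            intro j hj
            rw [Finset.mem_singleton] at hj
            subst hj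
            exact (hW _).trans (V0_single_wrong P z x j hi hiw))
        rw [Finset.card_singleton] at this
        have h4 := hbound _ (allM_ne P)
        push_cast at this
        nlinarith [this, h4, ha, hb, hFe]
    · push Not at hw
      have he : x Idx.e ≠ z Idx.e := by
        intro h
        apply hxz
        funext i
        by_cases hi : i = Idx.e
        · rw [hi, h]
        · exact hw i hi
      have hz : nx z x {Idx.e} = z := by
        rw [nx_singleton, if_neg he]
        funext i
        by_cases hi : i = Idx.e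
        · subst hi
          rw [fl_mem _ _ _ (by simp)]
          revert he; cases x Idx.e <;> cases z Idx.e <;> simp
        · rw [fl_notMem _ _ _ (by simpa using hi)]; exact hw i hi
      have hFe0 : (if nx z x {Idx.e} = z then (0 : ℝ) else V0 P z (nx z x {Idx.e})) = 0 := by
        simp [hz]
      rw [hFe0]
      have hVx : P.N ^ 5 ≤ V0 P z x := by
        unfold V0
        have hd : (1 : ℝ) ≤ d z x := by
          have : d z x ≠ 0 := fun h => hxz (d_eq_zero.mp h)
          exact_mod_cast Nat.one_le_iff_ne_zero.mpr this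
        have : (0 : ℝ) ≤ if x Idx.e = true then 0 else 1 := by split_ifs <;> norm_num
        nlinarith
      have h6 : (P.r4 : ℝ) * V0 P z x ≥ 1 := by
        rw [hrR]
        calc 1 / P.N ^ 4 * V0 P z x ≥ 1 / P.N ^ 4 * P.N ^ 5 := by
              apply mul_le_mul_of_nonneg_left hVx (by positivity)
          _ = P.N := by field_simp
          _ ≥ 1 := by linarith
      nlinarith [ha, hb]
  · have hx' : x Idx.e = false := by simpa using hx
    rw [E_sig_false P x hx']
    beta_reduce
    set F : Finset P.I → ℝ := fun A => if nx z x A = z then 0 else V0 P z (nx z x A) with hF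
    have hFle : ∀ A, F A ≤ V0 P z x := fun A => (hW _).trans (V0_nx_false P z x A hx')
    have hnrm : E (nrm P x) F ≤ V0 P z x := by
      calc E (nrm P x) F ≤ E (nrm P x) (fun _ => V0 P z x) := E_mono _ hFle
        _ = V0 P z x := E_const _ _
    -- existence of a good rare move
    have hex : ∃ i, i ≠ Idx.e ∧ (x Idx.e ≠ z Idx.e ∨ x i ≠ z i) := by
      by_cases he : x Idx.e = z Idx.e
      · by_contra hcon
        push Not at hcon
        apply hxz
        funext i
        by_cases hi : i = Idx.e
        · rw [hi, he]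
        · exact (hcon i hi).2
      · exact ⟨Idx.t 0, by simp, Or.inl he⟩
    obtain ⟨i, hi, hgood⟩ := hex
    have hdrop : F {Idx.e, i} ≤ V0 P z x - P.N ^ 5 := by
      refine (hW _).trans ?_
      have h1 := rare_e P z x hx' i hi hgood
      have h2 : (d z (nx z x {Idx.e, i}) : ℝ) ≤ d z x := by exact_mod_cast d_nx_le z x _
      have h3 : nx z x {Idx.e, i} Idx.e = true := by
        rw [h1, fl_mem _ _ _ (by simp), hx']; rfl
      unfold V0
      rw [h3, hx']
      simp only [if_true, Bool.false_eq_true, if_false]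
      nlinarith
    have := avg_drop (noe P) (noe_ne P) (fun i => F {Idx.e, i}) _ (P.N ^ 5) {i}
      (by simpa using (mem_noe P).mpr hi) (fun j _ => hFle _) (by
        intro j hj
        rw [Finset.mem_singleton] at hj
        subst hj
        exact hdrop)
    rw [Finset.card_singleton] at this
    push_cast at this
    have h7 : P.N ^ 4 ≤ 1 * P.N ^ 5 / (noe P).card := by
      have hc : (0 : ℝ) < (noe P).card := by exact_mod_cast (noe_ne P).card_pos
      rw [le_div_iff₀ hc, one_mul]
      have := card_le_N P (noe P)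
      calc P.N ^ 4 * ((noe P).card : ℝ) ≤ P.N ^ 4 * P.N :=
            mul_le_mul_of_nonneg_left this (by positivity)
        _ = P.N ^ 5 := by ring
    have h8 : (P.r4 : ℝ) * P.N ^ 4 = 1 := by
      rw [hrR]; field_simp
    have h9 : (P.r4 : ℝ) * ((∑ i ∈ noe P, F {Idx.e, i}) / (noe P).card)
        ≤ P.r4 * (V0 P z x - P.N ^ 4) := by
      apply mul_le_mul_of_nonneg_left _ hr0
      linarith
    nlinarith [h9, hnrm]

/-- total bound -/
noncomputable def TA : ℝ := 2 * P.N ^ 6

theorem t_all (z x : P.St) : (∀ y, H (K P z) z y ≠ ⊤) ∧ t (K P z) z x ≤ TA P := by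
  have h := t_le (K P z) z (K_z P z) (V0 P z) (V0_nonneg P z) (fun x hx => V0_drift P z x hx)
  refine ⟨h.1, (h.2 x).trans ?_⟩
  unfold V0 TA
  have hd := d_le_N P z x
  have hN := P.N2
  have h1 : (if x Idx.e = true then (0 : ℝ) else 1) ≤ 1 := by split_ifs <;> norm_num
  calc P.N ^ 5 * (d z x + if x Idx.e = true then 0 else 1) ≤ P.N ^ 5 * (P.N + P.N) := by
        apply mul_le_mul_of_nonneg_left _ (by have := P.N0; positivity)
        linarith
    _ = 2 * P.N ^ 6 := by ring

end Pool.Agent.Helper116.Alg
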