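import Mathlib
import Pool.Agent.Helper116.B0

set_option autoImplicit false
set_option linter.unusedSectionVars false

open scoped BigOperators ENNReal
open Finset

namespace Pool.Agent.Helper116.Alg

open Pool.Agent.Helper116.Chain

variable (P : Par)

/-- expected hitting time of `z` -/
noncomputable def tt (z x : P.St) : ℝ := t (K P z) z x

lemma tt_nonneg (z x : P.St) : 0 ≤ tt P z x := t_nonneg _ _ _

lemma tt_le (z x : P.St) : tt P z x ≤ TA P := (t_all P z x).2

lemma tt_z (z : P.St) : tt P z z = 0 := t_z _ _ (K_z P z)

lemma tt_step (z x : P.St) (hx : x ≠ z) :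
    tt P z x = 1 + E (sig P x) (fun A => tt P z (nx z x A)) := by
  rw [tt, t_step (K P z) z (t_all P z x).1 x hx, E_K]
  rfl

lemma tt_step_le (z x : P.St) :
    tt P z x ≤ 1 + E (K P z x) (tt P z) := by
  by_cases hx : x = z
  · subst hx
    rw [tt_z]
    have : 0 ≤ E (K P x x) (tt P x) := by
      calc (0 : ℝ) = E (K P x x) (fun _ => 0) := (E_const _ _).symm
        _ ≤ _ := E_mono _ (fun a => tt_nonneg P x a)
    linarith
  · rw [tt_step P z x hx, E_K]

lemma TA_pos : 0 < TA P := by unfold TA; have := P.N0; positivity

lemma r4TA : (P.r4 : ℝ) * TA P = 2 * P.N ^ 2 := by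
  rw [P.r4R, TA]
  have := P.N0
  field_simp

/-- helper: emergency-mode averages with one guaranteed drop -/
lemma emerg_drop (z x : P.St) (V : P.St → ℝ) (δ : ℝ) (i : P.I)
    (hi : i ≠ Idx.e) (hle : ∀ j, j ≠ Idx.e → V (nx z x {j}) ≤ V x)
    (hdrop : V (nx z x {i}) ≤ V x - P.N * δ) (hδ : 0 ≤ δ) :
    (1 / 2 * ((∑ i ∈ ctlE P, V (nx z x {i})) / (ctlE P).card) +
      1 / 2 * ((∑ i ∈ allM P, V (nx z x {i})) / (allM P).card)) ≤ V x - 1 / 2 * δ := by
  have h1 := avg_le (ctlE P) (ctlE_ne P) (fun i => V (nx z x {i})) (V x)
    (fun j hj => hle j (mem_ctlE_ne P hj))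
  have h2 := avg_le (allM P) (allM_ne P) (fun i => V (nx z x {i})) (V x)
    (fun j hj => hle j (mem_allM_ne P hj))
  have hb : ∀ s : Finset P.I, s.Nonempty → δ ≤ 1 * (P.N * δ) / s.card := by
    intro s hs
    have hc : (0 : ℝ) < s.card := by exact_mod_cast hs.card_pos
    rw [le_div_iff₀ hc, one_mul, mul_comm]
    exact mul_le_mul_of_nonneg_right (card_le_N P s) hδ
  rcases not_isM_isE P hi with hc | hc
  · have h3 := avg_drop (ctlE P) (ctlE_ne P) (fun i => V (nx z x {i})) (V x) (P.N * δ) {i}
      (by simpa using hc) (fun j hj => hle j (mem_ctlE_ne P hj)) (by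
        intro j hj
        rw [Finset.mem_singleton] at hj
        subst hj
        exact hdrop)
    rw [Finset.card_singleton] at h3
    push_cast at h3
    have := hb _ (ctlE_ne P)
    linarith
  · have h3 := avg_drop (allM P) (allM_ne P) (fun i => V (nx z x {i})) (V x) (P.N * δ) {i}
      (by simpa using hc) (fun j hj => hle j (mem_allM_ne P hj)) (by
        intro j hj
        rw [Finset.mem_singleton] at hj
        subst hj
        exact hdrop)
    rw [Finset.card_singleton] at h3
    push_cast at h3
    have := hb _ (allM_ne P)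
    linarith

lemma nx_single_e (z x : P.St) (j : P.I) (hj : j ≠ Idx.e) : nx z x {j} Idx.e = x Idx.e := by
  rw [nx_singleton]
  split_ifs
  · rfl
  · rw [fl_notMem _ _ _ (by simpa using Ne.symm hj)]

lemma d_nx_single_wrong (z x : P.St) (i : P.I) (h : x i ≠ z i) :
    (d z (nx z x {i}) : ℝ) = d z x - 1 := by
  rw [nx_singleton, if_neg h]
  have := d_fl_single_wrong z x i h
  have h2 : (d z (fl x {i}) : ℝ) + 1 = d z x := by exact_mod_cast this
  linarith

/-- emergency mode -/
theorem tt_emerg (z x : P.St) (hx : x Idx.e = true) : tt P z x ≤ 26 * P.N ^ 4 := by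
  classical
  have hN := P.N2
  have hN0 := P.N0
  have hr := P.r4_half
  have hr0 : (0 : ℝ) ≤ P.r4 := NNReal.coe_nonneg _
  have hrTA := r4TA P
  by_cases hz : z Idx.e = true
  · -- `e` is right
    set V : P.St → ℝ := fun y => if y Idx.e = true then 8 * P.N * d z y else tt P z y with hV
    have hmain := max_principle (X := P.St) (fun y => y Idx.e = true ∧ y ≠ z) (K P z)
      (tt P z) V 1 2 (by norm_num) (fun y _ => tt_step_le P z y)
      (by
        rintro y ⟨hy, hyz⟩
        rw [E_K, E_sig_true P y hy]
        beta_reduce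
        have hVy : V y = 8 * P.N * d z y := by simp [hV, hy]
        have hVnx : ∀ j, j ≠ Idx.e → V (nx z y {j}) = 8 * P.N * d z (nx z y {j}) := by
          intro j hj
          simp only [hV]
          rw [nx_single_e P z y j hj, hy]; simp
        have hle : ∀ j, j ≠ Idx.e → V (nx z y {j}) ≤ V y := by
          intro j hj
          rw [hVnx j hj, hVy]
          have : (d z (nx z y {j}) : ℝ) ≤ d z y := by exact_mod_cast d_nx_le z y _
          apply mul_le_mul_of_nonneg_left this (by positivity)
        have hne : ∃ i, y i ≠ z i := by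
          by_contra hcon
          push Not at hcon
          exact hyz (funext hcon)
        obtain ⟨i, hi⟩ := hne
        have hie : i ≠ Idx.e := by
          rintro rfl
          exact hi (by rw [hy, hz])
        have h8 := emerg_drop P z y V 8 i hie hle (by
          rw [hVnx i hie, hVy, d_nx_single_wrong P z y i hi]; linarith) (by norm_num)
        have he : nx z y {Idx.e} = y := by
          rw [nx_singleton, if_pos (by rw [hy, hz])]
        rw [he]
        nlinarith [h8])
      (by
        intro y hy
        simp only [hV]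
        split_ifs with h
        · have : y = z := by
            by_contra hne; exact hy ⟨h, hne⟩
          subst this
          rw [tt_z]
          have : (0 : ℝ) ≤ d y y := Nat.cast_nonneg _
          positivity
        · exact le_refl _) x
    refine hmain.trans ?_
    simp only [hV, hx, if_true]
    have hd := d_le_N P z x
    have hd0 : (0 : ℝ) ≤ d z x := Nat.cast_nonneg _
    have h4 : P.N ^ 2 ≤ P.N ^ 4 := pow_le_pow_right₀ (by linarith) (by norm_num)
    nlinarith
  · have hz' : z Idx.e = false := by simpa using hz
    set a : ℝ := 8 * P.N * (1 + 2 * P.N ^ 2) with ha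
    have ha0 : 0 < a := by positivity
    set V : P.St → ℝ := fun y => if y Idx.e = true then a * (d z y - 1) + 2 * P.N ^ 4
      else tt P z y with hV
    have hmain := max_principle (X := P.St) (fun y => y Idx.e = true) (K P z)
      (tt P z) V 1 2 (by norm_num) (fun y _ => tt_step_le P z y)
      (by
        intro y hy
        rw [E_K, E_sig_true P y hy]
        beta_reduce
        have hVy : V y = a * (d z y - 1) + 2 * P.N ^ 4 := by simp [hV, hy]
        have hye : y Idx.e ≠ z Idx.e := by rw [hy, hz']; simp
        have hd1 : (1 : ℝ) ≤ d z y := by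
          have : d z y ≠ 0 := fun h => hye (by rw [d_eq_zero.mp h])
          exact_mod_cast Nat.one_le_iff_ne_zero.mpr this
        have hVnn : 0 ≤ V y := by
          rw [hVy]
          have : 0 ≤ a * ((d z y : ℝ) - 1) := mul_nonneg ha0.le (by linarith)
          positivity
        have hVnx : ∀ j, j ≠ Idx.e → V (nx z y {j}) = a * (d z (nx z y {j}) - 1) + 2 * P.N ^ 4 := by
          intro j hj
          simp only [hV]
          rw [nx_single_e P z y j hj, hy]; simp
        have hle : ∀ j, j ≠ Idx.e → V (nx z y {j}) ≤ V y := by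
          intro j hj
          rw [hVnx j hj, hVy]
          have : (d z (nx z y {j}) : ℝ) ≤ d z y := by exact_mod_cast d_nx_le z y _
          have := mul_le_mul_of_nonneg_left this ha0.le
          linarith
        have hnxe : nx z y {Idx.e} Idx.e = false := by
          rw [nx_singleton, if_neg hye, fl_mem _ _ _ (by simp), hy]; rfl
        have hVe : V (nx z y {Idx.e}) = tt P z (nx z y {Idx.e}) := by
          simp only [hV]
          rw [hnxe]; simp
        by_cases hw : ∃ i, i ≠ Idx.e ∧ y i ≠ z i
        · obtain ⟨i, hie, hi⟩ := hw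
          have h8 := emerg_drop P z y V (8 * (1 + 2 * P.N ^ 2)) i hie hle (by
            rw [hVnx i hie, hVy, d_nx_single_wrong P z y i hi]
            rw [ha]; linarith) (by positivity)
          have hT := tt_le P z (nx z y {Idx.e})
          rw [hVe]
          have h9 : (P.r4 : ℝ) * tt P z (nx z y {Idx.e}) ≤ 2 * P.N ^ 2 := by
            rw [← hrTA]; exact mul_le_mul_of_nonneg_left hT hr0
          have h10 : (1 - (P.r4 : ℝ)) * (1 / 2 * ((∑ i ∈ ctlE P, V (nx z y {i})) / (ctlE P).card) +
              1 / 2 * ((∑ i ∈ allM P, V (nx z y {i})) / (allM P).card))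
              ≤ (1 - (P.r4 : ℝ)) * (V y - 1 / 2 * (8 * (1 + 2 * P.N ^ 2))) :=
            mul_le_mul_of_nonneg_left h8 (by linarith)
          have h11 : (1 - (P.r4 : ℝ)) * V y ≤ V y := by nlinarith
          have h12 : 1 / 2 * (1 / 2 * (8 * (1 + 2 * P.N ^ 2))) ≤
              (1 - (P.r4 : ℝ)) * (1 / 2 * (8 * (1 + 2 * P.N ^ 2))) :=
            mul_le_mul_of_nonneg_right (by linarith) (by positivity)
          nlinarith
        · push Not at hw
          have hnz : nx z y {Idx.e} = z := by
            rw [nx_singleton, if_neg hye]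
            funext i
            by_cases hi : i = Idx.e
            · subst hi
              rw [fl_mem _ _ _ (by simp), hy, hz']; rfl
            · rw [fl_notMem _ _ _ (by simpa using hi)]; exact hw i hi
          have hVe0 : V (nx z y {Idx.e}) = 0 := by rw [hVe, hnz, tt_z]
          rw [hVe0]
          have h1 := avg_le (ctlE P) (ctlE_ne P) (fun i => V (nx z y {i})) (V y)
            (fun j hj => hle j (mem_ctlE_ne P hj))
          have h2 := avg_le (allM P) (allM_ne P) (fun i => V (nx z y {i})) (V y)
            (fun j hj => hle j (mem_allM_ne P hj))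
          have h3 : (1 - (P.r4 : ℝ)) * (1 / 2 * ((∑ i ∈ ctlE P, V (nx z y {i})) / (ctlE P).card) +
              1 / 2 * ((∑ i ∈ allM P, V (nx z y {i})) / (allM P).card))
              ≤ (1 - (P.r4 : ℝ)) * V y :=
            mul_le_mul_of_nonneg_left (by linarith) (by linarith)
          have h4 : 2 ≤ (P.r4 : ℝ) * V y := by
            have : 2 * P.N ^ 4 ≤ V y := by
              rw [hVy]
              have : 0 ≤ a * ((d z y : ℝ) - 1) := mul_nonneg ha0.le (by linarith)
              linarith
            have h5 := mul_le_mul_of_nonneg_left this hr0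
            have h6 : (P.r4 : ℝ) * (2 * P.N ^ 4) = 2 := by
              rw [P.r4R]; field_simp
            linarith
          nlinarith)
      (by
        intro y hy
        simp only [hV]
        rw [if_neg hy]) x
    refine hmain.trans ?_
    simp only [hV, hx, if_true]
    have hd := d_le_N P z x
    have h4 : P.N ^ 2 ≤ P.N ^ 4 := pow_le_pow_right₀ (by linarith) (by norm_num)
    have h5 : a * ((d z x : ℝ) - 1) ≤ a * P.N := mul_le_mul_of_nonneg_left (by linarith) ha0.le
    have h6 : a * P.N = 8 * P.N ^ 2 + 16 * P.N ^ 4 := by rw [ha]; ring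
    nlinarith

/-- emergency mode with `e` right and all `M` bits right -/
theorem tt_emerg_good (z x : P.St) (hx : x Idx.e = true) (hz : z Idx.e = true)
    (hM : ∀ j, x (Idx.M j) = z (Idx.M j)) : tt P z x ≤ 8 * (ctlE P).card * d z x := by
  classical
  have hr := P.r4_half
  have hr0 : (0 : ℝ) ≤ P.r4 := NNReal.coe_nonneg _
  have hk : (0 : ℝ) < (ctlE P).card := by exact_mod_cast (ctlE_ne P).card_pos
  set k : ℝ := ((ctlE P).card : ℝ) with hkdef
  set Q : P.St → Prop := fun y => y Idx.e = true ∧ ∀ j, y (Idx.M j) = z (Idx.M j) with hQ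
  set V : P.St → ℝ := fun y => if Q y then 8 * k * d z y else tt P z y with hV
  have hmain := max_principle (X := P.St) (fun y => Q y ∧ y ≠ z) (K P z)
    (tt P z) V 1 2 (by norm_num) (fun y _ => tt_step_le P z y)
    (by
      rintro y ⟨⟨hy, hyM⟩, hyz⟩
      have hQy : Q y := ⟨hy, hyM⟩
      rw [E_K, E_sig_true P y hy]
      beta_reduce
      have hVy : V y = 8 * k * d z y := by simp only [hV]; rw [if_pos hQy]
      have hnxM : ∀ j, ∀ i, nx z y {i} (Idx.M j) = z (Idx.M j) := by
        intro j i
        rw [nx_singleton]
        split_ifs with h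
        · exact hyM j
        · by_cases hij : i = Idx.M j
          · subst hij; exact absurd (hyM j) h
          · rw [fl_notMem _ _ _ (by simpa using Ne.symm hij)]; exact hyM j
      have hVnx : ∀ j, j ≠ Idx.e → V (nx z y {j}) = 8 * k * d z (nx z y {j}) := by
        intro j hj
        have : Q (nx z y {j}) := ⟨by rw [nx_single_e P z y j hj, hy], fun l => hnxM l j⟩
        simp only [hV]
        rw [if_pos this]
      have hle : ∀ j, j ≠ Idx.e → V (nx z y {j}) ≤ V y := by
        intro j hj
        rw [hVnx j hj, hVy]
        have : (d z (nx z y {j}) : ℝ) ≤ d z y := by exact_mod_cast d_nx_le z y _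
        apply mul_le_mul_of_nonneg_left this (by positivity)
      have hne : ∃ i, y i ≠ z i := by
        by_contra hcon
        push Not at hcon
        exact hyz (funext hcon)
      obtain ⟨i, hi⟩ := hne
      have hie : i ≠ Idx.e := by
        rintro rfl
        exact hi (by rw [hy, hz])
      have hic : i ∈ ctlE P := by
        rcases not_isM_isE P hie with h | h
        · exact h
        · exfalso
          unfold allM at h
          rw [Finset.mem_filter] at h
          cases i <;> simp [isM] at h
          exact hi (hyM _)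
      have h3 := avg_drop (ctlE P) (ctlE_ne P) (fun i => V (nx z y {i})) (V y) (8 * k) {i}
        (by simpa using hic) (fun j hj => hle j (mem_ctlE_ne P hj)) (by
          intro j hj
          rw [Finset.mem_singleton] at hj
          subst hj
          rw [hVnx j hie, hVy, d_nx_single_wrong P z y j hi]; linarith)
      have h2 := avg_le (allM P) (allM_ne P) (fun i => V (nx z y {i})) (V y)
        (fun j hj => hle j (mem_allM_ne P hj))
      rw [Finset.card_singleton] at h3
      push_cast at h3
      rw [← hkdef] at h3 ⊢
      have h4 : 1 * (8 * k) / k = 8 := by field_simp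
      rw [h4] at h3
      have he : nx z y {Idx.e} = y := by
        rw [nx_singleton, if_pos (by rw [hy, hz])]
      rw [he]
      nlinarith [h3, h2])
    (by
      intro y hy
      simp only [hV]
      split_ifs with h
      · have : y = z := by
          by_contra hne; exact hy ⟨h, hne⟩
        subst this
        rw [tt_z]
        have : (0 : ℝ) ≤ d y y := Nat.cast_nonneg _
        positivity
      · exact le_refl _) x
  refine hmain.trans ?_
  simp only [hV]
  rw [if_pos ⟨hx, hM⟩]

/-- the normal step inequality -/
theorem tt_normal (z x : P.St) (hx : x Idx.e = false) :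
    tt P z x ≤ 54 + E (nrm P x) (fun A => tt P z (nx z x A)) := by
  have hN := P.N2
  have hN0 := P.N0
  have hr := P.r4_half
  have hr0 : (0 : ℝ) ≤ P.r4 := NNReal.coe_nonneg _
  have hEn : 0 ≤ E (nrm P x) (fun A => tt P z (nx z x A)) := by
    calc (0 : ℝ) = E (nrm P x) (fun _ => 0) := (E_const _ _).symm
      _ ≤ _ := E_mono _ (fun a => tt_nonneg P z _)
  by_cases hxz : x = z
  · subst hxz
    rw [tt_z]; linarith
  · have h := tt_step P z x hxz
    rw [E_sig_false P x hx] at h
    have h1 : (∑ i ∈ noe P, tt P z (nx z x {Idx.e, i})) / (noe P).card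
        ≤ 26 * P.N ^ 4 + tt P z x := by
      apply avg_le _ (noe_ne P) (fun i => tt P z (nx z x {Idx.e, i}))
      intro i hi
      have hie := (mem_noe P).mp hi
      by_cases hacc : ri z x {Idx.e, i} ≤ wr z x {Idx.e, i}
      · have h2 : nx z x {Idx.e, i} = fl x {Idx.e, i} := by unfold nx; rw [if_pos hacc]
        have h3 : nx z x {Idx.e, i} Idx.e = true := by
          rw [h2, fl_mem _ _ _ (by simp), hx]; rfl
        have := tt_emerg P z _ h3
        have := tt_nonneg P z x
        linarith
      · have h2 : nx z x {Idx.e, i} = x := by unfold nx; rw [if_neg hacc]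
        rw [h2]
        have : 0 ≤ 26 * P.N ^ 4 := by positivity
        linarith
    have h2 : (P.r4 : ℝ) * ((∑ i ∈ noe P, tt P z (nx z x {Idx.e, i})) / (noe P).card)
        ≤ P.r4 * (26 * P.N ^ 4 + tt P z x) := mul_le_mul_of_nonneg_left h1 hr0
    have h3 : (P.r4 : ℝ) * (26 * P.N ^ 4) = 26 := by rw [P.r4R]; field_simp
    have h4 : (1 - (P.r4 : ℝ)) * tt P z x ≤ 27 + (1 - P.r4) *
        E (nrm P x) (fun A => tt P z (nx z x A)) := by nlinarith
    have h5 : (1 - (P.r4 : ℝ)) * (tt P z x - E (nrm P x) (fun A => tt P z (nx z x A))) ≤ 27 := by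
      nlinarith
    by_contra hcon
    push Not at hcon
    have h6 : 54 < tt P z x - E (nrm P x) (fun A => tt P z (nx z x A)) := by linarith
    nlinarith

end Pool.Agent.Helper116.Alg
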