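import Mathlib
import Pool.Agent.Helper116.B1

set_option autoImplicit false
set_option linter.unusedSectionVars false

open scoped BigOperators ENNReal
open Finset

namespace Pool.Agent.Helper116.Alg

open Pool.Agent.Helper116.Chain

section cnts
variable {I : Type} [DecidableEq I]

lemma wr_fl_mem (z x : I → Bool) (A : Finset I) (i : I) (hi : i ∈ A) (h : x i ≠ z i) :
    wr z (fl x {i}) A + 1 = wr z x A := by
  classical
  unfold wr
  have h1 : A.filter (fun j => fl x {i} j ≠ z j) = (A.filter (fun j => x j ≠ z j)).erase i := by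
    ext j
    simp only [mem_filter, mem_erase]
    by_cases hj : j = i
    · subst hj
      rw [fl_mem _ _ _ (by simp)]
      have : (!(x j)) = z j := by revert h; cases x j <;> cases z j <;> simp
      simp [this]
    · rw [fl_notMem _ _ _ (by simpa using hj)]
      simp [hj]
  rw [h1, Finset.card_erase_add_one]
  simp [hi, h]

lemma wr_fl_mem' (z x : I → Bool) (A : Finset I) (i : I) (hi : i ∈ A) (h : x i = z i) :
    wr z (fl x {i}) A = wr z x A + 1 := by
  have h2 := wr_fl_mem z (fl x {i}) A i hi (by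
    rw [fl_mem _ _ _ (by simp), h]; simp)
  have h3 : fl (fl x {i}) {i} = x := by
    funext j
    by_cases hj : j = i
    · subst hj; simp [fl]
    · simp [fl, hj]
  rw [h3] at h2
  exact h2.symm

lemma wr_fl_notMem (z x : I → Bool) (A : Finset I) (i : I) (hi : i ∉ A) :
    wr z (fl x {i}) A = wr z x A := by
  unfold wr
  congr 1
  apply Finset.filter_congr
  intro j hj
  rw [fl_notMem _ _ _ (by rintro h; rw [mem_singleton] at h; subst h; exact hi hj)]

/-- number of wrong bits among the `f j` -/
def cnt {J : Type} [Fintype J] (f : J → I) (z x : I → Bool) : ℕ :=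
  (univ.filter (fun j => x (f j) ≠ z (f j))).card

lemma cnt_eq {J : Type} [Fintype J] (f : J → I) (z x : I → Bool) :
    cnt f z x = wr (fun j => z (f j)) (fun j => x (f j)) univ := rfl

lemma fl_comp {J : Type} [Fintype J] [DecidableEq J] (f : J → I) (hf : Function.Injective f)
    (x : I → Bool) (j : J) : (fun j' => fl x {f j} (f j')) = fl (fun j' => x (f j')) {j} := by
  funext j'
  simp [fl, hf.eq_iff]

lemma cnt_wrong {J : Type} [Fintype J] [DecidableEq J] (f : J → I) (hf : Function.Injective f)
    (z x : I → Bool) (j : J) (h : x (f j) ≠ z (f j)) : cnt f z (fl x {f j}) + 1 = cnt f z x := by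
  rw [cnt_eq, cnt_eq, fl_comp f hf]
  exact wr_fl_mem _ _ _ j (mem_univ _) h

lemma cnt_right {J : Type} [Fintype J] [DecidableEq J] (f : J → I) (hf : Function.Injective f)
    (z x : I → Bool) (j : J) (h : x (f j) = z (f j)) : cnt f z (fl x {f j}) = cnt f z x + 1 := by
  rw [cnt_eq, cnt_eq, fl_comp f hf]
  exact wr_fl_mem' _ _ _ j (mem_univ _) h

lemma cnt_congr {J : Type} [Fintype J] (f : J → I) (z x y : I → Bool)
    (h : ∀ j, x (f j) = y (f j)) : cnt f z x = cnt f z y := by
  unfold cnt
  simp only [h]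

end cnts

variable (P : Par)

lemma inj_b : Function.Injective (fun j : Fin 6 => (Idx.b j : P.I)) := fun _ _ h => by
  injection h

/-- good final states -/
def QF (z y : P.St) : Prop :=
  y Idx.e = false ∧ (∃ j, y (Idx.b j) = true) ∧ (∀ j, y (Idx.M j) = z (Idx.M j)) ∧
    (∀ j, z (Idx.b j) = true → y (Idx.b j) = true)

noncomputable def kF : ℝ := ((ctlF P).card : ℝ)

open Classical in
noncomputable def rho (z : P.St) (v : ℕ) : ℝ :=
  if ∀ j, z (Idx.b j) = false then TA P * (2 * kF P / P.N) ^ v else 0

/-- the potential in the final mode -/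
noncomputable def phiF (z : P.St) (u v : ℕ) : ℝ :=
  P.N + 110 * kF P * u + 330 * P.N * v + rho P z v * u

def uF (z y : P.St) : ℕ := wr z y (ctlF P)
def vF (z y : P.St) : ℕ := cnt (fun j : Fin 6 => (Idx.b j : P.I)) z y

lemma kF_pos : 0 < kF P := by
  unfold kF; exact_mod_cast (ctlF_ne P).card_pos

lemma rho_nonneg (z : P.St) (v : ℕ) : 0 ≤ rho P z v := by
  unfold rho
  have := TA_pos P
  have := kF_pos P
  have := P.N0
  split_ifs
  · positivity
  · exact le_refl _

lemma rho_succ (z : P.St) (v : ℕ) : rho P z (v + 1) = 2 * kF P / P.N * rho P z v := by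
  unfold rho
  split_ifs
  · ring
  · ring

lemma phiF_nonneg (z : P.St) (u v : ℕ) : 0 ≤ phiF P z u v := by
  unfold phiF
  have := rho_nonneg P z v
  have := kF_pos P
  have := P.N0
  positivity

lemma mem_ctlF {i : P.I} : i ∈ ctlF P ↔ isM i = false ∧ isB i = false := by
  unfold ctlF; rw [Finset.mem_filter]; simp

lemma d_le_ctlE (z x : P.St) (he : x Idx.e = z Idx.e) (hM : ∀ j, x (Idx.M j) = z (Idx.M j)) :
    (d z x : ℝ) ≤ (ctlE P).card := by
  have : d z x ≤ (ctlE P).card := by
    unfold d
    apply Finset.card_le_card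
    intro i hi
    rw [Finset.mem_filter] at hi
    unfold ctlE
    rw [Finset.mem_filter]
    refine ⟨mem_univ _, ?_, ?_⟩
    · cases i <;> simp [isM]
      exact hi.2 (hM _)
    · cases i <;> simp [isE]
      exact hi.2 he
  exact_mod_cast this

lemma eq_of_uF_vF (z y : P.St) (hM : ∀ j, y (Idx.M j) = z (Idx.M j)) (hu : uF P z y = 0)
    (hv : vF P z y = 0) : y = z := by
  funext i
  by_contra hi
  unfold uF wr at hu
  unfold vF cnt at hv
  rw [Finset.card_eq_zero, Finset.filter_eq_empty_iff] at hu hv
  by_cases h : i ∈ ctlF P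
  · exact hu h hi
  · rw [mem_ctlF] at h
    cases i with
    | M j => exact hi (hM j)
    | b j => exact hv (mem_univ j) hi
    | e => simp [isM, isB] at h
    | t j => simp [isM, isB] at h
    | G j => simp [isM, isB] at h
    | R j => simp [isM, isB] at h
    | S c j => simp [isM, isB] at h

open Classical in
/-- combined potential for the final mode -/
noncomputable def VF (z y : P.St) : ℝ :=
  if QF P z y then phiF P z (uF P z y) (vF P z y) else tt P z y

lemma VF_ctl (z y : P.St) (hQ : QF P z y) (hk : 8 * ((ctlE P).card : ℝ) ^ 2 ≤ P.N)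
    (i : P.I) (hi : i ∈ ctlF P) (h : y i ≠ z i) :
    1 ≤ uF P z y ∧ VF P z (nx z y {i}) ≤ phiF P z (uF P z y - 1) (vF P z y) := by
  obtain ⟨hye, ⟨j0, hj0⟩, hyM, hyb⟩ := hQ
  rw [nx_singleton, if_neg h]
  have h1 : uF P z (fl y {i}) + 1 = uF P z y := wr_fl_mem z y _ i hi h
  rw [mem_ctlF] at hi
  have hbb : ∀ j, fl y {i} (Idx.b j) = y (Idx.b j) := by
    intro j
    rw [fl_notMem]
    rintro h2; rw [mem_singleton] at h2; rw [← h2] at hi; simp [isB] at hi
  have hMM : ∀ j, fl y {i} (Idx.M j) = y (Idx.M j) := by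
    intro j
    rw [fl_notMem]
    rintro h2; rw [mem_singleton] at h2; rw [← h2] at hi; simp [isM] at hi
  have hvv : vF P z (fl y {i}) = vF P z y := cnt_congr _ z _ _ hbb
  have hu1 : uF P z (fl y {i}) = uF P z y - 1 := by omega
  refine ⟨by omega, ?_⟩
  rw [← hu1]
  unfold VF
  by_cases hie : i = Idx.e
  · subst hie
    have hze : z Idx.e = true := by
      revert h; rw [hye]; cases z Idx.e <;> simp
    have he' : fl y {Idx.e} Idx.e = true := by
      rw [fl_mem _ _ _ (by simp), hye]; rfl
    have hnQ : ¬ QF P z (fl y {Idx.e}) := by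
      rintro ⟨h3, _⟩; rw [he'] at h3; simp at h3
    rw [if_neg hnQ]
    have h4 := tt_emerg_good P z (fl y {Idx.e}) he' hze (fun j => by rw [hMM, hyM])
    have h5 := d_le_ctlE P z (fl y {Idx.e}) (by rw [he', hze])
      (fun j => by rw [hMM, hyM])
    have h6 : tt P z (fl y {Idx.e}) ≤ P.N := by
      refine h4.trans (le_trans ?_ hk)
      have h7 : (0 : ℝ) ≤ (ctlE P).card := Nat.cast_nonneg _
      calc 8 * ((ctlE P).card : ℝ) * d z (fl y {Idx.e})
          ≤ 8 * ((ctlE P).card : ℝ) * (ctlE P).card :=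
            mul_le_mul_of_nonneg_left h5 (by positivity)
        _ = 8 * ((ctlE P).card : ℝ) ^ 2 := by ring
    refine h6.trans ?_
    unfold phiF
    have h7 := rho_nonneg P z (vF P z y)
    have h8 := P.N0
    have h9 := kF_pos P
    have h10 : 0 ≤ 110 * kF P * (uF P z (fl y {Idx.e}) : ℝ) := by positivity
    have h11 : 0 ≤ 330 * P.N * (vF P z y : ℝ) := by positivity
    have h12 : 0 ≤ rho P z (vF P z y) * (uF P z (fl y {Idx.e}) : ℝ) := by positivity
    linarith
  · have hQ' : QF P z (fl y {i}) := by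
      refine ⟨?_, ⟨j0, by rw [hbb]; exact hj0⟩, fun j => by rw [hMM, hyM], fun j hj => by
        rw [hbb]; exact hyb j hj⟩
      rw [fl_notMem _ _ _ (by simpa using Ne.symm hie)]; exact hye
    rw [if_pos hQ', hvv]

lemma VF_b (z y : P.St) (hQ : QF P z y) (j : Fin 6) (h : y (Idx.b j) ≠ z (Idx.b j)) :
    1 ≤ vF P z y ∧ VF P z (nx z y {Idx.b j}) ≤ phiF P z (uF P z y) (vF P z y - 1) := by
  obtain ⟨hye, ⟨j0, hj0⟩, hyM, hyb⟩ := hQ
  rw [nx_singleton, if_neg h]
  have h1 : vF P z (fl y {Idx.b j}) + 1 = vF P z y := cnt_wrong _ (inj_b P) z y j h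
  have hv1 : 1 ≤ vF P z y := by omega
  refine ⟨hv1, ?_⟩
  have huu : uF P z (fl y {Idx.b j}) = uF P z y := by
    apply wr_fl_notMem
    rw [mem_ctlF]; simp [isB]
  have hzj : z (Idx.b j) = false := by
    by_contra hz
    have hz' : z (Idx.b j) = true := by simpa using hz
    exact h (by rw [hyb j hz', hz'])
  have hyj : y (Idx.b j) = true := by
    revert h; rw [hzj]; cases y (Idx.b j) <;> simp
  have hMM : ∀ l, fl y {Idx.b j} (Idx.M l) = y (Idx.M l) := by
    intro l
    rw [fl_notMem]; simp
  have hee : fl y {Idx.b j} Idx.e = false := by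
    rw [fl_notMem _ _ _ (by simp)]; exact hye
  have hbne : ∀ l, l ≠ j → fl y {Idx.b j} (Idx.b l) = y (Idx.b l) := by
    intro l hl
    rw [fl_notMem]; simpa using hl
  have hvm : vF P z (fl y {Idx.b j}) = vF P z y - 1 := by omega
  unfold VF
  by_cases hex : ∃ l, fl y {Idx.b j} (Idx.b l) = true
  · have hQ' : QF P z (fl y {Idx.b j}) := by
      refine ⟨hee, hex, fun l => by rw [hMM, hyM], fun l hl => ?_⟩
      have : l ≠ j := by rintro rfl; rw [hzj] at hl; simp at hl
      rw [hbne l this]; exact hyb l hl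
    rw [if_pos hQ', huu, hvm]
  · have hnQ : ¬ QF P z (fl y {Idx.b j}) := fun hq => hex hq.2.1
    push Not at hex
    rw [if_neg hnQ]
    have hzall : ∀ l, z (Idx.b l) = false := by
      intro l
      by_cases hl : l = j
      · rw [hl, hzj]
      · by_contra hz
        have hz' : z (Idx.b l) = true := by simpa using hz
        exact hex l (by rw [hbne l hl]; exact hyb l hz')
    have hv0 : vF P z (fl y {Idx.b j}) = 0 := by
      unfold vF cnt
      rw [Finset.card_eq_zero, Finset.filter_eq_empty_iff]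
      intro l _
      rw [hzall l]
      have := hex l
      simpa using this
    by_cases hu0 : uF P z y = 0
    · have : fl y {Idx.b j} = z := eq_of_uF_vF P z _ (fun l => by rw [hMM, hyM])
        (by rw [huu, hu0]) hv0
      rw [this, tt_z]
      exact phiF_nonneg P z _ _
    · have h3 := tt_le P z (fl y {Idx.b j})
      refine h3.trans ?_
      have hv1' : vF P z y - 1 = 0 := by omega
      rw [hv1']
      unfold phiF rho
      rw [if_pos hzall]
      have hu1 : (1 : ℝ) ≤ uF P z y := by exact_mod_cast Nat.one_le_iff_ne_zero.mpr hu0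
      have hT := TA_pos P
      have h8 := P.N0
      have h9 := kF_pos P
      have h9 : 0 ≤ 110 * kF P * (uF P z y : ℝ) := by positivity
      have h10 : TA P ≤ TA P * (uF P z y : ℝ) := le_mul_of_one_le_right hT.le hu1
      rw [pow_zero, mul_one]
      push_cast
      linarith

lemma VF_key (z : P.St) (u v : ℕ) (huv : u ≠ 0 ∨ v ≠ 0) :
    55 ≤ (P.r1 : ℝ) * (v * (330 * P.N) / 6) -
      P.r1 * (if v = 0 then 0 else rho P z (v - 1) * u)
          + (1 - P.r1) * (u * (110 * kF P + rho P z v) / kF P) := by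
  have hN := P.N2
  have hN0 := P.N0
  have hk0 := kF_pos P
  have hr1 : (P.r1 : ℝ) = 1 / P.N := P.r1R
  have hr1h : (P.r1 : ℝ) ≤ 1 / 2 := by
    rw [hr1]; exact one_div_le_one_div_of_le (by norm_num) hN
  have hr10 : (0 : ℝ) ≤ P.r1 := NNReal.coe_nonneg _
  have hrn := rho_nonneg P z v
  by_cases hu0 : u = 0
  · have hv0 : v ≠ 0 := by tauto
    have hv1 : (1 : ℝ) ≤ v := by exact_mod_cast Nat.one_le_iff_ne_zero.mpr hv0
    rw [hu0, hr1]
    have h1 : 1 / P.N * (v * (330 * P.N) / 6) = 55 * v := by field_simp; ring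
    rw [h1]
    push_cast
    simp only [zero_mul, zero_div, mul_zero, ite_self]
    linarith
  · have hu1 : (1 : ℝ) ≤ u := by exact_mod_cast Nat.one_le_iff_ne_zero.mpr hu0
    have h2 : u * (110 * kF P + rho P z v) / kF P = 110 * u + u * rho P z v / kF P := by
      field_simp
    rw [h2]
    have h3 : (P.r1 : ℝ) * (if v = 0 then 0 else rho P z (v - 1) * u)
        ≤ 1 / 2 * (u * rho P z v / kF P) := by
      split_ifs with hv0
      · rw [mul_zero]; positivity
      · have h4 : rho P z v = 2 * kF P / P.N * rho P z (v - 1) := by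
          rw [← rho_succ]; congr 1; omega
        rw [h4, hr1]
        apply le_of_eq
        field_simp
    have h5 : 0 ≤ (P.r1 : ℝ) * (v * (330 * P.N) / 6) := by positivity
    have h6 : 1 / 2 * (110 * u + u * rho P z v / kF P) ≤
        (1 - P.r1) * (110 * u + u * rho P z v / kF P) := by
      apply mul_le_mul_of_nonneg_right (by linarith)
      positivity
    linarith

lemma VF_drift (z y : P.St) (hQ : QF P z y) (hyz : y ≠ z)
    (hk : 8 * ((ctlE P).card : ℝ) ^ 2 ≤ P.N) :
    55 + E (nrm P y) (fun A => VF P z (nx z y A)) ≤ VF P z y := by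
  classical
  have hye := hQ.1
  have hyM := hQ.2.2.1
  have hr1h : (P.r1 : ℝ) ≤ 1 / 2 := by
    rw [P.r1R]; exact one_div_le_one_div_of_le (by norm_num) P.N2
  have hr10 : (0 : ℝ) ≤ P.r1 := NNReal.coe_nonneg _
  have hN0 := P.N0
  have hk0 := kF_pos P
  have hnrm : nrm P y = mix P.r1 P.r1_le
      (uf univ six_ne (fun j => {Idx.b j}))
      (uf (ctlF P) (ctlF_ne P) (fun i => {i})) := by
    unfold nrm
    rw [if_pos hQ.2.1]
  rw [hnrm, E_mix, E_uf, E_uf]
  have hVy : VF P z y = phiF P z (uF P z y) (vF P z y) := by unfold VF; rw [if_pos hQ]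
  have hrn := rho_nonneg P z (vF P z y)
  have hA2 : (∑ i ∈ ctlF P, VF P z (nx z y {i})) / (ctlF P).card
      ≤ VF P z y - (uF P z y) * (110 * kF P + rho P z (vF P z y)) / kF P := by
    apply avg_drop (ctlF P) (ctlF_ne P) (fun i => VF P z (nx z y {i})) (VF P z y)
      (110 * kF P + rho P z (vF P z y)) ((ctlF P).filter (fun i => y i ≠ z i))
      (Finset.filter_subset _ _)
    · intro i hi
      by_cases h : y i = z i
      · rw [nx_singleton, if_pos h]
      · obtain ⟨h1, h2⟩ := VF_ctl P z y hQ hk i hi h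
        refine h2.trans ?_
        rw [hVy]
        unfold phiF
        rw [Nat.cast_sub h1]
        push_cast
        have : 0 ≤ 110 * kF P := by positivity
        linarith
    · intro i hi
      rw [Finset.mem_filter] at hi
      obtain ⟨h1, h2⟩ := VF_ctl P z y hQ hk i hi.1 hi.2
      refine h2.trans ?_
      rw [hVy]
      unfold phiF
      rw [Nat.cast_sub h1]
      push_cast
      linarith
  have hA1 : (∑ j : Fin 6, VF P z (nx z y {Idx.b j})) / (univ : Finset (Fin 6)).card
      ≤ (VF P z y + (if vF P z y = 0 then 0 else rho P z (vF P z y - 1) * uF P z y))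
        - (vF P z y) * (330 * P.N) / (univ : Finset (Fin 6)).card := by
    have hrn' := rho_nonneg P z (vF P z y - 1)
    have hun : (0 : ℝ) ≤ uF P z y := Nat.cast_nonneg _
    apply avg_drop univ six_ne (fun j : Fin 6 => VF P z (nx z y {Idx.b j}))
      (VF P z y + (if vF P z y = 0 then 0 else rho P z (vF P z y - 1) * uF P z y))
      (330 * P.N) (univ.filter (fun j : Fin 6 => y (Idx.b j) ≠ z (Idx.b j)))
      (Finset.filter_subset _ _)
    · intro j _
      by_cases h : y (Idx.b j) = z (Idx.b j)
      · rw [nx_singleton, if_pos h]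
        have : 0 ≤ (if vF P z y = 0 then 0 else rho P z (vF P z y - 1) * (uF P z y : ℝ)) := by
          split_ifs
          · exact le_refl _
          · positivity
        linarith
      · obtain ⟨h1, h2⟩ := VF_b P z y hQ j h
        rw [if_neg (by omega)]
        refine h2.trans ?_
        rw [hVy]
        unfold phiF
        rw [Nat.cast_sub h1]
        push_cast
        have : 0 ≤ rho P z (vF P z y) * (uF P z y : ℝ) := by positivity
        linarith
    · intro j hj
      rw [Finset.mem_filter] at hj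
      obtain ⟨h1, h2⟩ := VF_b P z y hQ j hj.2
      rw [if_neg (by omega)]
      refine h2.trans ?_
      rw [hVy]
      unfold phiF
      rw [Nat.cast_sub h1]
      push_cast
      have : 0 ≤ rho P z (vF P z y) * (uF P z y : ℝ) := by positivity
      linarith
  rw [Finset.card_univ, Fintype.card_fin] at hA1
  rw [Finset.card_univ, Fintype.card_fin]
  push_cast at hA1 ⊢
  have hkey := VF_key P z (uF P z y) (vF P z y) (by
    by_contra hcon
    push Not at hcon
    exact hyz (eq_of_uF_vF P z y hyM hcon.1 hcon.2))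
  have h11 := mul_le_mul_of_nonneg_left hA1 hr10
  have h12 := mul_le_mul_of_nonneg_left hA2 (by linarith : (0 : ℝ) ≤ 1 - P.r1)
  linarith [h11, h12, hkey]

theorem tt_final (z x : P.St) (hx : QF P z x) (hk : 8 * ((ctlE P).card : ℝ) ^ 2 ≤ P.N) :
    tt P z x ≤ phiF P z (uF P z x) (vF P z x) := by
  have hmain := max_principle (X := P.St) (fun y => QF P z y ∧ y ≠ z)
    (fun y => (nrm P y).map (nx z y)) (tt P z) (VF P z) 54 55 (by norm_num)
    (by
      rintro y ⟨hy, _⟩
      rw [E_map]
      exact tt_normal P z y hy.1)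
    (by
      rintro y ⟨hQ, hyz⟩
      rw [E_map]
      exact VF_drift P z y hQ hyz hk)
    (by
      intro y hy
      unfold VF
      split_ifs with h
      · have : y = z := by
          by_contra hne; exact hy ⟨h, hne⟩
        subst this
        rw [tt_z]
        exact phiF_nonneg P y _ _
      · exact le_refl _) x
  refine hmain.trans ?_
  unfold VF
  rw [if_pos hx]

end Pool.Agent.Helper116.Alg
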