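import Mathlib
import Pool.Agent.Helper116.B2

set_option autoImplicit false
set_option linter.unusedSectionVars false

open scoped BigOperators ENNReal
open Finset

namespace Pool.Agent.Helper116.Alg

open Pool.Agent.Helper116.Chain

variable (P : Par)

/-- bound on the final mode -/
noncomputable def FM : ℝ :=
  P.N + 110 * kF P ^ 2 + 1980 * P.N + TA P * (2 * kF P / P.N) ^ 6 * kF P

lemma tt_final_all (z x : P.St) (he : x Idx.e = false) (hb : ∀ j, x (Idx.b j) = true)
    (hM : ∀ j, x (Idx.M j) = z (Idx.M j)) (hk : 8 * ((ctlE P).card : ℝ) ^ 2 ≤ P.N) :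
    tt P z x ≤ FM P := by
  have hQ : QF P z x := ⟨he, ⟨0, hb 0⟩, hM, fun j _ => hb j⟩
  refine (tt_final P z x hQ hk).trans ?_
  have hN0 := P.N0
  have hk0 := kF_pos P
  have hT := TA_pos P
  have hu : (uF P z x : ℝ) ≤ kF P := by
    unfold uF kF wr
    exact_mod_cast Finset.card_filter_le _ _
  have hv : vF P z x ≤ 6 := by
    unfold vF cnt
    exact (Finset.card_filter_le _ _).trans (by simp)
  have hv' : (vF P z x : ℝ) ≤ 6 := by exact_mod_cast hv
  have hu0 : (0 : ℝ) ≤ uF P z x := Nat.cast_nonneg _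
  have hrho : rho P z (vF P z x) ≤ TA P * (2 * kF P / P.N) ^ 6 := by
    unfold rho
    split_ifs with hz
    · have : vF P z x = 6 := by
        unfold vF cnt
        have : (univ.filter (fun j : Fin 6 => x (Idx.b j) ≠ z (Idx.b j))) = univ := by
          rw [Finset.filter_eq_self]
          intro j _
          rw [hb j, hz j]; simp
        rw [this]; simp
      rw [this]
    · positivity
  have hrn := rho_nonneg P z (vF P z x)
  unfold phiF FM
  have h1 : 110 * kF P * (uF P z x : ℝ) ≤ 110 * kF P ^ 2 := by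
    rw [pow_two, ← mul_assoc]
    exact mul_le_mul_of_nonneg_left hu (by positivity)
  have h2 : 330 * P.N * (vF P z x : ℝ) ≤ 1980 * P.N := by
    calc 330 * P.N * (vF P z x : ℝ) ≤ 330 * P.N * 6 :=
          mul_le_mul_of_nonneg_left hv' (by positivity)
      _ = 1980 * P.N := by ring
  have h3 : rho P z (vF P z x) * (uF P z x : ℝ) ≤ TA P * (2 * kF P / P.N) ^ 6 * kF P :=
    mul_le_mul hrho hu hu0 (by positivity)
  linarith

lemma FM_pos : 0 < FM P := by
  unfold FM
  have hN0 := P.N0
  have hk0 := kF_pos P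
  have hT := TA_pos P
  positivity

lemma nrm_main (x : P.St) (hb : ∀ j, x (Idx.b j) = false) (ht : ∀ j, x (Idx.t j) = true)
    (p l : ℕ) (hp : p ≤ P.m) (hl : l ≤ P.L) (hpat : pat P x = P.enc p l) :
    nrm P x = mainMv P p l := by
  unfold nrm
  rw [if_neg (by push Not; intro j; rw [hb j]; simp)]
  rw [dif_neg (by push Not; intro j _; rw [ht j]; simp)]
  rw [if_neg (by rw [ht 6]; simp)]
  have hex : ∃ pl : ℕ × ℕ, pl.1 ≤ P.m ∧ pl.2 ≤ P.L ∧ pat P x = P.enc pl.1 pl.2 :=
    ⟨(p, l), hp, hl, hpat⟩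
  rw [dif_pos hex]
  obtain ⟨h1, h2, h3⟩ := hex.choose_spec
  have h4 := P.enc_inj p hp l hl _ h1 _ h2 (hpat.symm.trans h3)
  rw [← h4.1, ← h4.2]

/-- flip set of the final move -/
def Af (f : Fin 6 → Fin (8 * P.s1)) : Finset P.I :=
  univ.image (fun j : Fin 6 => (Idx.b j : P.I)) ∪ univ.image (fun c : Fin 6 => (Idx.S c (f c) : P.I))

lemma finMv_eq : finMv P = uf univ (Sf_ne P) (Af P) := rfl

def poolWrong (z x : P.St) (c : Fin 6) : ℕ :=
  (univ.filter (fun i : Fin (8 * P.s1) => x (Idx.S c i) ≠ z (Idx.S c i))).card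

lemma good_f_card (z x : P.St) (hS : ∀ c, P.s1 ≤ poolWrong P z x c) :
    (P.s1 : ℝ) ^ 6 ≤ ((univ.filter (fun f : Fin 6 → Fin (8 * P.s1) =>
      ∀ c, x (Idx.S c (f c)) ≠ z (Idx.S c (f c)))).card : ℝ) := by
  have h1 : (univ.filter (fun f : Fin 6 → Fin (8 * P.s1) =>
      ∀ c, x (Idx.S c (f c)) ≠ z (Idx.S c (f c))))
      = Fintype.piFinset (fun c => univ.filter (fun i : Fin (8 * P.s1) =>
        x (Idx.S c i) ≠ z (Idx.S c i))) := by
    ext f
    simp [Fintype.mem_piFinset]
  rw [h1, Fintype.card_piFinset]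
  push_cast
  calc (P.s1 : ℝ) ^ 6 = ∏ _c : Fin 6, (P.s1 : ℝ) := by simp
    _ ≤ _ := by
      apply Finset.prod_le_prod
      · intro c _; positivity
      · intro c _; exact_mod_cast hS c

lemma acc_good_f (z x : P.St) (f : Fin 6 → Fin (8 * P.s1))
    (hf : ∀ c, x (Idx.S c (f c)) ≠ z (Idx.S c (f c))) : nx z x (Af P f) = fl x (Af P f) := by
  unfold nx
  rw [if_pos]
  have h1 : ri z x (Af P f) ≤ 6 := by
    unfold ri
    calc _ ≤ (univ.image (fun j : Fin 6 => (Idx.b j : P.I))).card := by
          apply Finset.card_le_card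
          intro i hi
          rw [Finset.mem_filter] at hi
          unfold Af at hi
          rw [Finset.mem_union] at hi
          rcases hi.1 with h | h
          · exact h
          · rw [Finset.mem_image] at h
            obtain ⟨c, _, rfl⟩ := h
            exact absurd hi.2 (hf c)
      _ ≤ (univ : Finset (Fin 6)).card := Finset.card_image_le
      _ = 6 := by simp
  have h2 : 6 ≤ wr z x (Af P f) := by
    unfold wr
    calc 6 = (univ : Finset (Fin 6)).card := by simp
      _ = (univ.image (fun c : Fin 6 => (Idx.S c (f c) : P.I))).card := by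
          rw [Finset.card_image_of_injective]
          intro a b h
          injection h
      _ ≤ _ := by
          apply Finset.card_le_card
          intro i hi
          rw [Finset.mem_filter]
          refine ⟨Finset.mem_union_right _ hi, ?_⟩
          rw [Finset.mem_image] at hi
          obtain ⟨c, _, rfl⟩ := hi
          exact hf c
  omega

theorem tt_end (z x : P.St) (he : x Idx.e = false) (hb : ∀ j, x (Idx.b j) = false)
    (ht : ∀ j, x (Idx.t j) = true) (l : ℕ) (hl : l ≤ P.L) (hpat : pat P x = P.enc P.m l)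
    (hM : ∀ j, x (Idx.M j) = z (Idx.M j)) (hS : ∀ c, P.s1 ≤ poolWrong P z x c)
    (hk : 8 * ((ctlE P).card : ℝ) ^ 2 ≤ P.N) :
    tt P z x ≤ 54 * 8 ^ 6 + FM P := by
  classical
  by_cases hcase : tt P z x ≤ FM P
  · linarith
  · push Not at hcase
    have h1 := tt_normal P z x he
    rw [nrm_main P x hb ht P.m l le_rfl hl hpat] at h1
    unfold mainMv at h1
    rw [dif_neg (lt_irrefl _), finMv_eq, E_uf] at h1
    have hacc : ∀ f, nx z x (Af P f) = fl x (Af P f) → tt P z (nx z x (Af P f)) ≤ FM P := by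
      intro f hf
      rw [hf]
      apply tt_final_all P z _ _ _ _ hk
      · rw [fl_notMem _ _ _ (by simp [Af])]; exact he
      · intro j
        rw [fl_mem _ _ _ (by simp [Af]), hb j]; rfl
      · intro j
        rw [fl_notMem _ _ _ (by simp [Af])]; exact hM j
    have h2 := avg_drop (univ : Finset (Fin 6 → Fin (8 * P.s1))) (Sf_ne P)
      (fun f => tt P z (nx z x (Af P f))) (tt P z x) (tt P z x - FM P)
      (univ.filter (fun f : Fin 6 → Fin (8 * P.s1) =>
        ∀ c, x (Idx.S c (f c)) ≠ z (Idx.S c (f c)))) (Finset.filter_subset _ _)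
      (by
        intro f _
        by_cases hacc' : ri z x (Af P f) ≤ wr z x (Af P f)
        · have := hacc f (by unfold nx; rw [if_pos hacc'])
          linarith
        · have : nx z x (Af P f) = x := by unfold nx; rw [if_neg hacc']
          simp only [this]
          exact le_refl _)
      (by
        intro f hf
        rw [Finset.mem_filter] at hf
        have := hacc f (acc_good_f P z x f hf.2)
        linarith)
    have h3 := good_f_card P z x hS
    have hs : (0 : ℝ) < P.s1 := by exact_mod_cast P.hs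
    have hcard : ((univ : Finset (Fin 6 → Fin (8 * P.s1))).card : ℝ) = 8 ^ 6 * (P.s1 : ℝ) ^ 6 := by
      rw [Finset.card_univ]
      simp
      ring
    rw [hcard] at h2 h1
    have h4 : (tt P z x - FM P) / 8 ^ 6 ≤
        ((univ.filter (fun f : Fin 6 → Fin (8 * P.s1) =>
        ∀ c, x (Idx.S c (f c)) ≠ z (Idx.S c (f c)))).card : ℝ) * (tt P z x - FM P)
          / (8 ^ 6 * (P.s1 : ℝ) ^ 6) := by
      rw [div_le_div_iff₀ (by norm_num) (by positivity)]
      have h5 : 0 ≤ (tt P z x - FM P) * 8 ^ 6 := by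
        apply mul_nonneg (by linarith) (by norm_num)
      calc (tt P z x - FM P) * (8 ^ 6 * (P.s1 : ℝ) ^ 6)
          = (tt P z x - FM P) * 8 ^ 6 * (P.s1 : ℝ) ^ 6 := by ring
        _ ≤ (tt P z x - FM P) * 8 ^ 6 * _ := mul_le_mul_of_nonneg_left h3 h5
        _ = _ := by ring
    have h6 : (tt P z x - FM P) / 8 ^ 6 ≤ 54 := by linarith
    rw [div_le_iff₀ (by norm_num)] at h6
    linarith

end Pool.Agent.Helper116.Alg
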