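import Mathlib
import Pool.Agent.Helper116.B3

set_option autoImplicit false
set_option linter.unusedSectionVars false

open scoped BigOperators ENNReal
open Finset

namespace Pool.Agent.Helper116.Alg

open Pool.Agent.Helper116.Chain

variable (P : Par)

def wt {g : ℕ} (A : Fin g → Bool) : ℕ := (univ.filter (fun i => A i = true)).card

lemma inj_G : Function.Injective (fun j : Fin P.g => (Idx.G j : P.I)) := fun _ _ h => by
  injection h

lemma chg_wr (z x : P.St) (A B : Fin P.g → Bool) (h : ∀ i, x (Idx.G i) ≠ z (Idx.G i) ↔ A i = true) :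
    wr z x (chg P A B) = (univ.filter (fun i => A i = true ∧ B i = false)).card := by
  unfold wr chg
  rw [Finset.filter_image, Finset.card_image_of_injective _ (inj_G P), Finset.filter_filter]
  congr 1
  ext i
  simp only [mem_filter, mem_univ, true_and]
  rw [h i]
  cases A i <;> cases B i <;> simp

lemma chg_ri (z x : P.St) (A B : Fin P.g → Bool) (h : ∀ i, x (Idx.G i) ≠ z (Idx.G i) ↔ A i = true) :
    ri z x (chg P A B) = (univ.filter (fun i => A i = false ∧ B i = true)).card := by
  unfold ri chg
  rw [Finset.filter_image, Finset.card_image_of_injective _ (inj_G P), Finset.filter_filter]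
  congr 1
  ext i
  simp only [mem_filter, mem_univ, true_and]
  have h1 := h i
  have h2 : x (Idx.G i) = z (Idx.G i) ↔ A i = false := by
    constructor
    · intro hh
      by_contra hc
      have : A i = true := by simpa using hc
      exact (h1.mpr this) hh
    · intro hh
      by_contra hc
      have := h1.mp hc
      rw [hh] at this; simp at this
  rw [h2]
  cases A i <;> cases B i <;> simp

lemma chg_bal (z x : P.St) (A B : Fin P.g → Bool)
    (h : ∀ i, x (Idx.G i) ≠ z (Idx.G i) ↔ A i = true) :
    wr z x (chg P A B) + wt B = ri z x (chg P A B) + wt A := by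
  rw [chg_wr P z x A B h, chg_ri P z x A B h]
  unfold wt
  have hA : (univ.filter (fun i => A i = true)).card
      = (univ.filter (fun i => A i = true ∧ B i = true)).card
        + (univ.filter (fun i => A i = true ∧ B i = false)).card := by
    rw [← Finset.card_union_of_disjoint]
    · congr 1
      ext i
      simp only [mem_filter, mem_univ, true_and, mem_union]
      cases A i <;> cases B i <;> simp
    · rw [Finset.disjoint_left]
      intro i hi hi2
      simp only [mem_filter, mem_univ, true_and] at hi hi2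
      rw [hi.2] at hi2
      simp at hi2
  have hB : (univ.filter (fun i => B i = true)).card
      = (univ.filter (fun i => A i = true ∧ B i = true)).card
        + (univ.filter (fun i => A i = false ∧ B i = true)).card := by
    rw [← Finset.card_union_of_disjoint]
    · congr 1
      ext i
      simp only [mem_filter, mem_univ, true_and, mem_union]
      cases A i <;> cases B i <;> simp
    · rw [Finset.disjoint_left]
      intro i hi hi2
      simp only [mem_filter, mem_univ, true_and] at hi hi2
      rw [hi.1] at hi2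
      simp at hi2
  omega

/-- main-mode configuration -/
def cfg (z : P.St) (s0 : Fin 6 → Fin (8 * P.s1) → Bool) (p l : ℕ) (y : Fin P.m → Bool) : P.St :=
  fun i => match i with
    | .e => false
    | .b _ => false
    | .t _ => true
    | .G i => xor (P.enc p l i) (z (.G i))
    | .R i => z (.G i)
    | .S c i => s0 c i
    | .M j => if j.val < p then z (.M j) else y j

variable (z : P.St) (s0 : Fin 6 → Fin (8 * P.s1) → Bool)

lemma pat_cfg (p l : ℕ) (y : Fin P.m → Bool) : pat P (cfg P z s0 p l y) = P.enc p l := by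
  funext i
  simp only [pat, cfg]
  cases P.enc p l i <;> cases z (.G i) <;> rfl

lemma nrm_cfg (p l : ℕ) (y : Fin P.m → Bool) (hp : p ≤ P.m) (hl : l ≤ P.L) :
    nrm P (cfg P z s0 p l y) = mainMv P p l :=
  nrm_main P _ (fun _ => rfl) (fun _ => rfl) p l hp hl (pat_cfg P z s0 p l y)

lemma cfg_G (p l : ℕ) (y : Fin P.m → Bool) (i : Fin P.g) :
    cfg P z s0 p l y (Idx.G i) ≠ z (Idx.G i) ↔ P.enc p l i = true := by
  simp only [cfg]
  cases P.enc p l i <;> cases z (.G i) <;> simp

lemma M_notMem_chg (A B : Fin P.g → Bool) (j : Fin P.m) : (Idx.M j : P.I) ∉ chg P A B := by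
  simp [chg]

lemma wr_insert (x : P.St) (A B : Fin P.g → Bool) (j : Fin P.m) :
    wr z x (insert (Idx.M j) (chg P A B)) =
      wr z x (chg P A B) + if x (Idx.M j) = z (Idx.M j) then 0 else 1 := by
  unfold wr
  rw [Finset.filter_insert]
  by_cases h1 : x (Idx.M j) = z (Idx.M j)
  · rw [if_neg (by simpa using h1), if_pos h1]; rfl
  · rw [if_pos h1, if_neg h1, Finset.card_insert_of_notMem]
    intro h; exact M_notMem_chg P A B j (Finset.mem_of_mem_filter _ h)

lemma ri_insert (x : P.St) (A B : Fin P.g → Bool) (j : Fin P.m) :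
    ri z x (insert (Idx.M j) (chg P A B)) =
      ri z x (chg P A B) + if x (Idx.M j) = z (Idx.M j) then 1 else 0 := by
  unfold ri
  rw [Finset.filter_insert]
  split_ifs with h1
  · rw [Finset.card_insert_of_notMem]
    intro h; exact M_notMem_chg P A B j (Finset.mem_of_mem_filter _ h)
  · rfl

lemma mem_chg (A B : Fin P.g → Bool) (i : Fin P.g) : (Idx.G i : P.I) ∈ chg P A B ↔ A i ≠ B i := by
  simp [chg]

/-- the toggle move is always accepted -/
lemma nx_T (p l : ℕ) (hp : p < P.m) (hl : l < P.L) (y : Fin P.m → Bool) :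
    nx z (cfg P z s0 p l y) (insert (Idx.M ⟨p, hp⟩) (chg P (P.enc p l) (P.enc p (l + 1))))
      = cfg P z s0 p (l + 1) (Function.update y ⟨p, hp⟩ (!(y ⟨p, hp⟩))) := by
  have hbal := chg_bal P z (cfg P z s0 p l y) (P.enc p l) (P.enc p (l + 1))
    (cfg_G P z s0 p l y)
  have h1 := P.enc_wt p hp.le l hl.le
  have h2 := P.enc_wt p hp.le (l + 1) hl
  unfold nx
  rw [if_pos]
  · funext i
    cases i with
    | e => rw [fl_notMem]; rfl; simp [chg]
    | b j => rw [fl_notMem]; rfl; simp [chg]
    | t j => rw [fl_notMem]; rfl; simp [chg]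
    | R j => rw [fl_notMem]; rfl; simp [chg]
    | S c j => rw [fl_notMem]; rfl; simp [chg]
    | G i =>
      by_cases h : P.enc p l i = P.enc p (l + 1) i
      · rw [fl_notMem]
        · simp only [cfg]; rw [h]
        · rw [Finset.mem_insert]
          rintro (h3 | h3)
          · injection h3
          · exact (mem_chg P _ _ i).mp h3 h
      · rw [fl_mem _ _ _ (Finset.mem_insert_of_mem ((mem_chg P _ _ i).mpr h))]
        simp only [cfg]
        revert h
        cases P.enc p l i <;> cases P.enc p (l + 1) i <;> cases z (.G i) <;> simp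
    | M j =>
      by_cases h : j = ⟨p, hp⟩
      · subst h
        rw [fl_mem _ _ _ (Finset.mem_insert_self _ _)]
        simp [cfg]
      · rw [fl_notMem]
        · simp only [cfg]
          rw [Function.update_of_ne h]
        · rw [Finset.mem_insert]
          rintro (h3 | h3)
          · injection h3 with h4; exact h h4
          · exact M_notMem_chg P _ _ j h3
  · rw [wr_insert, ri_insert]
    unfold wt at hbal
    split_ifs <;> omega

/-- the exit move, right case -/
lemma nx_E_right (p l : ℕ) (hp : p < P.m) (hl : l ≤ P.L) (y : Fin P.m → Bool)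
    (hy : y ⟨p, hp⟩ = z (Idx.M ⟨p, hp⟩)) :
    nx z (cfg P z s0 p l y) (insert (Idx.M ⟨p, hp⟩) (chg P (P.enc p l) (P.enc (p + 1) (l - 1))))
      = cfg P z s0 p l y := by
  have hbal := chg_bal P z (cfg P z s0 p l y) (P.enc p l) (P.enc (p + 1) (l - 1))
    (cfg_G P z s0 p l y)
  have h1 := P.enc_wt p hp.le l hl
  have h2 := P.enc_wt (p + 1) hp (l - 1) (by omega)
  have h3 : cfg P z s0 p l y (Idx.M ⟨p, hp⟩) = z (Idx.M ⟨p, hp⟩) := by
    simp only [cfg, lt_irrefl, if_false]; exact hy
  unfold nx
  rw [if_neg]
  rw [wr_insert, ri_insert, if_pos h3, if_pos h3]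
  unfold wt at hbal
  omega

/-- the exit move, wrong case -/
lemma nx_E_wrong (p l : ℕ) (hp : p < P.m) (hl : l ≤ P.L) (y : Fin P.m → Bool)
    (hy : y ⟨p, hp⟩ = !(z (Idx.M ⟨p, hp⟩))) :
    nx z (cfg P z s0 p l y) (insert (Idx.M ⟨p, hp⟩) (chg P (P.enc p l) (P.enc (p + 1) (l - 1))))
      = cfg P z s0 (p + 1) (l - 1) y := by
  have hbal := chg_bal P z (cfg P z s0 p l y) (P.enc p l) (P.enc (p + 1) (l - 1))
    (cfg_G P z s0 p l y)
  have h1 := P.enc_wt p hp.le l hl
  have h2 := P.enc_wt (p + 1) hp (l - 1) (by omega)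
  have h3 : cfg P z s0 p l y (Idx.M ⟨p, hp⟩) ≠ z (Idx.M ⟨p, hp⟩) := by
    simp only [cfg, lt_irrefl, if_false]; rw [hy]; simp
  unfold nx
  rw [if_pos]
  · funext i
    cases i with
    | e => rw [fl_notMem]; rfl; simp [chg]
    | b j => rw [fl_notMem]; rfl; simp [chg]
    | t j => rw [fl_notMem]; rfl; simp [chg]
    | R j => rw [fl_notMem]; rfl; simp [chg]
    | S c j => rw [fl_notMem]; rfl; simp [chg]
    | G i =>
      by_cases h : P.enc p l i = P.enc (p + 1) (l - 1) i
      · rw [fl_notMem]
        · simp only [cfg]; rw [h]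
        · rw [Finset.mem_insert]
          rintro (h3 | h3)
          · injection h3
          · exact (mem_chg P _ _ i).mp h3 h
      · rw [fl_mem _ _ _ (Finset.mem_insert_of_mem ((mem_chg P _ _ i).mpr h))]
        simp only [cfg]
        revert h
        cases P.enc p l i <;> cases P.enc (p + 1) (l - 1) i <;> cases z (.G i) <;> simp
    | M j =>
      by_cases h : j = ⟨p, hp⟩
      · subst h
        rw [fl_mem _ _ _ (Finset.mem_insert_self _ _)]
        simp [cfg, hy]
      · rw [fl_notMem]
        · have hne : j.val ≠ p := fun hh => h (Fin.ext hh)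
          simp only [cfg]
          by_cases h5 : j.val < p
          · rw [if_pos h5, if_pos (by omega)]
          · rw [if_neg h5, if_neg (by omega)]
        · rw [Finset.mem_insert]
          rintro (h3 | h3)
          · injection h3 with h4; exact h h4
          · exact M_notMem_chg P _ _ j h3
  · rw [wr_insert, ri_insert, if_neg h3, if_neg h3]
    unfold wt at hbal
    omega

/-- average over all settings of the `M` bits -/
noncomputable def av (F : (Fin P.m → Bool) → ℝ) : ℝ := (∑ y, F y) / 2 ^ P.m

lemma av_mono {F G : (Fin P.m → Bool) → ℝ} (h : ∀ y, F y ≤ G y) : av P F ≤ av P G := by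
  unfold av
  exact div_le_div_of_nonneg_right (Finset.sum_le_sum (fun y _ => h y)) (by positivity)

lemma av_const (c : ℝ) : av P (fun _ => c) = c := by
  unfold av
  rw [Finset.sum_const, Finset.card_univ]
  simp

lemma av_lin3 (c a b : ℝ) (F G : (Fin P.m → Bool) → ℝ) :
    av P (fun y => c + (a * F y + b * G y)) = c + (a * av P F + b * av P G) := by
  have h1 : av P (fun y => c + (a * F y + b * G y)) = av P (fun _ => c)
      + (a * av P F + b * av P G) := by
    unfold av
    rw [Finset.sum_add_distrib, Finset.sum_add_distrib, ← Finset.mul_sum, ← Finset.mul_sum]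
    ring
  rw [h1, av_const]

lemma sum_update (F : (Fin P.m → Bool) → ℝ) (j : Fin P.m) (c : Bool) :
    2 * ∑ y, F y = ∑ y, F (Function.update y j c) + ∑ y, F (Function.update y j (!c)) := by
  have hinv : Function.Involutive (fun y : Fin P.m → Bool => Function.update y j (!(y j))) := by
    intro y
    funext i
    by_cases h : i = j
    · subst h; simp
    · simp [Function.update_of_ne h]
  have h1 : ∑ y, F (Function.update y j (!(y j))) = ∑ y, F y :=
    Fintype.sum_equiv hinv.toPerm _ _ (fun y => rfl)
  rw [← Finset.sum_add_distrib, two_mul]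
  nth_rewrite 2 [← h1]
  rw [← Finset.sum_add_distrib]
  refine Finset.sum_congr rfl (fun y _ => ?_)
  by_cases h : y j = c
  · subst h
    rw [Function.update_eq_self]
  · have h2 : y j = !c := by revert h; cases y j <;> cases c <;> simp
    rw [h2]
    have h3 : Function.update y j (!c) = y := by rw [← h2, Function.update_eq_self]
    rw [h3]
    simp
    ring

lemma av_update (F : (Fin P.m → Bool) → ℝ) (j : Fin P.m) (c : Bool) :
    av P F = (av P (fun y => F (Function.update y j c)) +
      av P (fun y => F (Function.update y j (!c)))) / 2 := by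
  unfold av
  have := sum_update P F j c
  field_simp
  linarith

noncomputable def aa (p l : ℕ) : ℝ := av P (fun y => tt P z (cfg P z s0 p l y))
noncomputable def RR (p l : ℕ) (hp : p < P.m) : ℝ :=
  av P (fun y => tt P z (cfg P z s0 p l (Function.update y ⟨p, hp⟩ (z (Idx.M ⟨p, hp⟩)))))
noncomputable def WW (p l : ℕ) (hp : p < P.m) : ℝ :=
  av P (fun y => tt P z (cfg P z s0 p l (Function.update y ⟨p, hp⟩ (!(z (Idx.M ⟨p, hp⟩))))))

lemma aa_eq (p l : ℕ) (hp : p < P.m) :
    aa P z s0 p l = (RR P z s0 p l hp + WW P z s0 p l hp) / 2 :=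
  av_update P (fun y => tt P z (cfg P z s0 p l y)) ⟨p, hp⟩ _

lemma step_cfg (p l : ℕ) (hp : p < P.m) (hl : l < P.L) (y : Fin P.m → Bool) :
    tt P z (cfg P z s0 p l y) ≤ 54 +
      (1 / 16 * tt P z (cfg P z s0 p (l + 1) (Function.update y ⟨p, hp⟩ (!(y ⟨p, hp⟩)))) +
      15 / 16 * tt P z (nx z (cfg P z s0 p l y)
        (insert (Idx.M ⟨p, hp⟩) (chg P (P.enc p l) (P.enc (p + 1) (l - 1)))))) := by
  have h := tt_normal P z (cfg P z s0 p l y) rfl
  rw [nrm_cfg P z s0 p l y hp.le hl.le] at h
  unfold mainMv at h
  rw [dif_pos hp, if_pos hl, E_mix, E_pure, E_pure, nx_T P z s0 p l hp hl y] at h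
  have h2 : (((1 / 16 : NNReal) : ℝ)) = 1 / 16 := by push_cast; rfl
  rw [h2] at h
  linarith

lemma RR_le (p l : ℕ) (hp : p < P.m) (hl : l < P.L) :
    RR P z s0 p l hp ≤ 864 + WW P z s0 p (l + 1) hp := by
  have h : RR P z s0 p l hp ≤ 54 + (1 / 16 * WW P z s0 p (l + 1) hp
      + 15 / 16 * RR P z s0 p l hp) := by
    unfold RR WW
    rw [← av_lin3]
    apply av_mono
    intro y
    have h1 := step_cfg P z s0 p l hp hl (Function.update y ⟨p, hp⟩ (z (Idx.M ⟨p, hp⟩)))
    rw [nx_E_right P z s0 p l hp hl.le _ (by simp)] at h1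
    simp only [Function.update_self, Function.update_idem] at h1
    exact h1
  linarith

lemma WW_le (p l : ℕ) (hp : p < P.m) (hl : l < P.L) :
    WW P z s0 p l hp ≤ 54 + (1 / 16 * RR P z s0 p (l + 1) hp
      + 15 / 16 * aa P z s0 (p + 1) (l - 1)) := by
  unfold RR WW aa
  rw [← av_lin3]
  apply av_mono
  intro y
  have h1 := step_cfg P z s0 p l hp hl (Function.update y ⟨p, hp⟩ (!(z (Idx.M ⟨p, hp⟩))))
  rw [nx_E_wrong P z s0 p l hp hl.le _ (by simp)] at h1
  simp only [Function.update_self, Function.update_idem, Bool.not_not] at h1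
  have h2 : cfg P z s0 (p + 1) (l - 1) (Function.update y ⟨p, hp⟩ (!(z (Idx.M ⟨p, hp⟩))))
      = cfg P z s0 (p + 1) (l - 1) y := by
    funext i
    cases i with
    | M j =>
      simp only [cfg]
      by_cases h : j = ⟨p, hp⟩
      · subst h; simp
      · rw [Function.update_of_ne h]
    | _ => rfl
  rw [h2] at h1
  exact h1

lemma aa_le_TA (p l : ℕ) : aa P z s0 p l ≤ TA P := by
  unfold aa
  calc _ ≤ av P (fun _ => TA P) := av_mono P (fun y => tt_le P z _)
    _ = TA P := av_const P _
lemma RR_le_TA (p l : ℕ) (hp : p < P.m) : RR P z s0 p l hp ≤ TA P := by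
  unfold RR
  calc _ ≤ av P (fun _ => TA P) := av_mono P (fun y => tt_le P z _)
    _ = TA P := av_const P _
lemma WW_le_TA (p l : ℕ) (hp : p < P.m) : WW P z s0 p l hp ≤ TA P := by
  unfold WW
  calc _ ≤ av P (fun _ => TA P) := av_mono P (fun y => tt_le P z _)
    _ = TA P := av_const P _

/-- bound for the end of the sweep -/
noncomputable def FE : ℝ := 54 * 8 ^ 6 + FM P

theorem sweep (γ : ℝ) (hγ0 : 0 ≤ γ) (hγ1 : γ ≤ 1) (hγ : 2 * TA P ≤ γ * 2 ^ P.L)
    (hk : 8 * ((ctlE P).card : ℝ) ^ 2 ≤ P.N)
    (hS : ∀ c, P.s1 ≤ (univ.filter (fun i => s0 c i ≠ z (Idx.S c i))).card) :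
    ∀ k p, p + k = P.m → ∀ l ≤ P.L,
      aa P z s0 p l ≤ 552 * k + 3 / 2 * γ * 2 ^ l + FE P := by
  have hT := TA_pos P
  have hFE : 0 < FE P := by unfold FE; have := FM_pos P; linarith
  intro k
  induction k with
  | zero =>
    intro p hp l hl
    have hpm : p = P.m := by omega
    subst hpm
    have h1 : aa P z s0 P.m l ≤ FE P := by
      unfold aa
      calc _ ≤ av P (fun _ => FE P) := by
            apply av_mono
            intro y
            apply tt_end P z (cfg P z s0 P.m l y) rfl (fun _ => rfl) (fun _ => rfl) l hl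
              (pat_cfg P z s0 P.m l y) _ hS hk
            intro j
            simp [cfg]
        _ = FE P := av_const P _
    have : 0 ≤ 3 / 2 * γ * 2 ^ l := by positivity
    push_cast
    linarith
  | succ k ih =>
    intro p hpk
    have hp : p < P.m := by omega
    have ih' := ih (p + 1) (by omega)
    -- bound for WW
    have hW : ∀ j l, l + j = P.L → WW P z s0 p l hp ≤ 552 * k + 120 + γ * 2 ^ l + FE P := by
      intro j
      induction j using Nat.strong_induction_on with
      | _ j ihj =>
        intro l hlj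
        rcases Nat.lt_or_ge j 2 with hj | hj
        · have h1 := WW_le_TA P z s0 p l hp
          have h2 : (2 : ℝ) ^ P.L ≤ 2 * 2 ^ l := by
            rw [← pow_succ']
            exact pow_le_pow_right₀ (by norm_num) (by omega)
          have h3 : γ * 2 ^ P.L ≤ γ * (2 * 2 ^ l) := mul_le_mul_of_nonneg_left h2 hγ0
          have h4 : (0 : ℝ) ≤ 552 * k := by positivity
          linarith
        · have h1 := WW_le P z s0 p l hp (by omega)
          have h2 := RR_le P z s0 p (l + 1) hp (by omega)
          have h3 := ihj (j - 2) (by omega) (l + 2) (by omega)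
          have h4 := ih' (l - 1) (by omega)
          have h5 : (2 : ℝ) ^ (l + 2) = 4 * 2 ^ l := by ring
          rw [h5] at h3
          have e1 : l + 1 + 1 = l + 2 := rfl
          rw [e1] at h2
          rcases Nat.eq_zero_or_pos l with hl0 | hl0
          · subst hl0
            simp only [Nat.zero_sub, pow_zero, mul_one] at h4 h3 ⊢
            linarith
          · have h6 : (2 : ℝ) ^ l = 2 * 2 ^ (l - 1) := by
              rw [← pow_succ']; congr 1; omega
            have h7 : 0 ≤ γ * 2 ^ (l - 1) := by positivity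
            have h8 : γ * 2 ^ l = 2 * (γ * 2 ^ (l - 1)) := by rw [h6]; ring
            have h9 : γ * (4 * 2 ^ l) = 8 * (γ * 2 ^ (l - 1)) := by rw [h6]; ring
            rw [h9] at h3
            rw [h8]
            have h10 : 3 / 2 * γ * 2 ^ (l - 1) = 3 / 2 * (γ * 2 ^ (l - 1)) := by ring
            rw [h10] at h4
            linarith
    intro l hl
    rw [aa_eq P z s0 p l hp]
    have hWl := hW (P.L - l) l (by omega)
    rcases Nat.lt_or_ge l P.L with hlt | hge
    · have h1 := RR_le P z s0 p l hp hlt
      have h2 := hW (P.L - (l + 1)) (l + 1) (by omega)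
      have h3 : γ * 2 ^ (l + 1) = 2 * (γ * 2 ^ l) := by ring
      rw [h3] at h2
      push_cast
      linarith
    · have hlL : l = P.L := by omega
      subst hlL
      have h1 := RR_le_TA P z s0 p P.L hp
      have h2 := WW_le_TA P z s0 p P.L hp
      have h4 : (0 : ℝ) ≤ 552 * k := by positivity
      have h5 : 0 ≤ γ * 2 ^ P.L := by positivity
      push_cast
      linarith

end Pool.Agent.Helper116.Alg
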