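import Mathlib
import Pool.Agent.Helper116.B4

set_option autoImplicit false
set_option linter.unusedSectionVars false

open scoped BigOperators ENNReal
open Finset

namespace Pool.Agent.Helper116.Alg

open Pool.Agent.Helper116.Chain

variable (P : Par)

/-- replace the `M` bits -/
def rep (x : P.St) (y : Fin P.m → Bool) : P.St :=
  fun i => match i with
    | .e => x .e
    | .b j => x (.b j)
    | .t j => x (.t j)
    | .G j => x (.G j)
    | .R j => x (.R j)
    | .S c j => x (.S c j)
    | .M j => y j

lemma rep_apply (x : P.St) (y : Fin P.m → Bool) (i : P.I) (hi : ∀ j, i ≠ Idx.M j) :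
    rep P x y i = x i := by
  cases i with
  | M j => exact absurd rfl (hi j)
  | _ => rfl

lemma nrm_rep (x : P.St) (y : Fin P.m → Bool) : nrm P (rep P x y) = nrm P x := rfl

/-- free of `M` bits -/
def MF (A : Finset P.I) : Prop := ∀ j, Idx.M j ∉ A

lemma nx_rep (z x : P.St) (y : Fin P.m → Bool) (A : Finset P.I) (hA : MF P A) :
    nx z (rep P x y) A = rep P (nx z x A) y := by
  have h : ∀ i ∈ A, rep P x y i = x i := by
    intro i hi
    apply rep_apply
    rintro j rfl
    exact hA j hi
  have h1 : ri z (rep P x y) A = ri z x A := by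
    unfold ri; congr 1; apply Finset.filter_congr; intro i hi; rw [h i hi]
  have h2 : wr z (rep P x y) A = wr z x A := by
    unfold wr; congr 1; apply Finset.filter_congr; intro i hi; rw [h i hi]
  unfold nx
  rw [h1, h2]
  split_ifs
  · funext i
    cases i with
    | M j => rw [fl_notMem _ _ _ (hA j)]; rfl
    | e => simp only [fl, rep]
    | b j => simp only [fl, rep]
    | t j => simp only [fl, rep]
    | G j => simp only [fl, rep]
    | R j => simp only [fl, rep]
    | S c j => simp only [fl, rep]
  · rfl

/-- expected hitting time averaged over the `M` bits -/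
noncomputable def tb (z x : P.St) : ℝ := av P (fun y => tt P z (rep P x y))

lemma tb_le (z x : P.St) : tb P z x ≤ TA P := by
  unfold tb
  calc _ ≤ av P (fun _ => TA P) := av_mono P (fun y => tt_le P z _)
    _ = TA P := av_const P _

lemma E_congr {A : Type} [Fintype A] (q : PMF A) (f g : A → ℝ) (h : ∀ a, q a ≠ 0 → f a = g a) :
    E q f = E q g := by
  unfold E
  refine Finset.sum_congr rfl (fun a _ => ?_)
  by_cases hq : q a = 0
  · simp [hq]
  · rw [h a hq]

lemma av_E {A : Type} [Fintype A] (q : PMF A) (G : A → (Fin P.m → Bool) → ℝ) :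
    av P (fun y => E q (fun a => G a y)) = E q (fun a => av P (fun y => G a y)) := by
  unfold av E
  rw [Finset.sum_comm, Finset.sum_div]
  refine Finset.sum_congr rfl (fun a _ => ?_)
  rw [← Finset.mul_sum, mul_div_assoc]

lemma av_add_const (c : ℝ) (F : (Fin P.m → Bool) → ℝ) :
    av P (fun y => c + F y) = c + av P F := by
  have h1 : av P (fun y => c + F y) = av P (fun _ => c) + av P F := by
    unfold av
    rw [Finset.sum_add_distrib]
    ring
  rw [h1, av_const]

lemma tb_normal_aux (z x : P.St) (hx : x Idx.e = false) (hs : ∀ A, nrm P x A ≠ 0 → MF P A)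
    (y : Fin P.m → Bool) :
    tt P z (rep P x y) ≤ 54 + E (nrm P x) (fun A => tt P z (rep P (nx z x A) y)) := by
  have h0 : rep P x y Idx.e = false := hx
  have h1 := tt_normal P z (rep P x y) h0
  have h2 : nrm P (rep P x y) = nrm P x := nrm_rep P x y
  rw [h2] at h1
  have h3 : E (nrm P x) (fun A => tt P z (nx z (rep P x y) A))
      = E (nrm P x) (fun A => tt P z (rep P (nx z x A) y)) := by
    apply E_congr
    intro A hA
    rw [nx_rep P z x y A (hs A hA)]
  rw [h3] at h1
  exact h1

lemma tb_normal (z x : P.St) (hx : x Idx.e = false) (hs : ∀ A, nrm P x A ≠ 0 → MF P A) :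
    tb P z x ≤ 54 + E (nrm P x) (fun A => tb P z (nx z x A)) := by
  have h1 := av_mono P (fun y => tb_normal_aux P z x hx hs y)
  have h2 := av_add_const P 54 (fun y => E (nrm P x) (fun A => tt P z (rep P (nx z x A) y)))
  have h3 := av_E P (nrm P x) (fun A y => tt P z (rep P (nx z x A) y))
  unfold tb
  rw [h2, h3] at h1
  exact h1

/-! supports -/

lemma supp_uf {A B : Type} (s : Finset A) (hs : s.Nonempty) (f : A → B) (b : B)
    (h : uf s hs f b ≠ 0) : ∃ a, f a = b := by
  unfold uf at h
  have := (PMF.mem_support_map_iff f _ b).mp h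
  obtain ⟨a, _, ha⟩ := this
  exact ⟨a, ha⟩

lemma supp_mix {A : Type} [Fintype A] (r : NNReal) (hr : r ≤ 1) (p q : PMF A) (a : A)
    (h : mix r hr p q a ≠ 0) : p a ≠ 0 ∨ q a ≠ 0 := by
  unfold mix at h
  have := (PMF.mem_support_bind_iff _ _ a).mp h
  obtain ⟨c, _, hc⟩ := this
  cases c with
  | true => left; simpa using hc
  | false => right; simpa using hc

lemma MF_sop (d : P.I) (hd : ∀ j, d ≠ Idx.M j) (A : Finset P.I) (h : sop P d A ≠ 0) :
    MF P A := by
  obtain ⟨a, rfl⟩ := supp_uf _ _ _ _ h
  intro j hj
  rw [Finset.mem_insert, Finset.mem_singleton] at hj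
  rcases hj with h1 | h1
  · exact hd j h1.symm
  · injection h1

/-- the S-operation -/
lemma sop_avg (z x : P.St) (dd : P.I) (hd1 : ∀ c i, dd ≠ Idx.S c i)
    (hS : ∀ c, P.s1 ≤ poolWrong P z x c) (V : P.St → ℝ) (B δ : ℝ) (hδ : 0 ≤ δ)
    (hx : V x ≤ B) (hfl : ∀ c i, V (fl x {dd, Idx.S c i}) ≤ B - δ) :
    E (sop P dd) (fun A => V (nx z x A)) ≤ B - δ / 8 := by
  classical
  unfold sop
  rw [E_uf]
  have hs : (0 : ℝ) < P.s1 := by exact_mod_cast P.hs
  have h1 := avg_drop (univ : Finset (Fin 6 × Fin (8 * P.s1))) (S_ne P)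
    (fun ci => V (nx z x {dd, Idx.S ci.1 ci.2})) B δ
    (univ.filter (fun ci : Fin 6 × Fin (8 * P.s1) => x (Idx.S ci.1 ci.2) ≠ z (Idx.S ci.1 ci.2)))
    (Finset.filter_subset _ _)
    (by
      intro ci _
      unfold nx
      split_ifs
      · have := hfl ci.1 ci.2; linarith
      · exact hx)
    (by
      intro ci hci
      rw [Finset.mem_filter] at hci
      have hne : dd ≠ Idx.S ci.1 ci.2 := hd1 _ _
      have hacc : nx z x {dd, Idx.S ci.1 ci.2} = fl x {dd, Idx.S ci.1 ci.2} := by
        unfold nx
        rw [if_pos]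
        unfold ri wr
        rw [Finset.filter_insert, Finset.filter_insert, Finset.filter_singleton,
          Finset.filter_singleton]
        by_cases h2 : x dd = z dd <;> simp [h2, hci.2, hne]
      rw [hacc]
      exact hfl _ _)
  have hcount : (6 * (P.s1 : ℝ)) ≤ ((univ.filter (fun ci : Fin 6 × Fin (8 * P.s1) =>
      x (Idx.S ci.1 ci.2) ≠ z (Idx.S ci.1 ci.2))).card : ℝ) := by
    have h2 : (univ.filter (fun ci : Fin 6 × Fin (8 * P.s1) =>
      x (Idx.S ci.1 ci.2) ≠ z (Idx.S ci.1 ci.2))).card = ∑ c : Fin 6, poolWrong P z x c := by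
      rw [Finset.card_filter, Fintype.sum_prod_type]
      refine Finset.sum_congr rfl (fun c _ => ?_)
      rw [poolWrong, Finset.card_filter]
    rw [h2]
    have h3 : ∑ _c : Fin 6, P.s1 ≤ ∑ c : Fin 6, poolWrong P z x c :=
      Finset.sum_le_sum (fun c _ => hS c)
    simp only [Finset.sum_const, Finset.card_univ, Fintype.card_fin, smul_eq_mul] at h3
    exact_mod_cast h3
  have hcard : ((univ : Finset (Fin 6 × Fin (8 * P.s1))).card : ℝ) = 48 * P.s1 := by
    rw [Finset.card_univ, Fintype.card_prod, Fintype.card_fin, Fintype.card_fin]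
    push_cast; ring
  rw [hcard] at h1 ⊢
  refine h1.trans ?_
  have h4 : δ / 8 ≤ ((univ.filter (fun ci : Fin 6 × Fin (8 * P.s1) =>
      x (Idx.S ci.1 ci.2) ≠ z (Idx.S ci.1 ci.2))).card : ℝ) * δ / (48 * P.s1) := by
    rw [div_le_div_iff₀ (by norm_num) (by positivity)]
    have h5 := mul_le_mul_of_nonneg_right hcount hδ
    nlinarith
  linarith

/-- pools lose at most one wrong bit in an S-operation -/
lemma pool_fl (z x : P.St) (dd : P.I) (hd1 : ∀ c i, dd ≠ Idx.S c i) (c : Fin 6)
    (i : Fin (8 * P.s1)) (c' : Fin 6) :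
    poolWrong P z x c' ≤ poolWrong P z (fl x {dd, Idx.S c i}) c' + 1 := by
  unfold poolWrong
  have hsub : (univ.filter (fun i' : Fin (8 * P.s1) => x (Idx.S c' i') ≠ z (Idx.S c' i'))) ⊆
      insert i (univ.filter (fun i' : Fin (8 * P.s1) =>
        fl x {dd, Idx.S c i} (Idx.S c' i') ≠ z (Idx.S c' i'))) := by
    intro i' hi'
    rw [Finset.mem_filter] at hi'
    by_cases h : i' = i
    · rw [h]; exact Finset.mem_insert_self _ _
    · apply Finset.mem_insert_of_mem
      rw [Finset.mem_filter]
      refine ⟨Finset.mem_univ _, ?_⟩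
      rw [fl_notMem]
      · exact hi'.2
      · rw [Finset.mem_insert, Finset.mem_singleton]
        rintro (h1 | h1)
        · exact hd1 _ _ h1.symm
        · injection h1 with h2 h3; exact h h3
  exact (Finset.card_le_card hsub).trans (Finset.card_insert_le _ _)

lemma pool_congr (z x y : P.St) (c : Fin 6) (h : ∀ i, y (Idx.S c i) = x (Idx.S c i)) :
    poolWrong P z y c = poolWrong P z x c := by
  unfold poolWrong; simp only [h]

/-! ### Setup mode -/

/-- remaining mismatches with the start pattern -/
def mm (x : P.St) : ℕ := (univ.filter (fun i => pat P x i ≠ P.enc 0 0 i)).card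

def QS (z x : P.St) : Prop :=
  x Idx.e = false ∧ (∀ j, x (Idx.b j) = false) ∧ (∀ j : Fin 7, j.val < 6 → x (Idx.t j) = true) ∧
  x (Idx.t 6) = false ∧ (∀ i, x (Idx.R i) = z (Idx.G i)) ∧
  (∀ c, P.s1 + mm P x + 1 ≤ poolWrong P z x c)

lemma nrm_setup1 (x : P.St) (hb : ∀ j, x (Idx.b j) = false)
    (ht : ∀ j : Fin 7, j.val < 6 → x (Idx.t j) = true) (h6 : x (Idx.t 6) = false)
    (h : ∃ i, pat P x i ≠ P.enc 0 0 i) :
    ∃ i, pat P x i ≠ P.enc 0 0 i ∧ nrm P x = sop P (Idx.G i) := by
  refine ⟨h.choose, h.choose_spec, ?_⟩
  unfold nrm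
  rw [if_neg (by push Not; intro j; rw [hb j]; simp)]
  rw [dif_neg (by push Not; intro j hj; rw [ht j hj]; simp)]
  rw [if_pos h6, dif_pos h]

lemma nrm_setup2 (x : P.St) (hb : ∀ j, x (Idx.b j) = false)
    (ht : ∀ j : Fin 7, j.val < 6 → x (Idx.t j) = true) (h6 : x (Idx.t 6) = false)
    (h : ¬ ∃ i, pat P x i ≠ P.enc 0 0 i) : nrm P x = sop P (Idx.t 6) := by
  unfold nrm
  rw [if_neg (by push Not; intro j; rw [hb j]; simp)]
  rw [dif_neg (by push Not; intro j hj; rw [ht j hj]; simp)]
  rw [if_pos h6, dif_neg h]

/-- value of the start of the main mode -/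
noncomputable def FS : ℝ := 552 * P.m + 3 / 2 + FE P

lemma FS_nonneg : 0 ≤ FS P := by
  unfold FS FE
  have := FM_pos P
  positivity

lemma fl2_apply (x : P.St) (dd : P.I) (c : Fin 6) (i : Fin (8 * P.s1)) (k : P.I) (h1 : k ≠ dd)
    (h2 : ∀ c i, k ≠ Idx.S c i) : fl x {dd, Idx.S c i} k = x k := by
  rw [fl_notMem]
  rw [Finset.mem_insert, Finset.mem_singleton]
  rintro (h | h)
  · exact h1 h
  · exact h2 _ _ h

lemma fl2_dd (x : P.St) (dd : P.I) (c : Fin 6) (i : Fin (8 * P.s1)) :
    fl x {dd, Idx.S c i} dd = !(x dd) := fl_mem _ _ _ (Finset.mem_insert_self _ _)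

/-- main mode start -/
lemma tb_main (z x : P.St) (γ : ℝ) (hγ0 : 0 ≤ γ) (hγ1 : γ ≤ 1) (hγ : 2 * TA P ≤ γ * 2 ^ P.L)
    (hk : 8 * ((ctlE P).card : ℝ) ^ 2 ≤ P.N)
    (he : x Idx.e = false) (hb : ∀ j, x (Idx.b j) = false) (ht : ∀ j, x (Idx.t j) = true)
    (hR : ∀ i, x (Idx.R i) = z (Idx.G i)) (hpat : ∀ i, pat P x i = P.enc 0 0 i)
    (hS : ∀ c, P.s1 ≤ poolWrong P z x c) : tb P z x ≤ FS P := by
  have h1 : ∀ y, rep P x y = cfg P z (fun c i => x (Idx.S c i)) 0 0 y := by
    intro y
    funext i
    cases i with
    | e => exact he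
    | b j => exact hb j
    | t j => exact ht j
    | G i =>
      simp only [rep, cfg]
      have h2 := hpat i
      unfold pat at h2
      rw [hR i] at h2
      rw [← h2]
      cases x (Idx.G i) <;> cases z (Idx.G i) <;> rfl
    | R i => exact hR i
    | S c i => rfl
    | M j => simp [rep, cfg]
  unfold tb
  simp_rw [h1]
  have h2 := sweep P z (fun c i => x (Idx.S c i)) γ hγ0 hγ1 hγ hk hS P.m 0 (by omega) 0 (by omega)
  unfold aa at h2
  refine h2.trans ?_
  unfold FS
  rw [pow_zero]
  linarith

open Classical in
noncomputable def VS (z x : P.St) : ℝ :=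
  if QS P z x then FS P + 440 * (mm P x + 1) else tb P z x

theorem tb_setup (z x : P.St) (γ : ℝ) (hγ0 : 0 ≤ γ) (hγ1 : γ ≤ 1)
    (hγ : 2 * TA P ≤ γ * 2 ^ P.L) (hk : 8 * ((ctlE P).card : ℝ) ^ 2 ≤ P.N)
    (hx : QS P z x) : tb P z x ≤ FS P + 440 * (mm P x + 1) := by
  have hmain := max_principle (X := P.St) (fun y => QS P z y)
    (fun y => (nrm P y).map (nx z y)) (tb P z) (VS P z) 54 55 (by norm_num)
    (by
      intro y hy
      rw [E_map]
      apply tb_normal P z y hy.1
      intro A hA
      by_cases h : ∃ i, pat P y i ≠ P.enc 0 0 i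
      · obtain ⟨i, _, hi⟩ := nrm_setup1 P y hy.2.1 hy.2.2.1 hy.2.2.2.1 h
        rw [hi] at hA
        exact MF_sop P _ (by simp) A hA
      · rw [nrm_setup2 P y hy.2.1 hy.2.2.1 hy.2.2.2.1 h] at hA
        exact MF_sop P _ (by simp) A hA)
    (by
      intro y hy
      obtain ⟨he, hb, ht, h6, hR, hS⟩ := hy
      have hQ : QS P z y := ⟨he, hb, ht, h6, hR, hS⟩
      have hS' : ∀ c, P.s1 ≤ poolWrong P z y c := fun c => by have := hS c; omega
      rw [E_map]
      have hVy : VS P z y = FS P + 440 * (mm P y + 1) := by unfold VS; rw [if_pos hQ]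
      by_cases h : ∃ i, pat P y i ≠ P.enc 0 0 i
      · obtain ⟨i, hi1, hi⟩ := nrm_setup1 P y hb ht h6 h
        rw [hi]
        have := sop_avg P z y (Idx.G i) (by simp) hS' (VS P z) (VS P z y) 440 (by norm_num)
          le_rfl (by
            intro c i'
            set y' := fl y {Idx.G i, Idx.S c i'} with hy'
            have hpat' : ∀ k, pat P y' k = if k = i then !(pat P y k) else pat P y k := by
              intro k
              unfold pat
              rw [hy', fl2_apply P y _ c i' (Idx.R k) (by simp) (by simp)]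
              by_cases hk : k = i
              · subst hk
                rw [fl2_dd, if_pos rfl]
                cases y (Idx.G k) <;> cases y (Idx.R k) <;> rfl
              · rw [fl2_apply P y _ c i' (Idx.G k) (by simpa using hk) (by simp), if_neg hk]
            have hmm : mm P y' + 1 = mm P y := by
              unfold mm
              have hset : univ.filter (fun k => pat P y' k ≠ P.enc 0 0 k)
                  = (univ.filter (fun k => pat P y k ≠ P.enc 0 0 k)).erase i := by
                ext k
                simp only [mem_filter, mem_univ, true_and, mem_erase]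
                rw [hpat' k]
                by_cases hk : k = i
                · subst hk
                  simp only [if_true, ne_eq, not_true_eq_false, false_and, iff_false, not_not]
                  revert hi1
                  cases pat P y k <;> cases P.enc 0 0 k <;> simp
                · simp [hk]
              rw [hset, Finset.card_erase_add_one]
              rw [Finset.mem_filter]
              exact ⟨Finset.mem_univ _, hi1⟩
            have hQ' : QS P z y' := by
              refine ⟨?_, ?_, ?_, ?_, ?_, ?_⟩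
              · rw [hy', fl2_apply P y _ c i' _ (by simp) (by simp)]; exact he
              · intro j; rw [hy', fl2_apply P y _ c i' _ (by simp) (by simp)]; exact hb j
              · intro j hj; rw [hy', fl2_apply P y _ c i' _ (by simp) (by simp)]; exact ht j hj
              · rw [hy', fl2_apply P y _ c i' _ (by simp) (by simp)]; exact h6
              · intro j; rw [hy', fl2_apply P y _ c i' _ (by simp) (by simp)]; exact hR j
              · intro c'
                have h1 := pool_fl P z y (Idx.G i) (by simp) c i' c'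
                have h2 := hS c'
                rw [← hy'] at h1
                omega
            rw [hVy]
            unfold VS
            rw [if_pos hQ', ← hmm]
            push_cast
            linarith)
        linarith
      · rw [nrm_setup2 P y hb ht h6 h]
        push Not at h
        have := sop_avg P z y (Idx.t 6) (by simp) hS' (VS P z) (VS P z y) 440 (by norm_num)
          le_rfl (by
            intro c i'
            set y' := fl y {Idx.t 6, Idx.S c i'} with hy'
            have h6' : y' (Idx.t 6) = true := by rw [hy', fl2_dd, h6]; rfl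
            have hnQ : ¬ QS P z y' := by
              rintro ⟨_, _, _, h7, _⟩; rw [h6'] at h7; simp at h7
            have htb : tb P z y' ≤ FS P := by
              apply tb_main P z y' γ hγ0 hγ1 hγ hk
              · rw [hy', fl2_apply P y _ c i' _ (by simp) (by simp)]; exact he
              · intro j; rw [hy', fl2_apply P y _ c i' _ (by simp) (by simp)]; exact hb j
              · intro j
                by_cases hj : j = 6
                · subst hj; exact h6'
                · rw [hy', fl2_apply P y _ c i' _ (by simpa using hj) (by simp)]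
                  apply ht j
                  have := j.isLt
                  have : j.val ≠ 6 := fun hh => hj (Fin.ext hh)
                  omega
              · intro j; rw [hy', fl2_apply P y _ c i' _ (by simp) (by simp)]; exact hR j
              · intro k
                unfold pat
                rw [hy', fl2_apply P y _ c i' (Idx.R k) (by simp) (by simp),
                  fl2_apply P y _ c i' (Idx.G k) (by simp) (by simp)]
                exact h k
              · intro c'
                have h1 := pool_fl P z y (Idx.t 6) (by simp) c i' c'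
                have h2 := hS c'
                rw [← hy'] at h1
                omega
            rw [hVy]
            unfold VS
            rw [if_neg hnQ]
            have : (0 : ℝ) ≤ mm P y := Nat.cast_nonneg _
            linarith)
        linarith)
    (by
      intro y hy
      unfold VS
      rw [if_neg hy]) x
  refine hmain.trans ?_
  unfold VS
  rw [if_pos hx]

end Pool.Agent.Helper116.Alg
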