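import Mathlib
import Pool.Agent.Helper116.B5

set_option autoImplicit false
set_option linter.unusedSectionVars false

open scoped BigOperators ENNReal
open Finset

namespace Pool.Agent.Helper116.Alg

open Pool.Agent.Helper116.Chain

lemma E_unif {A : Type} [Fintype A] (s : Finset A) (hs : s.Nonempty)
    (F : A → ℝ) : E (PMF.uniformOfFinset s hs) F = (∑ a ∈ s, F a) / s.card := by
  classical
  rw [E, Finset.sum_div, ← Finset.sum_subset (Finset.subset_univ s)]
  · refine Finset.sum_congr rfl (fun a ha => ?_)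
    rw [PMF.uniformOfFinset_apply_of_mem hs ha]
    simp [div_eq_inv_mul]
  · intro a _ ha
    rw [PMF.uniformOfFinset_apply_of_notMem hs ha]
    simp

variable (P : Par)

def wG (z x : P.St) : ℕ := (univ.filter (fun i => x (Idx.G i) ≠ z (Idx.G i))).card
def mis (x : P.St) : ℕ := (univ.filter (fun i => x (Idx.R i) ≠ x (Idx.G i))).card
def uI (z x : P.St) : ℕ := 2 * wG P z x + mis P x
def tau (x : P.St) : ℕ := (univ.filter (fun j : Fin 7 => j.val < 6 ∧ x (Idx.t j) = false)).card

def QI (z x : P.St) : Prop :=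
  x Idx.e = false ∧ (∀ j, x (Idx.b j) = false) ∧ x (Idx.t 6) = false ∧
  (∃ j : Fin 7, j.val < 6 ∧ x (Idx.t j) = false) ∧
  (∀ c, P.s1 + uI P z x + tau P x + P.g + 1 ≤ poolWrong P z x c)

noncomputable def rhoI (τ : ℕ) : ℝ := TA P * (32 * P.g / P.N) ^ τ

noncomputable def psiI (u τ : ℕ) : ℝ :=
  FS P + 440 * (P.g + 1) + 440 * P.N * τ + u * rhoI P τ

open Classical in
noncomputable def VI (z x : P.St) : ℝ :=
  if QI P z x then psiI P (uI P z x) (tau P x) else tb P z x

lemma g_pos : (0 : ℝ) < P.g := by exact_mod_cast P.hg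

lemma rhoI_nonneg (τ : ℕ) : 0 ≤ rhoI P τ := by
  unfold rhoI
  have := TA_pos P
  have := g_pos P
  have := P.N0
  positivity

lemma rhoI_succ (τ : ℕ) : rhoI P (τ + 1) = 32 * P.g / P.N * rhoI P τ := by
  unfold rhoI
  rw [pow_succ]; ring

lemma psiI_mono_u (u u' τ : ℕ) (h : u' ≤ u) : psiI P u' τ ≤ psiI P u τ := by
  unfold psiI
  have h1 : (u' : ℝ) ≤ u := by exact_mod_cast h
  have := mul_le_mul_of_nonneg_right h1 (rhoI_nonneg P τ)
  linarith

lemma psiI_drop (u τ : ℕ) : psiI P u τ = psiI P (u + 1) τ - rhoI P τ := by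
  unfold psiI
  push_cast
  ring

lemma tau_fl (x : P.St) (j : Fin 7) (hj : j.val < 6) (hx : x (Idx.t j) = false)
    (c : Fin 6) (i : Fin (8 * P.s1)) :
    tau P (fl x {Idx.t j, Idx.S c i}) + 1 = tau P x := by
  unfold tau
  have hset : univ.filter (fun k : Fin 7 => k.val < 6 ∧ fl x {Idx.t j, Idx.S c i} (Idx.t k) = false)
      = (univ.filter (fun k : Fin 7 => k.val < 6 ∧ x (Idx.t k) = false)).erase j := by
    ext k
    simp only [mem_filter, mem_univ, true_and, mem_erase]
    by_cases hk : k = j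
    · subst hk
      rw [fl2_dd, hx]
      simp
    · rw [fl2_apply P x _ c i (Idx.t k) (by simpa using hk) (by simp)]
      simp [hk]
  rw [hset, Finset.card_erase_add_one]
  rw [Finset.mem_filter]
  exact ⟨Finset.mem_univ _, hj, hx⟩

/-- state after a successful timer operation -/
lemma VI_t (z x : P.St) (γ : ℝ) (hγ0 : 0 ≤ γ) (hγ1 : γ ≤ 1)
    (hγ : 2 * TA P ≤ γ * 2 ^ P.L) (hk : 8 * ((ctlE P).card : ℝ) ^ 2 ≤ P.N)
    (hQ : QI P z x) (j : Fin 7) (hj : j.val < 6) (hx : x (Idx.t j) = false)
    (c : Fin 6) (i : Fin (8 * P.s1)) (τ : ℕ) (hτ : tau P x = τ + 1) :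
    VI P z (fl x {Idx.t j, Idx.S c i}) ≤ psiI P (uI P z x) τ := by
  obtain ⟨he, hb, h6, hex, hS⟩ := hQ
  set y := fl x {Idx.t j, Idx.S c i} with hy
  have hτ' : tau P y = τ := by
    have := tau_fl P x j hj hx c i
    rw [← hy] at this
    omega
  have hG : ∀ k, y (Idx.G k) = x (Idx.G k) := fun k => by
    rw [hy, fl2_apply P x _ c i _ (by simp) (by simp)]
  have hR : ∀ k, y (Idx.R k) = x (Idx.R k) := fun k => by
    rw [hy, fl2_apply P x _ c i _ (by simp) (by simp)]
  have hu : uI P z y = uI P z x := by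
    unfold uI wG mis
    simp only [hG, hR]
  have he' : y Idx.e = false := by
    rw [hy, fl2_apply P x _ c i _ (by simp) (by simp)]; exact he
  have hb' : ∀ k, y (Idx.b k) = false := fun k => by
    rw [hy, fl2_apply P x _ c i _ (by simp) (by simp)]; exact hb k
  have h6' : y (Idx.t 6) = false := by
    rw [hy, fl2_apply P x _ c i _ ?_ (by simp)]
    · exact h6
    · intro h
      injection h with h
      rw [← h] at hj
      simp at hj
  have hS' : ∀ c', P.s1 + uI P z x + τ + P.g + 1 ≤ poolWrong P z y c' := by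
    intro c'
    have h1 := pool_fl P z x (Idx.t j) (by simp) c i c'
    have h2 := hS c'
    rw [← hy] at h1
    omega
  by_cases hQy : QI P z y
  · unfold VI
    rw [if_pos hQy, hu, hτ']
  · have hall : ∀ k : Fin 7, k.val < 6 → y (Idx.t k) = true := by
      by_contra hcon
      push Not at hcon
      obtain ⟨k, hk1, hk2⟩ := hcon
      apply hQy
      refine ⟨he', hb', h6', ⟨k, hk1, by simpa using hk2⟩, ?_⟩
      intro c'
      rw [hu, hτ']
      exact hS' c'
    have hτ0 : τ = 0 := by
      rw [← hτ']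
      unfold tau
      rw [Finset.card_eq_zero, Finset.filter_eq_empty_iff]
      rintro k _ ⟨hk1, hk2⟩
      rw [hall k hk1] at hk2
      simp at hk2
    subst hτ0
    unfold VI
    rw [if_neg hQy]
    by_cases hu0 : uI P z x = 0
    · have h1 : wG P z x = 0 := by unfold uI at hu0; omega
      have h2 : mis P x = 0 := by unfold uI at hu0; omega
      unfold wG at h1
      unfold mis at h2
      rw [Finset.card_eq_zero, Finset.filter_eq_empty_iff] at h1 h2
      have hmm : mm P y ≤ P.g := by
        unfold mm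
        calc _ ≤ (univ : Finset (Fin P.g)).card := Finset.card_le_card (Finset.filter_subset _ _)
          _ = P.g := by simp
      have hQS : QS P z y := by
        refine ⟨he', hb', hall, h6', ?_, ?_⟩
        · intro k
          have h3 := h1 (Finset.mem_univ k)
          have h4 := h2 (Finset.mem_univ k)
          push Not at h3 h4
          rw [hR, h4, h3]
        · intro c'
          have := hS' c'
          omega
      have h5 := tb_setup P z y γ hγ0 hγ1 hγ hk hQS
      unfold psiI
      have h6 : (mm P y : ℝ) ≤ P.g := by exact_mod_cast hmm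
      rw [hu0]
      push_cast
      linarith
    · have h1 := tb_le P z y
      have h2 : (1 : ℝ) ≤ uI P z x := by exact_mod_cast Nat.one_le_iff_ne_zero.mpr hu0
      unfold psiI
      have h3 : rhoI P 0 = TA P := by unfold rhoI; simp
      rw [h3]
      have h4 := TA_pos P
      have h5 := FS_nonneg P
      have h6 := g_pos P
      push_cast
      nlinarith

/-- `G` flips -/
lemma VI_G (z x : P.St) (hQ : QI P z x) (i : Fin P.g) :
    VI P z (nx z x {Idx.G i}) ≤ VI P z x ∧
    (x (Idx.G i) ≠ z (Idx.G i) → VI P z (nx z x {Idx.G i}) ≤ VI P z x - rhoI P (tau P x)) := by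
  have hVx : VI P z x = psiI P (uI P z x) (tau P x) := by unfold VI; rw [if_pos hQ]
  by_cases hi : x (Idx.G i) = z (Idx.G i)
  · rw [nx_singleton, if_pos hi]
    exact ⟨le_rfl, fun h => absurd hi h⟩
  · obtain ⟨he, hb, h6, hex, hS⟩ := hQ
    have hρ := rhoI_nonneg P (tau P x)
    have key : VI P z (nx z x {Idx.G i}) ≤ VI P z x - rhoI P (tau P x) := by
      rw [nx_singleton, if_neg hi]
      set y := fl x {Idx.G i} with hy
      have hap : ∀ k : P.I, k ≠ Idx.G i → y k = x k := by
        intro k hk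
        rw [hy, fl_notMem _ _ _ (by simpa using hk)]
      have hGi : y (Idx.G i) = !(x (Idx.G i)) := by rw [hy, fl_mem _ _ _ (by simp)]
      have hτ : tau P y = tau P x := by
        unfold tau
        simp only [hap (Idx.t _) (by simp)]
      have hwG : wG P z y + 1 = wG P z x := by
        unfold wG
        have hset : univ.filter (fun k => y (Idx.G k) ≠ z (Idx.G k))
            = (univ.filter (fun k => x (Idx.G k) ≠ z (Idx.G k))).erase i := by
          ext k
          simp only [mem_filter, mem_univ, true_and, mem_erase]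
          by_cases hk : k = i
          · subst hk
            rw [hGi]
            simp only [ne_eq, not_true_eq_false, false_and, iff_false, not_not]
            revert hi
            cases x (Idx.G k) <;> cases z (Idx.G k) <;> simp
          · rw [hap (Idx.G k) (by simpa using hk)]
            simp [hk]
        rw [hset, Finset.card_erase_add_one]
        rw [Finset.mem_filter]
        exact ⟨Finset.mem_univ _, hi⟩
      have hmis : mis P y ≤ mis P x + 1 := by
        unfold mis
        have hsub : univ.filter (fun k => y (Idx.R k) ≠ y (Idx.G k))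
            ⊆ insert i (univ.filter (fun k => x (Idx.R k) ≠ x (Idx.G k))) := by
          intro k hk
          by_cases hki : k = i
          · subst hki; exact Finset.mem_insert_self _ _
          · apply Finset.mem_insert_of_mem
            rw [Finset.mem_filter] at hk ⊢
            refine ⟨Finset.mem_univ _, ?_⟩
            have := hk.2
            rwa [hap (Idx.R k) (by simp), hap (Idx.G k) (by simpa using hki)] at this
        exact (Finset.card_le_card hsub).trans (Finset.card_insert_le _ _)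
      have hu : uI P z y + 1 ≤ uI P z x := by unfold uI; omega
      have hpool : ∀ c, poolWrong P z y c = poolWrong P z x c := fun c =>
        pool_congr P z x y c (fun k => hap _ (by simp))
      have hQy : QI P z y := by
        refine ⟨?_, ?_, ?_, ?_, ?_⟩
        · rw [hap _ (by simp)]; exact he
        · intro k; rw [hap _ (by simp)]; exact hb k
        · rw [hap _ (by simp)]; exact h6
        · obtain ⟨k, hk1, hk2⟩ := hex
          exact ⟨k, hk1, by rw [hap _ (by simp)]; exact hk2⟩
        · intro c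
          rw [hpool c, hτ]
          have := hS c
          omega
      rw [hVx]
      unfold VI
      rw [if_pos hQy, hτ]
      obtain ⟨u, hu'⟩ : ∃ u, uI P z x = u + 1 := ⟨uI P z x - 1, by omega⟩
      rw [hu', ← psiI_drop]
      exact psiI_mono_u P _ _ _ (by omega)
    refine ⟨by linarith, fun _ => key⟩

/-- `R` operations -/
lemma VI_R (z x : P.St) (hQ : QI P z x) (i : Fin P.g) (hi : x (Idx.R i) ≠ x (Idx.G i))
    (c : Fin 6) (i' : Fin (8 * P.s1)) :
    VI P z (fl x {Idx.R i, Idx.S c i'}) ≤ VI P z x - rhoI P (tau P x) := by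
  have hVx : VI P z x = psiI P (uI P z x) (tau P x) := by unfold VI; rw [if_pos hQ]
  obtain ⟨he, hb, h6, hex, hS⟩ := hQ
  set y := fl x {Idx.R i, Idx.S c i'} with hy
  have hap : ∀ k : P.I, k ≠ Idx.R i → (∀ c i, k ≠ Idx.S c i) → y k = x k := by
    intro k hk hk2
    rw [hy, fl2_apply P x _ c i' _ hk hk2]
  have hRi : y (Idx.R i) = !(x (Idx.R i)) := by rw [hy, fl2_dd]
  have hτ : tau P y = tau P x := by
    unfold tau
    simp only [hap (Idx.t _) (by simp) (by simp)]
  have hwG : wG P z y = wG P z x := by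
    unfold wG
    simp only [hap (Idx.G _) (by simp) (by simp)]
  have hmis : mis P y + 1 = mis P x := by
    unfold mis
    have hset : univ.filter (fun k => y (Idx.R k) ≠ y (Idx.G k))
        = (univ.filter (fun k => x (Idx.R k) ≠ x (Idx.G k))).erase i := by
      ext k
      simp only [mem_filter, mem_univ, true_and, mem_erase]
      by_cases hk : k = i
      · subst hk
        rw [hRi, hap (Idx.G k) (by simp) (by simp)]
        simp only [ne_eq, not_true_eq_false, false_and, iff_false, not_not]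
        revert hi
        cases x (Idx.G k) <;> cases x (Idx.R k) <;> simp
      · rw [hap (Idx.R k) (by simpa using hk) (by simp), hap (Idx.G k) (by simp) (by simp)]
        simp [hk]
    rw [hset, Finset.card_erase_add_one]
    rw [Finset.mem_filter]
    exact ⟨Finset.mem_univ _, hi⟩
  have hu : uI P z y + 1 = uI P z x := by unfold uI; omega
  have hQy : QI P z y := by
    refine ⟨?_, ?_, ?_, ?_, ?_⟩
    · rw [hap _ (by simp) (by simp)]; exact he
    · intro k; rw [hap _ (by simp) (by simp)]; exact hb k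
    · rw [hap _ (by simp) (by simp)]; exact h6
    · obtain ⟨k, hk1, hk2⟩ := hex
      exact ⟨k, hk1, by rw [hap _ (by simp) (by simp)]; exact hk2⟩
    · intro c'
      rw [hτ]
      have h1 := pool_fl P z x (Idx.R i) (by simp) c i' c'
      rw [← hy] at h1
      have := hS c'
      omega
  rw [hVx]
  unfold VI
  rw [if_pos hQy, hτ, ← hu, ← psiI_drop]

lemma nrm_init (x : P.St) (hb : ∀ j, x (Idx.b j) = false)
    (hex : ∃ j : Fin 7, j.val < 6 ∧ x (Idx.t j) = false) :
    ∃ j : Fin 7, j.val < 6 ∧ x (Idx.t j) = false ∧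
      nrm P x = mix P.r1 P.r1_le (sop P (Idx.t j))
      (mix (1 / 2) half_le (uf univ (g_ne P) (fun i => {Idx.G i}))
        ((PMF.uniformOfFinset univ (g_ne P)).bind (fun i =>
          if x (Idx.R i) = x (Idx.G i) then PMF.pure ∅ else sop P (Idx.R i)))) := by
  refine ⟨hex.choose, hex.choose_spec.1, hex.choose_spec.2, ?_⟩
  unfold nrm
  rw [if_neg (by push Not; intro j; rw [hb j]; simp)]
  rw [dif_pos hex]

lemma supp_bind {A B : Type} (p : PMF A) (f : A → PMF B) (b : B) (h : (p.bind f) b ≠ 0) :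
    ∃ a, f a b ≠ 0 := by
  have := (PMF.mem_support_bind_iff _ _ b).mp h
  obtain ⟨a, _, ha⟩ := this
  exact ⟨a, ha⟩

lemma MF_init (z x : P.St) (hQ : QI P z x) (A : Finset P.I) (h : nrm P x A ≠ 0) : MF P A := by
  obtain ⟨j, _, _, hj⟩ := nrm_init P x hQ.2.1 hQ.2.2.2.1
  rw [hj] at h
  rcases supp_mix _ _ _ _ _ h with h1 | h1
  · exact MF_sop P _ (by simp) A h1
  · rcases supp_mix _ _ _ _ _ h1 with h2 | h2
    · obtain ⟨a, rfl⟩ := supp_uf _ _ _ _ h2
      intro k hk
      simp at hk
    · obtain ⟨i, hi⟩ := supp_bind _ _ _ h2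
      split_ifs at hi with h3
      · have : A = ∅ := by
          by_contra hne
          exact hi (by rw [PMF.pure_apply, if_neg hne])
        subst this
        intro k hk
        simp at hk
      · exact MF_sop P _ (by simp) A hi

lemma drift_arith (N g w m ρ ρ' V a b c : ℝ) (hN : 2 ≤ N) (hg : 0 < g) (hw : 0 ≤ w) (hm : 0 ≤ m)
    (hρ : 0 ≤ ρ) (hrho : ρ' = 32 * g / N * ρ)
    (h1 : a ≤ V + (2 * w + m) * ρ - 440 * N / 8) (h2 : b ≤ V - w * ρ' / g)
    (h3 : c ≤ V - m * (ρ' / 8) / g) :
    55 + (1 / N * a + (1 - 1 / N) * (1 / 2 * b + (1 - 1 / 2) * c)) ≤ V := by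
  have hN0 : 0 < N := by linarith
  have e2 : w * ρ' / g = 32 * (w * ρ / N) := by rw [hrho]; field_simp
  have e3 : m * (ρ' / 8) / g = 4 * (m * ρ / N) := by rw [hrho]; field_simp; ring
  rw [e2] at h2
  rw [e3] at h3
  have hX : 0 ≤ w * ρ / N := by positivity
  have hY : 0 ≤ m * ρ / N := by positivity
  have h9 : 1 / N * a ≤ 1 / N * V + (2 * (w * ρ / N) + m * ρ / N) - 55 := by
    have : 1 / N * a ≤ 1 / N * (V + (2 * w + m) * ρ - 440 * N / 8) :=
      mul_le_mul_of_nonneg_left h1 (by positivity)
    refine this.trans (le_of_eq ?_)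
    field_simp
    ring
  have h10 : 1 / N ≤ 1 / 2 := one_div_le_one_div_of_le (by norm_num) hN
  have h11 : (1 - 1 / N) * (1 / 2 * b + (1 - 1 / 2) * c)
      ≤ (1 - 1 / N) * (V - (16 * (w * ρ / N) + 2 * (m * ρ / N))) :=
    mul_le_mul_of_nonneg_left (by linarith) (by linarith)
  have h12 : 1 / 2 * (16 * (w * ρ / N) + 2 * (m * ρ / N)) ≤
      (1 - 1 / N) * (16 * (w * ρ / N) + 2 * (m * ρ / N)) :=
    mul_le_mul_of_nonneg_right (by linarith) (by positivity)
  have h13 : (1 - 1 / N) * (V - (16 * (w * ρ / N) + 2 * (m * ρ / N)))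
      = V - 1 / N * V - (1 - 1 / N) * (16 * (w * ρ / N) + 2 * (m * ρ / N)) := by ring
  linarith

lemma VI_drift (z x : P.St) (γ : ℝ) (hγ0 : 0 ≤ γ) (hγ1 : γ ≤ 1)
    (hγ : 2 * TA P ≤ γ * 2 ^ P.L) (hk : 8 * ((ctlE P).card : ℝ) ^ 2 ≤ P.N)
    (hQ : QI P z x) : 55 + E (nrm P x) (fun A => VI P z (nx z x A)) ≤ VI P z x := by
  classical
  obtain ⟨j, hj, hxj, hn⟩ := nrm_init P x hQ.2.1 hQ.2.2.2.1
  have hVx : VI P z x = psiI P (uI P z x) (tau P x) := by unfold VI; rw [if_pos hQ]
  have hS1 : ∀ c, P.s1 ≤ poolWrong P z x c := fun c => by have := hQ.2.2.2.2 c; omega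
  have hτpos : 0 < tau P x := by
    unfold tau
    exact Finset.card_pos.mpr ⟨j, by rw [Finset.mem_filter]; exact ⟨Finset.mem_univ _, hj, hxj⟩⟩
  obtain ⟨τ, hτ⟩ : ∃ τ, tau P x = τ + 1 := ⟨tau P x - 1, by omega⟩
  have hN := P.N2
  have hN0 := P.N0
  have hg := g_pos P
  have hρ := rhoI_nonneg P τ
  have hρ' := rhoI_nonneg P (tau P x)
  have hu0 : (0 : ℝ) ≤ uI P z x := Nat.cast_nonneg _
  rw [hn, E_mix, E_mix, E_uf, E_bind, E_unif]
  -- timer part
  have h1 := sop_avg P z x (Idx.t j) (by simp) hS1 (VI P z)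
    (VI P z x + uI P z x * rhoI P τ) (440 * P.N) (by positivity)
    (by have := mul_nonneg hu0 hρ; linarith)
    (by
      intro c i
      refine (VI_t P z x γ hγ0 hγ1 hγ hk hQ j hj hxj c i τ hτ).trans ?_
      rw [hVx, hτ]
      unfold psiI
      have := mul_nonneg hu0 (rhoI_nonneg P (τ + 1))
      push_cast
      nlinarith)
  -- G part
  have h2 := avg_drop (univ : Finset (Fin P.g)) (g_ne P) (fun i => VI P z (nx z x {Idx.G i}))
    (VI P z x) (rhoI P (tau P x)) (univ.filter (fun i => x (Idx.G i) ≠ z (Idx.G i)))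
    (Finset.filter_subset _ _) (fun i _ => (VI_G P z x hQ i).1)
    (fun i hi => (VI_G P z x hQ i).2 (Finset.mem_filter.mp hi).2)
  -- R part
  have h3 := avg_drop (univ : Finset (Fin P.g)) (g_ne P)
    (fun i => E (if x (Idx.R i) = x (Idx.G i) then PMF.pure ∅ else sop P (Idx.R i))
      (fun A => VI P z (nx z x A)))
    (VI P z x) (rhoI P (tau P x) / 8) (univ.filter (fun i => x (Idx.R i) ≠ x (Idx.G i)))
    (Finset.filter_subset _ _)
    (by
      intro i _
      beta_reduce
      split_ifs with h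
      · rw [E_pure, nx_empty]
      · have := sop_avg P z x (Idx.R i) (by simp) hS1 (VI P z) (VI P z x) (rhoI P (tau P x)) hρ'
          le_rfl (fun c i' => VI_R P z x hQ i h c i')
        linarith)
    (by
      intro i hi
      have h := (Finset.mem_filter.mp hi).2
      beta_reduce
      rw [if_neg h]
      exact sop_avg P z x (Idx.R i) (by simp) hS1 (VI P z) (VI P z x) (rhoI P (tau P x)) hρ'
          le_rfl (fun c i' => VI_R P z x hQ i h c i'))
  have hcard : ((univ : Finset (Fin P.g)).card : ℝ) = P.g := by simp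
  rw [hcard] at h2 h3 ⊢
  have hwG : ((univ.filter (fun i => x (Idx.G i) ≠ z (Idx.G i))).card : ℝ) = wG P z x := rfl
  have hmis : ((univ.filter (fun i => x (Idx.R i) ≠ x (Idx.G i))).card : ℝ) = mis P x := rfl
  rw [hwG] at h2
  rw [hmis] at h3
  have hhalf : (((1 / 2 : NNReal)) : ℝ) = 1 / 2 := by push_cast; rfl
  rw [hhalf, P.r1R]
  have hrho : rhoI P (tau P x) = 32 * P.g / P.N * rhoI P τ := by rw [hτ, rhoI_succ]
  have h4 : (uI P z x : ℝ) = 2 * wG P z x + mis P x := by unfold uI; push_cast; ring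
  rw [h4] at h1
  exact drift_arith P.N P.g (wG P z x) (mis P x) (rhoI P τ) (rhoI P (tau P x)) (VI P z x)
    _ _ _ hN hg (Nat.cast_nonneg _) (Nat.cast_nonneg _) hρ hrho h1 h2 h3

theorem tb_init (z x : P.St) (γ : ℝ) (hγ0 : 0 ≤ γ) (hγ1 : γ ≤ 1)
    (hγ : 2 * TA P ≤ γ * 2 ^ P.L) (hk : 8 * ((ctlE P).card : ℝ) ^ 2 ≤ P.N)
    (hx : QI P z x) : tb P z x ≤ psiI P (uI P z x) (tau P x) := by
  have hmain := max_principle (X := P.St) (fun y => QI P z y)
    (fun y => (nrm P y).map (nx z y)) (tb P z) (VI P z) 54 55 (by norm_num)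
    (by
      intro y hy
      rw [E_map]
      exact tb_normal P z y hy.1 (fun A hA => MF_init P z y hy A hA))
    (by
      intro y hy
      rw [E_map]
      exact VI_drift P z y γ hγ0 hγ1 hγ hk hy)
    (by
      intro y hy
      unfold VI
      rw [if_neg hy]) x
  refine hmain.trans ?_
  unfold VI
  rw [if_pos hx]

end Pool.Agent.Helper116.Alg
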