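import Mathlib
import Pool.Agent.Helper116.B6

set_option autoImplicit false
set_option linter.unusedSectionVars false

open scoped BigOperators ENNReal
open Finset

namespace Pool.Agent.Helper116.Alg

open Pool.Agent.Helper116.Chain

/-- Chernoff-type count for one pool -/
lemma bad_card (s1 : ℕ) (ζ : Fin (8 * s1) → Bool) :
    ((univ.filter (fun t : Fin (8 * s1) → Bool =>
      (univ.filter (fun i => t i ≠ ζ i)).card < 2 * s1)).card : ℝ) ≤ 128 ^ s1 := by
  have h1 : ∀ t : Fin (8 * s1) → Bool, ∏ i, (if t i ≠ ζ i then (1 / 3 : ℝ) else 1)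
      = (1 / 3) ^ (univ.filter (fun i => t i ≠ ζ i)).card := by
    intro t
    rw [Finset.prod_ite, Finset.prod_const, Finset.prod_const_one, mul_one]
  have h2 : ∑ t : Fin (8 * s1) → Bool, ∏ i, (if t i ≠ ζ i then (1 / 3 : ℝ) else 1)
      = (4 / 3) ^ (8 * s1) := by
    have h3 := Finset.prod_univ_sum (fun _ : Fin (8 * s1) => (univ : Finset Bool))
      (fun i b => if b ≠ ζ i then (1 / 3 : ℝ) else 1)
    rw [Fintype.piFinset_univ] at h3
    rw [← h3]
    have h4 : ∀ i : Fin (8 * s1), ∑ b : Bool, (if b ≠ ζ i then (1 / 3 : ℝ) else 1) = 4 / 3 := by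
      intro i
      rw [Fintype.sum_bool]
      cases ζ i <;> norm_num
    rw [Finset.prod_congr rfl (fun i _ => h4 i), Finset.prod_const]
    simp
  calc ((univ.filter (fun t : Fin (8 * s1) → Bool =>
      (univ.filter (fun i => t i ≠ ζ i)).card < 2 * s1)).card : ℝ)
      = ∑ t ∈ univ.filter (fun t : Fin (8 * s1) → Bool =>
      (univ.filter (fun i => t i ≠ ζ i)).card < 2 * s1), (1 : ℝ) := by simp
    _ ≤ ∑ t ∈ univ.filter (fun t : Fin (8 * s1) → Bool =>
      (univ.filter (fun i => t i ≠ ζ i)).card < 2 * s1),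
        9 ^ s1 * ∏ i, (if t i ≠ ζ i then (1 / 3 : ℝ) else 1) := by
      apply Finset.sum_le_sum
      intro t ht
      rw [Finset.mem_filter] at ht
      rw [h1]
      have h5 : (1 / 3 : ℝ) ^ (2 * s1) ≤ (1 / 3) ^ (univ.filter (fun i => t i ≠ ζ i)).card :=
        pow_le_pow_of_le_one (by norm_num) (by norm_num) ht.2.le
      have h6 : (9 : ℝ) ^ s1 * (1 / 3) ^ (2 * s1) = 1 := by
        rw [pow_mul, ← mul_pow]; norm_num
      calc (1 : ℝ) = (9 : ℝ) ^ s1 * (1 / 3) ^ (2 * s1) := h6.symm
        _ ≤ _ := mul_le_mul_of_nonneg_left h5 (by positivity)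
    _ ≤ ∑ t : Fin (8 * s1) → Bool, 9 ^ s1 * ∏ i, (if t i ≠ ζ i then (1 / 3 : ℝ) else 1) := by
      apply Finset.sum_le_sum_of_subset_of_nonneg (Finset.filter_subset _ _)
      intro t _ _
      rw [h1]
      positivity
    _ = 9 ^ s1 * (4 / 3) ^ (8 * s1) := by rw [← Finset.mul_sum, h2]
    _ = (9 * (4 / 3) ^ 8) ^ s1 := by rw [pow_mul, mul_pow]
    _ ≤ 128 ^ s1 := by
      apply pow_le_pow_left₀ (by positivity)
      norm_num

variable (P : Par)

/-- pool settings -/
abbrev Par.Sp (P : Par) : Type := Fin 6 → Fin (8 * P.s1) → Bool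

/-- initial state with pools `s` -/
def x0 (s : P.Sp) : P.St :=
  fun i => match i with
    | .S c i => s c i
    | _ => false

noncomputable def init0 : PMF P.St :=
  (PMF.uniformOfFintype (P.Sp × (Fin P.m → Bool))).map (fun sy => rep P (x0 P sy.1) sy.2)

lemma card_Sp : (Fintype.card P.Sp : ℝ) = (256 ^ P.s1) ^ 6 := by
  rw [Fintype.card_fun, Fintype.card_fun, Fintype.card_bool, Fintype.card_fin, Fintype.card_fin]
  push_cast
  rw [pow_mul]
  norm_num

lemma E_init0 (F : P.St → ℝ) : E (init0 P) F =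
    (∑ s : P.Sp, av P (fun y => F (rep P (x0 P s) y))) / Fintype.card P.Sp := by
  unfold init0
  rw [E_map, E_uniform, Fintype.sum_prod_type, Fintype.card_prod]
  unfold av
  rw [← Finset.sum_div, div_div]
  congr 1
  rw [mul_comm]
  push_cast
  simp

lemma bad_pool_card (z : P.St) (c : Fin 6) :
    ((univ.filter (fun s : P.Sp => poolWrong P z (x0 P s) c < 2 * P.s1)).card : ℝ)
      ≤ (256 ^ P.s1) ^ 6 * (1 / 2) ^ P.s1 := by
  have h1 : univ.filter (fun s : P.Sp => poolWrong P z (x0 P s) c < 2 * P.s1)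
      ⊆ Fintype.piFinset (fun c' : Fin 6 => univ.filter (fun t : Fin (8 * P.s1) → Bool =>
          c' = c → (univ.filter (fun i => t i ≠ z (Idx.S c i))).card < 2 * P.s1)) := by
    intro s hs
    rw [Fintype.mem_piFinset]
    intro c'
    rw [Finset.mem_filter]
    refine ⟨Finset.mem_univ _, ?_⟩
    rintro rfl
    exact (Finset.mem_filter.mp hs).2
  calc ((univ.filter (fun s : P.Sp => poolWrong P z (x0 P s) c < 2 * P.s1)).card : ℝ)
      ≤ ((Fintype.piFinset (fun c' : Fin 6 => univ.filter (fun t : Fin (8 * P.s1) → Bool =>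
          c' = c → (univ.filter (fun i => t i ≠ z (Idx.S c i))).card < 2 * P.s1))).card : ℝ) := by
        exact_mod_cast Finset.card_le_card h1
    _ = ∏ c' : Fin 6, ((univ.filter (fun t : Fin (8 * P.s1) → Bool =>
          c' = c → (univ.filter (fun i => t i ≠ z (Idx.S c i))).card < 2 * P.s1)).card : ℝ) := by
        rw [Fintype.card_piFinset]; push_cast; rfl
    _ ≤ ∏ c' : Fin 6, (256 ^ P.s1 * (if c' = c then (1 / 2 : ℝ) ^ P.s1 else 1)) := by
        apply Finset.prod_le_prod
        · intro c' _; positivity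
        · intro c' _
          by_cases hc : c' = c
          · subst hc
            simp only [forall_const, if_true]
            have := bad_card P.s1 (fun i => z (Idx.S c' i))
            refine this.trans (le_of_eq ?_)
            rw [← mul_pow]
            norm_num
          · rw [if_neg hc, mul_one]
            have h2 : ((univ.filter (fun t : Fin (8 * P.s1) → Bool =>
              c' = c → (univ.filter (fun i => t i ≠ z (Idx.S c i))).card < 2 * P.s1)).card : ℝ)
              ≤ ((univ : Finset (Fin (8 * P.s1) → Bool)).card : ℝ) := by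
              exact_mod_cast Finset.card_le_univ _
            refine h2.trans (le_of_eq ?_)
            rw [Finset.card_univ, Fintype.card_fun, Fintype.card_bool, Fintype.card_fin]
            push_cast
            rw [pow_mul]
            norm_num
    _ = (256 ^ P.s1) ^ 6 * (1 / 2) ^ P.s1 := by
        rw [Finset.prod_mul_distrib, Finset.prod_const, Finset.prod_ite_eq']
        simp

lemma QI_x0 (z : P.St) (s : P.Sp) (hs1 : 3 * P.g + 7 ≤ P.s1)
    (h : ∀ c, 2 * P.s1 ≤ poolWrong P z (x0 P s) c) :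
    QI P z (x0 P s) ∧ uI P z (x0 P s) ≤ 2 * P.g ∧ tau P (x0 P s) = 6 := by
  have hw : wG P z (x0 P s) ≤ P.g := by
    unfold wG
    calc _ ≤ (univ : Finset (Fin P.g)).card := Finset.card_le_card (Finset.filter_subset _ _)
      _ = P.g := by simp
  have hm : mis P (x0 P s) = 0 := by
    unfold mis
    rw [Finset.card_eq_zero, Finset.filter_eq_empty_iff]
    intro i _
    simp [x0]
  have hu : uI P z (x0 P s) ≤ 2 * P.g := by unfold uI; omega
  have hτ : tau P (x0 P s) = 6 := by
    unfold tau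
    have : univ.filter (fun j : Fin 7 => j.val < 6 ∧ x0 P s (Idx.t j) = false)
        = univ.filter (fun j : Fin 7 => j.val < 6) := by
      apply Finset.filter_congr
      intro j _
      simp [x0]
    rw [this]
    decide
  refine ⟨⟨rfl, fun _ => rfl, rfl, ⟨0, by norm_num, rfl⟩, ?_⟩, hu, hτ⟩
  intro c
  have := h c
  omega

noncomputable def BI : ℝ :=
  FS P + 440 * (P.g + 1) + 2640 * P.N + 2 * P.g * (TA P * (32 * P.g / P.N) ^ 6)

lemma BI_nonneg : 0 ≤ BI P := by
  unfold BI
  have := FS_nonneg P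
  have := TA_pos P
  have := P.N0
  have := g_pos P
  positivity

lemma tb_x0 (z : P.St) (s : P.Sp) (γ : ℝ) (hγ0 : 0 ≤ γ) (hγ1 : γ ≤ 1)
    (hγ : 2 * TA P ≤ γ * 2 ^ P.L) (hk : 8 * ((ctlE P).card : ℝ) ^ 2 ≤ P.N)
    (hs1 : 3 * P.g + 7 ≤ P.s1) :
    tb P z (x0 P s) ≤ BI P + ∑ c : Fin 6, if poolWrong P z (x0 P s) c < 2 * P.s1 then TA P else 0 := by
  have hT := TA_pos P
  by_cases h : ∀ c, 2 * P.s1 ≤ poolWrong P z (x0 P s) c
  · obtain ⟨hQ, hu, hτ⟩ := QI_x0 P z s hs1 h
    have h1 := tb_init P z (x0 P s) γ hγ0 hγ1 hγ hk hQ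
    have h2 := psiI_mono_u P (2 * P.g) _ (tau P (x0 P s)) hu
    have h3 : psiI P (2 * P.g) (tau P (x0 P s)) = BI P := by
      rw [hτ]
      unfold psiI BI rhoI
      push_cast
      ring
    have h4 : (0 : ℝ) ≤ ∑ c : Fin 6, if poolWrong P z (x0 P s) c < 2 * P.s1 then TA P else 0 := by
      apply Finset.sum_nonneg
      intro c _
      split_ifs
      · exact hT.le
      · exact le_refl _
    linarith
  · push Not at h
    obtain ⟨c, hc⟩ := h
    have h1 := tb_le P z (x0 P s)
    have h2 : TA P ≤ ∑ c : Fin 6, if poolWrong P z (x0 P s) c < 2 * P.s1 then TA P else 0 := by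
      calc TA P = if poolWrong P z (x0 P s) c < 2 * P.s1 then TA P else 0 := by rw [if_pos hc]
        _ ≤ _ := by
          apply Finset.single_le_sum (f := fun c : Fin 6 =>
            if poolWrong P z (x0 P s) c < 2 * P.s1 then TA P else 0) _ (Finset.mem_univ c)
          intro c _
          beta_reduce
          split_ifs
          · exact hT.le
          · exact le_refl _
    have := BI_nonneg P
    linarith

theorem E_init_tt (z : P.St) (γ : ℝ) (hγ0 : 0 ≤ γ) (hγ1 : γ ≤ 1)
    (hγ : 2 * TA P ≤ γ * 2 ^ P.L) (hk : 8 * ((ctlE P).card : ℝ) ^ 2 ≤ P.N)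
    (hs1 : 3 * P.g + 7 ≤ P.s1) :
    E (init0 P) (tt P z) ≤ BI P + 6 * TA P * (1 / 2) ^ P.s1 := by
  have hT := TA_pos P
  rw [E_init0]
  have hC : (0 : ℝ) < Fintype.card P.Sp := by rw [card_Sp]; positivity
  rw [div_le_iff₀ hC]
  calc ∑ s : P.Sp, av P (fun y => tt P z (rep P (x0 P s) y)) = ∑ s : P.Sp, tb P z (x0 P s) := rfl
    _ ≤ ∑ s : P.Sp, (BI P + ∑ c : Fin 6, if poolWrong P z (x0 P s) c < 2 * P.s1 then TA P else 0) :=
        Finset.sum_le_sum (fun s _ => tb_x0 P z s γ hγ0 hγ1 hγ hk hs1)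
    _ = Fintype.card P.Sp * BI P + ∑ c : Fin 6,
          ((univ.filter (fun s : P.Sp => poolWrong P z (x0 P s) c < 2 * P.s1)).card : ℝ) * TA P := by
        rw [Finset.sum_add_distrib, Finset.sum_const, Finset.card_univ, nsmul_eq_mul,
          Finset.sum_comm]
        congr 1
        refine Finset.sum_congr rfl (fun c _ => ?_)
        rw [← Finset.sum_filter, Finset.sum_const, nsmul_eq_mul]
    _ ≤ Fintype.card P.Sp * BI P + ∑ _c : Fin 6, ((256 ^ P.s1) ^ 6 * (1 / 2) ^ P.s1) * TA P := by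
        apply add_le_add le_rfl
        apply Finset.sum_le_sum
        intro c _
        exact mul_le_mul_of_nonneg_right (bad_pool_card P z c) hT.le
    _ = (BI P + 6 * TA P * (1 / 2) ^ P.s1) * Fintype.card P.Sp := by
        rw [card_Sp, Finset.sum_const, Finset.card_univ, Fintype.card_fin, nsmul_eq_mul]
        push_cast
        ring

end Pool.Agent.Helper116.Alg
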