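import Mathlib
import Pool.Agent.Helper116.B7

set_option autoImplicit false
set_option linter.unusedSectionVars false

open scoped BigOperators ENNReal
open Finset

namespace Pool.Agent.Helper116.Alg

open Pool.Agent.Helper116.Chain

def idxEquiv (m g s : ℕ) : Idx m g s ≃
    Unit ⊕ Fin 6 ⊕ Fin 7 ⊕ Fin g ⊕ Fin g ⊕ (Fin 6 × Fin s) ⊕ Fin m where
  toFun i := match i with
    | .e => Sum.inl ()
    | .b j => Sum.inr (Sum.inl j)
    | .t j => Sum.inr (Sum.inr (Sum.inl j))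
    | .G j => Sum.inr (Sum.inr (Sum.inr (Sum.inl j)))
    | .R j => Sum.inr (Sum.inr (Sum.inr (Sum.inr (Sum.inl j))))
    | .S c j => Sum.inr (Sum.inr (Sum.inr (Sum.inr (Sum.inr (Sum.inl (c, j))))))
    | .M j => Sum.inr (Sum.inr (Sum.inr (Sum.inr (Sum.inr (Sum.inr j)))))
  invFun i := match i with
    | Sum.inl _ => .e
    | Sum.inr (Sum.inl j) => .b j
    | Sum.inr (Sum.inr (Sum.inl j)) => .t j
    | Sum.inr (Sum.inr (Sum.inr (Sum.inl j))) => .G j
    | Sum.inr (Sum.inr (Sum.inr (Sum.inr (Sum.inl j)))) => .R j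
    | Sum.inr (Sum.inr (Sum.inr (Sum.inr (Sum.inr (Sum.inl cj))))) => .S cj.1 cj.2
    | Sum.inr (Sum.inr (Sum.inr (Sum.inr (Sum.inr (Sum.inr j))))) => .M j
  left_inv i := by cases i <;> rfl
  right_inv i := by
    rcases i with i | i | i | i | i | i | i <;> rfl

lemma card_Idx (m g s : ℕ) : Fintype.card (Idx m g s) = 14 + 2 * g + 6 * s + m := by
  rw [Fintype.card_congr (idxEquiv m g s)]
  simp only [Fintype.card_sum, Fintype.card_unit, Fintype.card_fin, Fintype.card_prod]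
  ring

/-- encoding of a position `p` and a level `l` -/
def encF (ν L : ℕ) (p l : ℕ) (i : Fin (ν + ν + L)) : Bool :=
  if i.val < ν then p.testBit i.val
  else if i.val < ν + ν then !(p.testBit (i.val - ν))
  else decide (l ≤ i.val - (ν + ν))

lemma encF_inj (ν L m : ℕ) (hm : m < 2 ^ ν) : ∀ p ≤ m, ∀ l ≤ L, ∀ p' ≤ m, ∀ l' ≤ L,
    encF ν L p l = encF ν L p' l' → p = p' ∧ l = l' := by
  intro p hp l hl p' hp' l' hl' h
  constructor
  · apply Nat.eq_of_testBit_eq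
    intro i
    by_cases hi : i < ν
    · have := congrFun h ⟨i, by omega⟩
      simpa [encF, hi] using this
    · rw [Nat.testBit_lt_two_pow, Nat.testBit_lt_two_pow]
      · calc p' < 2 ^ ν := by omega
          _ ≤ 2 ^ i := Nat.pow_le_pow_right (by norm_num) (by omega)
      · calc p < 2 ^ ν := by omega
          _ ≤ 2 ^ i := Nat.pow_le_pow_right (by norm_num) (by omega)
  · rcases lt_trichotomy l l' with h1 | h1 | h1
    · have := congrFun h ⟨ν + ν + l, by omega⟩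
      simp [encF, show ¬ (ν + ν + l < ν) by omega] at this
      omega
    · exact h1
    · have := congrFun h ⟨ν + ν + l', by omega⟩
      simp [encF, show ¬ (ν + ν + l' < ν) by omega] at this
      omega

lemma encF_wt (ν L p l : ℕ) (hl : l ≤ L) :
    (univ.filter (fun i => encF ν L p l i = true)).card + l = ν + L := by
  rw [Finset.card_filter, Fin.sum_univ_add, Fin.sum_univ_add]
  have h1 : ∀ i : Fin ν, (if encF ν L p l (Fin.castAdd L (Fin.castAdd ν i)) = true then 1 else 0)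
      = if p.testBit i.val = true then 1 else 0 := by
    intro i
    simp [encF]
  have h2 : ∀ i : Fin ν, (if encF ν L p l (Fin.castAdd L (Fin.natAdd ν i)) = true then 1 else 0)
      = if p.testBit i.val = true then 0 else 1 := by
    intro i
    have h0 : encF ν L p l (Fin.castAdd L (Fin.natAdd ν i)) = !(p.testBit i.val) := by
      unfold encF
      rw [if_neg (by simp), if_pos (by simp)]
      simp
    rw [h0]
    cases p.testBit i.val <;> simp
  have h3 : ∀ i : Fin L, (if encF ν L p l (Fin.natAdd (ν + ν) i) = true then 1 else 0)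
      = if l ≤ i.val then 1 else 0 := by
    intro i
    simp [encF, show ¬ (ν + ν + i.val < ν) by omega]
  rw [Finset.sum_congr rfl (fun i _ => h1 i), Finset.sum_congr rfl (fun i _ => h2 i),
    Finset.sum_congr rfl (fun i _ => h3 i), ← Finset.sum_add_distrib]
  have h4 : ∀ i : Fin ν, ((if p.testBit i.val = true then 1 else 0) +
      (if p.testBit i.val = true then 0 else 1)) = 1 := by
    intro i; split_ifs <;> rfl
  rw [Finset.sum_congr rfl (fun i _ => h4 i)]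
  have h5 : ∑ i : Fin L, (if l ≤ i.val then 1 else 0) = L - l := by
    rw [Fin.sum_univ_eq_sum_range (fun i => if l ≤ i then 1 else 0) L, ← Finset.sum_filter]
    have : (Finset.range L).filter (fun i => l ≤ i) = Finset.Ico l L := by
      ext i; simp [and_comm]
    rw [this]
    simp
  rw [h5]
  simp
  omega

/-- concrete parameters -/
def par (n ν : ℕ) (hν : 0 < ν) (h1 : 2416 * ν + 20 < n) (h2 : n < 2 ^ ν) : Par where
  m := n - (2416 * ν + 20)
  g := ν + ν + (6 * ν + 3)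
  s1 := 50 * ν
  L := 6 * ν + 3
  w := ν + (6 * ν + 3)
  enc := encF ν (6 * ν + 3)
  hm := by omega
  hg := by omega
  hs := by omega
  enc_inj := encF_inj ν (6 * ν + 3) _ (by omega)
  enc_wt := fun p _ l hl => encF_wt ν (6 * ν + 3) p l hl

lemma par_n (n ν : ℕ) (hν : 0 < ν) (h1 : 2416 * ν + 20 < n) (h2 : n < 2 ^ ν) :
    (par n ν hν h1 h2).n = n := by
  unfold Par.n
  rw [card_Idx]
  simp only [par]
  omega

lemma card_add_m (P : Par) (s : Finset P.I) (hs : ∀ j, Idx.M j ∉ s) : s.card + P.m ≤ P.n := by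
  have h1 : (univ.image (fun j : Fin P.m => (Idx.M j : P.I))).card = P.m := by
    rw [Finset.card_image_of_injective, Finset.card_univ, Fintype.card_fin]
    intro a b h
    injection h
  have h2 : Disjoint s (univ.image (fun j : Fin P.m => (Idx.M j : P.I))) := by
    rw [Finset.disjoint_left]
    intro i hi hi2
    rw [Finset.mem_image] at hi2
    obtain ⟨j, _, rfl⟩ := hi2
    exact hs j hi
  calc s.card + P.m = (s ∪ univ.image (fun j : Fin P.m => (Idx.M j : P.I))).card := by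
        rw [Finset.card_union_of_disjoint h2, h1]
    _ ≤ P.n := Finset.card_le_univ _

lemma final_arith (n k m g FMv G T : ℝ) (hn : 1 ≤ n) (hk : 1 ≤ k)
    (hbig : 2 ^ 33 * k ^ 7 ≤ n) (hm : m ≤ n) (hg : g ≤ k)
    (hFM : FMv ≤ n + 110 * k ^ 7 + 1980 * n + 128 * k ^ 7)
    (hG : G ≤ 2 ^ 32 * k ^ 7) (hT : T ≤ 12 * n) :
    (552 * m + 3 / 2 + (54 * 8 ^ 6 + FMv)) + 440 * (g + 1) + 2640 * n + G + T
      ≤ 20000000 * n := by
  have hk17 : k ≤ k ^ 7 := le_self_pow₀ hk (by norm_num)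
  have e1 : (2 : ℝ) ^ 33 = 8589934592 := by norm_num
  have e2 : (2 : ℝ) ^ 32 = 4294967296 := by norm_num
  have e3 : (8 : ℝ) ^ 6 = 262144 := by norm_num
  rw [e1] at hbig
  rw [e2] at hG
  rw [e3]
  linarith

theorem final_bound (P : Par) (n ν : ℕ) (h1 : 2416 * ν + 20 < n) (h2 : n < 2 ^ ν) (hν : 0 < ν)
    (hPn : P.n = n) (hm : P.m = n - (2416 * ν + 20)) (hg : P.g = 8 * ν + 3)
    (hs1 : P.s1 = 50 * ν) (hL : P.L = 6 * ν + 3)
    (hbig : (2 : ℝ) ^ 33 * (2416 * ν + 20) ^ 7 ≤ n) (z : P.St) :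
    E (init0 P) (tt P z) ≤ 20000000 * n := by
  have hN : P.N = n := by unfold Par.N; rw [hPn]
  have hE : (ctlE P).card ≤ 2416 * ν + 20 := by
    have := card_add_m P (ctlE P) (by
      intro j hj
      unfold ctlE at hj
      rw [Finset.mem_filter] at hj
      simp [isM] at hj)
    omega
  have hF : (ctlF P).card ≤ 2416 * ν + 20 := by
    have := card_add_m P (ctlF P) (by
      intro j hj
      unfold ctlF at hj
      rw [Finset.mem_filter] at hj
      simp [isM] at hj)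
    omega
  obtain ⟨k, hk⟩ : ∃ k : ℝ, k = 2416 * ν + 20 := ⟨_, rfl⟩
  rw [← hk] at hbig
  have hk1 : (1 : ℝ) ≤ k := by
    have : (0 : ℝ) ≤ ν := Nat.cast_nonneg _
    rw [hk]; linarith
  have hER : ((ctlE P).card : ℝ) ≤ k := by rw [hk]; exact_mod_cast hE
  have hFR : kF P ≤ k := by unfold kF; rw [hk]; exact_mod_cast hF
  have hgR : (P.g : ℝ) ≤ k := by
    rw [hg, hk]; push_cast
    have : (0 : ℝ) ≤ ν := Nat.cast_nonneg _
    linarith
  have hn : (1 : ℝ) ≤ n := by exact_mod_cast (by omega : 1 ≤ n)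
  have hn0 : (0 : ℝ) < n := by linarith
  have hk27 : k ^ 2 ≤ k ^ 7 := pow_le_pow_right₀ hk1 (by norm_num)
  have hk70 : 0 < k ^ 7 := by positivity
  have hk17 : k ≤ k ^ 7 := le_self_pow₀ hk1 (by norm_num)
  have hkE : 8 * ((ctlE P).card : ℝ) ^ 2 ≤ P.N := by
    rw [hN]
    have : ((ctlE P).card : ℝ) ^ 2 ≤ k ^ 2 := pow_le_pow_left₀ (Nat.cast_nonneg _) hER 2
    linarith
  have hTA : TA P = 2 * (n : ℝ) ^ 6 := by unfold TA; rw [hN]
  have h2ν : (n : ℝ) ≤ 2 ^ ν := by exact_mod_cast h2.le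
  have hγ : 2 * TA P ≤ 1 * 2 ^ P.L := by
    rw [hTA, hL, pow_add, pow_mul, one_mul]
    have h3 : ((2 : ℝ) ^ 6) ^ ν = (2 ^ ν) ^ 6 := by rw [← pow_mul, ← pow_mul, mul_comm]
    rw [h3]
    have : (n : ℝ) ^ 6 ≤ (2 ^ ν) ^ 6 := pow_le_pow_left₀ hn0.le h2ν 6
    have h8 : (0 : ℝ) ≤ (2 ^ ν) ^ 6 := by positivity
    have h9 : (2 : ℝ) ^ 3 = 8 := by norm_num
    rw [h9]
    linarith
  have hmain := E_init_tt P z 1 zero_le_one le_rfl hγ hkE (by omega)
  refine hmain.trans ?_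
  have hTs : 6 * TA P * (1 / 2) ^ P.s1 ≤ 12 * n := by
    rw [hTA, hs1]
    have h3 : (1 / 2 : ℝ) ^ (50 * ν) = 1 / (2 ^ ν) ^ 50 := by
      rw [one_div_pow, ← pow_mul, mul_comm]
    rw [h3]
    have h4 : (n : ℝ) ^ 6 ≤ (2 ^ ν) ^ 50 := by
      calc (n : ℝ) ^ 6 ≤ (2 ^ ν) ^ 6 := pow_le_pow_left₀ hn0.le h2ν 6
        _ ≤ (2 ^ ν) ^ 50 := pow_le_pow_right₀ (hn.trans h2ν) (by norm_num)
    have h5 : (0 : ℝ) < (2 ^ ν) ^ 50 := by positivity
    calc 6 * (2 * (n : ℝ) ^ 6) * (1 / (2 ^ ν) ^ 50) = 12 * ((n : ℝ) ^ 6 / (2 ^ ν) ^ 50) := by ring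
      _ ≤ 12 * 1 := by
        apply mul_le_mul_of_nonneg_left _ (by norm_num)
        rw [div_le_one h5]; exact h4
      _ ≤ 12 * n := by linarith
  have hFM : FM P ≤ n + 110 * k ^ 7 + 1980 * n + 128 * k ^ 7 := by
    unfold FM
    rw [hTA, hN]
    have hkF0 := kF_pos P
    have e1 : 2 * (n : ℝ) ^ 6 * (2 * kF P / n) ^ 6 * kF P = 128 * kF P ^ 7 := by
      field_simp
      ring
    rw [e1]
    have h6 : kF P ^ 2 ≤ k ^ 2 := pow_le_pow_left₀ hkF0.le hFR 2
    have h7 : kF P ^ 7 ≤ k ^ 7 := pow_le_pow_left₀ hkF0.le hFR 7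
    linarith
  have hmR : (P.m : ℝ) ≤ n := by
    rw [hm]; exact_mod_cast Nat.sub_le _ _
  have hgg : 2 * (P.g : ℝ) * (TA P * (32 * P.g / P.N) ^ 6) ≤ 2 ^ 32 * k ^ 7 := by
    rw [hTA, hN]
    have hg0 := g_pos P
    have e1 : 2 * (P.g : ℝ) * (2 * (n : ℝ) ^ 6 * (32 * P.g / n) ^ 6) = 2 ^ 32 * (P.g : ℝ) ^ 7 := by
      field_simp
      ring
    rw [e1]
    exact mul_le_mul_of_nonneg_left (pow_le_pow_left₀ hg0.le hgR 7) (by positivity)
  have hfin := final_arith n k P.m P.g (FM P) _ _ hn hk1 hbig hmR hgR hFM hgg hTs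
  unfold BI FS FE
  rw [← hN] at hfin ⊢
  exact hfin

/-- elementary growth -/
lemma growth : ∃ N : ℕ, ∀ n : ℕ, N ≤ n →
    (2 : ℝ) ^ 33 * (2416 * ((Nat.log 2 n + 1 : ℕ) : ℝ) + 20) ^ 7 ≤ n ∧
      2416 * (Nat.log 2 n + 1) + 20 < n := by
  have h := (Real.isLittleO_pow_log_id_atTop (n := 7)).bound
    (show (0 : ℝ) < 1 / (2 ^ 33 * 7268 ^ 7) by positivity)
  rw [Filter.eventually_atTop] at h
  obtain ⟨x0, hx0⟩ := h
  refine ⟨max ⌈x0⌉₊ 3, fun n hn => ?_⟩
  have hn3 : 3 ≤ n := (le_max_right _ _).trans hn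
  have hnx : x0 ≤ n := (Nat.le_ceil x0).trans (by exact_mod_cast (le_max_left _ _).trans hn)
  have h1 := hx0 n hnx
  have hn0 : (0 : ℝ) < n := by exact_mod_cast (by omega : 0 < n)
  have hlog1 : 1 ≤ Real.log n := by
    rw [Real.le_log_iff_exp_le hn0]
    have h3 : (3 : ℝ) ≤ n := by exact_mod_cast hn3
    linarith [Real.exp_one_lt_d9]
  have hlog : ((Nat.log 2 n : ℕ) : ℝ) ≤ 2 * Real.log n := by
    have h4 : (2 : ℝ) ^ (Nat.log 2 n) ≤ n := by exact_mod_cast Nat.pow_log_le_self 2 (by omega)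
    have h5 := Real.log_le_log (by positivity) h4
    rw [Real.log_pow] at h5
    have h6 := Real.log_two_gt_d9
    have h7 : (0 : ℝ) ≤ (Nat.log 2 n : ℕ) := Nat.cast_nonneg _
    nlinarith
  have hK : 2416 * ((Nat.log 2 n + 1 : ℕ) : ℝ) + 20 ≤ 7268 * Real.log n := by
    push_cast
    linarith
  have hK0 : (0 : ℝ) ≤ 2416 * ((Nat.log 2 n + 1 : ℕ) : ℝ) + 20 := by positivity
  have h8 : (2 : ℝ) ^ 33 * (2416 * ((Nat.log 2 n + 1 : ℕ) : ℝ) + 20) ^ 7 ≤ n := by
    have h9 : (2416 * ((Nat.log 2 n + 1 : ℕ) : ℝ) + 20) ^ 7 ≤ (7268 * Real.log n) ^ 7 :=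
      pow_le_pow_left₀ hK0 hK 7
    rw [Real.norm_of_nonneg (by positivity), id, Real.norm_of_nonneg hn0.le] at h1
    calc (2 : ℝ) ^ 33 * (2416 * ((Nat.log 2 n + 1 : ℕ) : ℝ) + 20) ^ 7
        ≤ 2 ^ 33 * (7268 * Real.log n) ^ 7 := mul_le_mul_of_nonneg_left h9 (by positivity)
      _ = (2 ^ 33 * 7268 ^ 7) * Real.log n ^ 7 := by ring
      _ ≤ (2 ^ 33 * 7268 ^ 7) * (1 / (2 ^ 33 * 7268 ^ 7) * n) :=
          mul_le_mul_of_nonneg_left h1 (by positivity)
      _ = n := by field_simp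
  refine ⟨h8, ?_⟩
  have h10 : (20 : ℝ) ≤ 2416 * ((Nat.log 2 n + 1 : ℕ) : ℝ) + 20 := by
    have : (0 : ℝ) ≤ 2416 * ((Nat.log 2 n + 1 : ℕ) : ℝ) := by positivity
    linarith
  have h11 : 2416 * ((Nat.log 2 n + 1 : ℕ) : ℝ) + 20 ≤ (2416 * ((Nat.log 2 n + 1 : ℕ) : ℝ) + 20) ^ 7 :=
    le_self_pow₀ (by linarith) (by norm_num)
  have h12 : 2416 * ((Nat.log 2 n + 1 : ℕ) : ℝ) + 20 < n := by
    have : (2 : ℝ) ^ 33 = 8589934592 := by norm_num
    rw [this] at h8
    linarith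
  exact_mod_cast h12

end Pool.Agent.Helper116.Alg
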