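import Mathlib
import Pool.Agent.Helper116.B8

set_option autoImplicit false
set_option linter.unusedSectionVars false

open scoped BigOperators ENNReal
open Finset

namespace Pool.Agent.Helper116.Alg

open Pool.Agent.Helper116.Chain

/-- the kernel of a (1+1) elitist algorithm -/
noncomputable def KK {n : ℕ} (step : (Fin n → Bool) → PMF ((Fin n → Bool) × Bool))
    (z x : Fin n → Bool) : PMF (Fin n → Bool) :=
  (step x).bind (fun yb =>
                PMF.pure (if (Finset.univ.filter (fun i => x i = z i)).card
                      < (Finset.univ.filter (fun i => yb.1 i = z i)).card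
                    ∨ ((Finset.univ.filter (fun i => x i = z i)).card
                      = (Finset.univ.filter (fun i => yb.1 i = z i)).card ∧ yb.2 = true)
                  then yb.1 else x))

lemma dist_succ' {X : Type} (K : X → PMF X) (k : ℕ) (p : PMF X) :
    dist K (k + 1) p = (dist K k p).bind K := by
  unfold Chain.dist
  rw [Function.iterate_succ_apply']

lemma dist_zero {X : Type} (K : X → PMF X) (p : PMF X) : dist K 0 p = p := rfl

lemma KK_le {n : ℕ} (step : (Fin n → Bool) → PMF ((Fin n → Bool) × Bool))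
    (z x y : Fin n → Bool) :
    KK step z x y ≤ (if y = x then 1 else 0) + ((step x).map Prod.fst) y := by
  unfold KK
  rw [PMF.bind_apply, PMF.map_apply]
  have h1 : (if y = x then (1 : ℝ≥0∞) else 0) = ∑' yb, (step x) yb * (if y = x then 1 else 0) := by
    rw [ENNReal.tsum_mul_right, PMF.tsum_coe, one_mul]
  rw [h1, ← ENNReal.tsum_add]
  apply ENNReal.tsum_le_tsum
  intro yb
  rw [PMF.pure_apply]
  by_cases h1 : y = x
  · rw [if_pos h1, mul_one]
    exact (mul_le_of_le_one_right' (by split_ifs <;> simp)).trans le_self_add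
  · rw [if_neg h1, mul_zero, zero_add]
    by_cases hc : (Finset.univ.filter (fun i => x i = z i)).card
                      < (Finset.univ.filter (fun i => yb.1 i = z i)).card
                    ∨ ((Finset.univ.filter (fun i => x i = z i)).card
                      = (Finset.univ.filter (fun i => yb.1 i = z i)).card ∧ yb.2 = true)
    · rw [if_pos hc]
      split_ifs <;> simp
    · rw [if_neg hc, if_neg h1, mul_zero]
      exact zero_le

/-- dominating measure -/
noncomputable def dom {n : ℕ} (init : PMF (Fin n → Bool))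
    (step : (Fin n → Bool) → PMF ((Fin n → Bool) × Bool)) : ℕ → (Fin n → Bool) → ℝ≥0∞
  | 0 => fun y => init y
  | k + 1 => fun y => dom init step k y + ∑ x, dom init step k x * ((step x).map Prod.fst) y

lemma dom_sum {n : ℕ} (init : PMF (Fin n → Bool))
    (step : (Fin n → Bool) → PMF ((Fin n → Bool) × Bool)) (k : ℕ) :
    ∑ y, dom init step k y = 2 ^ k := by
  induction k with
  | zero => simp only [dom, pow_zero]; exact sum_pmf init
  | succ k ih =>
    simp only [dom]
    rw [Finset.sum_add_distrib, Finset.sum_comm, ih]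
    simp_rw [← Finset.mul_sum, sum_pmf, mul_one]
    rw [ih, pow_succ, mul_two]

lemma dist_le_dom {n : ℕ} (init : PMF (Fin n → Bool))
    (step : (Fin n → Bool) → PMF ((Fin n → Bool) × Bool)) (z : Fin n → Bool) (k : ℕ)
    (y : Fin n → Bool) : dist (KK step z) k init y ≤ dom init step k y := by
  induction k generalizing y with
  | zero => exact le_refl _
  | succ k ih =>
    rw [dist_succ', bind_apply_sum]
    calc ∑ x, (dist (KK step z) k init) x * KK step z x y
        ≤ ∑ x, dom init step k x * ((if y = x then 1 else 0) + ((step x).map Prod.fst) y) :=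
          Finset.sum_le_sum (fun x _ => mul_le_mul' (ih x) (KK_le step z x y))
      _ = dom init step (k + 1) y := by
          simp only [dom, mul_add, Finset.sum_add_distrib]
          congr 1
          simp

lemma sum_two_pow (n : ℕ) : ∑ k ∈ Finset.range n, (2 : ℝ≥0∞) ^ k ≤ 2 ^ n := by
  induction n with
  | zero => simp
  | succ n ih =>
    rw [Finset.sum_range_succ, pow_succ, mul_two]
    exact add_le_add ih le_rfl

theorem lower_bound {n : ℕ} (init : PMF (Fin n → Bool))
    (step : (Fin n → Bool) → PMF ((Fin n → Bool) × Bool)) :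
    ∃ z, (n : ℝ≥0∞) ≤ 1 + ∑' k, (1 - (dist (KK step z) k init) z) := by
  set S : (Fin n → Bool) → ℝ≥0∞ := fun z =>
    1 + ∑ k ∈ Finset.range n, (1 - (dist (KK step z) k init) z) with hS
  obtain ⟨z, _, hz⟩ := Finset.exists_max_image (univ : Finset (Fin n → Bool)) S
    ⟨fun _ => false, Finset.mem_univ _⟩
  refine ⟨z, ?_⟩
  have h1 : (n : ℝ≥0∞) * 2 ^ n ≤ S z * 2 ^ n := by
    have hc : (Fintype.card (Fin n → Bool) : ℝ≥0∞) = 2 ^ n := by
      rw [Fintype.card_fun, Fintype.card_bool, Fintype.card_fin]; push_cast; rfl
    calc (n : ℝ≥0∞) * 2 ^ n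
        = ∑ z : Fin n → Bool, ∑ k ∈ Finset.range n,
            ((1 - (dist (KK step z) k init) z) + (dist (KK step z) k init) z) := by
          have : ∀ (z : Fin n → Bool) (k : ℕ),
              (1 - (dist (KK step z) k init) z) + (dist (KK step z) k init) z = 1 :=
            fun z k => tsub_add_cancel_of_le (PMF.coe_le_one _ _)
          simp_rw [this]
          simp only [Finset.sum_const, Finset.card_univ, Finset.card_range, nsmul_eq_mul, mul_one]
          rw [hc, mul_comm]
      _ = ∑ z : Fin n → Bool, ∑ k ∈ Finset.range n, (1 - (dist (KK step z) k init) z)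
          + ∑ k ∈ Finset.range n, ∑ z : Fin n → Bool, (dist (KK step z) k init) z := by
          rw [Finset.sum_comm (s := Finset.range n), ← Finset.sum_add_distrib]
          refine Finset.sum_congr rfl (fun z _ => ?_)
          rw [Finset.sum_add_distrib]
      _ ≤ ∑ z : Fin n → Bool, ∑ k ∈ Finset.range n, (1 - (dist (KK step z) k init) z) + 2 ^ n := by
          apply add_le_add le_rfl
          calc ∑ k ∈ Finset.range n, ∑ z : Fin n → Bool, (dist (KK step z) k init) z
              ≤ ∑ k ∈ Finset.range n, (2 : ℝ≥0∞) ^ k := by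
                apply Finset.sum_le_sum
                intro k _
                rw [← dom_sum init step k]
                exact Finset.sum_le_sum (fun z _ => dist_le_dom init step z k z)
            _ ≤ 2 ^ n := sum_two_pow n
      _ = ∑ z : Fin n → Bool, S z := by
          simp only [hS]
          rw [Finset.sum_add_distrib, add_comm]
          congr 1
          simp only [Finset.sum_const, Finset.card_univ, nsmul_eq_mul, mul_one]
          rw [hc]
      _ ≤ ∑ _z : Fin n → Bool, S z := Finset.sum_le_sum (fun y hy => hz y hy)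
      _ = S z * 2 ^ n := by
          simp only [Finset.sum_const, Finset.card_univ, nsmul_eq_mul]
          rw [hc, mul_comm]
  have h2 : (n : ℝ≥0∞) ≤ S z := by
    have h3 : (2 : ℝ≥0∞) ^ n ≠ 0 := by simp
    have h4 : (2 : ℝ≥0∞) ^ n ≠ ∞ := by simp
    exact (ENNReal.mul_le_mul_iff_left h3 h4).mp h1
  refine h2.trans ?_
  simp only [hS]
  exact add_le_add le_rfl (ENNReal.sum_le_tsum _)

/-! transport -/

section transport

variable (P : Par) (n : ℕ) (e : P.I ≃ Fin n)

def phi (x : P.St) : Fin n → Bool := fun i => x (e.symm i)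
def psi (y : Fin n → Bool) : P.St := fun j => y (e j)

lemma psi_phi (x : P.St) : psi P n e (phi P n e x) = x := by
  funext j; simp [psi, phi]
lemma phi_psi (y : Fin n → Bool) : phi P n e (psi P n e y) = y := by
  funext j; simp [psi, phi]

noncomputable def stp (y : Fin n → Bool) : PMF ((Fin n → Bool) × Bool) :=
  (sig P (psi P n e y)).map (fun A => (phi P n e (fl (psi P n e y) A), true))

lemma agree (z y : Fin n → Bool) :
    (Finset.univ.filter (fun i => y i = z i)).card + d (psi P n e z) (psi P n e y) = n := by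
  have h1 : d (psi P n e z) (psi P n e y) = (Finset.univ.filter (fun i => ¬ (y i = z i))).card := by
    unfold d
    rw [← Finset.card_map e.toEmbedding]
    congr 1
    ext i
    rw [Finset.mem_map, Finset.mem_filter]
    constructor
    · rintro ⟨j, hj, rfl⟩
      exact ⟨Finset.mem_univ _, (Finset.mem_filter.mp hj).2⟩
    · rintro ⟨_, hi⟩
      refine ⟨e.symm i, ?_, by simp⟩
      rw [Finset.mem_filter]
      refine ⟨Finset.mem_univ _, ?_⟩
      simpa [psi] using hi
  rw [h1, Finset.card_filter_add_card_filter_not]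
  simp

lemma KK_stp (z y : Fin n → Bool) :
    KK (stp P n e) z y = (K P (psi P n e z) (psi P n e y)).map (phi P n e) := by
  unfold KK stp K
  rw [PMF.bind_map, PMF.map_comp]
  rw [PMF.map]
  congr 1
  funext A
  simp only [Function.comp]
  congr 1
  have h1 := agree P n e z y
  have h2 := agree P n e z (phi P n e (fl (psi P n e y) A))
  rw [psi_phi] at h2
  have h3 := d_fl (psi P n e z) (psi P n e y) A
  unfold nx
  by_cases h : ri (psi P n e z) (psi P n e y) A ≤ wr (psi P n e z) (psi P n e y) A
  · rw [if_pos h, if_pos]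
    simp only [and_true]
    omega
  · rw [if_neg h, if_neg]
    · rw [phi_psi]
    · simp only [and_true]
      omega

lemma dist_KK (z : Fin n → Bool) (k : ℕ) (p : PMF P.St) :
    dist (KK (stp P n e) z) k (p.map (phi P n e))
      = (dist (K P (psi P n e z)) k p).map (phi P n e) := by
  induction k with
  | zero => rfl
  | succ k ih =>
    rw [dist_succ', dist_succ', ih, PMF.bind_map, PMF.map_bind]
    congr 1
    funext x
    simp only [Function.comp]
    rw [KK_stp, psi_phi]

lemma map_phi_apply (z : Fin n → Bool) (q : PMF P.St) :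
    (q.map (phi P n e)) z = q (psi P n e z) := by
  rw [PMF.map_apply, tsum_eq_single (psi P n e z)]
  · rw [phi_psi, if_pos rfl]
  · intro x hx
    rw [if_neg]
    rintro rfl
    exact hx (psi_phi P n e x).symm

lemma H_eq (z x : P.St) : H (K P z) z x = ENNReal.ofReal (tt P z x) := by
  unfold tt t
  rw [ENNReal.ofReal_toReal ((t_all P z x).1 x)]

theorem upper (z : Fin n → Bool) (B : ℝ)
    (hB : E (init0 P) (tt P (psi P n e z)) ≤ B) :
    1 + ∑' k : ℕ, (1 - (dist (KK (stp P n e) z) k ((init0 P).map (phi P n e))) z)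
      ≤ ENNReal.ofReal (1 + B) := by
  have h1 : ∀ k, (dist (KK (stp P n e) z) k ((init0 P).map (phi P n e))) z
      = (dist (K P (psi P n e z)) k (init0 P)) (psi P n e z) := by
    intro k
    rw [dist_KK, map_phi_apply]
  simp_rw [h1]
  rw [H_init]
  have h2 : ∑ x, (init0 P) x * H (K P (psi P n e z)) (psi P n e z) x
      = ENNReal.ofReal (E (init0 P) (tt P (psi P n e z))) := by
    unfold E
    rw [ENNReal.ofReal_sum_of_nonneg]
    · refine Finset.sum_congr rfl (fun x _ => ?_)
      rw [H_eq, ENNReal.ofReal_mul ENNReal.toReal_nonneg,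
        ENNReal.ofReal_toReal ((init0 P).apply_ne_top x)]
    · intro x _
      exact mul_nonneg ENNReal.toReal_nonneg (tt_nonneg P _ _)
  have h0 : 0 ≤ E (init0 P) (tt P (psi P n e z)) := by
    unfold E
    exact Finset.sum_nonneg (fun x _ => mul_nonneg ENNReal.toReal_nonneg (tt_nonneg P _ _))
  rw [h2, ← ENNReal.ofReal_one, ← ENNReal.ofReal_add zero_le_one h0]
  exact ENNReal.ofReal_le_ofReal (by linarith)

end transport

theorem exists_alg : ∃ N : ℕ, ∀ n : ℕ, N ≤ n →
    ∃ init : PMF (Fin n → Bool), ∃ step : (Fin n → Bool) → PMF ((Fin n → Bool) × Bool),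
      ∀ z : Fin n → Bool, 1 + ∑' k : ℕ, (1 - (dist (KK step z) k init) z)
        ≤ ENNReal.ofReal (20000001 * (n : ℝ)) := by
  obtain ⟨N, hN⟩ := growth
  refine ⟨max N 1, fun n hn => ?_⟩
  obtain ⟨hbig, hlt⟩ := hN n ((le_max_left _ _).trans hn)
  have hn1 : 1 ≤ n := (le_max_right _ _).trans hn
  have h2 : n < 2 ^ (Nat.log 2 n + 1) := Nat.lt_pow_succ_log_self (by norm_num) n
  have hν : 0 < Nat.log 2 n + 1 := Nat.succ_pos _
  generalize Nat.log 2 n + 1 = ν at hbig hlt h2 hν
  have hPn := par_n n ν hν hlt h2
  have hm : (par n ν hν hlt h2).m = n - (2416 * ν + 20) := rfl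
  have hg : (par n ν hν hlt h2).g = 8 * ν + 3 := by
    have : (par n ν hν hlt h2).g = ν + ν + (6 * ν + 3) := rfl
    omega
  have hs1 : (par n ν hν hlt h2).s1 = 50 * ν := rfl
  have hL : (par n ν hν hlt h2).L = 6 * ν + 3 := rfl
  generalize par n ν hν hlt h2 = P at hPn hm hg hs1 hL
  have hcard : Fintype.card P.I = Fintype.card (Fin n) := by
    rw [Fintype.card_fin]; exact hPn
  have e : P.I ≃ Fin n := Fintype.equivOfCardEq hcard
  refine ⟨(init0 P).map (phi P n e), stp P n e, fun z => ?_⟩
  refine (upper P n e z _ (final_bound P n ν hlt h2 hν hPn hm hg hs1 hL hbig _)).trans ?_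
  apply ENNReal.ofReal_le_ofReal
  have : (1 : ℝ) ≤ n := by exact_mod_cast hn1
  linarith

end Pool.Agent.Helper116.Alg
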