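import Mathlib

set_option autoImplicit false

open MeasureTheory

namespace Pool.Agent.Helper116.TreeNo

/-- centred euclidean ball of radius `r` in `ι → ℝ` -/
def eball (ι : Type) [Fintype ι] (r : ℝ) : Set (ι → ℝ) := {x | x ⬝ᵥ x ≤ r ^ 2}

/-- polar set -/
def pol {ι : Type} [Fintype ι] (S : Set (ι → ℝ)) : Set (ι → ℝ) := {y | ∀ x ∈ S, x ⬝ᵥ y ≤ 1}

/-- Lebesgue volume as a real number -/
noncomputable def vol {ι : Type} [Fintype ι] (S : Set (ι → ℝ)) : ℝ := (volume S).toReal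

/-- volume of the euclidean unit ball -/
noncomputable def om (ι : Type) [Fintype ι] : ℝ := vol (eball ι 1)

/-- symmetric convex bodies -/
structure SymBody {ι : Type} [Fintype ι] (K : Set (ι → ℝ)) : Prop where
  convex : Convex ℝ K
  compact : IsCompact K
  symm : ∀ x ∈ K, -x ∈ K
  nhds : K ∈ nhds (0 : ι → ℝ)

/-- normalising integral of the exponential tilt -/
noncomputable def tZ {ι : Type} [Fintype ι] (K : Set (ι → ℝ)) (y : ι → ℝ) : ℝ :=
  ∫ x in K, Real.exp (x ⬝ᵥ y)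

/-- barycentre of the tilt -/
noncomputable def tF {ι : Type} [Fintype ι] (K : Set (ι → ℝ)) (y : ι → ℝ) : ι → ℝ :=
  fun i => (∫ x in K, x i * Real.exp (x ⬝ᵥ y)) / tZ K y

/-- covariance matrix of the tilt -/
noncomputable def tC {ι : Type} [Fintype ι] (K : Set (ι → ℝ)) (y : ι → ℝ) : Matrix ι ι ℝ :=
  fun i j => (∫ x in K, x i * x j * Real.exp (x ⬝ᵥ y)) / tZ K y - tF K y i * tF K y j

/-- entropy bound for euclidean separated subsets of `Q` -/
def SepBound {ι : Type} [Fintype ι] (M : ℝ) (Q : Set (ι → ℝ)) : Prop :=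
  ∀ t : ℝ, 10 ≤ t → ∀ s : Finset (ι → ℝ), (∀ x ∈ s, x ∈ Q) →
    (∀ x ∈ s, ∀ y ∈ s, x ≠ y → t ^ 2 ≤ (x - y) ⬝ᵥ (x - y)) →
    (s.card : ℝ) ≤ 4 / 3 * Real.exp (20 * M / t)

end Pool.Agent.Helper116.TreeNo
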