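import Mathlib
import Pool.Agent.Helper116.TreeDefs

set_option autoImplicit false

open MeasureTheory

namespace Pool.Agent.Helper116.TreeNo.J1


/-- dot product as a continuous linear map -/
noncomputable def dotL_aux {ι : Type} [Fintype ι] (x : ι → ℝ) : (ι → ℝ) →L[ℝ] ℝ :=
  ∑ i, x i • (ContinuousLinearMap.proj i : (ι → ℝ) →L[ℝ] ℝ)

theorem dotL_apply_aux {ι : Type} [Fintype ι] (x v : ι → ℝ) : dotL_aux x v = x ⬝ᵥ v := by
  unfold dotL_aux
  rw [sum_apply]
  rfl

theorem dotL_cont_aux {ι : Type} [Fintype ι] :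
    Continuous (dotL_aux : (ι → ℝ) → ((ι → ℝ) →L[ℝ] ℝ)) := by
  unfold dotL_aux
  fun_prop

theorem dot_cont_aux {ι : Type} [Fintype ι] :
    Continuous (fun p : (ι → ℝ) × (ι → ℝ) => p.1 ⬝ᵥ p.2) := by
  unfold dotProduct
  fun_prop

theorem intOn_aux {ι : Type} [Fintype ι] {E : Type} [NormedAddCommGroup E]
    {K : Set (ι → ℝ)} (hK : IsCompact K) {f : (ι → ℝ) → E} (hf : Continuous f) :
    Integrable f (volume.restrict K) :=
  hf.continuousOn.integrableOn_compact hK

theorem int_fderiv_aux {ι : Type} [Fintype ι] {K : Set (ι → ℝ)} (hK : IsCompact K)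
    {g : (ι → ℝ) → ℝ} (hg : Continuous g) (y : ι → ℝ) :
    HasFDerivAt (fun y => ∫ x in K, g x * Real.exp (x ⬝ᵥ y))
      (∫ x in K, (g x * Real.exp (x ⬝ᵥ y)) • dotL_aux x) y := by
  have hc : Continuous (fun p : (ι → ℝ) × (ι → ℝ) =>
      (g p.1 * Real.exp (p.1 ⬝ᵥ p.2)) • dotL_aux p.1) := by
    have hd : Continuous (fun p : (ι → ℝ) × (ι → ℝ) => dotL_aux p.1) :=
      dotL_cont_aux.comp continuous_fst
    have he : Continuous (fun p : (ι → ℝ) × (ι → ℝ) => Real.exp (p.1 ⬝ᵥ p.2)) :=
      Real.continuous_exp.comp dot_cont_aux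
    have hg' : Continuous (fun p : (ι → ℝ) × (ι → ℝ) => g p.1) := hg.comp continuous_fst
    exact (hg'.mul he).smul hd
  have hc2 : ∀ z : ι → ℝ, Continuous (fun x : ι → ℝ => g x * Real.exp (x ⬝ᵥ z)) := by
    intro z
    have h1 : Continuous (fun x : ι → ℝ => Real.exp (x ⬝ᵥ z)) :=
      Real.continuous_exp.comp (dot_cont_aux.comp (continuous_id.prodMk continuous_const))
    exact hg.mul h1
  obtain ⟨C, hC⟩ := (hK.prod (isCompact_closedBall y 1)).exists_bound_of_continuousOn
    hc.continuousOn
  have : IsFiniteMeasure (volume.restrict K) := ⟨by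
    rw [Measure.restrict_apply_univ]; exact hK.measure_lt_top⟩
  refine hasFDerivAt_integral_of_dominated_of_fderiv_le
    (F' := fun z x => (g x * Real.exp (x ⬝ᵥ z)) • dotL_aux x) (bound := fun _ => C)
    (s := Metric.ball y 1) (Metric.ball_mem_nhds y one_pos) ?_ ?_ ?_ ?_ ?_ ?_
  · exact Filter.Eventually.of_forall fun z => (hc2 z).aestronglyMeasurable
  · exact intOn_aux hK (hc2 y)
  · exact (hc.comp (continuous_id.prodMk continuous_const)).aestronglyMeasurable
  · filter_upwards [ae_restrict_mem hK.measurableSet] with x hx z hz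
    exact hC (x, z) ⟨hx, Metric.ball_subset_closedBall hz⟩
  · exact integrable_const C
  · refine Filter.Eventually.of_forall fun x z _ => ?_
    have h1 : HasFDerivAt (fun z : ι → ℝ => x ⬝ᵥ z) (dotL_aux x) z := by
      have h2 := (dotL_aux x).hasFDerivAt (x := z)
      refine h2.congr_of_eventuallyEq (Filter.Eventually.of_forall fun z => ?_)
      exact (dotL_apply_aux x z).symm
    have h3 := (h1.exp).const_mul (g x)
    rw [smul_smul] at h3
    exact h3

theorem tF_hasFDerivAt {ι : Type} [Fintype ι] [DecidableEq ι] (K : Set (ι → ℝ)) (hK : SymBody K)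
    (y : ι → ℝ) :
    HasFDerivAt (tF K) (LinearMap.toContinuousLinearMap (Matrix.toLin' (tC K y))) y := by
  have hKc := hK.compact
  have hexpc : ∀ z : ι → ℝ, Continuous (fun x : ι → ℝ => Real.exp (x ⬝ᵥ z)) := fun z =>
    Real.continuous_exp.comp (dot_cont_aux.comp (continuous_id.prodMk continuous_const))
  have hZpos : 0 < tZ K y := by
    unfold tZ
    rw [integral_pos_iff_support_of_nonneg_ae (Filter.Eventually.of_forall fun x =>
      (Real.exp_pos _).le) (intOn_aux hKc (hexpc y))]
    have h1 : Function.support (fun x : ι → ℝ => Real.exp (x ⬝ᵥ y)) = Set.univ := by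
      ext x; simp [(Real.exp_pos (x ⬝ᵥ y)).ne']
    rw [h1, Measure.restrict_apply_univ]
    exact Measure.measure_pos_of_mem_nhds volume hK.nhds
  have hZne : tZ K y ≠ 0 := hZpos.ne'
  -- derivative of Z
  have hZ : HasFDerivAt (tZ K) (∫ x in K, (Real.exp (x ⬝ᵥ y)) • dotL_aux x) y := by
    have h := int_fderiv_aux hKc (g := fun _ => 1) continuous_const y
    simp only [one_mul] at h
    exact h
  have hZinv := (hasDerivAt_inv hZne).comp_hasFDerivAt y hZ
  rw [hasFDerivAt_pi']
  intro i
  have hN := int_fderiv_aux hKc (g := fun x => x i) (continuous_apply i) y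
  have hmul := hN.mul hZinv
  have hfun : (fun z => tF K z i) = fun z => (∫ x in K, x i * Real.exp (x ⬝ᵥ z)) *
      (Inv.inv ∘ tZ K) z := by
    funext z
    unfold tF
    rw [div_eq_mul_inv]
    rfl
  rw [hfun]
  refine hmul.congr_fderiv ?_
  ext v
  -- integrability
  have hi1 : Integrable (fun x : ι → ℝ => Real.exp (x ⬝ᵥ y) • dotL_aux x) (volume.restrict K) :=
    intOn_aux hKc ((hexpc y).smul dotL_cont_aux)
  have hi2 : Integrable (fun x : ι → ℝ => (x i * Real.exp (x ⬝ᵥ y)) • dotL_aux x)
      (volume.restrict K) :=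
    intOn_aux hKc (((continuous_apply i).mul (hexpc y)).smul dotL_cont_aux)
  have e1 : (∫ x in K, Real.exp (x ⬝ᵥ y) • dotL_aux x) v =
      ∑ j, (∫ x in K, x j * Real.exp (x ⬝ᵥ y)) * v j := by
    rw [ContinuousLinearMap.integral_apply hi1]
    simp only [← integral_mul_const]
    have hs := integral_finsetSum (μ := volume.restrict K) Finset.univ
      (f := fun (j : ι) (x : ι → ℝ) => x j * Real.exp (x ⬝ᵥ y) * v j) (fun j _ => intOn_aux hKc
      (((continuous_apply j).mul (hexpc y)).mul continuous_const))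
    rw [← hs]
    refine integral_congr_ae (Filter.Eventually.of_forall fun x => ?_)
    simp only [smul_apply, smul_eq_mul]
    rw [dotL_apply_aux]
    show Real.exp (x ⬝ᵥ y) * (∑ j, x j * v j) = _
    rw [Finset.mul_sum]
    refine Finset.sum_congr rfl fun j _ => ?_
    ring
  have e2 : (∫ x in K, (x i * Real.exp (x ⬝ᵥ y)) • dotL_aux x) v =
      ∑ j, (∫ x in K, x i * x j * Real.exp (x ⬝ᵥ y)) * v j := by
    rw [ContinuousLinearMap.integral_apply hi2]
    simp only [← integral_mul_const]
    have hs := integral_finsetSum (μ := volume.restrict K) Finset.univ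
      (f := fun (j : ι) (x : ι → ℝ) => x i * x j * Real.exp (x ⬝ᵥ y) * v j)
      (fun j _ => intOn_aux hKc
      ((((continuous_apply i).mul (continuous_apply j)).mul (hexpc y)).mul continuous_const))
    rw [← hs]
    refine integral_congr_ae (Filter.Eventually.of_forall fun x => ?_)
    simp only [smul_apply, smul_eq_mul]
    rw [dotL_apply_aux]
    show x i * Real.exp (x ⬝ᵥ y) * (∑ j, x j * v j) = _
    rw [Finset.mul_sum]
    refine Finset.sum_congr rfl fun j _ => ?_
    ring
  have e3 : (LinearMap.toContinuousLinearMap (Matrix.toLin' (tC K y))) v i =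
      ∑ j, tC K y i j * v j := by
    rw [LinearMap.coe_toContinuousLinearMap', Matrix.toLin'_apply]
    rfl
  simp only [add_apply, smul_apply, smul_eq_mul,
    ContinuousLinearMap.comp_apply, ContinuousLinearMap.proj_apply]
  rw [e1, e2, e3]
  simp only [tC, tF, Function.comp_apply]
  rw [Finset.mul_sum, Finset.mul_sum, Finset.mul_sum, ← Finset.sum_add_distrib]
  refine Finset.sum_congr rfl fun j _ => ?_
  field_simp
  ring

end Pool.Agent.Helper116.TreeNo.J1
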