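import Mathlib
import Pool.Agent.Helper116.TreeDefs

set_option autoImplicit false

open MeasureTheory

namespace Pool.Agent.Helper116.TreeNo.J2


theorem tC_posDef {ι : Type} [Fintype ι] [DecidableEq ι] (K : Set (ι → ℝ)) (hK : SymBody K)
    (y : ι → ℝ) : (tC K y).PosDef := by
  classical
  have hcK : IsCompact K := hK.compact
  have hmK : MeasurableSet K := hcK.isClosed.measurableSet
  have hint : ∀ f : (ι → ℝ) → ℝ, Continuous f → IntegrableOn f K := fun f hf =>
    hf.continuousOn.integrableOn_compact hcK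
  have hdot : ∀ v : ι → ℝ, Continuous fun x : ι → ℝ => x ⬝ᵥ v := fun v => by
    unfold dotProduct; fun_prop
  have he : Continuous fun x : ι → ℝ => Real.exp (x ⬝ᵥ y) := Real.continuous_exp.comp (hdot y)
  obtain ⟨U, hU⟩ : ∃ U, U = interior K := ⟨_, rfl⟩
  have hUo : IsOpen U := by rw [hU]; exact isOpen_interior
  have hUK : U ⊆ K := by rw [hU]; exact interior_subset
  have h0U : (0 : ι → ℝ) ∈ U := by rw [hU]; exact mem_interior_iff_mem_nhds.mpr hK.nhds
  -- positivity principle
  have hpos : ∀ f : (ι → ℝ) → ℝ, Continuous f → (∀ x, 0 ≤ f x) → (∃ x ∈ U, f x ≠ 0) →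
      0 < ∫ x in K, f x := by
    intro f hf hf0 ⟨x0, hx0, hne⟩
    have h1 : 0 ≤ ∫ x in K, f x := integral_nonneg hf0
    refine lt_of_le_of_ne h1 fun h2 => hne ?_
    have h3 := (setIntegral_eq_zero_iff_of_nonneg_ae (Filter.Eventually.of_forall hf0)
      (hint f hf)).mp h2.symm
    have h4 : f =ᵐ[volume.restrict U] (fun _ => (0 : ℝ)) :=
      ae_restrict_of_ae_restrict_of_subset hUK h3
    exact Measure.eqOn_open_of_ae_eq h4 hUo hf.continuousOn continuousOn_const hx0
  obtain ⟨I0, hI0⟩ : ∃ I0 : ℝ, I0 = ∫ x in K, Real.exp (x ⬝ᵥ y) := ⟨_, rfl⟩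
  have hI0pos : 0 < I0 := by
    rw [hI0]
    exact hpos _ he (fun x => (Real.exp_pos _).le) ⟨0, h0U, (Real.exp_pos _).ne'⟩
  obtain ⟨I1, hI1⟩ : ∃ I1 : ι → ℝ, ∀ i, I1 i = ∫ x in K, x i * Real.exp (x ⬝ᵥ y) :=
    ⟨_, fun _ => rfl⟩
  obtain ⟨I2, hI2⟩ : ∃ I2 : ι → ι → ℝ, ∀ i j, I2 i j = ∫ x in K, x i * x j * Real.exp (x ⬝ᵥ y) :=
    ⟨_, fun _ _ => rfl⟩
  have hC : ∀ i j, tC K y i j = I2 i j / I0 - I1 i / I0 * (I1 j / I0) := by
    intro i j
    unfold tC tF tZ
    rw [hI2, hI1, hI1, hI0]
  refine Matrix.PosDef.of_dotProduct_mulVec_pos ?_ ?_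
  · ext i j
    rw [Matrix.conjTranspose_apply, star_trivial, hC, hC]
    have : I2 j i = I2 i j := by
      rw [hI2, hI2]
      congr 1
      funext x
      ring
    rw [this]; ring
  · intro u hu
    rw [star_trivial]
    obtain ⟨c, hc⟩ : ∃ c : ℝ, c = (∑ i, u i * I1 i) / I0 := ⟨_, rfl⟩
    have hcI : ∑ i, u i * I1 i = c * I0 := by rw [hc]; field_simp
    have hlin : ∫ x in K, (x ⬝ᵥ u) * Real.exp (x ⬝ᵥ y) = ∑ i, u i * I1 i := by
      have h1 : ∀ x : ι → ℝ, (x ⬝ᵥ u) * Real.exp (x ⬝ᵥ y) =
          ∑ i, u i * (x i * Real.exp (x ⬝ᵥ y)) := by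
        intro x
        unfold dotProduct
        rw [Finset.sum_mul]
        apply Finset.sum_congr rfl
        intro i _
        ring
      simp_rw [h1]
      rw [integral_finset_sum]
      · apply Finset.sum_congr rfl
        intro i _
        rw [integral_const_mul, ← hI1]
      · intro i _
        exact hint _ (continuous_const.mul ((continuous_apply i).mul he))
    have hquad : ∫ x in K, (x ⬝ᵥ u) ^ 2 * Real.exp (x ⬝ᵥ y) = ∑ i, ∑ j, u i * u j * I2 i j := by
      have h1 : ∀ x : ι → ℝ, (x ⬝ᵥ u) ^ 2 * Real.exp (x ⬝ᵥ y) =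
          ∑ i, ∑ j, u i * u j * (x i * x j * Real.exp (x ⬝ᵥ y)) := by
        intro x
        unfold dotProduct
        rw [pow_two, Finset.sum_mul_sum, Finset.sum_mul]
        apply Finset.sum_congr rfl
        intro i _
        rw [Finset.sum_mul]
        apply Finset.sum_congr rfl
        intro j _
        ring
      simp_rw [h1]
      rw [integral_finset_sum]
      · apply Finset.sum_congr rfl
        intro i _
        rw [integral_finset_sum]
        · apply Finset.sum_congr rfl
          intro j _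
          rw [integral_const_mul, ← hI2]
        · intro j _
          exact hint _ (continuous_const.mul (((continuous_apply i).mul (continuous_apply j)).mul he))
      · intro i _
        apply integrable_finset_sum
        intro j _
        exact hint _ (continuous_const.mul (((continuous_apply i).mul (continuous_apply j)).mul he))
    have hsq : ∫ x in K, (x ⬝ᵥ u - c) ^ 2 * Real.exp (x ⬝ᵥ y) =
        (∑ i, ∑ j, u i * u j * I2 i j) - c ^ 2 * I0 := by
      have h1 : ∀ x : ι → ℝ, (x ⬝ᵥ u - c) ^ 2 * Real.exp (x ⬝ᵥ y) =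
          (x ⬝ᵥ u) ^ 2 * Real.exp (x ⬝ᵥ y) - 2 * c * ((x ⬝ᵥ u) * Real.exp (x ⬝ᵥ y)) +
            c ^ 2 * Real.exp (x ⬝ᵥ y) := by
        intro x; ring
      simp_rw [h1]
      have i1 : IntegrableOn (fun x : ι → ℝ => (x ⬝ᵥ u) ^ 2 * Real.exp (x ⬝ᵥ y)) K :=
        hint _ (((hdot u).pow 2).mul he)
      have i2 : IntegrableOn (fun x : ι → ℝ => 2 * c * ((x ⬝ᵥ u) * Real.exp (x ⬝ᵥ y))) K :=
        hint _ (continuous_const.mul ((hdot u).mul he))
      have i3 : IntegrableOn (fun x : ι → ℝ => c ^ 2 * Real.exp (x ⬝ᵥ y)) K :=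
        hint _ (continuous_const.mul he)
      have i12 : IntegrableOn (fun x : ι → ℝ => (x ⬝ᵥ u) ^ 2 * Real.exp (x ⬝ᵥ y) -
          2 * c * ((x ⬝ᵥ u) * Real.exp (x ⬝ᵥ y))) K := i1.sub i2
      rw [integral_add i12 i3, integral_sub i1 i2, integral_const_mul, integral_const_mul,
        hlin, hquad, hcI, ← hI0]
      ring
    have hval : u ⬝ᵥ Matrix.mulVec (tC K y) u =
        (∫ x in K, (x ⬝ᵥ u - c) ^ 2 * Real.exp (x ⬝ᵥ y)) / I0 := by
      rw [hsq]
      have h1 : u ⬝ᵥ Matrix.mulVec (tC K y) u =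
          ∑ i, ∑ j, (u i * u j * I2 i j / I0 - (u i * I1 i / I0) * (u j * I1 j / I0)) := by
        unfold Matrix.mulVec dotProduct
        apply Finset.sum_congr rfl
        intro i _
        rw [Finset.mul_sum]
        apply Finset.sum_congr rfl
        intro j _
        show u i * (tC K y i j * u j) = _
        rw [hC]; ring
      rw [h1]
      simp_rw [Finset.sum_sub_distrib]
      rw [← Finset.sum_mul_sum, ← Finset.sum_div, hcI]
      simp_rw [← Finset.sum_div]
      field_simp
    rw [hval]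
    apply div_pos _ hI0pos
    apply hpos
    · exact (((hdot u).sub continuous_const).pow 2).mul he
    · intro x; positivity
    · by_contra hcon
      push Not at hcon
      have hz : ∀ x ∈ U, x ⬝ᵥ u = c := by
        intro x hx
        have h1 := hcon x hx
        rcases mul_eq_zero.mp h1 with h2 | h2
        · have := (pow_eq_zero_iff two_ne_zero).mp h2
          linarith
        · exact absurd h2 (Real.exp_pos _).ne'
      have hc0 : c = 0 := by
        have := hz 0 h0U
        rw [zero_dotProduct] at this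
        exact this.symm
      have htend : Filter.Tendsto (fun t : ℝ => t • u) (nhds 0) (nhds (0 : ι → ℝ)) := by
        have : Continuous fun t : ℝ => t • u := by fun_prop
        have h2 := this.tendsto 0
        rw [zero_smul] at h2
        exact h2
      have hev : ∀ᶠ t in nhdsWithin (0 : ℝ) (Set.Ioi 0), t • u ∈ U :=
        (htend.eventually (hUo.mem_nhds h0U)).filter_mono nhdsWithin_le_nhds
      obtain ⟨t, ht, htpos⟩ := (hev.and self_mem_nhdsWithin).exists
      have h3 := hz _ ht
      rw [smul_dotProduct, hc0, smul_eq_mul] at h3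
      have htp : (0 : ℝ) < t := htpos
      rcases mul_eq_zero.mp h3 with h4 | h4
      · exact htp.ne' h4
      · exact hu (dotProduct_self_eq_zero.mp h4)



end Pool.Agent.Helper116.TreeNo.J2
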