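import Mathlib
import Pool.Agent.Helper116.TreeDefs

set_option autoImplicit false

open MeasureTheory

namespace Pool.Agent.Helper116.TreeNo.J3


theorem aux_cont {ι : Type} [Fintype ι] (y : ι → ℝ) :
    Continuous (fun x : ι → ℝ => x ⬝ᵥ y) := by
  unfold dotProduct
  fun_prop

theorem aux_neZero {ι : Type} [Fintype ι] (K : Set (ι → ℝ)) (hK : SymBody K) :
    NeZero ((volume : Measure (ι → ℝ)).restrict K) := by
  constructor
  intro h
  have h1 : (volume : Measure (ι → ℝ)) K = 0 := Measure.restrict_eq_zero.1 h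
  have h2 := Measure.measure_pos_of_mem_nhds (volume : Measure (ι → ℝ)) hK.nhds
  rw [h1] at h2
  exact lt_irrefl _ h2

theorem aux_int {ι : Type} [Fintype ι] (K : Set (ι → ℝ)) (hK : SymBody K)
    (y : ι → ℝ) : Integrable (fun x : ι → ℝ => Real.exp (x ⬝ᵥ y))
      ((volume : Measure (ι → ℝ)).restrict K) :=
  (Real.continuous_exp.comp (aux_cont y)).continuousOn.integrableOn_compact hK.compact

theorem tF_mem {ι : Type} [Fintype ι] (K : Set (ι → ℝ)) (hK : SymBody K)
    (y : ι → ℝ) : tF K y ∈ K := by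
  have := aux_neZero K hK
  have := isProbabilityMeasure_tilted (aux_int K hK y)
  set ν : Measure (ι → ℝ) := (volume : Measure (ι → ℝ)).restrict K with hν
  have hac : ν.tilted (fun x => x ⬝ᵥ y) ≪ ν := tilted_absolutelyContinuous _ _
  have hae0 : ∀ᵐ x ∂ν, x ∈ K := by
    rw [hν]
    exact ae_restrict_mem hK.compact.measurableSet
  have hae : ∀ᵐ x ∂(ν.tilted (fun x => x ⬝ᵥ y)), x ∈ K := hac.ae_le hae0
  obtain ⟨R, hR⟩ := hK.compact.isBounded.exists_norm_le
  have hint : Integrable (fun x : ι → ℝ => x) (ν.tilted (fun x => x ⬝ᵥ y)) := by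
    apply Integrable.of_bound (C := R) measurable_id.aestronglyMeasurable
    filter_upwards [hae] with x hx
    exact hR x hx
  have h1 := hK.convex.integral_mem hK.compact.isClosed hae hint
  have h2 : tF K y = ∫ x, x ∂(ν.tilted (fun x => x ⬝ᵥ y)) := by
    funext i
    have h3 : (∫ x, x ∂(ν.tilted (fun x => x ⬝ᵥ y))) i
        = ∫ x, x i ∂(ν.tilted (fun x => x ⬝ᵥ y)) :=
      ((ContinuousLinearMap.proj (R := ℝ) (φ := fun _ : ι => ℝ) i).integral_comp_comm hint).symm
    rw [h3, integral_tilted]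
    unfold tF tZ
    rw [← hν, ← integral_div]
    congr 1
    funext x
    rw [smul_eq_mul]
    ring
  rw [h2]
  exact h1

theorem tZ_pos {ι : Type} [Fintype ι] (K : Set (ι → ℝ)) (hK : SymBody K)
    (y : ι → ℝ) : 0 < tZ K y := by
  have := aux_neZero K hK
  exact integral_exp_pos (aux_int K hK y)

theorem vol_pos_of_symBody {ι : Type} [Fintype ι] (K : Set (ι → ℝ)) (hK : SymBody K) :
    0 < vol K :=
  ENNReal.toReal_pos (Measure.measure_pos_of_mem_nhds volume hK.nhds).ne'
    hK.compact.measure_lt_top.ne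


end Pool.Agent.Helper116.TreeNo.J3
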