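import Mathlib
import Pool.Agent.Helper116.TreeDefs

set_option autoImplicit false

open MeasureTheory

namespace Pool.Agent.Helper116.TreeNo.J4


theorem injective_of_posDef_deriv {ι : Type} [Fintype ι] [DecidableEq ι]
    (F : (ι → ℝ) → (ι → ℝ)) (C : (ι → ℝ) → Matrix ι ι ℝ)
    (hF : ∀ y, HasFDerivAt F (LinearMap.toContinuousLinearMap (Matrix.toLin' (C y))) y)
    (hC : ∀ y, (C y).PosDef) : Function.Injective F := by
  intro a b hab
  by_contra hne
  set u : ι → ℝ := b - a with hu
  have hu0 : u ≠ 0 := by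
    intro h
    exact hne (sub_eq_zero.mp (hu ▸ h)).symm
  have hγ : ∀ t : ℝ, HasDerivAt (fun t : ℝ => a + t • u) u t := by
    intro t
    simpa using ((hasDerivAt_id t).smul_const u).const_add a
  have hg : ∀ t : ℝ, HasDerivAt (fun t : ℝ => u ⬝ᵥ F (a + t • u))
      (u ⬝ᵥ (C (a + t • u)).mulVec u) t := by
    intro t
    have h1 : HasDerivAt (fun t : ℝ => F (a + t • u)) ((C (a + t • u)).mulVec u) t := by
      have := (hF (a + t • u)).comp_hasDerivAt t (hγ t)
      exact this
    have h2 : ∀ i, HasDerivAt (fun t : ℝ => F (a + t • u) i) ((C (a + t • u)).mulVec u i) t :=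
      hasDerivAt_pi.mp h1
    unfold dotProduct
    exact HasDerivAt.fun_sum fun i _ => (h2 i).const_mul (u i)
  have hmono : StrictMono (fun t : ℝ => u ⬝ᵥ F (a + t • u)) := by
    apply strictMono_of_deriv_pos
    intro t
    rw [(hg t).deriv]
    have := (hC (a + t • u)).dotProduct_mulVec_pos hu0
    simpa using this
  have h01 := hmono (zero_lt_one : (0:ℝ) < 1)
  simp only [zero_smul, add_zero, one_smul] at h01
  rw [show a + u = b by rw [hu]; abel, hab] at h01
  exact lt_irrefl _ h01

theorem det_integral_le {ι : Type} [Fintype ι] [DecidableEq ι]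
    (F : (ι → ℝ) → (ι → ℝ)) (C : (ι → ℝ) → Matrix ι ι ℝ)
    (hF : ∀ y, HasFDerivAt F (LinearMap.toContinuousLinearMap (Matrix.toLin' (C y))) y)
    (hC : ∀ y, (C y).PosDef) (K : Set (ι → ℝ)) (hFK : ∀ y, F y ∈ K) (hK : IsCompact K)
    (s : Set (ι → ℝ)) (hs : MeasurableSet s) (hs2 : volume s ≠ ⊤) :
    (∀ d : ℝ, 0 ≤ d → (∀ y ∈ s, d ≤ (C y).det) → d * vol s ≤ vol K) ∧
    (0 < vol s → ∃ y ∈ s, (C y).det * vol s ≤ vol K) := by
  have hinj := injective_of_posDef_deriv F C hF hC
  have hdet : ∀ y, |(LinearMap.toContinuousLinearMap (Matrix.toLin' (C y))).det| = (C y).det := by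
    intro y
    have : (LinearMap.toContinuousLinearMap (Matrix.toLin' (C y))).det = (C y).det := by
      rw [LinearMap.det_toContinuousLinearMap, LinearMap.det_toLin']
    rw [this, abs_of_pos (hC y).det_pos]
  have hKtop : volume K ≠ ⊤ := hK.measure_lt_top.ne
  have hsub : F '' s ⊆ K := by
    rintro _ ⟨y, _, rfl⟩
    exact hFK y
  have hint : (∫⁻ x in s, ENNReal.ofReal |(LinearMap.toContinuousLinearMap
      (Matrix.toLin' (C x))).det| ∂volume) ≤ volume K := by
    rw [lintegral_abs_det_fderiv_eq_addHaar_image volume hs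
      (fun x _ => (hF x).hasFDerivWithinAt) hinj.injOn]
    exact measure_mono hsub
  have hae : AEMeasurable (fun x => ENNReal.ofReal |(LinearMap.toContinuousLinearMap
      (Matrix.toLin' (C x))).det|) (volume.restrict s) :=
    aemeasurable_ofReal_abs_det_fderivWithin volume hs (fun x _ => (hF x).hasFDerivWithinAt)
  constructor
  · intro d hd hdy
    have h1 : ENNReal.ofReal d * volume s ≤ volume K := by
      refine le_trans ?_ hint
      rw [← setLIntegral_const]
      refine setLIntegral_mono' hs ?_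
      intro x hx
      apply ENNReal.ofReal_le_ofReal
      rw [hdet x]
      exact hdy x hx
    have h2 := ENNReal.toReal_mono hKtop h1
    rw [ENNReal.toReal_mul, ENNReal.toReal_ofReal hd] at h2
    exact h2
  · intro hpos
    have hs0 : volume s ≠ 0 := by
      intro h
      unfold vol at hpos
      rw [h] at hpos
      simp at hpos
    obtain ⟨y, hy, hle⟩ := exists_le_setLAverage hs0 hs2 hae
    refine ⟨y, hy, ?_⟩
    rw [setLAverage_eq, hdet y] at hle
    have h1 : ENNReal.ofReal (C y).det * volume s ≤ volume K := by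
      refine le_trans (mul_le_mul_left hle _) ?_
      rw [ENNReal.div_mul_cancel hs0 hs2]
      exact hint
    have h2 := ENNReal.toReal_mono hKtop h1
    rw [ENNReal.toReal_mul, ENNReal.toReal_ofReal (hC y).det_pos.le] at h2
    exact h2


end Pool.Agent.Helper116.TreeNo.J4
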