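import Mathlib
import Pool.Agent.Helper116.TreeDefs

set_option autoImplicit false

open MeasureTheory

namespace Pool.Agent.Helper116.TreeNo.J5


theorem isCompact_eball_aux (ι : Type) [Fintype ι] (r : ℝ) : IsCompact (eball ι r) := by
  apply IsCompact.of_isClosed_subset (isCompact_closedBall (0 : ι → ℝ) |r|)
  · exact isClosed_le (by unfold dotProduct; fun_prop) continuous_const
  · intro x hx
    have hx' : x ⬝ᵥ x ≤ r ^ 2 := hx
    rw [mem_closedBall_zero_iff, pi_norm_le_iff_of_nonneg (abs_nonneg r)]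
    intro i
    rw [Real.norm_eq_abs]
    apply sq_le_sq.mp
    refine le_trans ?_ hx'
    unfold dotProduct
    have := Finset.single_le_sum (f := fun i => x i * x i) (fun i _ => mul_self_nonneg _)
      (Finset.mem_univ i)
    rw [sq]
    exact this

theorem vol_image_matrix {ι : Type} [Fintype ι] [DecidableEq ι] (S : Matrix ι ι ℝ)
    (A : Set (ι → ℝ)) : vol ((fun x => S.mulVec x) '' A) = |S.det| * vol A := by
  unfold vol
  have h1 := Measure.addHaar_image_linearMap (volume : Measure (ι → ℝ)) (Matrix.toLin' S) A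
  rw [LinearMap.det_toLin'] at h1
  have h2 : (fun x => S.mulVec x) '' A = (Matrix.toLin' S) '' A := rfl
  rw [h2, h1, ENNReal.toReal_mul, ENNReal.toReal_ofReal (abs_nonneg _)]

open scoped Pointwise in
theorem eball_smul {ι : Type} [Fintype ι] (r : ℝ) (hr : 0 ≤ r) :
    eball ι r = r • eball ι 1 := by
  rcases hr.eq_or_lt with h0 | h0
  · subst h0
    ext x
    rw [Set.mem_smul_set]
    constructor
    · intro hx
      have hx' : x ⬝ᵥ x ≤ (0:ℝ) ^ 2 := hx
      have h1 : x ⬝ᵥ x = 0 := by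
        apply le_antisymm (by simpa using hx')
        unfold dotProduct
        exact Finset.sum_nonneg fun i _ => mul_self_nonneg _
      rw [dotProduct_self_eq_zero] at h1
      refine ⟨0, ?_, by rw [h1, smul_zero]⟩
      show (0 : ι → ℝ) ⬝ᵥ 0 ≤ 1 ^ 2
      simp
    · rintro ⟨y, -, rfl⟩
      show ((0 : ℝ) • y) ⬝ᵥ ((0 : ℝ) • y) ≤ 0 ^ 2
      simp
  · ext x
    rw [Set.mem_smul_set_iff_inv_smul_mem₀ h0.ne']
    show x ⬝ᵥ x ≤ r ^ 2 ↔ (r⁻¹ • x) ⬝ᵥ (r⁻¹ • x) ≤ 1 ^ 2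
    rw [smul_dotProduct, dotProduct_smul, smul_eq_mul, smul_eq_mul, ← mul_assoc, ← mul_inv, ← sq,
      inv_mul_le_iff₀ (by positivity)]
    simp

open scoped Pointwise in
theorem vol_eball {ι : Type} [Fintype ι] (r : ℝ) (hr : 0 ≤ r) :
    vol (eball ι r) = r ^ (Fintype.card ι) * om ι := by
  unfold om vol
  rw [eball_smul r hr, Measure.addHaar_smul, ENNReal.toReal_mul,
    ENNReal.toReal_ofReal (abs_nonneg _), abs_of_nonneg (by positivity), Module.finrank_fintype_fun_eq_card]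

theorem vol_ellipsoid {ι : Type} [Fintype ι] [DecidableEq ι] (S : Matrix ι ι ℝ)
    (hS : IsUnit S.det) (b : ι → ℝ) (r : ℝ) (hr : 0 ≤ r) :
    vol {x | (S⁻¹.mulVec (x - b)) ⬝ᵥ (S⁻¹.mulVec (x - b)) ≤ r ^ 2} =
      |S.det| * r ^ (Fintype.card ι) * om ι := by
  have h1 : {x | (S⁻¹.mulVec (x - b)) ⬝ᵥ (S⁻¹.mulVec (x - b)) ≤ r ^ 2} =
      (fun x => x - b) ⁻¹' ((fun x => S.mulVec x) '' (eball ι r)) := by
    ext x
    constructor
    · intro hx
      refine ⟨S⁻¹.mulVec (x - b), hx, ?_⟩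
      show S.mulVec (S⁻¹.mulVec (x - b)) = x - b
      rw [Matrix.mulVec_mulVec, Matrix.mul_nonsing_inv S hS, Matrix.one_mulVec]
    · rintro ⟨y, hy, hyx⟩
      have h2 : S.mulVec y = x - b := hyx
      show (S⁻¹.mulVec (x - b)) ⬝ᵥ (S⁻¹.mulVec (x - b)) ≤ r ^ 2
      rw [← h2, Matrix.mulVec_mulVec, Matrix.nonsing_inv_mul S hS, Matrix.one_mulVec]
      exact hy
  rw [h1, mul_assoc, ← vol_eball r hr, ← vol_image_matrix]
  unfold vol
  congr 1
  simp only [sub_eq_add_neg]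
  exact measure_preimage_add_right _ (-b) _

theorem om_pos (ι : Type) [Fintype ι] : 0 < om ι := by
  apply ENNReal.toReal_pos
  · apply ne_of_gt
    have ho : IsOpen {x : ι → ℝ | x ⬝ᵥ x < 1} :=
      isOpen_lt (by unfold dotProduct; fun_prop) continuous_const
    have h1 := ho.measure_pos volume ⟨0, by show (0 : ι → ℝ) ⬝ᵥ 0 < 1; simp⟩
    refine lt_of_lt_of_le h1 (measure_mono ?_)
    intro x hx
    have hx' : x ⬝ᵥ x < 1 := hx
    show x ⬝ᵥ x ≤ 1 ^ 2
    rw [one_pow]; exact hx'.le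
  · exact (isCompact_eball_aux ι 1).measure_lt_top.ne

theorem isCompact_eball (ι : Type) [Fintype ι] (r : ℝ) : IsCompact (eball ι r) :=
  isCompact_eball_aux ι r

theorem dot_sum {α β : Type} [Fintype α] [Fintype β] (x : α ⊕ β → ℝ) :
    x ⬝ᵥ x = (fun a => x (Sum.inl a)) ⬝ᵥ (fun a => x (Sum.inl a)) +
      (fun a => x (Sum.inr a)) ⬝ᵥ (fun a => x (Sum.inr a)) := by
  unfold dotProduct
  rw [Fintype.sum_sum_type]

theorem vol_prod (α β : Type) [Fintype α] [Fintype β] :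
    om α * om β = vol {x : α ⊕ β → ℝ | (fun a => x (Sum.inl a)) ∈ eball α 1 ∧
      (fun a => x (Sum.inr a)) ∈ eball β 1} := by
  unfold om vol
  have h1 := (volume_measurePreserving_sumPiEquivProdPi (fun _ : α ⊕ β => ℝ)).measure_preimage_equiv
    (eball α 1 ×ˢ eball β 1)
  rw [← ENNReal.toReal_mul, ← Measure.prod_prod]
  congr 1
  exact h1.symm

theorem om_sum_le (α β : Type) [Fintype α] [Fintype β] : om (α ⊕ β) ≤ om α * om β := by
  rw [vol_prod]
  unfold om vol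
  apply ENNReal.toReal_mono
  · apply ne_of_lt
    refine lt_of_le_of_lt (measure_mono ?_) (isCompact_eball_aux (α ⊕ β) (Real.sqrt 2)).measure_lt_top
    rintro x ⟨h1, h2⟩
    have h1' : (fun a => x (Sum.inl a)) ⬝ᵥ (fun a => x (Sum.inl a)) ≤ 1 ^ 2 := h1
    have h2' : (fun a => x (Sum.inr a)) ⬝ᵥ (fun a => x (Sum.inr a)) ≤ 1 ^ 2 := h2
    show x ⬝ᵥ x ≤ (Real.sqrt 2) ^ 2
    rw [dot_sum, Real.sq_sqrt (by norm_num)]
    linarith
  · apply measure_mono
    intro x hx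
    have hx' : x ⬝ᵥ x ≤ 1 ^ 2 := hx
    rw [dot_sum] at hx'
    have p1 : 0 ≤ (fun a => x (Sum.inl a)) ⬝ᵥ (fun a => x (Sum.inl a)) :=
      Finset.sum_nonneg fun i _ => mul_self_nonneg _
    have p2 : 0 ≤ (fun a => x (Sum.inr a)) ⬝ᵥ (fun a => x (Sum.inr a)) :=
      Finset.sum_nonneg fun i _ => mul_self_nonneg _
    constructor
    · show (fun a => x (Sum.inl a)) ⬝ᵥ (fun a => x (Sum.inl a)) ≤ 1 ^ 2
      linarith
    · show (fun a => x (Sum.inr a)) ⬝ᵥ (fun a => x (Sum.inr a)) ≤ 1 ^ 2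
      linarith

theorem om_mul_le (α β : Type) [Fintype α] [Fintype β] :
    om α * om β ≤ Real.sqrt 2 ^ (Fintype.card α + Fintype.card β) * om (α ⊕ β) := by
  rw [← Fintype.card_sum, ← vol_eball _ (Real.sqrt_nonneg 2), vol_prod]
  unfold vol
  apply ENNReal.toReal_mono (isCompact_eball_aux (α ⊕ β) (Real.sqrt 2)).measure_lt_top.ne
  apply measure_mono
  rintro x ⟨h1, h2⟩
  have h1' : (fun a => x (Sum.inl a)) ⬝ᵥ (fun a => x (Sum.inl a)) ≤ 1 ^ 2 := h1
  have h2' : (fun a => x (Sum.inr a)) ⬝ᵥ (fun a => x (Sum.inr a)) ≤ 1 ^ 2 := h2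
  show x ⬝ᵥ x ≤ (Real.sqrt 2) ^ 2
  rw [dot_sum, Real.sq_sqrt (by norm_num)]
  linarith

end Pool.Agent.Helper116.TreeNo.J5
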