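import Mathlib
import Pool.Agent.Helper116.TreeDefs

set_option autoImplicit false

open MeasureTheory

namespace Pool.Agent.Helper116.TreeNo.J6


theorem tilt_cov {ι : Type} [Fintype ι] (K : Set (ι → ℝ)) (hK : SymBody K)
    (y : ι → ℝ) (hZ : tZ K y ≠ 0) (i j : ι) :
    ∫ x in K, (x - tF K y) i * (x - tF K y) j * Real.exp (x ⬝ᵥ y) = tZ K y * tC K y i j := by
  have hint : ∀ f : (ι → ℝ) → ℝ, Continuous f → IntegrableOn f K := fun f hf =>
    hf.continuousOn.integrableOn_compact hK.compact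
  have hce : Continuous fun x : ι → ℝ => Real.exp (x ⬝ᵥ y) := by
    simp only [dotProduct]
    fun_prop
  have h1 : (fun x : ι → ℝ => (x - tF K y) i * (x - tF K y) j * Real.exp (x ⬝ᵥ y)) =
      fun x => x i * x j * Real.exp (x ⬝ᵥ y) - tF K y j * (x i * Real.exp (x ⬝ᵥ y)) -
        tF K y i * (x j * Real.exp (x ⬝ᵥ y)) + tF K y i * tF K y j * Real.exp (x ⬝ᵥ y) := by
    funext x
    simp only [Pi.sub_apply]
    ring
  have i1 := hint (fun x => x i * x j * Real.exp (x ⬝ᵥ y)) (by fun_prop)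
  have i2 := hint (fun x => tF K y j * (x i * Real.exp (x ⬝ᵥ y))) (by fun_prop)
  have i3 := hint (fun x => tF K y i * (x j * Real.exp (x ⬝ᵥ y))) (by fun_prop)
  have i4 := hint (fun x => tF K y i * tF K y j * Real.exp (x ⬝ᵥ y)) (by fun_prop)
  have i12 := hint (fun x => x i * x j * Real.exp (x ⬝ᵥ y) -
    tF K y j * (x i * Real.exp (x ⬝ᵥ y))) (by fun_prop)
  have i123 := hint (fun x => x i * x j * Real.exp (x ⬝ᵥ y) -
    tF K y j * (x i * Real.exp (x ⬝ᵥ y)) - tF K y i * (x j * Real.exp (x ⬝ᵥ y))) (by fun_prop)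
  rw [h1, integral_add i123 i4, integral_sub i12 i3, integral_sub i1 i2,
    integral_const_mul, integral_const_mul, integral_const_mul]
  have e1 : ∀ k, ∫ x in K, x k * Real.exp (x ⬝ᵥ y) = tZ K y * tF K y k := by
    intro k
    unfold tF
    field_simp
  have e2 : ∫ x in K, x i * x j * Real.exp (x ⬝ᵥ y) =
      tZ K y * (tC K y i j + tF K y i * tF K y j) := by
    unfold tC
    rw [sub_add_cancel]
    field_simp
  rw [e1, e1, e2]
  show _ - _ - _ + _ * tZ K y = _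
  ring

theorem tilt_trace {ι : Type} [Fintype ι] [DecidableEq ι] (K : Set (ι → ℝ))
    (y : ι → ℝ) (S : Matrix ι ι ℝ) (hS : IsUnit S.det) (a : ℝ) (ha : 0 < a)
    (hSS : S * S.transpose = a • tC K y) :
    ∑ k, ∑ i, ∑ j, S⁻¹ k i * S⁻¹ k j * tC K y i j = (Fintype.card ι : ℝ) / a := by
  have h1 : S⁻¹ * tC K y * S⁻¹.transpose = (1 / a) • (1 : Matrix ι ι ℝ) := by
    have h2 : tC K y = (1 / a) • (S * S.transpose) := by
      rw [hSS, smul_smul, one_div, inv_mul_cancel₀ ha.ne', one_smul]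
    rw [h2, Matrix.mul_smul, Matrix.smul_mul]
    congr 1
    have h3 : S⁻¹ * S = 1 := Matrix.nonsing_inv_mul S hS
    calc S⁻¹ * (S * S.transpose) * S⁻¹.transpose = (S⁻¹ * S) * (S⁻¹ * S).transpose := by
          rw [Matrix.transpose_mul]
          simp only [Matrix.mul_assoc]
      _ = 1 := by rw [h3, Matrix.transpose_one, Matrix.mul_one]
  have h4 : ∀ k, ∑ i, ∑ j, S⁻¹ k i * S⁻¹ k j * tC K y i j = 1 / a := by
    intro k
    have h5 := congrFun (congrFun h1 k) k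
    rw [Matrix.smul_apply, Matrix.one_apply_eq, smul_eq_mul, mul_one] at h5
    rw [← h5, Matrix.mul_apply]
    simp only [Matrix.mul_apply, Matrix.transpose_apply, Finset.sum_mul]
    rw [Finset.sum_comm]
    apply Finset.sum_congr rfl
    intro j _
    apply Finset.sum_congr rfl
    intro i _
    ring
  rw [Finset.sum_congr rfl (fun k _ => h4 k), Finset.sum_const, Finset.card_univ, nsmul_eq_mul]
  ring

theorem tilt_cheb {ι : Type} [Fintype ι] [DecidableEq ι] (K : Set (ι → ℝ)) (hK : SymBody K)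
    (y : ι → ℝ) (S : Matrix ι ι ℝ) (hS : IsUnit S.det) (a : ℝ) (ha : 0 < a)
    (hSS : S * S.transpose = a • tC K y) (t : ℝ) (ht : 0 < t) :
    (1 - (Fintype.card ι : ℝ) / (a * t ^ 2)) * tZ K y ≤
      ∫ x in K ∩ {x | (S⁻¹.mulVec (x - tF K y)) ⬝ᵥ (S⁻¹.mulVec (x - tF K y)) ≤ t ^ 2},
        Real.exp (x ⬝ᵥ y) := by
  have hint : ∀ f : (ι → ℝ) → ℝ, Continuous f → IntegrableOn f K := fun f hf =>
    hf.continuousOn.integrableOn_compact hK.compact
  have hce : Continuous fun x : ι → ℝ => Real.exp (x ⬝ᵥ y) := by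
    simp only [dotProduct]
    fun_prop
  have hcq : Continuous fun x : ι → ℝ =>
      (S⁻¹.mulVec (x - tF K y)) ⬝ᵥ (S⁻¹.mulVec (x - tF K y)) := by
    simp only [dotProduct, Matrix.mulVec, Pi.sub_apply]
    fun_prop
  have hq0 : ∀ x : ι → ℝ, 0 ≤ (S⁻¹.mulVec (x - tF K y)) ⬝ᵥ (S⁻¹.mulVec (x - tF K y)) := by
    intro x
    simp only [dotProduct]
    exact Finset.sum_nonneg (fun i _ => mul_self_nonneg _)
  set A : Set (ι → ℝ) :=
    {x | (S⁻¹.mulVec (x - tF K y)) ⬝ᵥ (S⁻¹.mulVec (x - tF K y)) ≤ t ^ 2} with hA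
  have hAm : MeasurableSet A := (isClosed_le hcq continuous_const).measurableSet
  by_cases hZ : tZ K y = 0
  · rw [hZ, mul_zero]
    apply integral_nonneg
    intro x
    exact (Real.exp_pos _).le
  -- integral of the quadratic form
  have hqe : ∫ x in K, (S⁻¹.mulVec (x - tF K y)) ⬝ᵥ (S⁻¹.mulVec (x - tF K y)) *
      Real.exp (x ⬝ᵥ y) = tZ K y * ((Fintype.card ι : ℝ) / a) := by
    have h1 : (fun x : ι → ℝ => (S⁻¹.mulVec (x - tF K y)) ⬝ᵥ (S⁻¹.mulVec (x - tF K y)) *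
        Real.exp (x ⬝ᵥ y)) = fun x => ∑ k, ∑ i, ∑ j, S⁻¹ k i * S⁻¹ k j *
          ((x - tF K y) i * (x - tF K y) j * Real.exp (x ⬝ᵥ y)) := by
      funext x
      have h2 : (S⁻¹.mulVec (x - tF K y)) ⬝ᵥ (S⁻¹.mulVec (x - tF K y)) =
          ∑ k, (∑ i, S⁻¹ k i * (x - tF K y) i) * (∑ j, S⁻¹ k j * (x - tF K y) j) := rfl
      rw [h2, Finset.sum_mul]
      apply Finset.sum_congr rfl
      intro k _
      rw [Finset.sum_mul_sum, Finset.sum_mul]
      apply Finset.sum_congr rfl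
      intro i _
      rw [Finset.sum_mul]
      apply Finset.sum_congr rfl
      intro j _
      ring
    have hc : ∀ i j, Continuous fun x : ι → ℝ =>
        (x - tF K y) i * (x - tF K y) j * Real.exp (x ⬝ᵥ y) := by
      intro i j
      simp only [Pi.sub_apply]
      fun_prop
    have c1 : ∀ k i j, Continuous fun x : ι → ℝ => S⁻¹ k i * S⁻¹ k j *
        ((x - tF K y) i * (x - tF K y) j * Real.exp (x ⬝ᵥ y)) := fun k i j =>
      continuous_const.mul (hc i j)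
    have c2 : ∀ k i, Continuous fun x : ι → ℝ => ∑ j, S⁻¹ k i * S⁻¹ k j *
        ((x - tF K y) i * (x - tF K y) j * Real.exp (x ⬝ᵥ y)) := fun k i =>
      continuous_finsetSum _ fun j _ => c1 k i j
    have c3 : ∀ k, Continuous fun x : ι → ℝ => ∑ i, ∑ j, S⁻¹ k i * S⁻¹ k j *
        ((x - tF K y) i * (x - tF K y) j * Real.exp (x ⬝ᵥ y)) := fun k =>
      continuous_finsetSum _ fun i _ => c2 k i
    rw [h1, ← tilt_trace K y S hS a ha hSS, Finset.mul_sum,
      integral_finsetSum _ (fun k _ => hint _ (c3 k))]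
    apply Finset.sum_congr rfl
    intro k _
    rw [Finset.mul_sum, integral_finsetSum _ (fun i _ => hint _ (c2 k i))]
    apply Finset.sum_congr rfl
    intro i _
    rw [Finset.mul_sum, integral_finsetSum _ (fun j _ => hint _ (c1 k i j))]
    apply Finset.sum_congr rfl
    intro j _
    rw [integral_const_mul, tilt_cov K hK y hZ]
    ring
  have i1 := hint _ hce
  have i2 := hint (fun x => (1 - (S⁻¹.mulVec (x - tF K y)) ⬝ᵥ (S⁻¹.mulVec (x - tF K y)) / t ^ 2) *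
    Real.exp (x ⬝ᵥ y)) ((continuous_const.sub (hcq.div_const _)).mul hce)
  have i3 := hint (fun x => (S⁻¹.mulVec (x - tF K y)) ⬝ᵥ (S⁻¹.mulVec (x - tF K y)) *
    Real.exp (x ⬝ᵥ y)) (hcq.mul hce)
  have hlhs : (1 - (Fintype.card ι : ℝ) / (a * t ^ 2)) * tZ K y =
      ∫ x in K, (1 - (S⁻¹.mulVec (x - tF K y)) ⬝ᵥ (S⁻¹.mulVec (x - tF K y)) / t ^ 2) *
        Real.exp (x ⬝ᵥ y) := by
    have h1 : (fun x : ι → ℝ => (1 - (S⁻¹.mulVec (x - tF K y)) ⬝ᵥ
        (S⁻¹.mulVec (x - tF K y)) / t ^ 2) * Real.exp (x ⬝ᵥ y)) = fun x =>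
        Real.exp (x ⬝ᵥ y) - (1 / t ^ 2) * ((S⁻¹.mulVec (x - tF K y)) ⬝ᵥ
          (S⁻¹.mulVec (x - tF K y)) * Real.exp (x ⬝ᵥ y)) := by
      funext x
      ring
    rw [h1, integral_sub i1 (i3.const_mul _), integral_const_mul, hqe]
    show _ = tZ K y - _
    field_simp
  rw [hlhs, ← setIntegral_indicator hAm]
  apply integral_mono i2 (i1.indicator hAm)
  intro x
  have he := Real.exp_pos (x ⬝ᵥ y)
  have hq := hq0 x
  by_cases hx : x ∈ A
  · rw [Set.indicator_of_mem hx]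
    have h2 : 0 ≤ (S⁻¹.mulVec (x - tF K y)) ⬝ᵥ (S⁻¹.mulVec (x - tF K y)) / t ^ 2 := by positivity
    exact mul_le_of_le_one_left he.le (by linarith)
  · rw [Set.indicator_of_notMem hx]
    have h2 : t ^ 2 < (S⁻¹.mulVec (x - tF K y)) ⬝ᵥ (S⁻¹.mulVec (x - tF K y)) := not_le.1 hx
    have h3 : 1 < (S⁻¹.mulVec (x - tF K y)) ⬝ᵥ (S⁻¹.mulVec (x - tF K y)) / t ^ 2 := by
      rw [lt_div_iff₀ (by positivity), one_mul]
      exact h2
    exact mul_nonpos_of_nonpos_of_nonneg (by linarith) he.le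


end Pool.Agent.Helper116.TreeNo.J6
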