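import Mathlib
import Pool.Agent.Helper116.TreeDefs

set_option autoImplicit false

open MeasureTheory

namespace Pool.Agent.Helper116.TreeNo.J7


open scoped MatrixOrder in
theorem posSemidef_factor {ι : Type} [Fintype ι] [DecidableEq ι] (C : Matrix ι ι ℝ)
    (hC : C.PosSemidef) : ∃ B : Matrix ι ι ℝ, C = B.conjTranspose * B := by
  obtain ⟨B, hB⟩ := CStarAlgebra.nonneg_iff_eq_star_mul_self.mp hC.nonneg
  exact ⟨B, hB⟩

theorem posDef_sqrt {ι : Type} [Fintype ι] [DecidableEq ι] (C : Matrix ι ι ℝ) (hC : C.PosDef)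
    (a : ℝ) (ha : 0 < a) : ∃ S : Matrix ι ι ℝ, IsUnit S.det ∧ S * S.transpose = a • C ∧
      S.det ^ 2 = a ^ (Fintype.card ι) * C.det := by
  have haC : (a • C).PosDef := hC.smul ha
  obtain ⟨B, hB⟩ := posSemidef_factor _ haC.posSemidef
  have hB' : B.transpose * B.transpose.transpose = a • C := by
    rw [Matrix.transpose_transpose, hB, Matrix.conjTranspose_eq_transpose_of_trivial]
  have hdet : B.transpose.det ^ 2 = a ^ (Fintype.card ι) * C.det := by
    have h := congrArg Matrix.det hB'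
    rw [Matrix.det_mul, Matrix.det_transpose B.transpose, Matrix.det_smul] at h
    rw [← h, sq]
  refine ⟨B.transpose, ?_, hB', hdet⟩
  have hpos : 0 < a ^ (Fintype.card ι) * C.det := mul_pos (pow_pos ha _) hC.det_pos
  rw [isUnit_iff_ne_zero]
  intro h0
  rw [h0] at hdet
  rw [← hdet] at hpos
  norm_num at hpos

theorem det_lower {ι : Type} [Fintype ι] [DecidableEq ι] (K : Set (ι → ℝ))
    (hK : SymBody K) (y b : ι → ℝ) (hy : ∀ x ∈ K, |x ⬝ᵥ y| ≤ Fintype.card ι)
    (S : Matrix ι ι ℝ) (r : ℝ) (hr : 0 ≤ r)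
    (hell : vol {x | (S⁻¹.mulVec (x - b)) ⬝ᵥ (S⁻¹.mulVec (x - b)) ≤ r ^ 2} =
      |S.det| * r ^ (Fintype.card ι) * om ι)
    (hfin : volume {x | (S⁻¹.mulVec (x - b)) ⬝ᵥ (S⁻¹.mulVec (x - b)) ≤ r ^ 2} ≠ ⊤)
    (hmass : 1 / 2 * tZ K y ≤
      ∫ x in K ∩ {x | (S⁻¹.mulVec (x - b)) ⬝ᵥ (S⁻¹.mulVec (x - b)) ≤ r ^ 2},
        Real.exp (x ⬝ᵥ y)) :
    Real.exp (-2 * (Fintype.card ι : ℝ)) / 2 * vol K ≤ |S.det| * r ^ (Fintype.card ι) * om ι := by
  rw [← hell]
  set E : Set (ι → ℝ) := {x | (S⁻¹.mulVec (x - b)) ⬝ᵥ (S⁻¹.mulVec (x - b)) ≤ r ^ 2} with hE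
  have hKm : MeasurableSet K := hK.compact.measurableSet
  have hKfin : volume K ≠ ⊤ := hK.compact.measure_lt_top.ne
  have hcont : Continuous fun x : ι → ℝ => Real.exp (x ⬝ᵥ y) := by
    refine Real.continuous_exp.comp ?_
    exact Continuous.dotProduct continuous_id continuous_const
  have hint : IntegrableOn (fun x : ι → ℝ => Real.exp (x ⬝ᵥ y)) K volume :=
    hcont.continuousOn.integrableOn_compact hK.compact
  have h1 : Real.exp (-(Fintype.card ι : ℝ)) * vol K ≤ tZ K y := by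
    have h := MeasureTheory.setIntegral_mono_on (μ := volume) (s := K)
      (f := fun _ : ι → ℝ => Real.exp (-(Fintype.card ι : ℝ)))
      (g := fun x : ι → ℝ => Real.exp (x ⬝ᵥ y))
      (integrableOn_const hKfin) hint hKm
      (fun x hx => Real.exp_le_exp.mpr (neg_le_of_abs_le (hy x hx)))
    rw [MeasureTheory.setIntegral_const] at h
    unfold tZ vol
    rw [mul_comm]
    exact h
  have hEm : MeasurableSet E := by
    apply IsClosed.measurableSet
    have hc : Continuous fun x : ι → ℝ => (S⁻¹.mulVec (x - b)) := by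
      exact Continuous.matrix_mulVec continuous_const (continuous_id.sub continuous_const)
    exact isClosed_le (Continuous.dotProduct hc hc) continuous_const
  have hKE : volume (K ∩ E) ≠ ⊤ := ne_top_of_le_ne_top hKfin (measure_mono Set.inter_subset_left)
  have h2 : (∫ x in K ∩ E, Real.exp (x ⬝ᵥ y)) ≤ Real.exp (Fintype.card ι : ℝ) * vol E := by
    have h := MeasureTheory.setIntegral_mono_on (μ := volume) (s := K ∩ E)
      (f := fun x : ι → ℝ => Real.exp (x ⬝ᵥ y))
      (g := fun _ : ι → ℝ => Real.exp (Fintype.card ι : ℝ))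
      (hint.mono_set Set.inter_subset_left) (integrableOn_const hKE) (hKm.inter hEm)
      (fun x hx => Real.exp_le_exp.mpr (le_of_abs_le (hy x hx.1)))
    rw [MeasureTheory.setIntegral_const] at h
    have h3 : volume.real (K ∩ E) ≤ vol E := by
      unfold vol
      exact ENNReal.toReal_mono hfin (measure_mono Set.inter_subset_right)
    calc _ ≤ _ := h
      _ = Real.exp (Fintype.card ι : ℝ) * volume.real (K ∩ E) := by
        rw [smul_eq_mul, mul_comm]
      _ ≤ _ := mul_le_mul_of_nonneg_left h3 (Real.exp_pos _).le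
  have h4 : 1 / 2 * (Real.exp (-(Fintype.card ι : ℝ)) * vol K) ≤
      Real.exp (Fintype.card ι : ℝ) * vol E := by
    linarith
  have h5 : Real.exp (-2 * (Fintype.card ι : ℝ)) =
      Real.exp (-(Fintype.card ι : ℝ)) * Real.exp (-(Fintype.card ι : ℝ)) := by
    rw [← Real.exp_add]; congr 1; ring
  have h6 : Real.exp (-(Fintype.card ι : ℝ)) * Real.exp (Fintype.card ι : ℝ) = 1 := by
    rw [← Real.exp_add]; simp
  have h7 := mul_le_mul_of_nonneg_left h4 (Real.exp_pos (-(Fintype.card ι : ℝ))).le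
  calc Real.exp (-2 * (Fintype.card ι : ℝ)) / 2 * vol K
      = Real.exp (-(Fintype.card ι : ℝ)) *
        (1 / 2 * (Real.exp (-(Fintype.card ι : ℝ)) * vol K)) := by rw [h5]; ring
    _ ≤ Real.exp (-(Fintype.card ι : ℝ)) * (Real.exp (Fintype.card ι : ℝ) * vol E) := h7
    _ = vol E := by rw [← mul_assoc, h6, one_mul]


end Pool.Agent.Helper116.TreeNo.J7
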