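import Mathlib
import Pool.Agent.Helper116.TreeDefs

set_option autoImplicit false

open MeasureTheory

namespace Pool.Agent.Helper116.TreeNo.J8


theorem sb_cont {ι : Type} [Fintype ι] (y : ι → ℝ) : Continuous (fun x : ι → ℝ => x ⬝ᵥ y) := by
  unfold dotProduct
  fun_prop

theorem sb_contE {ι : Type} [Fintype ι] (y : ι → ℝ) : Continuous (fun x : ι → ℝ => Real.exp (x ⬝ᵥ y)) :=
  Real.continuous_exp.comp (sb_cont y)

theorem sb_contQ {ι : Type} [Fintype ι] (b : ι → ℝ) : Continuous (fun x : ι → ℝ => (x - b) ⬝ᵥ (x - b)) := by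
  unfold dotProduct
  fun_prop

theorem sb_nonneg {ι : Type} [Fintype ι] (u : ι → ℝ) : 0 ≤ u ⬝ᵥ u := by
  unfold dotProduct
  exact Finset.sum_nonneg fun i _ => mul_self_nonneg _

theorem sb_par {ι : Type} [Fintype ι] (x x' b : ι → ℝ) :
    (x' - x) ⬝ᵥ (x' - x) ≤ 2 * ((x' - b) ⬝ᵥ (x' - b)) + 2 * ((x - b) ⬝ᵥ (x - b)) := by
  unfold dotProduct
  rw [Finset.mul_sum, Finset.mul_sum, ← Finset.sum_add_distrib]
  apply Finset.sum_le_sum
  intro i _
  simp only [Pi.sub_apply]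
  nlinarith [sq_nonneg ((x' i - b i) + (x i - b i))]

/-- the change of variables bound for one piece -/
theorem sb_piece {ι : Type} [Fintype ι] (K0 : Set (ι → ℝ)) (hK : IsCompact K0) (y p : ι → ℝ) (M σ : ℝ)
    (hM : (Fintype.card ι : ℝ) ≤ M) (hy : ∀ x ∈ K0, |x ⬝ᵥ y| ≤ M) (hp : |p ⬝ᵥ y| ≤ M)
    (h0 : 0 < σ) (h1 : σ ≤ 1 / 2) :
    Real.exp (-(4 * σ * M)) * ∫ x in K0, Real.exp (x ⬝ᵥ y) ≤
      ∫ x in (fun x => (1 - σ) • x + σ • p) '' K0, Real.exp (x ⬝ᵥ y) := by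
  set f : (ι → ℝ) → (ι → ℝ) := fun x => (1 - σ) • x + σ • p with hf
  have hfc : Continuous f := by rw [hf]; fun_prop
  have hσ : 0 < 1 - σ := by linarith
  have hinj : Function.Injective f := by
    intro u v huv
    have h2 : (1 - σ) • u = (1 - σ) • v := add_right_cancel huv
    exact smul_right_injective _ hσ.ne' h2
  have hA : IsCompact (f '' K0) := hK.image hfc
  have hAm : MeasurableSet (f '' K0) := hA.measurableSet
  set F : (ι → ℝ) → ℝ := (f '' K0).indicator (fun x => Real.exp (x ⬝ᵥ y)) with hF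
  have e1 : ∫ x in f '' K0, Real.exp (x ⬝ᵥ y) = ∫ x, F x := (integral_indicator hAm).symm
  have e2 : ∫ x, F ((1 - σ) • x + σ • p) = |((1 - σ) ^ Fintype.card ι)⁻¹| • ∫ x, F x := by
    have h3 := MeasureTheory.Measure.integral_comp_smul (volume : Measure (ι → ℝ)) (fun x => F (x + σ • p)) (1 - σ)
    rw [Module.finrank_fintype_fun_eq_card, integral_add_right_eq_self F (σ • p)] at h3
    exact h3
  have e3 : ∫ x, F x = (1 - σ) ^ Fintype.card ι * ∫ x, F ((1 - σ) • x + σ • p) := by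
    rw [e2, abs_of_pos (by positivity), smul_eq_mul, ← mul_assoc, mul_inv_cancel₀ (by positivity), one_mul]
  have e4 : ∀ x, F ((1 - σ) • x + σ • p) = K0.indicator (fun x => Real.exp (f x ⬝ᵥ y)) x := by
    intro x
    have hx : F ((1 - σ) • x + σ • p) = (f '' K0).indicator (fun x => Real.exp (x ⬝ᵥ y)) (f x) := rfl
    rw [hx]
    by_cases h : x ∈ K0
    · rw [Set.indicator_of_mem h, Set.indicator_of_mem (Set.mem_image_of_mem f h)]
    · rw [Set.indicator_of_notMem h, Set.indicator_of_notMem]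
      rintro ⟨z, hz, hzx⟩
      exact h (hinj hzx ▸ hz)
  have e5 : ∫ x, F ((1 - σ) • x + σ • p) = ∫ x in K0, Real.exp (f x ⬝ᵥ y) := by
    rw [← integral_indicator hK.measurableSet]
    exact integral_congr_ae (Filter.Eventually.of_forall e4)
  have e6 : Real.exp (-(2 * σ * M)) * ∫ x in K0, Real.exp (x ⬝ᵥ y) ≤ ∫ x in K0, Real.exp (f x ⬝ᵥ y) := by
    rw [← integral_const_mul]
    apply setIntegral_mono_on
    · exact ((continuous_const.mul (sb_contE y)).continuousOn.integrableOn_compact hK)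
    · exact (((sb_contE y).comp hfc).continuousOn.integrableOn_compact hK)
    · exact hK.measurableSet
    · intro x hx
      rw [← Real.exp_add]
      apply Real.exp_le_exp.2
      have h3 : f x ⬝ᵥ y = (1 - σ) * (x ⬝ᵥ y) + σ * (p ⬝ᵥ y) := by
        rw [hf]
        simp only [add_dotProduct, smul_dotProduct, smul_eq_mul]
      rw [h3]
      have h4 := (abs_le.1 (hy x hx)).2
      have h5 := (abs_le.1 hp).1
      have h6 := mul_le_mul_of_nonneg_left h4 h0.le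
      have h7 := mul_le_mul_of_nonneg_left h5 h0.le
      linarith
  have hM0 : 0 ≤ M := le_trans (Nat.cast_nonneg _) hM
  have e7 : Real.exp (-(2 * σ * M)) ≤ (1 - σ) ^ Fintype.card ι := by
    have h8 : Real.exp (-(2 * σ)) ≤ 1 - σ := by
      have h9 : 1 + 2 * σ ≤ Real.exp (2 * σ) := by linarith [Real.add_one_le_exp (2 * σ)]
      rw [Real.exp_neg]
      rw [inv_le_comm₀ (Real.exp_pos _) hσ]
      refine le_trans ?_ h9
      rw [inv_le_iff_one_le_mul₀ hσ]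
      nlinarith
    calc Real.exp (-(2 * σ * M)) ≤ Real.exp (-(2 * σ) * Fintype.card ι) := by
          apply Real.exp_le_exp.2
          nlinarith
      _ = Real.exp (-(2 * σ)) ^ Fintype.card ι := by
          rw [mul_comm, Real.exp_nat_mul]
      _ ≤ (1 - σ) ^ Fintype.card ι := pow_le_pow_left₀ (Real.exp_pos _).le h8 _
  have hI0 : 0 ≤ ∫ x in K0, Real.exp (x ⬝ᵥ y) := integral_nonneg fun x => (Real.exp_pos _).le
  rw [e1, e3, e5]
  calc Real.exp (-(4 * σ * M)) * ∫ x in K0, Real.exp (x ⬝ᵥ y)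
      = Real.exp (-(2 * σ * M)) * (Real.exp (-(2 * σ * M)) * ∫ x in K0, Real.exp (x ⬝ᵥ y)) := by
        rw [← mul_assoc, ← Real.exp_add]
        congr 2
        ring
    _ ≤ (1 - σ) ^ Fintype.card ι * ∫ x in K0, Real.exp (f x ⬝ᵥ y) := by
        apply mul_le_mul e7 e6 _ (by positivity)
        exact mul_nonneg (Real.exp_pos _).le hI0

theorem sepBound_of_tilt {ι : Type} [Fintype ι] (Q : Set (ι → ℝ)) (hQ : Convex ℝ Q)
    (hQc : IsCompact Q) (y b : ι → ℝ) (M : ℝ) (hM : (Fintype.card ι : ℝ) ≤ M)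
    (hy : ∀ x ∈ Q, |x ⬝ᵥ y| ≤ M) (hpos : 0 < ∫ x in Q, Real.exp (x ⬝ᵥ y))
    (hmass : 3 / 4 * ∫ x in Q, Real.exp (x ⬝ᵥ y) ≤
      ∫ x in Q ∩ {x | (x - b) ⬝ᵥ (x - b) ≤ 2 ^ 2}, Real.exp (x ⬝ᵥ y)) :
    SepBound M Q := by
  intro t ht s hsQ hsep
  set σ : ℝ := 5 / t with hσ
  have ht0 : 0 < t := by linarith
  have h0 : 0 < σ := by positivity
  have h1 : σ ≤ 1 / 2 := by
    rw [hσ, div_le_div_iff₀ ht0 (by norm_num)]
    linarith
  have hσ1 : 0 < 1 - σ := by linarith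
  set K0 : Set (ι → ℝ) := Q ∩ {x | (x - b) ⬝ᵥ (x - b) ≤ 2 ^ 2} with hK0
  have hK0c : IsCompact K0 := hQc.inter_right (isClosed_le (sb_contQ b) continuous_const)
  set A : (ι → ℝ) → Set (ι → ℝ) := fun p => (fun x => (1 - σ) • x + σ • p) '' K0 with hA
  have hAc : ∀ p, IsCompact (A p) := fun p => hK0c.image (by fun_prop)
  have hAQ : ∀ p ∈ s, A p ⊆ Q := by
    rintro p hp z ⟨x, hx, rfl⟩
    exact hQ hx.1 (hsQ p hp) hσ1.le h0.le (by ring)
  have hdisj : (s : Set (ι → ℝ)).Pairwise (Function.onFun Disjoint A) := by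
    intro p hp q hq hpq
    rw [Function.onFun, Set.disjoint_left]
    rintro z ⟨x, hx, hxz⟩ ⟨x', hx', hxz'⟩
    have h2 : σ • (p - q) = (1 - σ) • (x' - x) := by
      have h3 : (1 - σ) • x + σ • p = (1 - σ) • x' + σ • q := hxz.trans hxz'.symm
      rw [smul_sub, smul_sub, sub_eq_sub_iff_add_eq_add, add_comm (σ • p), h3]
    have h4 := hsep p hp q hq hpq
    have h5 : (σ • (p - q)) ⬝ᵥ (σ • (p - q)) = ((1 - σ) • (x' - x)) ⬝ᵥ ((1 - σ) • (x' - x)) := by rw [h2]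
    simp only [smul_dotProduct, dotProduct_smul, smul_eq_mul] at h5
    have h6 := sb_par x x' b
    have h7 : (x - b) ⬝ᵥ (x - b) ≤ 2 ^ 2 := hx.2
    have h8 : (x' - b) ⬝ᵥ (x' - b) ≤ 2 ^ 2 := hx'.2
    have h9 : (x' - x) ⬝ᵥ (x' - x) ≤ 16 := by linarith
    have h10 := sb_nonneg (x' - x)
    have h11 : (1 - σ) * ((1 - σ) * ((x' - x) ⬝ᵥ (x' - x))) ≤ 16 := by
      have h12 : (1 - σ) * ((x' - x) ⬝ᵥ (x' - x)) ≤ 1 * ((x' - x) ⬝ᵥ (x' - x)) := by
        apply mul_le_mul_of_nonneg_right _ h10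
        linarith
      have h13 : 0 ≤ (1 - σ) * ((x' - x) ⬝ᵥ (x' - x)) := mul_nonneg hσ1.le h10
      have h14 : (1 - σ) * ((1 - σ) * ((x' - x) ⬝ᵥ (x' - x))) ≤ 1 * ((1 - σ) * ((x' - x) ⬝ᵥ (x' - x))) := by
        apply mul_le_mul_of_nonneg_right _ h13
        linarith
      linarith
    have h15 : 25 ≤ σ * (σ * ((p - q) ⬝ᵥ (p - q))) := by
      calc (25 : ℝ) = σ * (σ * t ^ 2) := by
            rw [hσ]
            field_simp
            norm_num
        _ ≤ σ * (σ * ((p - q) ⬝ᵥ (p - q))) := by gcongr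
    linarith
  set Z : ℝ := ∫ x in Q, Real.exp (x ⬝ᵥ y) with hZ
  have hint : ∀ S : Set (ι → ℝ), IsCompact S → IntegrableOn (fun x => Real.exp (x ⬝ᵥ y)) S := fun S hS =>
    (sb_contE y).continuousOn.integrableOn_compact hS
  have hpiece : ∀ p ∈ s, Real.exp (-(4 * σ * M)) * (3 / 4 * Z) ≤ ∫ x in A p, Real.exp (x ⬝ᵥ y) := by
    intro p hp
    refine le_trans ?_ (sb_piece K0 hK0c y p M σ hM (fun x hx => hy x hx.1) (hy p (hsQ p hp)) h0 h1)
    exact mul_le_mul_of_nonneg_left hmass (Real.exp_pos _).le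
  have hsum : ∑ p ∈ s, ∫ x in A p, Real.exp (x ⬝ᵥ y) ≤ Z := by
    rw [← integral_biUnion_finset s (fun p _ => (hAc p).measurableSet) hdisj (fun p _ => hint _ (hAc p))]
    apply setIntegral_mono_set (hint Q hQc)
    · exact Filter.Eventually.of_forall fun x => (Real.exp_pos _).le
    · apply HasSubset.Subset.eventuallyLE
      exact Set.iUnion₂_subset hAQ
  have h2 : (s.card : ℝ) * (Real.exp (-(4 * σ * M)) * (3 / 4 * Z)) ≤ Z := by
    rw [← nsmul_eq_mul, ← Finset.sum_const]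
    exact (Finset.sum_le_sum hpiece).trans hsum
  have h3 : (s.card : ℝ) * Real.exp (-(4 * σ * M)) * (3 / 4) ≤ 1 := by
    have h4 : ((s.card : ℝ) * Real.exp (-(4 * σ * M)) * (3 / 4)) * Z ≤ 1 * Z := by
      rw [one_mul]
      calc ((s.card : ℝ) * Real.exp (-(4 * σ * M)) * (3 / 4)) * Z =
          (s.card : ℝ) * (Real.exp (-(4 * σ * M)) * (3 / 4 * Z)) := by ring
        _ ≤ Z := h2
    exact le_of_mul_le_mul_right h4 hpos
  have h5 : 4 * σ * M = 20 * M / t := by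
    rw [hσ]
    ring
  rw [h5, Real.exp_neg] at h3
  have h6 := Real.exp_pos (20 * M / t)
  have h7 : (s.card : ℝ) * (Real.exp (20 * M / t))⁻¹ ≤ 4 / 3 := by linarith
  rwa [← div_eq_mul_inv, div_le_iff₀ h6] at h7


end Pool.Agent.Helper116.TreeNo.J8
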