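import Mathlib
import Pool.Agent.Helper116.TreeDefs

set_option autoImplicit false

open MeasureTheory

namespace Pool.Agent.Helper116.TreeNo.R1


/-- entries of an orthogonal matrix are bounded by one -/
theorem orth_entry_le {ι : Type} [Fintype ι] [DecidableEq ι] (A : Matrix ι ι ℝ)
    (hA : A ∈ Matrix.unitaryGroup ι ℝ) (i j : ι) : A i j ∈ Set.Icc (-1 : ℝ) 1 := by
  have h := Matrix.mem_unitaryGroup_iff.1 hA
  have h1 : (A * star A) i i = 1 := by rw [h]; simp
  rw [Matrix.mul_apply] at h1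
  have h2 : ∀ k, A i k * (star A) k i = (A i k) ^ 2 := by
    intro k
    rw [Matrix.star_apply]
    simp [sq]
  rw [Finset.sum_congr rfl (fun k _ => h2 k)] at h1
  have h3 : (A i j) ^ 2 ≤ 1 := by
    rw [← h1]
    exact Finset.single_le_sum (f := fun k => (A i k) ^ 2) (fun k _ => sq_nonneg _)
      (Finset.mem_univ j)
  rw [Set.mem_Icc, ← abs_le]
  exact abs_le_of_sq_le_sq (by rw [one_pow]; exact h3) zero_le_one

theorem orth_compact (ι : Type) [Fintype ι] [DecidableEq ι] :
    CompactSpace (Matrix.unitaryGroup ι ℝ) := by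
  refine isCompact_iff_compactSpace.1 ?_
  have h1 : IsClosed (Matrix.unitaryGroup ι ℝ : Set (Matrix ι ι ℝ)) := isClosed_unitary
  have h2 : IsCompact ((Set.Icc (-1 : ℝ) 1).matrix : Set (Matrix ι ι ℝ)) :=
    (isCompact_Icc).matrix
  refine h2.of_isClosed_subset h1 ?_
  intro A hA
  rw [Set.mem_matrix]
  exact fun i j => orth_entry_le A hA i j

/-- Householder -/
theorem exists_householder {ι : Type} [Fintype ι] [DecidableEq ι] (x y : ι → ℝ)
    (h : x ⬝ᵥ x = y ⬝ᵥ y) : ∃ V : Matrix ι ι ℝ, V.transpose = V ∧ V * V = 1 ∧ V.mulVec x = y := by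
  by_cases hxy : x = y
  · subst hxy
    exact ⟨1, by simp, by simp, by simp⟩
  · have hu : (x - y) ⬝ᵥ (x - y) ≠ 0 := by
      intro h0
      exact hxy (sub_eq_zero.1 (dotProduct_self_eq_zero.1 h0))
    set u := x - y with hudef
    have hux : u ⬝ᵥ u = 2 * (u ⬝ᵥ x) := by
      rw [hudef]
      simp only [sub_dotProduct, dotProduct_sub]
      rw [dotProduct_comm x y]
      linarith
    refine ⟨1 - (2 / (u ⬝ᵥ u)) • Matrix.vecMulVec u u, ?_, ?_, ?_⟩
    · rw [Matrix.transpose_sub, Matrix.transpose_one, Matrix.transpose_smul,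
        Matrix.transpose_vecMulVec]
    · have h1 : Matrix.vecMulVec u u * Matrix.vecMulVec u u
          = (u ⬝ᵥ u) • Matrix.vecMulVec u u := by
        ext i j
        rw [Matrix.mul_apply]
        simp only [Matrix.vecMulVec_apply, Matrix.smul_apply, smul_eq_mul, dotProduct,
          Finset.sum_mul]
        refine Finset.sum_congr rfl fun k _ => ?_
        ring
      rw [sub_mul, mul_sub, mul_sub, mul_one, one_mul, mul_one]
      rw [smul_mul_smul_comm, h1, smul_smul]
      have h2 : 2 / (u ⬝ᵥ u) * (2 / (u ⬝ᵥ u)) * (u ⬝ᵥ u) = 2 / (u ⬝ᵥ u) + 2 / (u ⬝ᵥ u) := by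
        field_simp
        norm_num
      rw [h2, add_smul]
      abel
    · rw [Matrix.sub_mulVec, Matrix.one_mulVec, Matrix.smul_mulVec]
      have h3 : (Matrix.vecMulVec u u).mulVec x = (u ⬝ᵥ x) • u := by
        ext i
        simp only [Matrix.mulVec, dotProduct, Matrix.vecMulVec_apply, Pi.smul_apply, smul_eq_mul,
          Finset.sum_mul]
        refine Finset.sum_congr rfl fun k _ => ?_
        ring
      rw [h3, smul_smul]
      have h4 : 2 / (u ⬝ᵥ u) * (u ⬝ᵥ x) = 1 := by
        rw [div_mul_eq_mul_div, ← hux, div_self hu]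
      rw [h4, one_smul, hudef]
      abel

theorem exists_random_orthogonal (ι : Type) [Fintype ι] [DecidableEq ι] :
    ∃ (Ω : Type) (_ : MeasurableSpace Ω) (μ : Measure Ω) (U : Ω → Matrix ι ι ℝ),
      IsProbabilityMeasure μ ∧ (∀ i j, Measurable fun ω => U ω i j) ∧
      (∀ ω, U ω * (U ω).transpose = 1) ∧
      (∀ x y : ι → ℝ, x ⬝ᵥ x = y ⬝ᵥ y → ∀ A : Set (ι → ℝ), MeasurableSet A →
        μ {ω | (U ω).mulVec x ∈ A} = μ {ω | (U ω).mulVec y ∈ A}) := by
  letI : MeasurableSpace (Matrix.unitaryGroup ι ℝ) := borel _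
  haveI : BorelSpace (Matrix.unitaryGroup ι ℝ) := ⟨rfl⟩
  haveI := orth_compact ι
  refine ⟨Matrix.unitaryGroup ι ℝ, inferInstance, Measure.haarMeasure ⊤,
    fun ω => (ω : Matrix ι ι ℝ).transpose, ?_, ?_, ?_, ?_⟩
  · constructor
    have := Measure.haarMeasure_self (K₀ := (⊤ : TopologicalSpace.PositiveCompacts (Matrix.unitaryGroup ι ℝ)))
    simpa using this
  · intro i j
    have hc : Continuous fun ω : Matrix.unitaryGroup ι ℝ => (ω : Matrix ι ι ℝ).transpose i j := by
      have h1 : Continuous fun ω : Matrix.unitaryGroup ι ℝ => (ω : Matrix ι ι ℝ) :=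
        continuous_subtype_val
      exact h1.matrix_elem j i
    exact hc.measurable
  · intro ω
    have := Matrix.mem_unitaryGroup_iff'.1 ω.2
    rw [Matrix.star_eq_conjTranspose, Matrix.conjTranspose_eq_transpose_of_trivial] at this
    rw [Matrix.transpose_transpose]
    exact this
  · intro x y hxy A hA
    obtain ⟨V, hVt, hVV, hVx⟩ := exists_householder x y hxy
    have hVmem : V ∈ Matrix.unitaryGroup ι ℝ := by
      rw [Matrix.mem_unitaryGroup_iff, Matrix.star_eq_conjTranspose,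
        Matrix.conjTranspose_eq_transpose_of_trivial, hVt, hVV]
    have key := measure_preimage_mul
      (Measure.haarMeasure (⊤ : TopologicalSpace.PositiveCompacts (Matrix.unitaryGroup ι ℝ)))
      (⟨V, hVmem⟩ : Matrix.unitaryGroup ι ℝ)
      {ω : Matrix.unitaryGroup ι ℝ | ((ω : Matrix ι ι ℝ).transpose).mulVec x ∈ A}
    rw [← key]
    congr 1
    ext ω
    simp only [Set.mem_preimage, Set.mem_ofPred_eq]
    have h5 : ((((⟨V, hVmem⟩ : Matrix.unitaryGroup ι ℝ) * ω : Matrix.unitaryGroup ι ℝ) :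
        Matrix ι ι ℝ).transpose).mulVec x = ((ω : Matrix ι ι ℝ).transpose).mulVec y := by
      rw [Submonoid.coe_mul, Matrix.transpose_mul]
      show ((ω : Matrix ι ι ℝ).transpose * V.transpose).mulVec x = _
      rw [hVt, ← Matrix.mulVec_mulVec, hVx]
    rw [h5]


end Pool.Agent.Helper116.TreeNo.R1
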