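import Mathlib
import Pool.Agent.Helper116.TreeDefs

set_option autoImplicit false

open MeasureTheory

namespace Pool.Agent.Helper116.TreeNo.R2


theorem eball_meas (ι : Type) [Fintype ι] (r : ℝ) : MeasurableSet (eball ι r) := by
  unfold eball dotProduct
  apply measurableSet_le <;> fun_prop

open scoped Pointwise in
theorem eball_smul {β : Type} [Fintype β] {κ : ℝ} (hκ : 0 < κ) :
    eball β κ = κ • eball β 1 := by
  ext x
  rw [Set.mem_smul_set_iff_inv_smul_mem₀ hκ.ne']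
  unfold eball
  simp only [Set.mem_setOf_eq, smul_dotProduct, dotProduct_smul, smul_eq_mul, one_pow]
  rw [← mul_assoc, ← mul_inv, inv_mul_le_iff₀ (by positivity), mul_one, sq]

theorem eball_volume {β : Type} [Fintype β] {κ : ℝ} (hκ : 0 < κ) :
    volume (eball β κ) = ENNReal.ofReal (κ ^ (Fintype.card β)) * volume (eball β 1) := by
  rw [eball_smul hκ, Measure.addHaar_smul, Module.finrank_fintype_fun_eq_card,
    abs_of_nonneg (by positivity)]

theorem eball_ne_top (β : Type) [Fintype β] : volume (eball β 1) ≠ ⊤ := by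
  have hsub : eball β 1 ⊆ Metric.closedBall (0 : β → ℝ) 1 := by
    intro x hx
    have hx' : x ⬝ᵥ x ≤ 1 ^ 2 := hx
    rw [mem_closedBall_zero_iff, pi_norm_le_iff_of_nonneg zero_le_one]
    intro i
    have h1 : x i * x i ≤ x ⬝ᵥ x := by
      unfold dotProduct
      exact Finset.single_le_sum (f := fun i => x i * x i) (fun j _ => mul_self_nonneg _)
        (Finset.mem_univ i)
    rw [Real.norm_eq_abs]
    apply abs_le_of_sq_le_sq _ zero_le_one
    rw [sq]
    linarith
  exact ((measure_mono hsub).trans_lt measure_closedBall_lt_top).ne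

theorem random_rotation_of {α β : Type} [Fintype α] [Fintype β] [DecidableEq α] [DecidableEq β]
    (Ω : Type) (_ : MeasurableSpace Ω) (μ : Measure Ω) (U : Ω → Matrix (α ⊕ β) (α ⊕ β) ℝ)
    (hμ : IsProbabilityMeasure μ) (hm : ∀ i j, Measurable fun ω => U ω i j)
    (hU : ∀ ω, U ω * (U ω).transpose = 1)
    (hinv : ∀ x y : α ⊕ β → ℝ, x ⬝ᵥ x = y ⬝ᵥ y → ∀ A : Set (α ⊕ β → ℝ), MeasurableSet A →
        μ {ω | (U ω).mulVec x ∈ A} = μ {ω | (U ω).mulVec y ∈ A})
    (N : Finset (α ⊕ β → ℝ)) (hN : ∀ x ∈ N, x ≠ 0) (κ : ℝ) (hκ : 0 < κ)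
    (hcard : (N.card : ℝ) * (κ ^ (Fintype.card β) * (om α * om β)) < om (α ⊕ β)) :
    ∃ ω, ∀ x ∈ N, κ ^ 2 * (x ⬝ᵥ x) < ∑ j : β, ((U ω).mulVec x (Sum.inr j)) ^ 2 := by
  set A : Set (α ⊕ β → ℝ) := {z | ∑ j : β, (z (Sum.inr j)) ^ 2 ≤ κ ^ 2 * (z ⬝ᵥ z)} with hA
  have hAm : MeasurableSet A := by
    apply measurableSet_le
    · fun_prop
    · unfold dotProduct; fun_prop
  have hU' : ∀ ω, (U ω).transpose * U ω = 1 := fun ω => mul_eq_one_comm.1 (hU ω)
  have hdot : ∀ ω x, (U ω).mulVec x ⬝ᵥ (U ω).mulVec x = x ⬝ᵥ x := by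
    intro ω x
    rw [Matrix.dotProduct_mulVec, ← Matrix.mulVec_transpose, Matrix.mulVec_mulVec, hU' ω,
      Matrix.one_mulVec]
  by_contra hcon
  push Not at hcon
  have hbad : ∀ ω, ∃ x ∈ N, (U ω).mulVec x ∈ A := by
    intro ω
    obtain ⟨x, hx, h⟩ := hcon ω
    refine ⟨x, hx, ?_⟩
    show ∑ j : β, ((U ω).mulVec x (Sum.inr j)) ^ 2 ≤
      κ ^ 2 * ((U ω).mulVec x ⬝ᵥ (U ω).mulVec x)
    rw [hdot]
    exact h
  obtain ⟨ω₀⟩ := nonempty_of_isProbabilityMeasure μ
  obtain ⟨x₀, hx₀, -⟩ := hbad ω₀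
  have hpos : ∀ z : α ⊕ β → ℝ, z ≠ 0 → 0 < z ⬝ᵥ z := by
    intro z hz
    have h1 : 0 ≤ z ⬝ᵥ z := by
      unfold dotProduct
      exact Finset.sum_nonneg fun i _ => mul_self_nonneg _
    refine lt_of_le_of_ne h1 ?_
    intro h2
    exact hz (dotProduct_self_eq_zero.1 h2.symm)
  set c := μ {ω | (U ω).mulVec x₀ ∈ A} with hc
  have hf' : ∀ z : α ⊕ β → ℝ, z ≠ 0 → μ {ω | (U ω).mulVec z ∈ A} = c := by
    intro z hz
    have hz2 := hpos z hz
    have hx2 := hpos x₀ (hN x₀ hx₀)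
    set s := Real.sqrt (x₀ ⬝ᵥ x₀ / z ⬝ᵥ z) with hs
    have hs0 : 0 < s := Real.sqrt_pos.2 (by positivity)
    have hs2 : s * s = x₀ ⬝ᵥ x₀ / z ⬝ᵥ z := Real.mul_self_sqrt (by positivity)
    have h1 : x₀ ⬝ᵥ x₀ = (s • z) ⬝ᵥ (s • z) := by
      rw [smul_dotProduct, dotProduct_smul, smul_eq_mul, smul_eq_mul, ← mul_assoc, hs2]
      field_simp
    rw [hc, hinv x₀ (s • z) h1 A hAm]
    congr 1
    ext ω
    simp only [Set.mem_setOf_eq]
    rw [Matrix.mulVec_smul, hA]
    simp only [Set.mem_setOf_eq, Pi.smul_apply, smul_eq_mul, smul_dotProduct, dotProduct_smul,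
      mul_pow]
    rw [← Finset.mul_sum]
    constructor
    · intro h
      have := mul_le_mul_of_nonneg_left h (sq_nonneg s)
      nlinarith
    · intro h
      have hss : 0 < s ^ 2 := by positivity
      have h3 : s ^ 2 * ∑ j : β, ((U ω).mulVec z (Sum.inr j)) ^ 2 ≤
          s ^ 2 * (κ ^ 2 * ((U ω).mulVec z ⬝ᵥ (U ω).mulVec z)) := by nlinarith
      exact le_of_mul_le_mul_left h3 hss
  have hf : ∀ z : α ⊕ β → ℝ, c ≤ μ {ω | (U ω).mulVec z ∈ A} := by
    intro z
    by_cases hz : z = 0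
    · have h1 : {ω | (U ω).mulVec z ∈ A} = Set.univ := by
        rw [Set.eq_univ_iff_forall]
        intro ω
        simp only [Set.mem_setOf_eq, hz, Matrix.mulVec_zero]
        simp [hA]
      rw [h1, measure_univ]
      exact prob_le_one
    · exact (hf' z hz).ge
  -- Tonelli
  set B := eball (α ⊕ β) 1 with hB
  have hBm : MeasurableSet B := eball_meas _ _
  have hBU : ∀ ω z, (U ω).mulVec z ∈ B ↔ z ∈ B := by
    intro ω z
    show (U ω).mulVec z ⬝ᵥ (U ω).mulVec z ≤ 1 ^ 2 ↔ z ⬝ᵥ z ≤ 1 ^ 2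
    rw [hdot]
  have hΦ : Measurable (fun p : Ω × (α ⊕ β → ℝ) => (U p.1).mulVec p.2) := by
    rw [measurable_pi_iff]
    intro i
    show Measurable (fun p : Ω × (α ⊕ β → ℝ) => ∑ j, U p.1 i j * p.2 j)
    exact Finset.measurable_sum _ fun j _ =>
      ((hm i j).comp measurable_fst).mul ((measurable_pi_apply j).comp measurable_snd)
  set T : Set (Ω × (α ⊕ β → ℝ)) := (fun p => (U p.1).mulVec p.2) ⁻¹' (A ∩ B) with hT
  have hTm : MeasurableSet T := hΦ (hAm.inter hBm)
  have e1 : (μ.prod volume) T = volume (A ∩ B) := by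
    rw [Measure.prod_apply hTm]
    have h1 : ∀ ω, volume (Prod.mk ω ⁻¹' T) = volume (A ∩ B) := by
      intro ω
      have h2 : Prod.mk ω ⁻¹' T = (Matrix.toLin' (U ω)) ⁻¹' (A ∩ B) := by
        ext z
        simp [hT, Matrix.toLin'_apply]
      have hdet : (U ω).det * (U ω).det = 1 := by
        have := congrArg Matrix.det (hU ω)
        rwa [Matrix.det_mul, Matrix.det_transpose, Matrix.det_one] at this
      have hdet0 : (U ω).det ≠ 0 := by
        intro h; rw [h, mul_zero] at hdet; exact zero_ne_one hdet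
      have habs : |((U ω).det)⁻¹| = 1 := by
        rw [abs_inv]
        have : |(U ω).det| = 1 := by
          have h3 : |(U ω).det| * |(U ω).det| = 1 := by rw [← abs_mul, hdet, abs_one]
          nlinarith [abs_nonneg (U ω).det]
        rw [this, inv_one]
      rw [h2, Measure.addHaar_preimage_linearMap volume
        (by rw [LinearMap.det_toLin']; exact hdet0), LinearMap.det_toLin', habs,
        ENNReal.ofReal_one, one_mul]
    simp only [h1]
    rw [lintegral_const, measure_univ, mul_one]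
  have e2 : c * volume B ≤ (μ.prod volume) T := by
    rw [Measure.prod_apply_symm hTm]
    have h1 : c * volume B = ∫⁻ z, B.indicator (fun _ => c) z := by
      rw [lintegral_indicator_const hBm]
    rw [h1]
    apply lintegral_mono
    intro z
    by_cases hz : z ∈ B
    · rw [Set.indicator_of_mem hz]
      have h2 : ((fun ω => (ω, z)) ⁻¹' T) = {ω | (U ω).mulVec z ∈ A} := by
        ext ω
        simp only [hT, Set.mem_preimage, Set.mem_inter_iff, Set.mem_setOf_eq, hBU, hz, and_true]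
      show c ≤ μ ((fun ω => (ω, z)) ⁻¹' T)
      rw [h2]
      exact hf z
    · rw [Set.indicator_of_notMem hz]
      exact zero_le
  have e3 : volume (A ∩ B) ≤ volume (eball α 1) * volume (eball β κ) := by
    have hmp := volume_measurePreserving_sumPiEquivProdPi (fun _ : α ⊕ β => ℝ)
    have h1 : A ∩ B ⊆ (MeasurableEquiv.sumPiEquivProdPi (fun _ : α ⊕ β => ℝ)) ⁻¹'
        (eball α 1 ×ˢ eball β κ) := by
      rintro z ⟨hzA, hzB⟩
      have hzA' : ∑ j : β, (z (Sum.inr j)) ^ 2 ≤ κ ^ 2 * (z ⬝ᵥ z) := hzA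
      have hzB' : z ⬝ᵥ z ≤ 1 ^ 2 := hzB
      have hsplit : z ⬝ᵥ z = ∑ i : α, z (Sum.inl i) * z (Sum.inl i)
          + ∑ j : β, z (Sum.inr j) * z (Sum.inr j) := by
        unfold dotProduct
        rw [Fintype.sum_sum_type]
      have hn1 : 0 ≤ ∑ i : α, z (Sum.inl i) * z (Sum.inl i) :=
        Finset.sum_nonneg fun i _ => mul_self_nonneg _
      have hn2 : 0 ≤ ∑ j : β, z (Sum.inr j) * z (Sum.inr j) :=
        Finset.sum_nonneg fun i _ => mul_self_nonneg _
      refine ⟨?_, ?_⟩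
      · show ∑ i : α, z (Sum.inl i) * z (Sum.inl i) ≤ 1 ^ 2
        linarith
      · show ∑ j : β, z (Sum.inr j) * z (Sum.inr j) ≤ κ ^ 2
        have h3 : ∑ j : β, z (Sum.inr j) * z (Sum.inr j) = ∑ j : β, (z (Sum.inr j)) ^ 2 :=
          Finset.sum_congr rfl fun j _ => (sq _).symm
        rw [h3]
        have h4 : κ ^ 2 * (z ⬝ᵥ z) ≤ κ ^ 2 * 1 :=
          mul_le_mul_of_nonneg_left (by linarith) (sq_nonneg κ)
        linarith
    refine (measure_mono h1).trans ?_
    rw [hmp.measure_preimage ((eball_meas α 1).prod (eball_meas β κ)).nullMeasurableSet,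
      Measure.volume_eq_prod, Measure.prod_prod]
  -- to real numbers
  have hfin := eball_ne_top α
  have hfin' := eball_ne_top β
  have hfinB := eball_ne_top (α ⊕ β)
  have e4 : c * volume B ≤ volume (eball α 1) *
      (ENNReal.ofReal (κ ^ (Fintype.card β)) * volume (eball β 1)) := by
    rw [← eball_volume hκ]
    exact e2.trans (e1.le.trans e3)
  have hκp : (0 : ℝ) ≤ κ ^ (Fintype.card β) := by positivity
  have e5 : c.toReal * om (α ⊕ β) ≤ κ ^ (Fintype.card β) * (om α * om β) := by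
    have h1 := ENNReal.toReal_mono (ENNReal.mul_ne_top hfin
      (ENNReal.mul_ne_top ENNReal.ofReal_ne_top hfin')) e4
    rw [ENNReal.toReal_mul, ENNReal.toReal_mul, ENNReal.toReal_mul,
      ENNReal.toReal_ofReal hκp] at h1
    unfold om vol
    calc _ ≤ _ := h1
      _ = _ := by ring
  have homα : 0 ≤ om α := ENNReal.toReal_nonneg
  have homβ : 0 ≤ om β := ENNReal.toReal_nonneg
  have hompos : 0 < om (α ⊕ β) := lt_of_le_of_lt (by positivity) hcard
  have hctop : c ≠ ⊤ := measure_ne_top μ _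
  have h1 : (1 : ENNReal) ≤ N.card * c := by
    have h2 : (Set.univ : Set Ω) ⊆ ⋃ x ∈ N, {ω | (U ω).mulVec x ∈ A} := by
      intro ω _
      obtain ⟨x, hx, h⟩ := hbad ω
      simp only [Set.mem_iUnion]
      exact ⟨x, hx, h⟩
    calc (1 : ENNReal) = μ Set.univ := measure_univ.symm
      _ ≤ μ (⋃ x ∈ N, {ω | (U ω).mulVec x ∈ A}) := measure_mono h2
      _ ≤ ∑ x ∈ N, μ {ω | (U ω).mulVec x ∈ A} := measure_biUnion_finset_le _ _
      _ = ∑ x ∈ N, c := Finset.sum_congr rfl fun x hx => hf' x (hN x hx)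
      _ = N.card * c := by rw [Finset.sum_const, nsmul_eq_mul]
  have h2 : (1 : ℝ) ≤ N.card * c.toReal := by
    have h3 := ENNReal.toReal_mono (ENNReal.mul_ne_top (ENNReal.natCast_ne_top _) hctop) h1
    rwa [ENNReal.toReal_one, ENNReal.toReal_mul, ENNReal.toReal_natCast] at h3
  have h3 : (N.card : ℝ) * (c.toReal * om (α ⊕ β)) ≤
      N.card * (κ ^ (Fintype.card β) * (om α * om β)) :=
    mul_le_mul_of_nonneg_left e5 (Nat.cast_nonneg _)
  have h4 : om (α ⊕ β) ≤ (N.card : ℝ) * (c.toReal * om (α ⊕ β)) := by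
    rw [← mul_assoc]
    calc om (α ⊕ β) = 1 * om (α ⊕ β) := (one_mul _).symm
      _ ≤ _ := mul_le_mul_of_nonneg_right h2 hompos.le
  linarith

end Pool.Agent.Helper116.TreeNo.R2
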