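import Mathlib
import Pool.Agent.Helper116.TreeDefs

set_option autoImplicit false

open MeasureTheory

namespace Pool.Agent.Helper116.TreeNo.S1



open scoped Pointwise in
theorem aux6468_smul {ι : Type} [Fintype ι] {s : ℝ} (hs : 0 < s) (t : ℝ) :
    s • eball ι t = eball ι (s * t) := by
  ext x
  rw [Set.mem_smul_set_iff_inv_smul_mem₀ hs.ne']
  unfold eball
  simp only [Set.mem_setOf_eq, smul_dotProduct, dotProduct_smul, smul_eq_mul]
  rw [← mul_assoc, mul_pow]
  have h2 : s⁻¹ * s⁻¹ = (s ^ 2)⁻¹ := by rw [sq, mul_inv]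
  rw [h2, inv_mul_le_iff₀ (by positivity)]

open scoped Pointwise in
theorem aux6468_sec {β : Type} [Fintype β] (c : β → ℝ) (A0 : Set (β → ℝ)) :
    volume ((fun v => (1 / 2 : ℝ) • c + v) '' ((1 / 2 : ℝ) • A0)) =
      ENNReal.ofReal ((1 / 2) ^ (Fintype.card β)) * volume A0 := by
  rw [Set.image_add_left, measure_preimage_add, Measure.addHaar_smul,
    Module.finrank_fintype_fun_eq_card, abs_of_nonneg (by positivity)]

open scoped Pointwise in
theorem vol_ge_of_proj {α β : Type} [Fintype α] [Fintype β] (A : Set (α ⊕ β → ℝ))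
    (hA : Convex ℝ A) (hAm : IsCompact A) (r : ℝ) (hr : 0 < r)
    (hproj : ∀ w : α → ℝ, w ⬝ᵥ w ≤ (1 / r) ^ 2 → ∃ y ∈ A, ∀ i, y (Sum.inl i) = w i) :
    (1 / 2) ^ (Fintype.card β) * (1 / (2 * r)) ^ (Fintype.card α) * om α *
      vol {v : β → ℝ | Sum.elim (0 : α → ℝ) v ∈ A} ≤ vol A := by
  set A0 : Set (β → ℝ) := {v : β → ℝ | Sum.elim (0 : α → ℝ) v ∈ A} with hA0
  let e := MeasurableEquiv.sumPiEquivProdPi (fun _ : α ⊕ β => ℝ)
  have hmp : MeasurePreserving e volume volume := volume_measurePreserving_sumPiEquivProdPi _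
  have hAmeas : MeasurableSet A := hAm.measurableSet
  have hvolA : volume A = volume (e.symm ⁻¹' A) :=
    (hmp.symm.measure_preimage hAmeas.nullMeasurableSet).symm
  have hsymm : ∀ (u : α → ℝ) (v : β → ℝ), e.symm (u, v) = Sum.elim u v := by
    intro u v
    funext i
    cases i <;> rfl
  have hmeas' : MeasurableSet (e.symm ⁻¹' A) := e.symm.measurable hAmeas
  have hsec : ∀ u ∈ eball α (1 / (2 * r)),
      ENNReal.ofReal ((1 / 2) ^ (Fintype.card β)) * volume A0 ≤
        volume (Prod.mk u ⁻¹' (e.symm ⁻¹' A)) := by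
    intro u hu
    have hu' : ((2 : ℝ) • u) ⬝ᵥ ((2 : ℝ) • u) ≤ (1 / r) ^ 2 := by
      have h1 : u ⬝ᵥ u ≤ (1 / (2 * r)) ^ 2 := hu
      rw [smul_dotProduct, dotProduct_smul, smul_eq_mul, smul_eq_mul]
      have h2 : (1 / (2 * r)) ^ 2 = (1 / 4) * (1 / r) ^ 2 := by
        field_simp; norm_num
      rw [h2] at h1
      linarith
    obtain ⟨y, hy, hyu⟩ := hproj _ hu'
    rw [← aux6468_sec (fun j => y (Sum.inr j)) A0]
    apply measure_mono
    rintro _ ⟨_, ⟨v, hv, rfl⟩, rfl⟩
    show e.symm (u, _) ∈ A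
    rw [hsymm]
    have hmid := hA hy hv (by norm_num : (0 : ℝ) ≤ 1 / 2) (by norm_num : (0 : ℝ) ≤ 1 / 2)
      (by norm_num)
    convert hmid using 1
    funext i
    cases i with
    | inl i =>
      simp only [Sum.elim_inl, Pi.add_apply, Pi.smul_apply, hyu, smul_eq_mul, Pi.zero_apply]
      ring
    | inr j =>
      simp only [Sum.elim_inr, Pi.add_apply, Pi.smul_apply, smul_eq_mul]
  have hBmeas : MeasurableSet (eball α (1 / (2 * r))) := by
    have hc : Continuous (fun x : α → ℝ => x ⬝ᵥ x) := by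
      unfold dotProduct
      fun_prop
    exact (isClosed_le hc continuous_const).measurableSet
  have hball : volume (eball α (1 / (2 * r))) =
      ENNReal.ofReal ((1 / (2 * r)) ^ (Fintype.card α)) * volume (eball α 1) := by
    have h1 : eball α (1 / (2 * r)) = (1 / (2 * r)) • eball α 1 := by
      rw [aux6468_smul (by positivity), mul_one]
    rw [h1, Measure.addHaar_smul, Module.finrank_fintype_fun_eq_card,
      abs_of_nonneg (by positivity)]
  have hmain : ENNReal.ofReal ((1 / 2) ^ (Fintype.card β)) *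
      ENNReal.ofReal ((1 / (2 * r)) ^ (Fintype.card α)) * volume (eball α 1) * volume A0 ≤
        volume A := by
    rw [hvolA]
    have h1 : (volume : Measure ((α → ℝ) × (β → ℝ))) (e.symm ⁻¹' A) =
        ∫⁻ u, volume (Prod.mk u ⁻¹' (e.symm ⁻¹' A)) := by
      rw [Measure.volume_eq_prod, Measure.prod_apply hmeas']
    rw [h1]
    calc _ = ∫⁻ _ in eball α (1 / (2 * r)),
          ENNReal.ofReal ((1 / 2) ^ (Fintype.card β)) * volume A0 := by
          rw [setLIntegral_const, hball]; ring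
      _ ≤ ∫⁻ u in eball α (1 / (2 * r)), volume (Prod.mk u ⁻¹' (e.symm ⁻¹' A)) :=
          setLIntegral_mono' hBmeas hsec
      _ ≤ _ := setLIntegral_le_lintegral _ _
  have hfin : volume A ≠ ⊤ := hAm.measure_lt_top.ne
  have h2 := ENNReal.toReal_mono hfin hmain
  rw [ENNReal.toReal_mul, ENNReal.toReal_mul, ENNReal.toReal_mul,
    ENNReal.toReal_ofReal (by positivity), ENNReal.toReal_ofReal (by positivity)] at h2
  exact h2


end Pool.Agent.Helper116.TreeNo.S1
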