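import Mathlib
import Pool.Agent.Helper116.TreeDefs

set_option autoImplicit false

open MeasureTheory

namespace Pool.Agent.Helper116.TreeNo.S3


theorem dot_le_card {ι : Type} [Fintype ι] (x y : ι → ℝ) {R r : ℝ} (hx : ‖x‖ ≤ R) (hy : ‖y‖ ≤ r)
    (hR : 0 ≤ R) : x ⬝ᵥ y ≤ (Fintype.card ι : ℝ) * (R * r) := by
  have h1 : x ⬝ᵥ y ≤ ∑ _i : ι, R * r := by
    refine Finset.sum_le_sum (fun i _ => ?_)
    have h2 : |x i| ≤ R := (norm_le_pi_norm x i).trans hx
    have h3 : |y i| ≤ r := (norm_le_pi_norm y i).trans hy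
    calc x i * y i ≤ |x i * y i| := le_abs_self _
      _ = |x i| * |y i| := abs_mul _ _
      _ ≤ R * r := mul_le_mul h2 h3 (abs_nonneg _) hR
  refine h1.trans (le_of_eq ?_)
  rw [Finset.sum_const, Finset.card_univ, nsmul_eq_mul]

theorem symBody_pol {ι : Type} [Fintype ι] (K : Set (ι → ℝ)) (hK : SymBody K) :
    SymBody (pol K) := by
  classical
  refine ⟨?_, ?_, ?_, ?_⟩
  · intro y1 h1 y2 h2 a b ha hb hab x hx
    rw [dotProduct_add, dotProduct_smul, dotProduct_smul, smul_eq_mul, smul_eq_mul]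
    have e1 := h1 x hx
    have e2 := h2 x hx
    nlinarith
  · obtain ⟨ε, hε, hball⟩ := Metric.mem_nhds_iff.1 hK.nhds
    refine Metric.isCompact_of_isClosed_isBounded ?_ ?_
    · have : pol K = ⋂ x ∈ K, {y | x ⬝ᵥ y ≤ 1} := by
        ext y
        simp [pol]
      rw [this]
      refine isClosed_biInter (fun x _ => ?_)
      refine isClosed_le ?_ continuous_const
      exact continuous_finsetSum _ (fun i _ => continuous_const.mul (continuous_apply i))
    · refine (Metric.isBounded_closedBall (x := (0 : ι → ℝ)) (r := 2 / ε)).subset ?_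
      intro y hy
      rw [mem_closedBall_zero_iff, pi_norm_le_iff_of_nonneg (by positivity)]
      intro i
      have h1 : ∀ c : ℝ, |c| = ε / 2 → c * y i ≤ 1 := by
        intro c hc
        have h2 : Pi.single i c ∈ K := by
          apply hball
          rw [mem_ball_zero_iff]
          have h3 : ‖(Pi.single i c : ι → ℝ)‖ ≤ ε / 2 := by
            rw [pi_norm_le_iff_of_nonneg (by positivity)]
            intro j
            by_cases hj : j = i
            · rw [hj, Pi.single_eq_same, Real.norm_eq_abs, hc]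
            · rw [Pi.single_eq_of_ne hj, norm_zero]
              positivity
          linarith
        have h3 := hy _ h2
        rwa [single_dotProduct] at h3
      have h2 := h1 (ε / 2) (abs_of_pos (by positivity))
      have h3 := h1 (-(ε / 2)) (by rw [abs_neg]; exact abs_of_pos (by positivity))
      rw [Real.norm_eq_abs, abs_le]
      constructor
      · rw [neg_le, le_div_iff₀ hε]
        linarith
      · rw [le_div_iff₀ hε]
        linarith
  · intro y hy x hx
    have h1 := hy (-x) (hK.symm x hx)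
    rw [neg_dotProduct] at h1
    rw [dotProduct_neg]
    exact h1
  · obtain ⟨R, hR⟩ := hK.compact.isBounded.exists_norm_le
    obtain ⟨R', hR'⟩ : ∃ R', R' = max R 0 := ⟨_, rfl⟩
    have hR0 : 0 ≤ R' := by rw [hR']; exact le_max_right _ _
    have hRR : R ≤ R' := by rw [hR']; exact le_max_left _ _
    obtain ⟨n, hn⟩ : ∃ n : ℝ, n = (Fintype.card ι : ℝ) := ⟨_, rfl⟩
    have hn0 : 0 ≤ n := by rw [hn]; positivity
    have hpos : 0 < 1 / (n * R' + 1) := by positivity
    refine Filter.mem_of_superset (Metric.ball_mem_nhds (0 : ι → ℝ) hpos) ?_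
    intro y hy x hx
    rw [mem_ball_zero_iff] at hy
    have h1 := dot_le_card x y ((hR x hx).trans hRR) hy.le hR0
    rw [← hn] at h1
    have h2 : n * (R' * (1 / (n * R' + 1))) = n * R' / (n * R' + 1) := by ring
    rw [h2] at h1
    have h3 : n * R' / (n * R' + 1) ≤ 1 := by
      rw [div_le_one (by positivity)]
      linarith
    exact h1.trans h3

theorem symBody_proj {α β : Type} [Fintype α] [Fintype β] (Q : Set (α ⊕ β → ℝ))
    (hQ : SymBody Q) : SymBody ((fun (y : α ⊕ β → ℝ) (j : β) => y (Sum.inr j)) '' Q) := by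
  have hcont : Continuous (fun (y : α ⊕ β → ℝ) (j : β) => y (Sum.inr j)) :=
    continuous_pi (fun j => continuous_apply _)
  refine ⟨?_, hQ.compact.image hcont, ?_, ?_⟩
  · rintro _ ⟨y1, h1, rfl⟩ _ ⟨y2, h2, rfl⟩ a b ha hb hab
    exact ⟨a • y1 + b • y2, hQ.convex h1 h2 ha hb hab, rfl⟩
  · rintro _ ⟨y1, h1, rfl⟩
    exact ⟨-y1, hQ.symm y1 h1, rfl⟩
  · have hc : Continuous (fun v : β → ℝ => (Sum.elim (0 : α → ℝ) v : α ⊕ β → ℝ)) := by
      refine continuous_pi (fun j => ?_)
      rcases j with j | j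
      · exact continuous_const
      · exact continuous_apply j
    have h0 : (Sum.elim (0 : α → ℝ) (0 : β → ℝ) : α ⊕ β → ℝ) = 0 := by
      funext j
      rcases j with j | j <;> rfl
    have h1 : Filter.Tendsto (fun v : β → ℝ => (Sum.elim (0 : α → ℝ) v : α ⊕ β → ℝ))
        (nhds 0) (nhds 0) := by
      have := hc.tendsto 0
      rwa [h0] at this
    filter_upwards [h1 hQ.nhds] with v hv
    exact ⟨_, hv, rfl⟩

theorem sepBound_proj {α β : Type} [Fintype α] [Fintype β] (M : ℝ) (Q : Set (α ⊕ β → ℝ))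
    (hQ : SepBound M Q) :
    SepBound M ((fun (y : α ⊕ β → ℝ) (j : β) => y (Sum.inr j)) '' Q) := by
  classical
  intro t ht s hs hsep
  have hl : ∀ x : β → ℝ, ∃ y : α ⊕ β → ℝ, x ∈ s → (y ∈ Q ∧ (fun j => y (Sum.inr j)) = x) := by
    intro x
    by_cases hx : x ∈ s
    · obtain ⟨y, hy, hyx⟩ := hs x hx
      exact ⟨y, fun _ => ⟨hy, hyx⟩⟩
    · exact ⟨0, fun h => absurd h hx⟩
  choose l hl using hl
  have hinj : Set.InjOn l (s : Set (β → ℝ)) := by
    intro x hx y hy hxy
    rw [← (hl x hx).2, ← (hl y hy).2, hxy]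
  rw [← Finset.card_image_of_injOn hinj]
  refine hQ t ht (s.image l) ?_ ?_
  · intro y hy
    obtain ⟨x, hx, rfl⟩ := Finset.mem_image.1 hy
    exact (hl x hx).1
  · intro y hy y' hy' hne
    obtain ⟨x, hx, rfl⟩ := Finset.mem_image.1 hy
    obtain ⟨x', hx', rfl⟩ := Finset.mem_image.1 hy'
    have hxx : x ≠ x' := fun h => hne (by rw [h])
    refine (hsep x hx x' hx' hxx).trans ?_
    have e1 : (l x - l x') ⬝ᵥ (l x - l x')
        = ∑ i : α, (l x - l x') (Sum.inl i) * (l x - l x') (Sum.inl i)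
          + ∑ j : β, (l x - l x') (Sum.inr j) * (l x - l x') (Sum.inr j) :=
      Fintype.sum_sum_type _
    rw [e1]
    have e2 : (x - x') ⬝ᵥ (x - x')
        = ∑ j : β, (l x - l x') (Sum.inr j) * (l x - l x') (Sum.inr j) := by
      refine Finset.sum_congr rfl (fun j _ => ?_)
      have f1 := congrFun (hl x hx).2 j
      have f2 := congrFun (hl x' hx').2 j
      simp only [Pi.sub_apply] at f1 f2 ⊢
      rw [f1, f2]
    rw [e2]
    have e3 : 0 ≤ ∑ i : α, (l x - l x') (Sum.inl i) * (l x - l x') (Sum.inl i) :=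
      Finset.sum_nonneg (fun i _ => mul_self_nonneg _)
    linarith

theorem pol_section {α β : Type} [Fintype α] [Fintype β] (Q : Set (α ⊕ β → ℝ)) :
    {v : β → ℝ | Sum.elim (0 : α → ℝ) v ∈ pol Q} =
      pol ((fun (y : α ⊕ β → ℝ) (j : β) => y (Sum.inr j)) '' Q) := by
  have key : ∀ (x : α ⊕ β → ℝ) (v : β → ℝ),
      x ⬝ᵥ (Sum.elim (0 : α → ℝ) v) = (fun j : β => x (Sum.inr j)) ⬝ᵥ v := by
    intro x v
    have e1 : x ⬝ᵥ (Sum.elim (0 : α → ℝ) v)
        = ∑ i : α, x (Sum.inl i) * 0 + ∑ j : β, x (Sum.inr j) * v j :=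
      Fintype.sum_sum_type _
    rw [e1]
    simp [dotProduct]
  ext v
  constructor
  · rintro h _ ⟨x, hx, rfl⟩
    rw [← key]
    exact h x hx
  · intro h x hx
    rw [key]
    exact h _ ⟨x, hx, rfl⟩

theorem symBody_image {ι : Type} [Fintype ι] [DecidableEq ι] (S : Matrix ι ι ℝ)
    (hS : IsUnit S.det) (K : Set (ι → ℝ)) (hK : SymBody K) :
    SymBody ((fun x => S.mulVec x) '' K) := by
  have hcont : ∀ T : Matrix ι ι ℝ, Continuous (fun x : ι → ℝ => T.mulVec x) := fun T =>
    Continuous.matrix_mulVec continuous_const continuous_id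
  refine ⟨?_, hK.compact.image (hcont S), ?_, ?_⟩
  · rintro _ ⟨y1, h1, rfl⟩ _ ⟨y2, h2, rfl⟩ a b ha hb hab
    refine ⟨a • y1 + b • y2, hK.convex h1 h2 ha hb hab, ?_⟩
    change S.mulVec (a • y1 + b • y2) = a • S.mulVec y1 + b • S.mulVec y2
    rw [Matrix.mulVec_add, Matrix.mulVec_smul, Matrix.mulVec_smul]
  · rintro _ ⟨y1, h1, rfl⟩
    refine ⟨-y1, hK.symm y1 h1, ?_⟩
    change S.mulVec (-y1) = -S.mulVec y1
    rw [Matrix.mulVec_neg]
  · have h1 : Filter.Tendsto (fun v : ι → ℝ => S⁻¹.mulVec v) (nhds 0) (nhds 0) := by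
      have := (hcont S⁻¹).tendsto 0
      rwa [Matrix.mulVec_zero] at this
    filter_upwards [h1 hK.nhds] with v hv
    refine ⟨_, hv, ?_⟩
    change S.mulVec (S⁻¹.mulVec v) = v
    rw [Matrix.mulVec_mulVec, Matrix.mul_nonsing_inv _ hS, Matrix.one_mulVec]

theorem pol_image {ι : Type} [Fintype ι] [DecidableEq ι] (S : Matrix ι ι ℝ)
    (hS : IsUnit S.det) (K : Set (ι → ℝ)) :
    pol ((fun x => S⁻¹.mulVec x) '' K) = (fun x => S.transpose.mulVec x) '' (pol K) := by
  have key : ∀ x y : ι → ℝ, (S⁻¹.mulVec x) ⬝ᵥ y = x ⬝ᵥ (S⁻¹.transpose.mulVec y) := by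
    intro x y
    rw [Matrix.dotProduct_mulVec, Matrix.vecMul_transpose]
  have hTt : S.transpose * S⁻¹.transpose = 1 := by
    rw [← Matrix.transpose_mul, Matrix.nonsing_inv_mul _ hS, Matrix.transpose_one]
  have hTt' : S⁻¹.transpose * S.transpose = 1 := by
    rw [← Matrix.transpose_mul, Matrix.mul_nonsing_inv _ hS, Matrix.transpose_one]
  ext y
  constructor
  · intro h
    refine ⟨S⁻¹.transpose.mulVec y, fun x hx => ?_, ?_⟩
    · rw [← key]
      exact h _ ⟨x, hx, rfl⟩
    · change S.transpose.mulVec (S⁻¹.transpose.mulVec y) = y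
      rw [Matrix.mulVec_mulVec, hTt, Matrix.one_mulVec]
  · rintro ⟨z, hz, rfl⟩
    rintro _ ⟨x, hx, rfl⟩
    change (S⁻¹.mulVec x) ⬝ᵥ (S.transpose.mulVec z) ≤ 1
    rw [key, Matrix.mulVec_mulVec, hTt', Matrix.one_mulVec]
    exact hz x hx


end Pool.Agent.Helper116.TreeNo.S3
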