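import Mathlib
import Pool.Agent.Helper116.TreeDefs

set_option autoImplicit false

open MeasureTheory

namespace Pool.Agent.Helper116.TreeNo.S4



section OP

variable {ι κ : Type} [Fintype ι] [Fintype κ] [DecidableEq ι] [DecidableEq κ]

theorem op_inv (U : Matrix κ ι ℝ) (h2 : U.transpose * U = 1) (x : ι → ℝ) :
    U.transpose.mulVec (U.mulVec x) = x := by
  rw [Matrix.mulVec_mulVec, h2, Matrix.one_mulVec]

theorem op_inv' (U : Matrix κ ι ℝ) (h1 : U * U.transpose = 1) (y : κ → ℝ) :
    U.mulVec (U.transpose.mulVec y) = y := by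
  rw [Matrix.mulVec_mulVec, h1, Matrix.one_mulVec]

theorem op_dot (U : Matrix κ ι ℝ) (h2 : U.transpose * U = 1) (x y : ι → ℝ) :
    (U.mulVec x) ⬝ᵥ (U.mulVec y) = x ⬝ᵥ y := by
  rw [Matrix.dotProduct_mulVec, ← Matrix.mulVec_transpose, op_inv U h2]

theorem op_cont (U : Matrix κ ι ℝ) : Continuous (fun x : ι → ℝ => U.mulVec x) := by
  fun_prop

/-- the isometry -/
noncomputable def op_L (U : Matrix κ ι ℝ) (h1 : U * U.transpose = 1) (h2 : U.transpose * U = 1) :
    EuclideanSpace ℝ ι ≃ₗᵢ[ℝ] EuclideanSpace ℝ κ where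
  toFun := fun x => WithLp.toLp 2 (U.mulVec x.ofLp)
  map_add' := fun x y => by
    simp [Matrix.mulVec_add]
  map_smul' := fun c x => by
    simp [Matrix.mulVec_smul]
  invFun := fun y => WithLp.toLp 2 (U.transpose.mulVec y.ofLp)
  left_inv := fun x => by
    simp only
    rw [op_inv U h2]
  right_inv := fun y => by
    simp only
    rw [op_inv' U h1]
  norm_map' := fun x => by
    have h : ∀ {μ : Type} [Fintype μ] (z : EuclideanSpace ℝ μ), ‖z‖ ^ 2 = z.ofLp ⬝ᵥ z.ofLp := by
      intro μ _ z
      rw [EuclideanSpace.norm_sq_eq]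
      unfold dotProduct
      apply Finset.sum_congr rfl
      intro i _
      rw [Real.norm_eq_abs, sq_abs, sq]
    have h3 : ‖(WithLp.toLp 2 (U.mulVec x.ofLp) : EuclideanSpace ℝ κ)‖ ^ 2 = ‖x‖ ^ 2 := by
      rw [h, h]
      exact op_dot U h2 _ _
    exact (pow_left_inj₀ (norm_nonneg _) (norm_nonneg _) two_ne_zero).1 h3

theorem op_mp (U : Matrix κ ι ℝ) (h1 : U * U.transpose = 1) (h2 : U.transpose * U = 1) :
    MeasurePreserving (fun x : ι → ℝ => U.mulVec x) volume volume :=
  (PiLp.volume_preserving_ofLp κ).comp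
    ((op_L U h1 h2).measurePreserving.comp (PiLp.volume_preserving_toLp ι))

theorem op_pol_closed (S : Set (ι → ℝ)) : IsClosed (pol S) := by
  have : pol S = ⋂ x ∈ S, {y : ι → ℝ | x ⬝ᵥ y ≤ 1} := by
    ext y
    simp [pol]
  rw [this]
  apply isClosed_biInter
  intro x _
  apply isClosed_le _ continuous_const
  unfold dotProduct
  fun_prop

theorem op_eball_closed (r : ℝ) : IsClosed (eball ι r) := by
  unfold eball
  apply isClosed_le _ continuous_const
  unfold dotProduct
  fun_prop

end OP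

theorem orth_package {ι κ : Type} [Fintype ι] [Fintype κ] [DecidableEq ι] [DecidableEq κ]
    (U : Matrix κ ι ℝ) (h1 : U * U.transpose = 1) (h2 : U.transpose * U = 1) (M : ℝ)
    (Q : Set (ι → ℝ)) (hQ : SymBody Q) (hS : SepBound M Q) :
    SymBody ((fun x => U.mulVec x) '' Q) ∧ SepBound M ((fun x => U.mulVec x) '' Q) ∧
      vol (pol ((fun x => U.mulVec x) '' Q)) = vol (pol Q) ∧ om κ = om ι := by
  have hmp := op_mp U h1 h2
  have himg : (fun x => U.mulVec x) '' Q = (fun y => U.transpose.mulVec y) ⁻¹' Q := by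
    ext y
    constructor
    · rintro ⟨x, hx, rfl⟩
      show U.transpose.mulVec (U.mulVec x) ∈ Q
      rw [op_inv U h2]
      exact hx
    · intro hy
      exact ⟨U.transpose.mulVec y, hy, op_inv' U h1 y⟩
  refine ⟨⟨?_, ?_, ?_, ?_⟩, ?_, ?_, ?_⟩
  · exact hQ.convex.linear_image U.mulVecLin
  · exact hQ.compact.image (op_cont U)
  · rintro _ ⟨x, hx, rfl⟩
    refine ⟨-x, hQ.symm x hx, ?_⟩
    show U.mulVec (-x) = -U.mulVec x
    rw [Matrix.mulVec_neg]
  · rw [himg]
    have hc : ContinuousAt (fun y : κ → ℝ => U.transpose.mulVec y) 0 := (op_cont U.transpose).continuousAt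
    apply hc.preimage_mem_nhds
    rw [Matrix.mulVec_zero]
    exact hQ.nhds
  · intro t ht s hs hsep
    have hinj : Function.Injective (fun y : κ → ℝ => U.transpose.mulVec y) := by
      intro y y' h
      have := congrArg U.mulVec h
      simp only at this
      rwa [op_inv' U h1, op_inv' U h1] at this
    have hcard : (s.image (fun y : κ → ℝ => U.transpose.mulVec y)).card = s.card :=
      Finset.card_image_of_injective s hinj
    rw [← hcard]
    apply hS t ht
    · intro x hx
      obtain ⟨y, hy, rfl⟩ := Finset.mem_image.1 hx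
      have := hs y hy
      rw [himg] at this
      exact this
    · intro x hx x' hx' hne
      obtain ⟨y, hy, rfl⟩ := Finset.mem_image.1 hx
      obtain ⟨y', hy', rfl⟩ := Finset.mem_image.1 hx'
      have hne' : y ≠ y' := fun h => hne (by rw [h])
      have h3 := hsep y hy y' hy' hne'
      rw [← Matrix.mulVec_sub]
      have h4 := op_dot U.transpose (by rw [Matrix.transpose_transpose]; exact h1) (y - y') (y - y')
      rw [h4]
      exact h3
  · unfold vol
    have h3 : (fun x : ι → ℝ => U.mulVec x) ⁻¹' (pol ((fun x => U.mulVec x) '' Q)) = pol Q := by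
      ext x
      constructor
      · intro h z hz
        have := h (U.mulVec z) ⟨z, hz, rfl⟩
        rwa [op_dot U h2] at this
      · rintro h _ ⟨z, hz, rfl⟩
        have := h z hz
        show (U.mulVec z) ⬝ᵥ (U.mulVec x) ≤ 1
        rwa [op_dot U h2]
    rw [← h3, hmp.measure_preimage (op_pol_closed _).measurableSet.nullMeasurableSet]
  · unfold om vol
    have h3 : (fun x : ι → ℝ => U.mulVec x) ⁻¹' (eball κ 1) = eball ι 1 := by
      ext x
      show (U.mulVec x) ⬝ᵥ (U.mulVec x) ≤ 1 ^ 2 ↔ x ⬝ᵥ x ≤ 1 ^ 2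
      rw [op_dot U h2]
    rw [← h3, hmp.measure_preimage (op_eball_closed _).measurableSet.nullMeasurableSet]


end Pool.Agent.Helper116.TreeNo.S4
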