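import Mathlib
import Pool.Agent.Helper116.TreeDefs

set_option autoImplicit false

open MeasureTheory

namespace Pool.Agent.Helper116.TreeNo.S5


theorem ns_zero_mem {ι : Type} [Fintype ι] {Q : Set (ι → ℝ)} (hQ : SymBody Q) : (0 : ι → ℝ) ∈ Q :=
  mem_of_mem_nhds hQ.nhds

theorem ns_smul_mem {ι : Type} [Fintype ι] {Q : Set (ι → ℝ)} (hQ : SymBody Q) {x : ι → ℝ} (hx : x ∈ Q)
    {c : ℝ} (h0 : 0 ≤ c) (h1 : c ≤ 1) : c • x ∈ Q := by
  have := hQ.convex hx (ns_zero_mem hQ) h0 (sub_nonneg.2 h1) (by ring)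
  simpa using this

theorem ns_dot_nonneg {ι : Type} [Fintype ι] (x : ι → ℝ) : 0 ≤ x ⬝ᵥ x :=
  Finset.sum_nonneg fun i _ => mul_self_nonneg (x i)

theorem ns_dot_smul {ι : Type} [Fintype ι] (c : ℝ) (x : ι → ℝ) : (c • x) ⬝ᵥ (c • x) = c ^ 2 * (x ⬝ᵥ x) := by
  rw [smul_dotProduct, dotProduct_smul, smul_eq_mul, smul_eq_mul]; ring

theorem ns_cs {ι : Type} [Fintype ι] (x y : ι → ℝ) : (x ⬝ᵥ y) ^ 2 ≤ (x ⬝ᵥ x) * (y ⬝ᵥ y) := by
  have := Finset.sum_mul_sq_le_sq_mul_sq Finset.univ x y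
  simpa [dotProduct, sq] using this

theorem radius_bound {ι : Type} [Fintype ι] (M : ℝ) (hM : 1 ≤ M) (Q : Set (ι → ℝ))
    (hQ : SymBody Q) (hS : SepBound M Q) : ∀ x ∈ Q, x ⬝ᵥ x ≤ (4000 * M) ^ 2 := by
  classical
  intro x hx
  by_contra hcon
  push Not at hcon
  have hM0 : 0 < M := by linarith
  set n : ℝ := Real.sqrt (x ⬝ᵥ x) with hn
  have hnsq : n ^ 2 = x ⬝ᵥ x := Real.sq_sqrt (ns_dot_nonneg x)
  have hn1 : 4000 * M < n := by
    rw [hn]
    exact Real.lt_sqrt_of_sq_lt hcon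
  have hn0 : 0 < n := by linarith
  set f : ℕ → ι → ℝ := fun j => ((j : ℝ) * (20 * M) / n) • x with hf
  have hfd : ∀ i j : ℕ, (f i - f j) ⬝ᵥ (f i - f j) = (((i : ℝ) - j) * (20 * M)) ^ 2 := by
    intro i j
    have : f i - f j = ((((i : ℝ) - j) * (20 * M)) / n) • x := by
      simp only [hf]
      rw [← sub_smul]
      congr 1
      ring
    rw [this, ns_dot_smul, ← hnsq]
    field_simp
  have hsep : ∀ i j : ℕ, i ≠ j → (20 * M) ^ 2 ≤ (f i - f j) ⬝ᵥ (f i - f j) := by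
    intro i j hij
    rw [hfd, mul_pow]
    have h1 : (1 : ℝ) ≤ ((i : ℝ) - j) ^ 2 := by
      have h2 : (1 : ℤ) ≤ ((i : ℤ) - j) ^ 2 := by
        have : (i : ℤ) - j ≠ 0 := by omega
        have := pow_pos (abs_pos.2 this) 2
        rw [sq_abs] at this
        omega
      exact_mod_cast h2
    have h3 : (0 : ℝ) ≤ (20 * M) ^ 2 := sq_nonneg _
    nlinarith
  have hinj : Function.Injective f := by
    intro i j hij
    by_contra hne
    have h1 := hsep i j hne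
    rw [hij, sub_self, dotProduct_zero] at h1
    nlinarith
  have h1 := hS (20 * M) (by linarith) ((Finset.range 201).image f) (by
    intro y hy
    obtain ⟨j, hj, rfl⟩ := Finset.mem_image.1 hy
    apply ns_smul_mem hQ hx
    · positivity
    · rw [div_le_one hn0]
      have : (j : ℝ) ≤ 200 := by
        have := Finset.mem_range.1 hj
        exact_mod_cast (by omega : j ≤ 200)
      nlinarith) (by
    intro y hy z hz hyz
    obtain ⟨i, hi, rfl⟩ := Finset.mem_image.1 hy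
    obtain ⟨j, hj, rfl⟩ := Finset.mem_image.1 hz
    exact hsep i j (fun h => hyz (by rw [h])))
  rw [Finset.card_image_of_injective _ hinj, Finset.card_range, div_self (by positivity)] at h1
  have h2 := Real.exp_one_lt_d9
  norm_num at h1
  linarith

theorem vol_pol_of_radius {ι : Type} [Fintype ι] (Q : Set (ι → ℝ)) (hQ : SymBody Q) (r : ℝ)
    (hr : 0 < r) (h : ∀ x ∈ Q, x ⬝ᵥ x ≤ r ^ 2)
    (hpf : volume (pol Q) ≠ ⊤) (hball : vol (eball ι (1 / r)) = (1 / r) ^ (Fintype.card ι) * om ι) :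
    (1 / r) ^ (Fintype.card ι) * om ι ≤ vol (pol Q) := by
  rw [← hball]
  unfold vol
  apply ENNReal.toReal_mono hpf
  apply measure_mono
  intro y hy x hx
  have h1 : x ⬝ᵥ x ≤ r ^ 2 := h x hx
  have h2 : y ⬝ᵥ y ≤ (1 / r) ^ 2 := hy
  have h3 := ns_cs x y
  have h4 : (x ⬝ᵥ y) ^ 2 ≤ 1 := by
    calc (x ⬝ᵥ y) ^ 2 ≤ (x ⬝ᵥ x) * (y ⬝ᵥ y) := h3
      _ ≤ r ^ 2 * (1 / r) ^ 2 := mul_le_mul h1 h2 (ns_dot_nonneg y) (sq_nonneg r)
      _ = 1 := by field_simp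
  nlinarith

theorem ns_norm_U {ι : Type} [Fintype ι] [DecidableEq ι] (U : Matrix ι ι ℝ) (hU : U * U.transpose = 1)
    (z : ι → ℝ) : (U.mulVec z) ⬝ᵥ (U.mulVec z) = z ⬝ᵥ z := by
  have h1 : U.transpose * U = 1 := mul_eq_one_comm.1 hU
  rw [Matrix.dotProduct_mulVec, ← Matrix.mulVec_transpose, Matrix.mulVec_mulVec, h1, Matrix.one_mulVec]

theorem ns_max {ι : Type} [Fintype ι] (F : Finset (ι → ℝ) → Prop) (h0 : F ∅) (B : ℕ)
    (hB : ∀ N, F N → N.card ≤ B) : ∃ N, F N ∧ ∀ N', F N' → N'.card ≤ N.card := by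
  have hne : {n : ℕ | ∃ N, F N ∧ N.card = n}.Nonempty := ⟨0, ∅, h0, rfl⟩
  have hbd : BddAbove {n : ℕ | ∃ N, F N ∧ N.card = n} := ⟨B, by rintro n ⟨N, hN, rfl⟩; exact hB N hN⟩
  obtain ⟨N, hN, hc⟩ := Nat.sSup_mem hne hbd
  refine ⟨N, hN, fun N' hN' => ?_⟩
  rw [hc]
  exact le_csSup hbd ⟨N', hN', rfl⟩

theorem ns_numeric (q d : ℕ) (hq : 1 ≤ q) (hd : d ≤ 2 * q + 1) :
    4 / 3 * Real.exp (0.32 * d) * ((1 / 64 : ℝ) ^ q * Real.sqrt 2 ^ d) < 1 := by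
  have he := Real.exp_one_lt_d9
  have h1 : Real.exp (0.32 * d) ≤ 2.72 * 2.72 ^ q := by
    have hdR : (d : ℝ) ≤ 2 * q + 1 := by exact_mod_cast hd
    have hq0 : (0 : ℝ) ≤ q := Nat.cast_nonneg q
    calc Real.exp (0.32 * d) ≤ Real.exp (1 + q) := Real.exp_le_exp.2 (by nlinarith)
      _ = Real.exp 1 * Real.exp 1 ^ q := by rw [Real.exp_add, ← Real.exp_nat_mul, mul_one]
      _ ≤ 2.72 * 2.72 ^ q := by
          apply mul_le_mul (by linarith) _ (by positivity) (by norm_num)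
          exact pow_le_pow_left₀ (Real.exp_pos _).le (by linarith) q
  have h2 : Real.sqrt 2 ^ d ≤ 1.415 * 2 ^ q := by
    have hs1 : 1 ≤ Real.sqrt 2 := by rw [Real.one_le_sqrt]; norm_num
    have hs2 : Real.sqrt 2 ≤ 1.415 := by
      rw [Real.sqrt_le_left (by norm_num)]; norm_num
    calc Real.sqrt 2 ^ d ≤ Real.sqrt 2 ^ (2 * q + 1) := pow_le_pow_right₀ hs1 hd
      _ = Real.sqrt 2 * (Real.sqrt 2 ^ 2) ^ q := by rw [pow_succ, pow_mul]; ring
      _ = Real.sqrt 2 * 2 ^ q := by rw [Real.sq_sqrt (by norm_num)]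
      _ ≤ 1.415 * 2 ^ q := mul_le_mul_of_nonneg_right hs2 (by positivity)
  have h3 : ((1 / 64 : ℝ) ^ q * Real.sqrt 2 ^ d) ≤ (1 / 64 : ℝ) ^ q * (1.415 * 2 ^ q) :=
    mul_le_mul_of_nonneg_left h2 (by positivity)
  have h4 : 4 / 3 * Real.exp (0.32 * d) * ((1 / 64 : ℝ) ^ q * Real.sqrt 2 ^ d) ≤
      4 / 3 * (2.72 * 2.72 ^ q) * ((1 / 64 : ℝ) ^ q * (1.415 * 2 ^ q)) := by
    apply mul_le_mul _ h3 (by positivity) (by positivity)
    exact mul_le_mul_of_nonneg_left h1 (by norm_num)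
  have h5 : 4 / 3 * (2.72 * 2.72 ^ q) * ((1 / 64 : ℝ) ^ q * (1.415 * 2 ^ q)) =
      (4 / 3 * 2.72 * 1.415) * ((2.72 * (1 / 64) * 2 : ℝ)) ^ q := by
    rw [mul_pow, mul_pow]; ring
  have h6 : ((2.72 * (1 / 64) * 2 : ℝ)) ^ q ≤ (2.72 * (1 / 64) * 2 : ℝ) := by
    calc ((2.72 * (1 / 64) * 2 : ℝ)) ^ q ≤ ((2.72 * (1 / 64) * 2 : ℝ)) ^ 1 :=
          pow_le_pow_of_le_one (by norm_num) (by norm_num) hq
      _ = _ := pow_one _
  rw [h5] at h4
  refine lt_of_le_of_lt h4 ?_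
  nlinarith

theorem small_section {α β : Type} [Fintype α] [Fintype β] [DecidableEq α] [DecidableEq β]
    (hrot : ∀ N : Finset (α ⊕ β → ℝ), (∀ x ∈ N, x ≠ 0) → ∀ κ : ℝ, 0 < κ →
      (N.card : ℝ) * (κ ^ (Fintype.card β) * (om α * om β)) < om (α ⊕ β) →
      ∃ U : Matrix (α ⊕ β) (α ⊕ β) ℝ, U * U.transpose = 1 ∧
        ∀ x ∈ N, κ ^ 2 * (x ⬝ᵥ x) < ∑ j : β, (U.mulVec x (Sum.inr j)) ^ 2)
    (hompos : 0 < om (α ⊕ β)) (hompos' : 0 < om α * om β)
    (hom : om α * om β ≤ Real.sqrt 2 ^ (Fintype.card α + Fintype.card β) * om (α ⊕ β))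
    (M : ℝ) (Q : Set (α ⊕ β → ℝ)) (hQ : SymBody Q) (hS : SepBound M Q)
    (hM : ((Fintype.card α + Fintype.card β : ℕ) : ℝ) ≤ M)
    (h1 : Fintype.card β ≤ Fintype.card α) (h2 : Fintype.card α ≤ Fintype.card β + 1)
    (h3 : 1 ≤ Fintype.card β) :
    ∃ U : Matrix (α ⊕ β) (α ⊕ β) ℝ, U * U.transpose = 1 ∧
      ∀ x ∈ Q, (∀ j : β, (U.mulVec x) (Sum.inr j) = 0) →
        x ⬝ᵥ x ≤ (4000 * M / ((Fintype.card α + Fintype.card β : ℕ) : ℝ)) ^ 2 := by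
  set d : ℕ := Fintype.card α + Fintype.card β with hd
  have hd1 : 1 ≤ d := by omega
  have hdR : (1 : ℝ) ≤ (d : ℝ) := by exact_mod_cast hd1
  have hd0 : (0 : ℝ) < (d : ℝ) := by linarith
  have hM0 : 0 < M := by linarith
  set r : ℝ := 4000 * M / (d : ℝ) with hr
  have hr4000 : 4000 ≤ r := by
    rw [hr, le_div_iff₀ hd0]; linarith
  have hr0 : 0 < r := by linarith
  set δ : ℝ := 1 / 64 * r with hδ
  have hδ10 : 10 ≤ δ := by rw [hδ]; linarith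
  have hδ0 : 0 < δ := by linarith
  have hexp : 20 * M / δ = 0.32 * d := by
    rw [hδ, hr]
    field_simp
    norm_num
  -- the family of separated sets
  set F : Finset (α ⊕ β → ℝ) → Prop := fun N => (∀ x ∈ N, x ∈ Q ∧ x ⬝ᵥ x = r ^ 2) ∧
    (∀ x ∈ N, ∀ y ∈ N, x ≠ y → δ ^ 2 ≤ (x - y) ⬝ᵥ (x - y)) with hF
  have hFcard : ∀ N, F N → (N.card : ℝ) ≤ 4 / 3 * Real.exp (0.32 * d) := by
    intro N hN
    have := hS δ hδ10 N (fun x hx => (hN.1 x hx).1) hN.2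
    rwa [hexp] at this
  obtain ⟨N, hN, hmax⟩ := ns_max F ⟨by simp, by simp⟩ ⌊4 / 3 * Real.exp (0.32 * d)⌋₊
    (fun N hN => Nat.le_floor (hFcard N hN))
  have hnum := ns_numeric (Fintype.card β) d h3 (by omega)
  have hlt : (N.card : ℝ) * ((1 / 64 : ℝ) ^ (Fintype.card β) * (om α * om β)) < om (α ⊕ β) := by
    calc (N.card : ℝ) * ((1 / 64 : ℝ) ^ (Fintype.card β) * (om α * om β))
        ≤ (4 / 3 * Real.exp (0.32 * d)) * ((1 / 64 : ℝ) ^ (Fintype.card β) *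
          (Real.sqrt 2 ^ d * om (α ⊕ β))) := by
          apply mul_le_mul (hFcard N hN) _ (by positivity) (by positivity)
          exact mul_le_mul_of_nonneg_left hom (by positivity)
      _ = (4 / 3 * Real.exp (0.32 * d) * ((1 / 64 : ℝ) ^ (Fintype.card β) * Real.sqrt 2 ^ d)) * om (α ⊕ β) := by ring
      _ < 1 * om (α ⊕ β) := mul_lt_mul_of_pos_right hnum hompos
      _ = om (α ⊕ β) := one_mul _
  obtain ⟨U, hU, hUN⟩ := hrot N (by
    intro x hx h0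
    have := (hN.1 x hx).2
    rw [h0, dotProduct_zero] at this
    nlinarith) (1 / 64) (by norm_num) hlt
  refine ⟨U, hU, ?_⟩
  intro x hx hx0
  by_contra hcon
  push Not at hcon
  set n : ℝ := Real.sqrt (x ⬝ᵥ x) with hn
  have hnsq : n ^ 2 = x ⬝ᵥ x := Real.sq_sqrt (ns_dot_nonneg x)
  have hn1 : r < n := by
    rw [hn]
    exact Real.lt_sqrt_of_sq_lt hcon
  have hn0 : 0 < n := by linarith
  set y : α ⊕ β → ℝ := (r / n) • x with hy
  have hyQ : y ∈ Q := ns_smul_mem hQ hx (by positivity) (by rw [div_le_one hn0]; exact hn1.le)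
  have hyn : y ⬝ᵥ y = r ^ 2 := by
    rw [hy, ns_dot_smul, ← hnsq]
    field_simp
  have hyU : ∀ j : β, (U.mulVec y) (Sum.inr j) = 0 := by
    intro j
    rw [hy, Matrix.mulVec_smul, Pi.smul_apply, hx0 j, smul_zero]
  have hclose : ∃ x₀ ∈ N, (x₀ - y) ⬝ᵥ (x₀ - y) < δ ^ 2 := by
    classical
    by_contra hfar
    push Not at hfar
    have hyN : y ∉ N := by
      intro hh
      have := hfar y hh
      rw [sub_self, dotProduct_zero] at this
      nlinarith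
    have hF' : F (insert y N) := by
      refine ⟨?_, ?_⟩
      · intro z hz
        rcases Finset.mem_insert.1 hz with rfl | hz
        · exact ⟨hyQ, hyn⟩
        · exact hN.1 z hz
      · intro z hz w hw hzw
        rcases Finset.mem_insert.1 hz with hz1 | hz <;> rcases Finset.mem_insert.1 hw with hw1 | hw
        · exact absurd (hz1.trans hw1.symm) hzw
        · rw [hz1]
          have := hfar w hw
          have e : (y - w) ⬝ᵥ (y - w) = (w - y) ⬝ᵥ (w - y) := by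
            rw [← neg_sub w y, neg_dotProduct, dotProduct_neg, neg_neg]
          rw [e]; exact this
        · rw [hw1]; exact hfar z hz
        · exact hN.2 z hz w hw hzw
    have := hmax _ hF'
    rw [Finset.card_insert_of_notMem hyN] at this
    omega
  obtain ⟨x₀, hx₀, hx₀y⟩ := hclose
  have h5 := hUN x₀ hx₀
  have h6 : ∀ j : β, (U.mulVec x₀ (Sum.inr j)) = (U.mulVec (x₀ - y) (Sum.inr j)) := by
    intro j
    rw [Matrix.mulVec_sub, Pi.sub_apply, hyU j, sub_zero]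
  have h7 : ∑ j : β, (U.mulVec x₀ (Sum.inr j)) ^ 2 ≤ (U.mulVec (x₀ - y)) ⬝ᵥ (U.mulVec (x₀ - y)) := by
    unfold dotProduct
    rw [Fintype.sum_sum_type]
    have e1 : ∑ j : β, (U.mulVec x₀ (Sum.inr j)) ^ 2 =
        ∑ j : β, (U.mulVec (x₀ - y) (Sum.inr j)) * (U.mulVec (x₀ - y) (Sum.inr j)) :=
      Finset.sum_congr rfl fun j _ => by rw [h6 j]; ring
    rw [e1]
    have e2 : 0 ≤ ∑ i : α, (U.mulVec (x₀ - y) (Sum.inl i)) * (U.mulVec (x₀ - y) (Sum.inl i)) :=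
      Finset.sum_nonneg fun i _ => mul_self_nonneg _
    linarith
  rw [ns_norm_U U hU] at h7
  rw [(hN.1 x₀ hx₀).2] at h5
  have h8 : δ ^ 2 = (1 / 64) ^ 2 * r ^ 2 := by rw [hδ]; ring
  linarith


end Pool.Agent.Helper116.TreeNo.S5
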