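import Mathlib
import Pool.Agent.Helper116.TreeDefs
import Pool.Agent.Helper116.TreeJ1
import Pool.Agent.Helper116.TreeJ2
import Pool.Agent.Helper116.TreeJ3
import Pool.Agent.Helper116.TreeJ4
import Pool.Agent.Helper116.TreeJ5
import Pool.Agent.Helper116.TreeJ6
import Pool.Agent.Helper116.TreeJ7
import Pool.Agent.Helper116.TreeJ8
import Pool.Agent.Helper116.TreeR1
import Pool.Agent.Helper116.TreeR2
import Pool.Agent.Helper116.TreeS1
import Pool.Agent.Helper116.TreeS2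
import Pool.Agent.Helper116.TreeS3
import Pool.Agent.Helper116.TreeS4
import Pool.Agent.Helper116.TreeS5

set_option autoImplicit false

open MeasureTheory
open scoped Pointwise

namespace Pool.Agent.Helper116.TreeNo

theorem dilate_eq {ι : Type} [Fintype ι] (K : Set (ι → ℝ)) (hK : SymBody K) (c : ℝ) (hc : 0 < c) :
    {y : ι → ℝ | ∀ x ∈ K, |x ⬝ᵥ y| ≤ c} = c • pol K := by
  ext y
  rw [Set.mem_smul_set_iff_inv_smul_mem₀ hc.ne']
  constructor
  · intro h x hx
    have h1 := (abs_le.mp (h x hx)).2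
    have : x ⬝ᵥ (c⁻¹ • y) = c⁻¹ * (x ⬝ᵥ y) := by simp [dotProduct_smul]
    rw [this]
    rw [inv_mul_le_iff₀ hc]; linarith
  · intro h x hx
    have h1 := h x hx
    have h2 := h (-x) (hK.symm x hx)
    have e1 : x ⬝ᵥ (c⁻¹ • y) = c⁻¹ * (x ⬝ᵥ y) := by simp [dotProduct_smul]
    have e2 : (-x) ⬝ᵥ (c⁻¹ • y) = c⁻¹ * (-(x ⬝ᵥ y)) := by simp [dotProduct_smul, neg_dotProduct]
    rw [e1, inv_mul_le_iff₀ hc] at h1
    rw [e2, inv_mul_le_iff₀ hc] at h2
    rw [abs_le]; constructor <;> linarith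

theorem vol_dilate {ι : Type} [Fintype ι] (K : Set (ι → ℝ)) (hK : SymBody K) (c : ℝ)
    (hc : 0 < c) : vol {y : ι → ℝ | ∀ x ∈ K, |x ⬝ᵥ y| ≤ c} = c ^ (Fintype.card ι) * vol (pol K) := by
  rw [dilate_eq K hK c hc]
  unfold vol
  rw [Measure.addHaar_smul, ENNReal.toReal_mul, ENNReal.toReal_ofReal (abs_nonneg _),
    Module.finrank_fintype_fun_eq_card, abs_of_nonneg (pow_nonneg hc.le _)]

theorem dilate_compact {ι : Type} [Fintype ι] (K : Set (ι → ℝ)) (hK : SymBody K) (c : ℝ)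
    (hc : 0 < c) : IsCompact {y : ι → ℝ | ∀ x ∈ K, |x ⬝ᵥ y| ≤ c} := by
  rw [dilate_eq K hK c hc]
  exact (S3.symBody_pol K hK).compact.smul c

theorem weak_santalo {ι : Type} [Fintype ι] [DecidableEq ι] [Nonempty ι] (K : Set (ι → ℝ))
    (hK : SymBody K) :
    vol K * vol (pol K) ≤ (8 * Real.exp 4) ^ (Fintype.card ι) * om ι ^ 2 := by
  set m := Fintype.card ι with hm
  have hmpos : 0 < m := Fintype.card_pos
  have hm0 : (0:ℝ) < m := by exact_mod_cast hmpos
  set s : Set (ι → ℝ) := {y | ∀ x ∈ K, |x ⬝ᵥ y| ≤ (m:ℝ)} with hs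
  have hsc : IsCompact s := dilate_compact K hK m hm0
  have hsv : vol s = (m:ℝ) ^ m * vol (pol K) := vol_dilate K hK m hm0
  have hom : 0 < om ι := J5.om_pos ι
  have hvK : 0 < vol K := J3.vol_pos_of_symBody K hK
  set r : ℝ := Real.sqrt (2 * m) with hr
  have hr0 : 0 < r := Real.sqrt_pos.mpr (by positivity)
  have hr2 : r ^ 2 = 2 * m := Real.sq_sqrt (by positivity)
  set d : ℝ := (Real.exp (-2 * (m : ℝ)) / 2 * vol K / (r ^ m * om ι)) ^ 2 with hd
  have key := (J4.det_integral_le (tF K) (tC K) (fun y => J1.tF_hasFDerivAt K hK y)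
    (fun y => J2.tC_posDef K hK y) K (fun y => J3.tF_mem K hK y) hK.compact s
    hsc.measurableSet hsc.measure_lt_top.ne).1 d (sq_nonneg _) (by
      intro y hy
      obtain ⟨S, hS, hSS, hdet⟩ := J7.posDef_sqrt (tC K y) (J2.tC_posDef K hK y) 1 one_pos
      have hch := J6.tilt_cheb K hK y S hS 1 one_pos hSS r hr0
      have e1 : (1 - (Fintype.card ι : ℝ) / (1 * r ^ 2)) = 1 / 2 := by
        rw [hr2, ← hm]; field_simp; norm_num
      rw [e1] at hch
      have hell := J5.vol_ellipsoid S hS (tF K y) r hr0.le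
      have hfin : volume {x | (S⁻¹.mulVec (x - tF K y)) ⬝ᵥ (S⁻¹.mulVec (x - tF K y)) ≤ r ^ 2} ≠ ⊤ := by
        intro htop
        have : vol {x | (S⁻¹.mulVec (x - tF K y)) ⬝ᵥ (S⁻¹.mulVec (x - tF K y)) ≤ r ^ 2} = 0 := by
          unfold vol; rw [htop]; rfl
        rw [hell] at this
        have h1 : 0 < |S.det| := abs_pos.mpr hS.ne_zero
        have : 0 < |S.det| * r ^ Fintype.card ι * om ι := by positivity
        linarith
      have hdl := J7.det_lower K hK y (tF K y) hy S r hr0.le hell hfin hch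
      have h2 : (Real.exp (-2 * (m : ℝ)) / 2 * vol K / (r ^ m * om ι)) ≤ |S.det| := by
        rw [div_le_iff₀ (by positivity)]
        rw [← hm] at hdl
        linarith [hdl]
      have h3 : d ≤ |S.det| ^ 2 := by
        rw [hd]
        exact pow_le_pow_left₀ (by positivity) h2 2
      rw [sq_abs, hdet, one_pow, one_mul] at h3
      exact h3)
  rw [hsv, hd] at key
  have e2 : (r ^ m) ^ 2 = (2 * m : ℝ) ^ m := by
    rw [← pow_mul, mul_comm, pow_mul, hr2]
  have e3 : (Real.exp (-2 * (m : ℝ)) / 2 * vol K / (r ^ m * om ι)) ^ 2 * ((m:ℝ) ^ m * vol (pol K))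
      = Real.exp (-4 * (m:ℝ)) / (4 * 2 ^ m * om ι ^ 2) * (vol K * vol (pol K)) * vol K := by
    rw [div_pow, mul_pow, mul_pow, e2, mul_pow]
    have : (Real.exp (-2 * (m:ℝ)) / 2) ^ 2 = Real.exp (-4 * (m:ℝ)) / 4 := by
      rw [div_pow, ← Real.exp_nat_mul]
      norm_num
      ring_nf
    rw [this]
    field_simp
  rw [e3] at key
  have key2 : Real.exp (-4 * (m:ℝ)) / (4 * 2 ^ m * om ι ^ 2) * (vol K * vol (pol K)) ≤ 1 := by
    by_contra hcon
    push Not at hcon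
    nlinarith
  have hpos : 0 < Real.exp (-4 * (m:ℝ)) / (4 * 2 ^ m * om ι ^ 2) := by positivity
  have key3 : vol K * vol (pol K) ≤ (4 * 2 ^ m * om ι ^ 2) * Real.exp (4 * (m:ℝ)) := by
    rw [div_mul_eq_mul_div, div_le_one (by positivity)] at key2
    have h5 : Real.exp (4 * (m:ℝ)) * Real.exp (-4 * (m:ℝ)) = 1 := by
      rw [← Real.exp_add]; ring_nf; simp
    calc vol K * vol (pol K) = Real.exp (4 * (m:ℝ)) * (Real.exp (-4 * (m:ℝ)) * (vol K * vol (pol K))) := by
          rw [← mul_assoc, h5, one_mul]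
      _ ≤ Real.exp (4 * (m:ℝ)) * (4 * 2 ^ m * om ι ^ 2) := by gcongr
      _ = _ := by ring
  refine key3.trans ?_
  have h6 : (4:ℝ) * 2 ^ m ≤ 8 ^ m := by
    have : (8:ℝ) ^ m = 4 ^ m * 2 ^ m := by rw [← mul_pow]; norm_num
    rw [this]
    have : (4:ℝ) ≤ 4 ^ m := by
      calc (4:ℝ) = 4 ^ 1 := by norm_num
        _ ≤ 4 ^ m := pow_le_pow_right₀ (by norm_num) hmpos
    gcongr
  have h7 : Real.exp (4 * (m:ℝ)) = Real.exp 4 ^ m := by
    rw [← Real.exp_nat_mul]; ring_nf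
  rw [h7, mul_pow]
  calc 4 * 2 ^ m * om ι ^ 2 * Real.exp 4 ^ m ≤ 8 ^ m * om ι ^ 2 * Real.exp 4 ^ m := by gcongr
    _ = _ := by ring

theorem integral_image_tilt {ι : Type} [Fintype ι] [DecidableEq ι] (S : Matrix ι ι ℝ)
    (hS : IsUnit S.det) (y : ι → ℝ) (A : Set (ι → ℝ)) (hA : MeasurableSet A) :
    ∫ x in (fun x => S⁻¹.mulVec x) '' A, Real.exp (x ⬝ᵥ (S.transpose.mulVec y)) =
      |(S⁻¹).det| * ∫ x in A, Real.exp (x ⬝ᵥ y) := by
  have hinj : Function.Injective (fun x : ι → ℝ => S⁻¹.mulVec x) := by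
    intro a b hab
    have h1 : S.mulVec (S⁻¹.mulVec a) = S.mulVec (S⁻¹.mulVec b) := by
      simp only at hab; rw [hab]
    rwa [Matrix.mulVec_mulVec, Matrix.mulVec_mulVec, Matrix.mul_nonsing_inv S hS,
      Matrix.one_mulVec, Matrix.one_mulVec] at h1
  have hder : ∀ x ∈ A, HasFDerivWithinAt (fun x : ι → ℝ => S⁻¹.mulVec x)
      (LinearMap.toContinuousLinearMap (Matrix.toLin' S⁻¹)) A x := by
    intro x _
    exact (LinearMap.toContinuousLinearMap (Matrix.toLin' S⁻¹)).hasFDerivWithinAt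
  rw [integral_image_eq_integral_abs_det_fderiv_smul volume hA hder hinj.injOn]
  rw [← integral_const_mul]
  refine setIntegral_congr_fun hA ?_
  intro x _
  simp only [smul_eq_mul]
  have e1 : (LinearMap.toContinuousLinearMap (Matrix.toLin' S⁻¹)).det = (S⁻¹).det := by
    rw [ContinuousLinearMap.det]
    simp [LinearMap.det_toLin']
  have e2 : (S⁻¹.mulVec x) ⬝ᵥ (S.transpose.mulVec y) = x ⬝ᵥ y := by
    rw [Matrix.dotProduct_mulVec, Matrix.vecMul_transpose, Matrix.mulVec_mulVec,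
      Matrix.mul_nonsing_inv S hS, Matrix.one_mulVec]
  rw [e1, e2]

theorem bm_position {ι : Type} [Fintype ι] [DecidableEq ι] [Nonempty ι] (K : Set (ι → ℝ))
    (hK : SymBody K) : ∃ S : Matrix ι ι ℝ, IsUnit S.det ∧ S.det ^ 2 * vol (pol K) ≤ vol K ∧
      SepBound (Fintype.card ι : ℝ) ((fun x => S⁻¹.mulVec x) '' K) := by
  set m := Fintype.card ι with hm
  have hmpos : 0 < m := Fintype.card_pos
  have hm0 : (0:ℝ) < m := by exact_mod_cast hmpos
  set s : Set (ι → ℝ) := {y | ∀ x ∈ K, |x ⬝ᵥ y| ≤ (m:ℝ)} with hs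
  have hsc : IsCompact s := dilate_compact K hK m hm0
  have hsv : vol s = (m:ℝ) ^ m * vol (pol K) := vol_dilate K hK m hm0
  have hvP : 0 < vol (pol K) := J3.vol_pos_of_symBody _ (S3.symBody_pol K hK)
  obtain ⟨y, hy, hyd⟩ := (J4.det_integral_le (tF K) (tC K) (fun y => J1.tF_hasFDerivAt K hK y)
    (fun y => J2.tC_posDef K hK y) K (fun y => J3.tF_mem K hK y) hK.compact s
    hsc.measurableSet hsc.measure_lt_top.ne).2 (by rw [hsv]; positivity)
  obtain ⟨S, hS, hSS, hdet⟩ := J7.posDef_sqrt (tC K y) (J2.tC_posDef K hK y) m hm0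
  refine ⟨S, hS, ?_, ?_⟩
  · rw [hdet, ← hm]
    rw [hsv] at hyd
    calc (m:ℝ) ^ m * (tC K y).det * vol (pol K) = (tC K y).det * ((m:ℝ) ^ m * vol (pol K)) := by ring
      _ ≤ vol K := hyd
  · have hch := J6.tilt_cheb K hK y S hS m hm0 hSS 2 two_pos
    have e1 : (1 - (Fintype.card ι : ℝ) / ((m:ℝ) * 2 ^ 2)) = 3 / 4 := by
      rw [← hm]; field_simp; norm_num
    rw [e1] at hch
    have hSi : IsUnit (S⁻¹).det := by
      rw [Matrix.det_nonsing_inv]
      exact hS.ringInverse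
    have hQ := S3.symBody_image S⁻¹ hSi K hK
    have hdpos : 0 < |(S⁻¹).det| := abs_pos.mpr hSi.ne_zero
    have hZ : ∫ x in (fun x => S⁻¹.mulVec x) '' K, Real.exp (x ⬝ᵥ (S.transpose.mulVec y)) =
        |(S⁻¹).det| * tZ K y :=
      integral_image_tilt S hS y K hK.compact.measurableSet
    refine J8.sepBound_of_tilt _ hQ.convex hQ.compact (S.transpose.mulVec y) (S⁻¹.mulVec (tF K y)) m
      (by rw [hm]) ?_ ?_ ?_
    · rintro _ ⟨x, hx, rfl⟩
      have e2 : (S⁻¹.mulVec x) ⬝ᵥ (S.transpose.mulVec y) = x ⬝ᵥ y := by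
        rw [Matrix.dotProduct_mulVec, Matrix.vecMul_transpose, Matrix.mulVec_mulVec,
          Matrix.mul_nonsing_inv S hS, Matrix.one_mulVec]
      simp only
      rw [e2]
      exact hy x hx
    · rw [hZ]
      exact mul_pos hdpos (J3.tZ_pos K hK y)
    · rw [hZ]
      have hset : (fun x => S⁻¹.mulVec x) '' K ∩ {x | (x - S⁻¹.mulVec (tF K y)) ⬝ᵥ
          (x - S⁻¹.mulVec (tF K y)) ≤ 2 ^ 2} = (fun x => S⁻¹.mulVec x) ''
          (K ∩ {x | (S⁻¹.mulVec (x - tF K y)) ⬝ᵥ (S⁻¹.mulVec (x - tF K y)) ≤ 2 ^ 2}) := by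
        ext z
        constructor
        · rintro ⟨⟨x, hx, rfl⟩, hz⟩
          refine ⟨x, ⟨hx, ?_⟩, rfl⟩
          simpa [Matrix.mulVec_sub] using hz
        · rintro ⟨x, ⟨hx, hx2⟩, rfl⟩
          refine ⟨⟨x, hx, rfl⟩, ?_⟩
          simpa [Matrix.mulVec_sub] using hx2
      rw [hset, integral_image_tilt S hS y _ (by
        refine hK.compact.measurableSet.inter ?_
        refine measurableSet_le ?_ measurable_const
        refine Continuous.measurable ?_
        have : Continuous (fun x : ι → ℝ => S⁻¹.mulVec (x - tF K y)) :=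
          (Continuous.matrix_mulVec continuous_const (continuous_id.sub continuous_const))
        exact this.dotProduct this)]
      calc 3 / 4 * (|(S⁻¹).det| * tZ K y) = |(S⁻¹).det| * (3 / 4 * tZ K y) := by ring
        _ ≤ _ := mul_le_mul_of_nonneg_left hch hdpos.le

theorem polar_lower : ∀ (n : ℕ), 1 ≤ n → ∀ (ι : Type) [Fintype ι] [DecidableEq ι],
    Fintype.card ι = n → ∀ (M : ℝ), (n : ℝ) ≤ M → ∀ Q : Set (ι → ℝ), SymBody Q →
    SepBound M Q → om ι * ((n : ℝ) / (48000 * M)) ^ n ≤ vol (pol Q) := by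
  intro n
  induction n using Nat.strong_induction_on with
  | _ n ih =>
  intro hn ι _ _ hcard M hM Q hQ hS
  have hM1 : (1:ℝ) ≤ M := le_trans (by exact_mod_cast hn) hM
  have hM0 : (0:ℝ) < M := by linarith
  have hom : 0 < om ι := J5.om_pos ι
  rcases Nat.lt_or_ge n 2 with h2 | h2
  · -- base case
    have hn1 : n = 1 := by omega
    subst hn1
    have hrad := S5.radius_bound M hM1 Q hQ hS
    have hr : (0:ℝ) < 4000 * M := by positivity
    have h1 := S5.vol_pol_of_radius Q hQ (4000 * M) hr hrad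
      (S3.symBody_pol Q hQ).compact.measure_lt_top.ne (J5.vol_eball (1 / (4000 * M)) (by positivity))
    rw [hcard] at h1
    refine le_trans ?_ h1
    rw [mul_comm]
    refine mul_le_mul_of_nonneg_right ?_ hom.le
    rw [pow_one, pow_one]
    push_cast
    apply one_div_le_one_div_of_le hr
    linarith
  · -- step
    obtain ⟨q, hq⟩ : ∃ q, q = n / 2 := ⟨_, rfl⟩
    obtain ⟨p, hp⟩ : ∃ p, p = n - q := ⟨_, rfl⟩
    have hq1 : 1 ≤ q := by omega
    have hpq : q ≤ p := by omega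
    have hpq2 : p ≤ q + 1 := by omega
    have hpqn : p + q = n := by omega
    have hn3 : n ≤ 3 * q := by omega
    have hcard2 : Fintype.card ι = Fintype.card (Fin p ⊕ Fin q) := by
      simp [hcard, hpqn]
    let e : ι ≃ Fin p ⊕ Fin q := Fintype.equivOfCardEq hcard2
    let E : Matrix (Fin p ⊕ Fin q) ι ℝ := (1 : Matrix ι ι ℝ).submatrix e.symm (Equiv.refl ι)
    have hE1 : E * E.transpose = 1 := by
      simp only [E, Matrix.transpose_submatrix, Matrix.transpose_one]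
      rw [Matrix.submatrix_mul_equiv, one_mul]
      exact Matrix.submatrix_one_equiv e.symm
    have hE2 : E.transpose * E = 1 := by
      simp only [E, Matrix.transpose_submatrix, Matrix.transpose_one]
      rw [Matrix.submatrix_mul_equiv, one_mul]
      exact Matrix.submatrix_one_equiv (Equiv.refl ι)
    obtain ⟨hQ0, hS0, hv0, ho0⟩ := S4.orth_package E hE1 hE2 M Q hQ hS
    set Q0 := (fun x => E.mulVec x) '' Q with hQ0def
    have hrot : ∀ N : Finset (Fin p ⊕ Fin q → ℝ), (∀ x ∈ N, x ≠ 0) → ∀ κ : ℝ, 0 < κ →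
      (N.card : ℝ) * (κ ^ (Fintype.card (Fin q)) * (om (Fin p) * om (Fin q))) < om (Fin p ⊕ Fin q) →
      ∃ U : Matrix (Fin p ⊕ Fin q) (Fin p ⊕ Fin q) ℝ, U * U.transpose = 1 ∧
        ∀ x ∈ N, κ ^ 2 * (x ⬝ᵥ x) < ∑ j : Fin q, (U.mulVec x (Sum.inr j)) ^ 2 := by
      intro N hN κ hκ hNc
      obtain ⟨Ω, hΩ, μ, U, hμ, hm, hU, hinv⟩ := R1.exists_random_orthogonal (Fin p ⊕ Fin q)
      obtain ⟨ω, hω⟩ := R2.random_rotation_of Ω hΩ μ U hμ hm hU hinv N hN κ hκ hNc
      exact ⟨U ω, hU ω, hω⟩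
    have homα := J5.om_pos (Fin p)
    have homβ := J5.om_pos (Fin q)
    obtain ⟨U, hU1, hU⟩ := S5.small_section hrot (J5.om_pos _) (mul_pos homα homβ)
      (J5.om_mul_le _ _) M Q0 hQ0 hS0 (by simpa [hpqn] using hM) (by simpa using hpq)
      (by simpa using hpq2) (by simpa using hq1)
    have hU2 : U.transpose * U = 1 := mul_eq_one_comm.mp hU1
    obtain ⟨hQ1, hS1, hv1, ho1⟩ := S4.orth_package U hU1 hU2 M Q0 hQ0 hS0
    set Q1 := (fun x => U.mulVec x) '' Q0 with hQ1def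
    set r : ℝ := 4000 * M / n with hr
    have hnpos : (0:ℝ) < n := by exact_mod_cast (by omega : 0 < n)
    have hr0 : 0 < r := by positivity
    have hsec : ∀ u : Fin p → ℝ, Sum.elim u (0 : Fin q → ℝ) ∈ Q1 → u ⬝ᵥ u ≤ r ^ 2 := by
      rintro u ⟨x, hx, hxu⟩
      simp only at hxu
      have h1 := hU x hx (by intro j; rw [hxu]; rfl)
      have h2 : u ⬝ᵥ u = x ⬝ᵥ x := by
        have h3 : (Sum.elim u (0 : Fin q → ℝ)) ⬝ᵥ (Sum.elim u (0 : Fin q → ℝ)) = u ⬝ᵥ u := by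
          simp [dotProduct, Fintype.sum_sum_type]
        rw [← h3, ← hxu, Matrix.dotProduct_mulVec, Matrix.vecMul_mulVec, hU2, Matrix.vecMul_one]
      rw [h2]
      have h4 : ((Fintype.card (Fin p) + Fintype.card (Fin q) : ℕ) : ℝ) = n := by
        simp [← hpqn]
      rw [h4] at h1
      exact h1
    have hproj := S2.polar_proj Q1 hQ1 r hr0 hsec
    have hP := S3.symBody_pol Q1 hQ1
    have h5 := S1.vol_ge_of_proj (pol Q1) hP.convex hP.compact r hr0 (fun w hw => hproj w hw)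
    rw [S3.pol_section] at h5
    have hproj1 := S3.symBody_proj Q1 hQ1
    have hproj2 := S3.sepBound_proj M Q1 hS1
    have h6 := ih q (by omega) hq1 (Fin q) (by simp) M
      (le_trans (by exact_mod_cast (by omega : q ≤ n)) hM) _ hproj1 hproj2
    rw [← hv0, ← hv1]
    refine le_trans ?_ h5
    rw [← ho0]
    have hx0 : 0 < (n:ℝ) / (48000 * M) := by positivity
    set x : ℝ := (n:ℝ) / (48000 * M) with hx
    have e1 : 1 / (2 * r) = 6 * x := by
      rw [hr, hx]; field_simp; norm_num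
    have e2 : x / 3 ≤ (q:ℝ) / (48000 * M) := by
      rw [hx, div_div, div_le_div_iff₀ (by positivity) (by positivity)]
      have : (n:ℝ) ≤ 3 * q := by exact_mod_cast hn3
      nlinarith
    have e3 : om (Fin q) * (x / 3) ^ q ≤
        vol (pol ((fun (y : Fin p ⊕ Fin q → ℝ) (j : Fin q) => y (Sum.inr j)) '' Q1)) := by
      refine le_trans ?_ h6
      gcongr
    rw [e1]
    simp only [Fintype.card_fin]
    have e4 : om (Fin p ⊕ Fin q) * x ^ n ≤
        (1 / 2) ^ q * (6 * x) ^ p * om (Fin p) * (om (Fin q) * (x / 3) ^ q) := by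
      have h7 : (1 / 2 : ℝ) ^ q * (6 * x) ^ p * om (Fin p) * (om (Fin q) * (x / 3) ^ q) =
          (om (Fin p) * om (Fin q)) * (((1 / 6 : ℝ)) ^ q * 6 ^ p * x ^ n) := by
        have t1 : (1 / 6 : ℝ) ^ q = (1 / 2) ^ q * (1 / 3) ^ q := by rw [← mul_pow]; norm_num
        have t2 : (x / 3) ^ q = x ^ q * (1 / 3) ^ q := by rw [← mul_pow]; ring_nf
        have t3 : x ^ n = x ^ p * x ^ q := by rw [← pow_add, hpqn]
        rw [t1, t2, t3, mul_pow]
        ring
      rw [h7]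
      have h8 : (1:ℝ) ≤ (1 / 6 : ℝ) ^ q * 6 ^ p := by
        have : (6:ℝ) ^ q ≤ 6 ^ p := pow_le_pow_right₀ (by norm_num) hpq
        calc (1:ℝ) = (1 / 6 : ℝ) ^ q * 6 ^ q := by rw [← mul_pow]; norm_num
          _ ≤ _ := by gcongr
      have h9 := J5.om_sum_le (Fin p) (Fin q)
      have h10 : x ^ n ≤ (1 / 6 : ℝ) ^ q * 6 ^ p * x ^ n := by
        nlinarith [pow_pos hx0 n]
      calc om (Fin p ⊕ Fin q) * x ^ n ≤ (om (Fin p) * om (Fin q)) * x ^ n := by gcongr
        _ ≤ _ := by gcongr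
    refine le_trans e4 ?_
    gcongr

theorem bourgain_milman {ι : Type} [Fintype ι] [DecidableEq ι] [Nonempty ι] (K : Set (ι → ℝ))
    (hK : SymBody K) :
    ((1 / 48000 : ℝ) ^ 2) ^ (Fintype.card ι) * om ι ^ 2 ≤ vol K * vol (pol K) := by
  obtain ⟨S, hS, hdet, hsep⟩ := bm_position K hK
  have hmpos : 0 < Fintype.card ι := Fintype.card_pos
  have hSi : IsUnit (S⁻¹).det := by
    rw [Matrix.det_nonsing_inv]
    exact hS.ringInverse
  have hQ := S3.symBody_image S⁻¹ hSi K hK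
  have h1 := polar_lower (Fintype.card ι) hmpos ι rfl (Fintype.card ι : ℝ) le_rfl _ hQ hsep
  rw [S3.pol_image S hS K, J5.vol_image_matrix, Matrix.det_transpose] at h1
  have hm0 : (0:ℝ) < Fintype.card ι := by exact_mod_cast hmpos
  have e1 : ((Fintype.card ι : ℝ) / (48000 * Fintype.card ι)) = 1 / 48000 := by
    field_simp
  rw [e1] at h1
  have hP : 0 < vol (pol K) := J3.vol_pos_of_symBody _ (S3.symBody_pol K hK)
  have hom := J5.om_pos ι
  have h2 : (om ι * (1 / 48000 : ℝ) ^ Fintype.card ι) ^ 2 ≤ (|S.det| * vol (pol K)) ^ 2 :=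
    pow_le_pow_left₀ (by positivity) h1 2
  calc ((1 / 48000 : ℝ) ^ 2) ^ (Fintype.card ι) * om ι ^ 2
      = (om ι * (1 / 48000 : ℝ) ^ Fintype.card ι) ^ 2 := by
        rw [mul_pow, ← pow_mul, ← pow_mul, mul_comm 2]; ring
    _ ≤ (|S.det| * vol (pol K)) ^ 2 := h2
    _ = (S.det ^ 2 * vol (pol K)) * vol (pol K) := by rw [mul_pow, sq_abs]; ring
    _ ≤ vol K * vol (pol K) := by gcongr

end Pool.Agent.Helper116.TreeNo
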