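import Mathlib
import Pool.Agent.Helper116.TreeDefs

set_option autoImplicit false

open MeasureTheory

namespace Pool.Agent.Helper116.TreeNo.T1


theorem exists_sym_center_aux {ι : Type} [Fintype ι] (Λ : Set (ι → ℝ)) (hc : Convex ℝ Λ)
    (hk : IsCompact Λ) (hv : volume Λ ≠ 0) :
    ∃ x ∈ Λ, ENNReal.ofReal ((1 / 2) ^ (Fintype.card ι)) * volume Λ ≤
      volume {X : ι → ℝ | X ∈ Λ ∧ (2 : ℝ) • x - X ∈ Λ} := by
  have hfin : volume Λ ≠ ⊤ := hk.measure_lt_top.ne
  have hΛm : MeasurableSet Λ := hk.measurableSet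
  set f : (ι → ℝ) → ENNReal := fun x => volume {X : ι → ℝ | X ∈ Λ ∧ (2 : ℝ) • x - X ∈ Λ} with hf
  set T : Set ((ι → ℝ) × (ι → ℝ)) := {q | q.2 ∈ Λ ∧ (2 : ℝ) • q.1 - q.2 ∈ Λ} with hT
  have hTc : IsClosed T := by
    have e : T = (Prod.snd ⁻¹' Λ) ∩ ((fun q : (ι → ℝ) × (ι → ℝ) => (2 : ℝ) • q.1 - q.2) ⁻¹' Λ) := rfl
    rw [e]
    refine IsClosed.inter (hk.isClosed.preimage continuous_snd) (hk.isClosed.preimage ?_)
    fun_prop
  have hTm : MeasurableSet T := hTc.measurableSet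
  have h1 : (volume.prod volume) T = ∫⁻ x, f x := by
    rw [Measure.prod_apply hTm]
    rfl
  have h2 : (volume.prod volume) T =
      ENNReal.ofReal ((1 / 2) ^ (Fintype.card ι)) * volume Λ * volume Λ := by
    rw [Measure.prod_apply_symm hTm]
    have hsec : ∀ y : ι → ℝ, volume ((fun x => (x, y)) ⁻¹' T) =
        Λ.indicator (fun _ => ENNReal.ofReal ((1 / 2) ^ (Fintype.card ι)) * volume Λ) y := by
      intro y
      by_cases hy : y ∈ Λ
      · rw [Set.indicator_of_mem hy]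
        have e : ((fun x => (x, y)) ⁻¹' T) = (fun x : ι → ℝ => (2 : ℝ) • x) ⁻¹' ((fun x => x - y) ⁻¹' Λ) := by
          ext x
          simp [hT, hy]
        have e2 : ((fun x : ι → ℝ => x - y) ⁻¹' Λ) = ((fun x => x + (-y)) ⁻¹' Λ) := by
          ext x; simp [sub_eq_add_neg]
        rw [e, Measure.addHaar_preimage_smul volume (two_ne_zero), e2,
          measure_preimage_add_right volume (-y) Λ]
        congr 2
        rw [Module.finrank_fintype_fun_eq_card, abs_of_nonneg (by positivity)]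
        simp
      · rw [Set.indicator_of_notMem hy]
        have e : ((fun x => (x, y)) ⁻¹' T) = ∅ := by
          ext x
          simp [hT, hy]
        rw [e, measure_empty]
    simp_rw [hsec]
    rw [lintegral_indicator hΛm, setLIntegral_const]
  have h3 : ∫⁻ x, f x = ∫⁻ x in Λ, f x := by
    rw [← lintegral_indicator hΛm]
    congr 1
    ext x
    by_cases hx : x ∈ Λ
    · rw [Set.indicator_of_mem hx]
    · rw [Set.indicator_of_notMem hx]
      have e : {X : ι → ℝ | X ∈ Λ ∧ (2 : ℝ) • x - X ∈ Λ} = ∅ := by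
        ext X
        simp only [Set.mem_empty_iff_false, iff_false]
        rintro ⟨hX1, hX2⟩
        apply hx
        have := hc hX1 hX2 (by norm_num : (0 : ℝ) ≤ 1 / 2) (by norm_num : (0 : ℝ) ≤ 1 / 2) (by norm_num)
        convert this using 1
        ext i
        simp
        ring
      simp only [hf, e, measure_empty]
  by_contra hcon
  push Not at hcon
  have h4 : ∫⁻ x in Λ, f x < ∫⁻ _ in Λ, ENNReal.ofReal ((1 / 2) ^ (Fintype.card ι)) * volume Λ := by
    refine setLIntegral_strict_mono hΛm hv measurable_const ?_ ?_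
    · have h5 : ∫⁻ x in Λ, f x = ENNReal.ofReal ((1 / 2) ^ (Fintype.card ι)) * volume Λ * volume Λ := by
        rw [← h3, ← h1, h2]
      rw [h5]
      exact ENNReal.mul_ne_top (ENNReal.mul_ne_top ENNReal.ofReal_ne_top hfin) hfin
    · exact Filter.Eventually.of_forall fun x hx => hcon x hx
  rw [setLIntegral_const, ← h3, ← h1, h2] at h4
  exact lt_irrefl _ h4

theorem exists_sym_center {ι : Type} [Fintype ι] (Λ : Set (ι → ℝ)) (hc : Convex ℝ Λ)
    (hk : IsCompact Λ) (hv : 0 < vol Λ) :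
    ∃ x ∈ Λ, (1 / 2) ^ (Fintype.card ι) * vol Λ ≤ vol {Z | x + Z ∈ Λ ∧ x - Z ∈ Λ} := by
  have hv0 : volume Λ ≠ 0 := by
    intro h
    rw [vol, h] at hv
    simp at hv
  obtain ⟨x, hx, hx2⟩ := exists_sym_center_aux Λ hc hk hv0
  refine ⟨x, hx, ?_⟩
  have e : volume {Z : ι → ℝ | x + Z ∈ Λ ∧ x - Z ∈ Λ} =
      volume {X : ι → ℝ | X ∈ Λ ∧ (2 : ℝ) • x - X ∈ Λ} := by
    rw [← measure_preimage_add volume x {X : ι → ℝ | X ∈ Λ ∧ (2 : ℝ) • x - X ∈ Λ}]
    congr 1
    ext Z
    simp only [Set.mem_preimage]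
    constructor
    · rintro ⟨h1, h2⟩
      refine ⟨h1, ?_⟩
      convert h2 using 1
      rw [two_smul]; abel
    · rintro ⟨h1, h2⟩
      refine ⟨h1, ?_⟩
      convert h2 using 1
      rw [two_smul]; abel
  unfold vol
  rw [e]
  have hfin : volume {X : ι → ℝ | X ∈ Λ ∧ (2 : ℝ) • x - X ∈ Λ} ≠ ⊤ :=
    ((measure_mono (fun X hX => hX.1)).trans_lt hk.measure_lt_top).ne
  have := ENNReal.toReal_mono hfin hx2
  rw [ENNReal.toReal_mul, ENNReal.toReal_ofReal (by positivity)] at this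
  exact this

theorem symBody_of_sym {ι : Type} [Fintype ι] (Λ : Set (ι → ℝ)) (hc : Convex ℝ Λ)
    (hk : IsCompact Λ) (x : ι → ℝ) (hv : 0 < vol {Z | x + Z ∈ Λ ∧ x - Z ∈ Λ}) :
    SymBody {Z | x + Z ∈ Λ ∧ x - Z ∈ Λ} := by
  have hconv : Convex ℝ {Z | x + Z ∈ Λ ∧ x - Z ∈ Λ} := by
    intro Z hZ W hW a b ha hb hab
    have hx : x = a • x + b • x := by rw [← add_smul, hab, one_smul]
    constructor
    · have := hc hZ.1 hW.1 ha hb hab
      convert this using 1
      nth_rewrite 1 [hx]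
      simp only [smul_add]
      abel
    · have := hc hZ.2 hW.2 ha hb hab
      convert this using 1
      nth_rewrite 1 [hx]
      simp only [smul_sub]
      abel
  have hcomp : IsCompact {Z | x + Z ∈ Λ ∧ x - Z ∈ Λ} := by
    have e : {Z | x + Z ∈ Λ ∧ x - Z ∈ Λ} =
        ((Homeomorph.addLeft x) ⁻¹' Λ) ∩ ((fun Z => x - Z) ⁻¹' Λ) := rfl
    rw [e]
    refine IsCompact.inter_right ?_ (hk.isClosed.preimage (by fun_prop))
    exact (Homeomorph.addLeft x).isCompact_preimage.2 hk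
  have hsymm : ∀ Z ∈ {Z | x + Z ∈ Λ ∧ x - Z ∈ Λ}, -Z ∈ {Z | x + Z ∈ Λ ∧ x - Z ∈ Λ} := by
    rintro Z ⟨h1, h2⟩
    refine ⟨?_, ?_⟩
    · rw [← sub_eq_add_neg]; exact h2
    · rw [sub_neg_eq_add]; exact h1
  refine ⟨hconv, hcomp, hsymm, ?_⟩
  set K := {Z | x + Z ∈ Λ ∧ x - Z ∈ Λ} with hK
  have hint : (interior K).Nonempty := by
    by_contra hne
    rw [Set.not_nonempty_iff_eq_empty] at hne
    have h0 : volume (frontier K) = 0 := hconv.addHaar_frontier volume
    have hsub : K ⊆ frontier K := by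
      rw [frontier, hne, Set.sdiff_empty]
      exact subset_closure
    have : volume K = 0 := measure_mono_null hsub h0
    rw [vol, this] at hv
    simp at hv
  obtain ⟨Z, hZ⟩ := hint
  have hZK : Z ∈ K := interior_subset hZ
  have hnZ : -Z ∈ K := hsymm Z hZK
  have := hconv.combo_interior_self_mem_interior hZ hnZ (by norm_num : (0 : ℝ) < 1 / 2)
    (by norm_num : (0 : ℝ) ≤ 1 / 2) (by norm_num)
  have e0 : (1 / 2 : ℝ) • Z + (1 / 2 : ℝ) • (-Z) = 0 := by
    rw [smul_neg, add_neg_cancel]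
  rw [e0] at this
  exact mem_interior_iff_mem_nhds.1 this

end Pool.Agent.Helper116.TreeNo.T1
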