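import Mathlib
import Pool.Agent.Helper116.TreeDefs

set_option autoImplicit false

open MeasureTheory

namespace Pool.Agent.Helper116.TreeNo.T3


theorem packing_tail (θ c : ℝ) (hθ0 : 0 < θ) (hθ8 : θ ≤ 1 / 8) (d : ℕ → ℝ) (t0 : ℕ)
    (h0 : ∀ t < t0, d t = 0) (h1 : c ≤ d t0) (h2 : ∀ t, -2 ≤ d t) (m : ℕ) :
    (1 - θ) / 2 * θ ^ t0 * c - (θ ^ (t0 + 1) - θ ^ (t0 + 1 + m)) ≤
      ∑ t ∈ Finset.range (t0 + 1 + m), (1 - θ) / 2 * θ ^ t * d t := by
  have hθ1 : 0 ≤ 1 - θ := by linarith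
  induction m with
  | zero =>
    rw [add_zero, Finset.sum_range_succ, Finset.sum_eq_zero, zero_add, sub_self, sub_zero]
    · exact mul_le_mul_of_nonneg_left h1 (by positivity)
    · intro t ht
      rw [h0 t (Finset.mem_range.1 ht), mul_zero]
  | succ m ih =>
    rw [← add_assoc, Finset.sum_range_succ]
    have h3 : (1 - θ) / 2 * θ ^ (t0 + 1 + m) * (-2) ≤
        (1 - θ) / 2 * θ ^ (t0 + 1 + m) * d (t0 + 1 + m) :=
      mul_le_mul_of_nonneg_left (h2 _) (by positivity)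
    have h4 : θ ^ (t0 + 1 + m + 1) = θ ^ (t0 + 1 + m) * θ := pow_succ _ _
    rw [h4]
    nlinarith

open scoped Pointwise in
theorem packing_pow {ι I : Type} [Fintype ι] [DecidableEq I] (L Ω : Set (ι → ℝ))
    (hL : SymBody L) (hΩ : SymBody Ω) (hΩL : Ω ⊆ L) (hpL : SymBody (pol L))
    (hpΩ : SymBody (pol Ω)) (c : ℝ) (hc : 0 < c) (hc1 : c ≤ 1) (R : ℕ)
    (J : Finset I) (y : I → ι → ℝ) (y₀ : ι → ℝ) (hy : ∀ j ∈ J, y j ∈ pol L)
    (hsep : ∀ a ∈ J, ∀ b ∈ J, a ≠ b → ∃ X ∈ L, c ≤ X ⬝ᵥ (y a - y b))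
    (hΩy : ∀ j ∈ J, ∀ Z ∈ Ω, |Z ⬝ᵥ (y j - y₀)| ≤ (c / 8) ^ R) :
    (J.card : ℝ) ^ R * vol (pol L) ≤ 2 ^ (Fintype.card ι) * vol (pol Ω) := by
  classical
  set θ : ℝ := c / 8 with hθ
  have hθ0 : 0 < θ := by positivity
  have hθ8 : θ ≤ 1 / 8 := by rw [hθ]; linarith
  have hc8 : c = 8 * θ := by rw [hθ]; ring
  have hθ1 : 0 ≤ 1 - θ := by linarith
  obtain ⟨s0, hs0⟩ : ∃ s0 : ℝ, s0 = θ ^ R / 2 := ⟨_, rfl⟩
  have hs0p : 0 < s0 := by rw [hs0]; positivity
  let B : Finset (Fin R → I) := Fintype.piFinset (fun _ => J)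
  have hB : ∀ b ∈ B, ∀ t, b t ∈ J := fun b hb t => (Fintype.mem_piFinset.1 hb) t
  have hBcard : B.card = J.card ^ R := by
    simp [B, Fintype.card_piFinset]
  let p : (Fin R → I) → ι → ℝ :=
    fun b => ∑ t : Fin R, ((1 - θ) / 2 * θ ^ (t : ℕ)) • (y (b t) - y₀)
  have hdp : ∀ (X : ι → ℝ) (b : Fin R → I),
      X ⬝ᵥ p b = ∑ t : Fin R, (1 - θ) / 2 * θ ^ (t : ℕ) * (X ⬝ᵥ (y (b t) - y₀)) := by
    intro X b
    simp only [p, dotProduct_sum, dotProduct_smul, smul_eq_mul]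
  have hgeom : (1 - θ) * ∑ t ∈ Finset.range R, θ ^ t = 1 - θ ^ R := mul_neg_geom_sum θ R
  have hp1 : ∀ b ∈ B, ∀ Z ∈ Ω, Z ⬝ᵥ p b ≤ s0 := by
    intro b hb Z hZ
    rw [hdp]
    have h1 : ∀ t : Fin R, (1 - θ) / 2 * θ ^ (t : ℕ) * (Z ⬝ᵥ (y (b t) - y₀)) ≤
        (1 - θ) / 2 * θ ^ (t : ℕ) * θ ^ R := by
      intro t
      apply mul_le_mul_of_nonneg_left
      · exact (le_abs_self _).trans (hΩy (b t) (hB b hb t) Z hZ)
      · positivity
    refine (Finset.sum_le_sum fun t _ => h1 t).trans ?_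
    rw [← Finset.sum_mul, Fin.sum_univ_eq_sum_range (fun t => (1 - θ) / 2 * θ ^ t) R,
      ← Finset.mul_sum]
    have h2 : (1 - θ) / 2 * ∑ t ∈ Finset.range R, θ ^ t = (1 - θ ^ R) / 2 := by linarith
    rw [h2, hs0]
    have h3 : 0 < θ ^ R := by positivity
    nlinarith
  have hLy : ∀ X ∈ L, ∀ u ∈ pol L, -1 ≤ X ⬝ᵥ u ∧ X ⬝ᵥ u ≤ 1 := by
    intro X hX u hu
    have h1 := hu X hX
    have h2 := hu (-X) (hL.symm X hX)
    rw [neg_dotProduct] at h2
    constructor <;> linarith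
  have hsep2 : ∀ b ∈ B, ∀ b' ∈ B, b ≠ b' → ∃ X ∈ L, θ ^ R < X ⬝ᵥ (p b - p b') := by
    intro b hb b' hb' hne
    obtain ⟨t0, ht0, hmin⟩ := WellFounded.has_min
      (wellFounded_lt : WellFounded (α := Fin R) (· < ·)) {t | b t ≠ b' t} (Function.ne_iff.1 hne)
    obtain ⟨X, hX, hXc⟩ := hsep (b t0) (hB b hb t0) (b' t0) (hB b' hb' t0) ht0
    refine ⟨X, hX, ?_⟩
    let d : ℕ → ℝ := fun t => if h : t < R then X ⬝ᵥ (y (b ⟨t, h⟩) - y (b' ⟨t, h⟩)) else 0
    have hd : ∀ t : Fin R, d t = X ⬝ᵥ (y (b t) - y (b' t)) := by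
      intro t
      simp only [d]
      rw [dif_pos t.2]
    have h0 : ∀ t < (t0 : ℕ), d t = 0 := by
      intro t ht
      have htR : t < R := ht.trans t0.2
      have : b ⟨t, htR⟩ = b' ⟨t, htR⟩ := by
        by_contra hcon
        exact hmin ⟨t, htR⟩ hcon ht
      simp only [d]
      rw [dif_pos htR, this, sub_self, dotProduct_zero]
    have h1 : c ≤ d t0 := by rw [hd]; exact hXc
    have h2 : ∀ t, -2 ≤ d t := by
      intro t
      by_cases h : t < R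
      · simp only [d]
        rw [dif_pos h, dotProduct_sub]
        have e1 := hLy X hX _ (hy _ (hB b hb ⟨t, h⟩))
        have e2 := hLy X hX _ (hy _ (hB b' hb' ⟨t, h⟩))
        linarith [e1.1, e2.2]
      · simp only [d]
        rw [dif_neg h]
        norm_num
    have hR : R = (t0 : ℕ) + 1 + (R - (t0 + 1)) := by have := t0.2; omega
    have h3 := packing_tail θ c hθ0 hθ8 d t0 h0 h1 h2 (R - (t0 + 1))
    rw [← hR] at h3
    have h4 : X ⬝ᵥ (p b - p b') = ∑ t ∈ Finset.range R, (1 - θ) / 2 * θ ^ t * d t := by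
      rw [dotProduct_sub, hdp, hdp, ← Finset.sum_sub_distrib,
        ← Fin.sum_univ_eq_sum_range (fun t => (1 - θ) / 2 * θ ^ t * d t) R]
      apply Finset.sum_congr rfl
      intro t _
      rw [hd, ← mul_sub, ← dotProduct_sub]
      congr 2
      abel
    rw [h4]
    refine lt_of_lt_of_le ?_ h3
    have h5 : θ ^ ((t0 : ℕ) + 1) = θ ^ (t0 : ℕ) * θ := pow_succ _ _
    have h6 : 0 < θ ^ (t0 : ℕ) * θ := by positivity
    rw [h5, hc8]
    have h7 : (1 - θ) / 2 * θ ^ (t0 : ℕ) * (8 * θ) = 4 * (1 - θ) * (θ ^ (t0 : ℕ) * θ) := by ring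
    rw [h7]
    nlinarith
  let f : (Fin R → I) → Set (ι → ℝ) := fun b => p b +ᵥ (s0 • pol L)
  have hmeasL : MeasurableSet (pol L) := hpL.compact.isClosed.measurableSet
  have hfmeas : ∀ b ∈ B, MeasurableSet (f b) := by
    intro b _
    exact ((hpL.compact.smul s0).vadd (p b)).isClosed.measurableSet
  have hmemf : ∀ b z, z ∈ f b → ∃ u ∈ pol L, z = p b + s0 • u := by
    intro b z hz
    obtain ⟨w, ⟨u, hu, rfl⟩, rfl⟩ := hz
    exact ⟨u, hu, rfl⟩
  have hdisj : (B : Set (Fin R → I)).PairwiseDisjoint f := by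
    intro b hb b' hb' hne
    rw [Function.onFun, Set.disjoint_left]
    intro z hz hz'
    obtain ⟨u, hu, h1⟩ := hmemf b z hz
    obtain ⟨u', hu', h2⟩ := hmemf b' z hz'
    obtain ⟨X, hX, hXp⟩ := hsep2 b hb b' hb' hne
    have h3 : p b - p b' = s0 • u' - s0 • u := by
      have : p b + s0 • u = p b' + s0 • u' := h1.symm.trans h2
      rw [sub_eq_sub_iff_add_eq_add, this, add_comm]
    rw [h3, dotProduct_sub, dotProduct_smul, dotProduct_smul, smul_eq_mul, smul_eq_mul] at hXp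
    have e1 := hLy X hX u hu
    have e2 := hLy X hX u' hu'
    rw [hs0] at hXp
    have h4 : 0 < θ ^ R := by positivity
    nlinarith [e1.1, e2.2]
  have hsub : (⋃ b ∈ B, f b) ⊆ (2 * s0) • pol Ω := by
    intro z hz
    simp only [Set.mem_iUnion] at hz
    obtain ⟨b, hb, hz⟩ := hz
    obtain ⟨u, hu, rfl⟩ := hmemf b z hz
    rw [Set.mem_smul_set_iff_inv_smul_mem₀ (by positivity)]
    intro Z hZ
    rw [dotProduct_smul, smul_eq_mul, dotProduct_add, dotProduct_smul, smul_eq_mul]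
    have e1 := hp1 b hb Z hZ
    have e2 := (hLy Z (hΩL hZ) u hu).2
    rw [inv_mul_le_iff₀ (by positivity)]
    nlinarith
  have hvol : ∑ b ∈ B, volume (f b) ≤ volume ((2 * s0) • pol Ω) := by
    rw [← measure_biUnion_finset hdisj hfmeas]
    exact measure_mono hsub
  have hfv : ∀ b ∈ B, volume (f b) =
      ENNReal.ofReal (s0 ^ Fintype.card ι) * volume (pol L) := by
    intro b _
    simp only [f]
    rw [measure_vadd, Measure.addHaar_smul, Module.finrank_fintype_fun_eq_card,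
      abs_of_pos (by positivity)]
  rw [Finset.sum_congr rfl hfv, Finset.sum_const, Measure.addHaar_smul,
    Module.finrank_fintype_fun_eq_card, abs_of_pos (by positivity), hBcard] at hvol
  have hLfin : volume (pol L) ≠ ⊤ := hpL.compact.measure_lt_top.ne
  have hΩfin : volume (pol Ω) ≠ ⊤ := hpΩ.compact.measure_lt_top.ne
  have h1 := ENNReal.toReal_mono (ENNReal.mul_ne_top ENNReal.ofReal_ne_top hΩfin) hvol
  rw [nsmul_eq_mul, ENNReal.toReal_mul, ENNReal.toReal_mul, ENNReal.toReal_mul,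
    ENNReal.toReal_ofReal (by positivity), ENNReal.toReal_ofReal (by positivity),
    ENNReal.toReal_natCast, mul_pow] at h1
  push_cast at h1
  have hpos : 0 < s0 ^ Fintype.card ι := by positivity
  unfold vol
  have h2 : s0 ^ Fintype.card ι * ((J.card : ℝ) ^ R * (volume (pol L)).toReal) ≤
      s0 ^ Fintype.card ι * (2 ^ Fintype.card ι * (volume (pol Ω)).toReal) := by
    calc _ = (J.card : ℝ) ^ R * (s0 ^ Fintype.card ι * (volume (pol L)).toReal) := by ring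
      _ ≤ _ := h1
      _ = _ := by ring
  exact le_of_mul_le_mul_left h2 hpos


end Pool.Agent.Helper116.TreeNo.T3
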