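import Mathlib
import Pool.Agent.Helper116.TreeDefs

set_option autoImplicit false

open MeasureTheory

namespace Pool.Agent.Helper116.TreeNo.T5



theorem aux6682_count {I : Type} [DecidableEq I] (S : Finset I) (J : I → Finset I) (n : ℕ)
    (hJ : ∀ a, (J a).card ≤ n) (h : ∀ a ∈ S, ∀ b ∈ S, b ∈ J a ∨ a ∈ J b) : S.card ≤ 2 * n := by
  have h1 : ∑ a ∈ S, ∑ b ∈ S, 1 ≤ ∑ a ∈ S, ∑ b ∈ S,
      ((if b ∈ J a then 1 else 0) + (if a ∈ J b then 1 else 0)) := by
    refine Finset.sum_le_sum (fun a ha => Finset.sum_le_sum (fun b hb => ?_))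
    rcases h a ha b hb with h | h
    · simp [h]
    · simp [h]
  have h2 : ∀ a ∈ S, ∑ b ∈ S, (if b ∈ J a then 1 else 0) ≤ n := by
    intro a _
    rw [← Finset.card_filter]
    refine le_trans (Finset.card_le_card ?_) (hJ a)
    intro b hb
    exact (Finset.mem_filter.mp hb).2
  have h3 : ∑ a ∈ S, ∑ b ∈ S, ((if b ∈ J a then 1 else 0) + (if a ∈ J b then 1 else 0)) ≤
      S.card * n + S.card * n := by
    simp only [Finset.sum_add_distrib]
    apply add_le_add
    · refine (Finset.sum_le_sum h2).trans ?_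
      rw [Finset.sum_const, smul_eq_mul]
    · rw [Finset.sum_comm]
      refine (Finset.sum_le_sum h2).trans ?_
      rw [Finset.sum_const, smul_eq_mul]
  have h4 : ∑ a ∈ S, ∑ b ∈ S, 1 = S.card * S.card := by simp
  rw [h4] at h1
  rcases Nat.eq_zero_or_pos S.card with h0 | h0
  · omega
  · have h5 : S.card * S.card ≤ S.card * (2 * n) := by
      calc S.card * S.card ≤ S.card * n + S.card * n := h1.trans h3
        _ = _ := by ring
    exact Nat.le_of_mul_le_mul_left h5 h0

theorem overlap_bound {ι I : Type} [Fintype ι] [Fintype I] [DecidableEq I] (L : Set (ι → ℝ))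
    (hL : IsCompact L) (Qa : I → Set (ι → ℝ)) (hQ : ∀ a, IsCompact (Qa a))
    (hQL : ∀ a, Qa a ⊆ L) (J : I → Finset I) (n : ℕ) (hJ : ∀ a, (J a).card ≤ n)
    (hself : ∀ a, a ∈ J a)
    (hdis : ∀ a b, a ≠ b → b ∉ J a → a ∉ J b → Disjoint (Qa a) (Qa b)) :
    ∑ a, vol (Qa a) ≤ 2 * n * vol L := by
  classical
  have hpt : ∀ z, (∑ a, (Qa a).indicator (fun _ => (1 : ENNReal)) z) ≤
      L.indicator (fun _ => (2 * n : ENNReal)) z := by
    intro z
    have h1 : (∑ a, (Qa a).indicator (fun _ => (1 : ENNReal)) z) =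
        ((Finset.univ.filter (fun a => z ∈ Qa a)).card : ENNReal) := by
      simp only [Set.indicator_apply]
      rw [Finset.sum_boole]
    rw [h1]
    by_cases hz : z ∈ L
    · rw [Set.indicator_of_mem hz]
      have h2 : (Finset.univ.filter (fun a => z ∈ Qa a)).card ≤ 2 * n := by
        apply aux6682_count _ J n hJ
        intro a ha b hb
        rw [Finset.mem_filter] at ha hb
        by_cases hab : a = b
        · subst hab; exact Or.inl (hself a)
        · by_contra hcon
          push Not at hcon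
          exact Set.disjoint_left.mp (hdis a b hab hcon.1 hcon.2) ha.2 hb.2
      exact_mod_cast h2
    · have h2 : Finset.univ.filter (fun a => z ∈ Qa a) = ∅ := by
        apply Finset.filter_eq_empty_iff.mpr
        intro a _ ha
        exact hz (hQL a ha)
      rw [h2]
      simp
  have hmain : ∑ a, volume (Qa a) ≤ 2 * n * volume L := by
    calc ∑ a, volume (Qa a) = ∑ a, ∫⁻ z, (Qa a).indicator (fun _ => (1 : ENNReal)) z := by
          refine Finset.sum_congr rfl (fun a _ => ?_)
          rw [lintegral_indicator (hQ a).measurableSet]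
          simp
      _ = ∫⁻ z, ∑ a, (Qa a).indicator (fun _ => (1 : ENNReal)) z := by
          rw [lintegral_finsetSum]
          intro a _
          exact measurable_const.indicator (hQ a).measurableSet
      _ ≤ ∫⁻ z, L.indicator (fun _ => (2 * n : ENNReal)) z := lintegral_mono hpt
      _ = 2 * n * volume L := by
          rw [lintegral_indicator hL.measurableSet]
          simp
  have hfin : 2 * n * volume L ≠ ⊤ :=
    ENNReal.mul_ne_top (ENNReal.mul_ne_top (by simp) (by simp)) hL.measure_lt_top.ne
  have h2 := ENNReal.toReal_mono hfin hmain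
  rw [ENNReal.toReal_sum (fun a _ => (hQ a).measure_lt_top.ne), ENNReal.toReal_mul,
    ENNReal.toReal_mul] at h2
  simpa [vol] using h2


end Pool.Agent.Helper116.TreeNo.T5
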