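import Mathlib
import Pool.Agent.Helper116.TreeDefs

set_option autoImplicit false

open MeasureTheory

namespace Pool.Agent.Helper116.TreeNo.T6


theorem star {ι I : Type} [Fintype ι] [DecidableEq ι] [Nonempty ι] [Fintype I] [DecidableEq I]
    [Nonempty I]
    -- ingredients, proved elsewhere
    (hvolpos : ∀ K : Set (ι → ℝ), SymBody K → 0 < vol K)
    (hpol : ∀ K : Set (ι → ℝ), SymBody K → SymBody (pol K))
    (hcenter : ∀ Λ : Set (ι → ℝ), Convex ℝ Λ → IsCompact Λ → 0 < vol Λ →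
      ∃ x ∈ Λ, (1 / 2) ^ (Fintype.card ι) * vol Λ ≤ vol {Z | x + Z ∈ Λ ∧ x - Z ∈ Λ})
    (hsymb : ∀ Λ : Set (ι → ℝ), Convex ℝ Λ → IsCompact Λ → ∀ x : ι → ℝ,
      0 < vol {Z | x + Z ∈ Λ ∧ x - Z ∈ Λ} → SymBody {Z | x + Z ∈ Λ ∧ x - Z ∈ Λ})
    (hpack : ∀ L Ω : Set (ι → ℝ), SymBody L → SymBody Ω → Ω ⊆ L → SymBody (pol L) →
      SymBody (pol Ω) → ∀ c : ℝ, 0 < c → c ≤ 1 → ∀ R : ℕ, ∀ (J : Finset I) (y : I → ι → ℝ)
      (y₀ : ι → ℝ), (∀ j ∈ J, y j ∈ pol L) →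
      (∀ a ∈ J, ∀ b ∈ J, a ≠ b → ∃ X ∈ L, c ≤ X ⬝ᵥ (y a - y b)) →
      (∀ j ∈ J, ∀ Z ∈ Ω, |Z ⬝ᵥ (y j - y₀)| ≤ (c / 8) ^ R) →
      (J.card : ℝ) ^ R * vol (pol L) ≤ 2 ^ (Fintype.card ι) * vol (pol Ω))
    (hover : ∀ L : Set (ι → ℝ), IsCompact L → ∀ Qa : I → Set (ι → ℝ), (∀ a, IsCompact (Qa a)) →
      (∀ a, Qa a ⊆ L) → ∀ (J : I → Finset I) (n : ℕ), (∀ a, (J a).card ≤ n) →
      (∀ a, a ∈ J a) → (∀ a b, a ≠ b → b ∉ J a → a ∉ J b → Disjoint (Qa a) (Qa b)) →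
      ∑ a, vol (Qa a) ≤ 2 * n * vol L)
    (CS cB : ℝ) (hCS : 0 < CS) (hcB : 0 < cB) (hom : 0 < om ι)
    (hWS : ∀ K : Set (ι → ℝ), SymBody K →
      vol K * vol (pol K) ≤ CS ^ (Fintype.card ι) * om ι ^ 2)
    (hBM : ∀ K : Set (ι → ℝ), SymBody K →
      cB ^ (Fintype.card ι) * om ι ^ 2 ≤ vol K * vol (pol K))
    -- data
    (L : Set (ι → ℝ)) (hL : SymBody L) (h : (ι → ℝ) → ℝ) (hconv : ConvexOn ℝ Set.univ h)
    (hcont : Continuous h) (c : ℝ) (hc : 0 < c) (hc1 : c ≤ 1) (R : ℕ) (η : ℝ) (hη : 0 < η)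
    (hη2 : η < (c / 8) ^ R / 2)
    (y : I → ι → ℝ) (hy : ∀ a, y a ∈ pol L) (hyh : ∀ a, ∀ X ∈ L, X ⬝ᵥ y a ≤ h X)
    (hsep : ∀ a b, a ≠ b → ∃ X ∈ L, c ≤ X ⬝ᵥ (y a - y b))
    (κ : ℝ) (hκ : 0 < κ)
    (hvol : ∀ a, κ * vol L ≤ vol {X | X ∈ L ∧ h X - η ≤ X ⬝ᵥ y a}) :
    ((Fintype.card I : ℝ) * κ * (1 - η / ((c / 8) ^ R / 2)) ^ (Fintype.card ι) / 2) ^ R ≤
      (4 * CS / cB) ^ (Fintype.card ι) / κ := by
  classical
  set n := Fintype.card ι with hn
  set s0 : ℝ := (c / 8) ^ R / 2 with hs0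
  have hs0pos : 0 < s0 := by positivity
  have hs0' : (c / 8) ^ R = 2 * s0 := by rw [hs0]; ring
  -- the pieces
  set Λ : I → Set (ι → ℝ) := fun a => {X | X ∈ L ∧ h X - η ≤ X ⬝ᵥ y a} with hΛ
  have hvolL : 0 < vol L := hvolpos L hL
  have hlin : ∀ a, Continuous (fun X : ι → ℝ => X ⬝ᵥ y a) := by
    intro a
    unfold dotProduct
    fun_prop
  have hΛconv : ∀ a, Convex ℝ (Λ a) := by
    intro a X hX Y hY p q hp hq hpq
    refine ⟨hL.convex hX.1 hY.1 hp hq hpq, ?_⟩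
    have h1 := hconv.2 (Set.mem_univ X) (Set.mem_univ Y) hp hq hpq
    simp only [smul_eq_mul] at h1
    have h2 : (p • X + q • Y) ⬝ᵥ y a = p * (X ⬝ᵥ y a) + q * (Y ⬝ᵥ y a) := by
      rw [add_dotProduct, smul_dotProduct, smul_dotProduct, smul_eq_mul, smul_eq_mul]
    rw [h2]
    have h3 := hX.2
    have h4 := hY.2
    have h5 : p * (h X - η) ≤ p * (X ⬝ᵥ y a) := mul_le_mul_of_nonneg_left h3 hp
    have h6 : q * (h Y - η) ≤ q * (Y ⬝ᵥ y a) := mul_le_mul_of_nonneg_left h4 hq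
    have h7 : p * η + q * η = η := by rw [← add_mul, hpq, one_mul]
    linarith
  have hΛcpt : ∀ a, IsCompact (Λ a) := by
    intro a
    have : Λ a = L ∩ {X | h X - η ≤ X ⬝ᵥ y a} := by
      ext X; rfl
    rw [this]
    exact hL.compact.inter_right (isClosed_le (hcont.sub continuous_const) (hlin a))
  have hΛL : ∀ a, Λ a ⊆ L := fun a X hX => hX.1
  have hΛvol : ∀ a, κ * vol L ≤ vol (Λ a) := hvol
  have hΛpos : ∀ a, 0 < vol (Λ a) := fun a => lt_of_lt_of_le (mul_pos hκ hvolL) (hΛvol a)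
  choose x hxΛ hxvol using fun a => hcenter (Λ a) (hΛconv a) (hΛcpt a) (hΛpos a)
  set Ω : I → Set (ι → ℝ) := fun a => {Z | x a + Z ∈ Λ a ∧ x a - Z ∈ Λ a} with hΩ
  have hΩpos : ∀ a, 0 < vol (Ω a) := by
    intro a
    refine lt_of_lt_of_le ?_ (hxvol a)
    have := hΛpos a
    positivity
  have hΩS : ∀ a, SymBody (Ω a) := fun a => hsymb (Λ a) (hΛconv a) (hΛcpt a) (x a) (hΩpos a)
  have hΩL : ∀ a, Ω a ⊆ L := by
    intro a Z hZ
    have h1 : x a + Z ∈ L := (hZ.1).1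
    have h2 : -(x a - Z) ∈ L := hL.symm _ (hZ.2).1
    have h3 := hL.convex h1 h2 (show (0:ℝ) ≤ 1/2 by norm_num) (show (0:ℝ) ≤ 1/2 by norm_num)
      (by norm_num)
    have h4 : (1/2 : ℝ) • (x a + Z) + (1/2 : ℝ) • (-(x a - Z)) = Z := by
      ext i
      simp only [Pi.add_apply, Pi.smul_apply, Pi.neg_apply, Pi.sub_apply, smul_eq_mul]
      ring
    rwa [h4] at h3
  -- basic inequality on the pieces
  have hbas : ∀ a b, ∀ X ∈ Λ a, X ⬝ᵥ y b - X ⬝ᵥ y a ≤ η := by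
    intro a b X hX
    have h1 := hX.2
    have h2 := hyh b X hX.1
    linarith
  set J : I → Finset I := fun a => Finset.univ.filter (fun b => x a ⬝ᵥ (y a - y b) ≤ s0) with hJ
  have hJa : ∀ a, a ∈ J a := by
    intro a
    simp only [hJ, Finset.mem_filter, Finset.mem_univ, true_and, sub_self, dotProduct_zero]
    exact hs0pos.le
  have hpk : ∀ a, ((J a).card : ℝ) ^ R * vol (pol L) ≤ 2 ^ n * vol (pol (Ω a)) := by
    intro a
    refine hpack L (Ω a) hL (hΩS a) (hΩL a) (hpol L hL) (hpol _ (hΩS a)) c hc hc1 R (J a) y (y a)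
      (fun j _ => hy j) (fun p _ q _ hpq => hsep p q hpq) ?_
    intro b hb Z hZ
    have hb' : x a ⬝ᵥ (y a - y b) ≤ s0 := (Finset.mem_filter.mp hb).2
    have h1 := hbas a b _ hZ.1
    have h2 := hbas a b _ hZ.2
    rw [dotProduct_sub] at hb'
    rw [add_dotProduct, add_dotProduct] at h1
    rw [sub_dotProduct, sub_dotProduct] at h2
    rw [dotProduct_sub, hs0', abs_le]
    constructor <;> linarith
  have hbound : ∀ a, ((J a).card : ℝ) ^ R ≤ (4 * CS / cB) ^ n / κ := by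
    intro a
    have p1 := hpk a
    have p2 := hWS (Ω a) (hΩS a)
    have p3 := hBM L hL
    have p4 : (1/2 : ℝ) ^ n * (κ * vol L) ≤ vol (Ω a) :=
      le_trans (mul_le_mul_of_nonneg_left (hΛvol a) (by positivity)) (hxvol a)
    have q1 : 0 < vol (pol L) := hvolpos _ (hpol L hL)
    have q2 : 0 < vol (pol (Ω a)) := hvolpos _ (hpol _ (hΩS a))
    have q3 := hΩpos a
    have hom2 : 0 < om ι ^ 2 := by positivity
    obtain ⟨k, hk⟩ : ∃ k : ℝ, k = ((J a).card : ℝ) ^ R := ⟨_, rfl⟩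
    rw [← hk] at p1 ⊢
    have hk0 : 0 ≤ k := by rw [hk]; exact pow_nonneg (Nat.cast_nonneg _) _
    rw [le_div_iff₀ hκ]
    rw [div_pow, le_div_iff₀ (pow_pos hcB _), mul_pow]
    -- k * κ * cB^n ≤ 4^n * CS^n
    have e1 : k * κ * cB ^ n * om ι ^ 2 ≤ 4 ^ n * CS ^ n * om ι ^ 2 := by
      calc k * κ * cB ^ n * om ι ^ 2 = k * κ * (cB ^ n * om ι ^ 2) := by ring
        _ ≤ k * κ * (vol L * vol (pol L)) := by
            exact mul_le_mul_of_nonneg_left p3 (mul_nonneg hk0 hκ.le)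
        _ = (k * vol (pol L)) * (κ * vol L) := by ring
        _ ≤ (2 ^ n * vol (pol (Ω a))) * (κ * vol L) :=
            mul_le_mul_of_nonneg_right p1 (by positivity)
        _ = 4 ^ n * (((1/2 : ℝ) ^ n * (κ * vol L)) * vol (pol (Ω a))) := by
            have : (4:ℝ) ^ n * (1/2 : ℝ) ^ n = 2 ^ n := by
              rw [← mul_pow]; norm_num
            calc 2 ^ n * vol (pol (Ω a)) * (κ * vol L) = (4 ^ n * (1/2 : ℝ) ^ n) * vol (pol (Ω a)) * (κ * vol L) := by rw [this]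
              _ = _ := by ring
        _ ≤ 4 ^ n * (vol (Ω a) * vol (pol (Ω a))) := by
            apply mul_le_mul_of_nonneg_left _ (by positivity)
            exact mul_le_mul_of_nonneg_right p4 q2.le
        _ ≤ 4 ^ n * (CS ^ n * om ι ^ 2) := mul_le_mul_of_nonneg_left p2 (by positivity)
        _ = 4 ^ n * CS ^ n * om ι ^ 2 := by ring
    exact le_of_mul_le_mul_right e1 hom2
  obtain ⟨a₀, -, ha₀⟩ := Finset.exists_max_image (Finset.univ : Finset I) (fun a => (J a).card)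
    Finset.univ_nonempty
  set n0 := (J a₀).card with hn0
  -- shrunken pieces
  set s : ℝ := η / s0 with hs
  have hs1 : s < 1 := by rw [hs, div_lt_one hs0pos]; exact hη2
  have hspos : 0 < s := div_pos hη hs0pos
  have hss0 : s * s0 = η := by rw [hs]; field_simp
  set Q : I → Set (ι → ℝ) := fun a => AffineMap.homothety (x a) (1 - s) '' Λ a with hQ
  have hQval : ∀ a X, AffineMap.homothety (x a) (1 - s) X = (1 - s) • X + s • x a := by
    intro a X
    rw [AffineMap.homothety_apply]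
    ext i
    simp only [vsub_eq_sub, vadd_eq_add, Pi.add_apply, Pi.smul_apply, Pi.sub_apply, smul_eq_mul]
    ring
  have hQcpt : ∀ a, IsCompact (Q a) := by
    intro a
    apply (hΛcpt a).image
    have : (fun X => AffineMap.homothety (x a) (1 - s) X) = fun X => (1 - s) • X + s • x a := by
      funext X; exact hQval a X
    show Continuous (fun X => AffineMap.homothety (x a) (1 - s) X)
    rw [this]
    fun_prop
  have hQL : ∀ a, Q a ⊆ L := by
    rintro a _ ⟨X, hX, rfl⟩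
    rw [hQval]
    exact hL.convex hX.1 (hxΛ a).1 (by linarith) hspos.le (by ring)
  have hdisj : ∀ a b, a ≠ b → b ∉ J a → a ∉ J b → Disjoint (Q a) (Q b) := by
    intro a b _ hba hab
    rw [Set.disjoint_left]
    rintro z ⟨X, hX, hXz⟩ ⟨Y, hY, hYz⟩
    rw [hQval] at hXz hYz
    have g1 : s0 < x a ⬝ᵥ (y a - y b) := by
      by_contra hc'
      exact hba (Finset.mem_filter.mpr ⟨Finset.mem_univ _, not_lt.mp hc'⟩)
    have g2 : s0 < x b ⬝ᵥ (y b - y a) := by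
      by_contra hc'
      exact hab (Finset.mem_filter.mpr ⟨Finset.mem_univ _, not_lt.mp hc'⟩)
    have k1 := hbas a b X hX
    have k2 := hbas b a Y hY
    have z1 : z ⬝ᵥ (y a - y b) = (1 - s) * (X ⬝ᵥ (y a - y b)) + s * (x a ⬝ᵥ (y a - y b)) := by
      rw [← hXz, add_dotProduct, smul_dotProduct, smul_dotProduct, smul_eq_mul, smul_eq_mul]
    have z2 : z ⬝ᵥ (y b - y a) = (1 - s) * (Y ⬝ᵥ (y b - y a)) + s * (x b ⬝ᵥ (y b - y a)) := by
      rw [← hYz, add_dotProduct, smul_dotProduct, smul_dotProduct, smul_eq_mul, smul_eq_mul]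
    have z3 : z ⬝ᵥ (y b - y a) = - (z ⬝ᵥ (y a - y b)) := by
      rw [← neg_sub (y a) (y b), dotProduct_neg]
    have k1' : -η ≤ X ⬝ᵥ (y a - y b) := by rw [dotProduct_sub]; linarith
    have k2' : -η ≤ Y ⬝ᵥ (y b - y a) := by rw [dotProduct_sub]; linarith
    have m1 : (1 - s) * (-η) ≤ (1 - s) * (X ⬝ᵥ (y a - y b)) :=
      mul_le_mul_of_nonneg_left k1' (by linarith)
    have m2 : (1 - s) * (-η) ≤ (1 - s) * (Y ⬝ᵥ (y b - y a)) :=
      mul_le_mul_of_nonneg_left k2' (by linarith)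
    have m3 : s * s0 < s * (x a ⬝ᵥ (y a - y b)) := mul_lt_mul_of_pos_left g1 hspos
    have m4 : s * s0 < s * (x b ⬝ᵥ (y b - y a)) := mul_lt_mul_of_pos_left g2 hspos
    have m5 : 0 < s * η := mul_pos hspos hη
    rw [hss0] at m3 m4
    have m6 : (1 - s) * (-η) = -η + s * η := by ring
    rw [m6] at m1 m2
    linarith
  have hov := hover L hL.compact Q hQcpt hQL J n0 (fun a => ha₀ a (Finset.mem_univ a)) hJa hdisj
  have hQvol : ∀ a, (1 - s) ^ n * (κ * vol L) ≤ vol (Q a) := by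
    intro a
    have h1 : vol (Q a) = (1 - s) ^ n * vol (Λ a) := by
      unfold vol
      rw [hQ]
      simp only
      rw [MeasureTheory.Measure.addHaar_image_homothety, ENNReal.toReal_mul,
        ENNReal.toReal_ofReal (abs_nonneg _), Module.finrank_fintype_fun_eq_card,
        abs_of_nonneg (pow_nonneg (by linarith) _)]
    rw [h1]
    exact mul_le_mul_of_nonneg_left (hΛvol a) (pow_nonneg (by linarith) _)
  have hsum : (Fintype.card I : ℝ) * ((1 - s) ^ n * (κ * vol L)) ≤ 2 * n0 * vol L := by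
    refine le_trans ?_ hov
    have := Finset.card_nsmul_le_sum (Finset.univ : Finset I) (fun a => vol (Q a)) _
      (fun a _ => hQvol a)
    rw [nsmul_eq_mul, Finset.card_univ] at this
    exact this
  have hfin : (Fintype.card I : ℝ) * κ * (1 - s) ^ n / 2 ≤ n0 := by
    have h1 : (Fintype.card I : ℝ) * κ * (1 - s) ^ n * vol L ≤ (2 * n0) * vol L := by
      calc (Fintype.card I : ℝ) * κ * (1 - s) ^ n * vol L
          = (Fintype.card I : ℝ) * ((1 - s) ^ n * (κ * vol L)) := by ring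
        _ ≤ _ := hsum
    have h2 := le_of_mul_le_mul_right h1 hvolL
    linarith
  have hnn : 0 ≤ (Fintype.card I : ℝ) * κ * (1 - s) ^ n / 2 := by
    have : 0 ≤ (1 - s) ^ n := pow_nonneg (by linarith) _
    positivity
  exact le_trans (pow_le_pow_left₀ hnn hfin R) (hbound a₀)


end Pool.Agent.Helper116.TreeNo.T6
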