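import Mathlib
import Pool.Agent.Helper116.TreeDefs

set_option autoImplicit false

open MeasureTheory

namespace Pool.Agent.Helper116.TreeNo.W1


theorem wc_split (h : ℕ → ℝ) (N R : ℕ) :
    ∑ b ∈ Finset.range (R * N), h b =
      ∑ r ∈ Finset.range R, ∑ i ∈ Finset.range N, h (N * r + i) := by
  induction R with
  | zero => simp
  | succ R ih =>
    rw [Finset.sum_range_succ, ← ih, Nat.succ_mul, Finset.sum_range_add]
    congr 1
    apply Finset.sum_congr rfl
    intro i _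
    rw [mul_comm]

theorem wc_avg (N q : ℕ) (A : Fin N → ℝ) (f : Fin N → Fin q → ℝ) :
    (q : ℝ) * ∑ β : Fin N → Fin q, ∑ i, (A i - f i (β i)) =
      (q : ℝ) ^ N * ∑ i, (q * A i - ∑ c, f i c) := by
  classical
  rw [Finset.sum_comm, Finset.mul_sum, Finset.mul_sum]
  apply Finset.sum_congr rfl
  intro i _
  have hN : 0 < N := Fin.pos i
  have h1 : ∑ β : Fin N → Fin q, (A i - f i (β i)) =
      (q : ℝ) ^ N * A i - (q : ℝ) ^ (N - 1) * ∑ c, f i c := by
    rw [Finset.sum_sub_distrib]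
    congr 1
    · rw [Finset.sum_const, Finset.card_univ, Fintype.card_fun, Fintype.card_fin,
        Fintype.card_fin, nsmul_eq_mul]
      push_cast
      ring
    · have := Fintype.sum_piFinset_apply (fun c => f i c) (Finset.univ : Finset (Fin q)) i
      rw [Fintype.piFinset_univ] at this
      rw [this, Finset.card_univ, Fintype.card_fin, Fintype.card_fin, nsmul_eq_mul]
      push_cast
      ring
  rw [h1, mul_sub]
  have h2 : (q : ℝ) * ((q : ℝ) ^ (N - 1) * ∑ c, f i c) = (q : ℝ) ^ N * ∑ c, f i c := by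
    rw [← mul_assoc, ← pow_succ', Nat.sub_add_cancel hN]
  rw [h2]
  ring

/-- the mean at level `l` -/
noncomputable def wcS (H : ℕ) (a : ℕ → ℕ → ℝ) (l : ℕ) : ℝ :=
  (∑ b ∈ Finset.range (2 ^ (H - l)), a l b) / 2 ^ (H - l)

theorem wcS_abs (H : ℕ) (a : ℕ → ℕ → ℝ) (ha : ∀ l b, |a l b| ≤ 1) (l : ℕ) :
    |wcS H a l| ≤ 1 := by
  unfold wcS
  have hp : (0 : ℝ) < 2 ^ (H - l) := by positivity
  rw [abs_div, abs_of_pos hp, div_le_one hp]
  calc |∑ b ∈ Finset.range (2 ^ (H - l)), a l b|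
      ≤ ∑ b ∈ Finset.range (2 ^ (H - l)), |a l b| := Finset.abs_sum_le_sum_abs _ _
    _ ≤ ∑ b ∈ Finset.range (2 ^ (H - l)), (1 : ℝ) := Finset.sum_le_sum fun b _ => ha l b
    _ = 2 ^ (H - l) := by simp

theorem window_choice (H J : ℕ) (hJ : 0 < J) (l ν : ℕ → ℕ) (hl : ∀ j < J, l j ≤ l (j + 1))
    (hν : ∀ j < J, l (j + 1) + ν j ≤ H)
    (a : ℕ → ℕ → ℝ) (ha : ∀ l b, |a l b| ≤ 1)
    (hmono : ∀ l₁ l₂ b, l₁ ≤ l₂ → a l₁ b ≤ a l₂ (b / 2 ^ (l₂ - l₁))) :
    ∃ j < J, ∃ r < 2 ^ (H - l (j + 1) - ν j),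
      ∃ B : Finset (Fin (2 ^ ν j) → Fin (2 ^ (l (j + 1) - l j))),
        (2 ^ (l (j + 1) - l j)) ^ (2 ^ ν j) ≤ 2 * B.card ∧
        ∀ β ∈ B, ∑ i : Fin (2 ^ ν j), (a (l (j + 1)) (2 ^ ν j * r + i) -
          a (l j) ((2 ^ ν j * r + i) * 2 ^ (l (j + 1) - l j) + β i)) ≤
            4 / (J : ℝ) * ((2 ^ ν j : ℕ) : ℝ) := by
  classical
  have hJ' : (0 : ℝ) < J := by exact_mod_cast hJ
  -- choice of the scale
  obtain ⟨j, hj, hS⟩ : ∃ j < J, wcS H a (l (j + 1)) - wcS H a (l j) ≤ 2 / J := by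
    by_contra hcon
    push Not at hcon
    have h1 : ∑ j ∈ Finset.range J, (2 / (J : ℝ)) <
        ∑ j ∈ Finset.range J, (wcS H a (l (j + 1)) - wcS H a (l j)) := by
      apply Finset.sum_lt_sum_of_nonempty ⟨0, Finset.mem_range.2 hJ⟩
      intro j hj
      exact hcon j (Finset.mem_range.1 hj)
    rw [Finset.sum_range_sub (fun j => wcS H a (l j)), Finset.sum_const, Finset.card_range,
      nsmul_eq_mul, mul_div_cancel₀ _ hJ'.ne'] at h1
    have h2 := abs_le.1 (wcS_abs H a ha (l J))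
    have h3 := abs_le.1 (wcS_abs H a ha (l 0))
    linarith [h2.2, h3.1]
  refine ⟨j, hj, ?_⟩
  have hle := hl j hj
  have hνj := hν j hj
  set l1 := l j with hl1
  set l2 := l (j + 1) with hl2
  set N := 2 ^ ν j with hN
  set q := 2 ^ (l2 - l1) with hq
  set R := 2 ^ (H - l2 - ν j) with hR
  have hNpos : 0 < N := by positivity
  have hqpos : 0 < q := by positivity
  have hRpos : 0 < R := by positivity
  have hNpos' : (0 : ℝ) < N := by exact_mod_cast hNpos
  have hqpos' : (0 : ℝ) < q := by exact_mod_cast hqpos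
  have hRpos' : (0 : ℝ) < R := by exact_mod_cast hRpos
  have e2 : 2 ^ (H - l2) = R * N := by
    rw [hR, hN, ← pow_add]; congr 1; omega
  have e1 : 2 ^ (H - l1) = (R * N) * q := by
    rw [← e2, hq, ← pow_add]; congr 1; omega
  have s2 : wcS H a l2 * (R * N * q : ℝ) =
      ∑ r ∈ Finset.range R, ∑ i ∈ Finset.range N, (q : ℝ) * a l2 (N * r + i) := by
    unfold wcS
    have e2' : (2 : ℝ) ^ (H - l2) = R * N := by exact_mod_cast e2
    rw [e2, e2', wc_split (a l2) N R]
    simp only [← Finset.mul_sum]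
    field_simp
  have s1 : wcS H a l1 * (R * N * q : ℝ) =
      ∑ r ∈ Finset.range R, ∑ i ∈ Finset.range N, ∑ c ∈ Finset.range q,
        a l1 ((N * r + i) * q + c) := by
    unfold wcS
    have e1' : (2 : ℝ) ^ (H - l1) = R * N * q := by exact_mod_cast e1
    rw [e1, e1', wc_split (a l1) q (R * N),
      wc_split (fun x => ∑ i ∈ Finset.range q, a l1 (q * x + i)) N R, div_mul_cancel₀ _ (by positivity)]
    apply Finset.sum_congr rfl
    intro r _
    apply Finset.sum_congr rfl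
    intro i _
    apply Finset.sum_congr rfl
    intro c _
    rw [mul_comm q]
  -- choice of the group
  obtain ⟨r, hr, hD⟩ : ∃ r < R, ∑ i ∈ Finset.range N, ((q : ℝ) * a l2 (N * r + i) -
      ∑ c ∈ Finset.range q, a l1 ((N * r + i) * q + c)) ≤ 2 / J * (N * q) := by
    by_contra hcon
    push Not at hcon
    have h1 : ∑ r ∈ Finset.range R, (2 / (J : ℝ) * (N * q)) <
        ∑ r ∈ Finset.range R, ∑ i ∈ Finset.range N, ((q : ℝ) * a l2 (N * r + i) -
          ∑ c ∈ Finset.range q, a l1 ((N * r + i) * q + c)) := by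
      apply Finset.sum_lt_sum_of_nonempty ⟨0, Finset.mem_range.2 hRpos⟩
      intro r hr
      exact hcon r (Finset.mem_range.1 hr)
    simp only [Finset.sum_sub_distrib] at h1
    rw [← s2, ← s1, Finset.sum_const, Finset.card_range, nsmul_eq_mul] at h1
    have h2 : (wcS H a l2 - wcS H a l1) * (R * N * q : ℝ) ≤ 2 / J * (R * N * q) :=
      mul_le_mul_of_nonneg_right hS (by positivity)
    linarith
  refine ⟨r, hr, ?_⟩
  set A : Fin N → ℝ := fun i => a l2 (N * r + i) with hA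
  set f : Fin N → Fin q → ℝ := fun i c => a l1 ((N * r + i) * q + c) with hf
  set T : (Fin N → Fin q) → ℝ := fun β => ∑ i, (A i - f i (β i)) with hT
  have hterm : ∀ (β : Fin N → Fin q) i, 0 ≤ A i - f i (β i) := by
    intro β i
    have h1 := hmono l1 l2 ((N * r + i) * q + β i) hle
    have h2 : ((N * r + i) * q + (β i : ℕ)) / 2 ^ (l2 - l1) = N * r + i := by
      rw [← hq, mul_comm, Nat.mul_add_div hqpos, Nat.div_eq_of_lt (β i).2, add_zero]
    rw [h2] at h1
    exact sub_nonneg.2 h1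
  have hT0 : ∀ β, 0 ≤ T β := fun β => Finset.sum_nonneg fun i _ => hterm β i
  have hTsum : ∑ β, T β ≤ (q : ℝ) ^ N * (2 / J * N) := by
    have h1 := wc_avg N q A f
    have h2 : ∑ i : Fin N, (q * A i - ∑ c, f i c) = ∑ i ∈ Finset.range N,
        ((q : ℝ) * a l2 (N * r + i) - ∑ c ∈ Finset.range q, a l1 ((N * r + i) * q + c)) := by
      rw [Finset.sum_range (fun i => ((q : ℝ) * a l2 (N * r + i) -
        ∑ c ∈ Finset.range q, a l1 ((N * r + i) * q + c)))]
      apply Finset.sum_congr rfl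
      intro i _
      rw [Finset.sum_range (fun c => a l1 ((N * r + i) * q + c))]
    rw [h2] at h1
    have h3 : (q : ℝ) * ∑ β, T β ≤ (q : ℝ) * ((q : ℝ) ^ N * (2 / J * N)) := by
      calc (q : ℝ) * ∑ β, T β = _ := h1
        _ ≤ (q : ℝ) ^ N * (2 / J * (N * q)) := mul_le_mul_of_nonneg_left hD (by positivity)
        _ = _ := by ring
    exact le_of_mul_le_mul_left h3 hqpos'
  refine ⟨Finset.univ.filter (fun β => T β ≤ 4 / J * N), ?_, ?_⟩
  · have hcard : (Finset.univ.filter (fun β => T β ≤ 4 / J * N)).card +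
        (Finset.univ.filter (fun β => ¬ T β ≤ 4 / J * N)).card = q ^ N := by
      rw [Finset.card_filter_add_card_filter_not, Finset.card_univ, Fintype.card_fun,
        Fintype.card_fin, Fintype.card_fin]
    have hmk : ((Finset.univ.filter (fun β => ¬ T β ≤ 4 / J * N)).card : ℝ) * (4 / J * N) ≤
        (q : ℝ) ^ N * (2 / J * N) := by
      calc ((Finset.univ.filter (fun β => ¬ T β ≤ 4 / J * N)).card : ℝ) * (4 / J * N)
          = ∑ β ∈ Finset.univ.filter (fun β => ¬ T β ≤ 4 / J * N), (4 / (J : ℝ) * N) := by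
            rw [Finset.sum_const, nsmul_eq_mul]
        _ ≤ ∑ β ∈ Finset.univ.filter (fun β => ¬ T β ≤ 4 / J * N), T β := by
            apply Finset.sum_le_sum
            intro β hβ
            exact (not_le.1 (Finset.mem_filter.1 hβ).2).le
        _ ≤ ∑ β, T β := Finset.sum_le_sum_of_subset_of_nonneg (Finset.filter_subset _ _)
            fun β _ _ => hT0 β
        _ ≤ _ := hTsum
    have hmk2 : 2 * ((Finset.univ.filter (fun β => ¬ T β ≤ 4 / J * N)).card : ℝ) ≤
        (q : ℝ) ^ N := by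
      have hp : (0 : ℝ) < 2 / J * N := by positivity
      have h5 : (2 * ((Finset.univ.filter (fun β => ¬ T β ≤ 4 / J * N)).card : ℝ)) * (2 / J * N) ≤
        (q : ℝ) ^ N * (2 / J * N) := by
        refine le_trans (le_of_eq ?_) hmk
        ring
      exact le_of_mul_le_mul_right h5 hp
    have hmk3 : 2 * (Finset.univ.filter (fun β => ¬ T β ≤ 4 / J * N)).card ≤ q ^ N := by
      exact_mod_cast hmk2
    omega
  · intro β hβ
    exact (Finset.mem_filter.1 hβ).2


end Pool.Agent.Helper116.TreeNo.W1
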