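import Mathlib
import Pool.Agent.Helper116.TreeDefs

set_option autoImplicit false

open MeasureTheory

namespace Pool.Agent.Helper116.TreeNo.W2


theorem code_ball_aux (N q : ℕ) (hq : 1 ≤ q) (y : Fin N → Fin q) :
    (Finset.univ.filter (fun x : Fin N → Fin q =>
      (Finset.univ.filter (fun i => x i ≠ y i)).card ≤ N / 2)).card ≤ 2 ^ N * q ^ (N / 2) := by
  classical
  have hsub : (Finset.univ.filter (fun x : Fin N → Fin q =>
      (Finset.univ.filter (fun i => x i ≠ y i)).card ≤ N / 2)) ⊆
      ((Finset.univ : Finset (Finset (Fin N))).filter (fun S => S.card ≤ N / 2)).biUnion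
        (fun S => Fintype.piFinset (fun i => if i ∈ S then (Finset.univ : Finset (Fin q)) else {y i})) := by
    intro x hx
    rw [Finset.mem_filter] at hx
    rw [Finset.mem_biUnion]
    refine ⟨Finset.univ.filter (fun i => x i ≠ y i), ?_, ?_⟩
    · rw [Finset.mem_filter]
      exact ⟨Finset.mem_univ _, hx.2⟩
    · rw [Fintype.mem_piFinset]
      intro i
      by_cases hi : x i = y i
      · have : i ∉ Finset.univ.filter (fun i => x i ≠ y i) := by
          simp [hi]
        rw [if_neg this]
        simp [hi]
      · have : i ∈ Finset.univ.filter (fun i => x i ≠ y i) := by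
          simp [hi]
        rw [if_pos this]
        simp
  refine (Finset.card_le_card hsub).trans ?_
  refine (Finset.card_biUnion_le_card_mul _ _ (q ^ (N / 2)) ?_).trans ?_
  · intro S hS
    rw [Finset.mem_filter] at hS
    rw [Fintype.card_piFinset]
    have : ∀ i : Fin N, (if i ∈ S then (Finset.univ : Finset (Fin q)) else {y i}).card
        = if i ∈ S then q else 1 := by
      intro i
      split_ifs <;> simp
    rw [Finset.prod_congr rfl (fun i _ => this i)]
    rw [Finset.prod_ite]
    simp only [Finset.prod_const, one_pow, mul_one]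
    have h2 : (Finset.univ.filter (fun i => i ∈ S)) = S := by
      ext i; simp
    rw [h2]
    exact Nat.pow_le_pow_right hq hS.2
  · refine Nat.mul_le_mul_right _ ?_
    refine (Finset.card_filter_le _ _).trans ?_
    simp

theorem code_exists (N q : ℕ) (B : Finset (Fin N → Fin q)) :
    ∃ C ⊆ B, (∀ x ∈ C, ∀ y ∈ C, x ≠ y →
      N ≤ 2 * (Finset.univ.filter (fun i => x i ≠ y i)).card) ∧
      B.card ≤ C.card * (2 ^ N * q ^ (N / 2)) := by
  classical
  rcases Finset.eq_empty_or_nonempty B with hB | ⟨b, hb⟩
  · subst hB
    exact ⟨∅, by simp, by simp, by simp⟩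
  rcases Nat.eq_zero_or_pos N with hN | hN
  · subst hN
    refine ⟨B, Finset.Subset.refl _, ?_, ?_⟩
    · intro x _ y _ _
      exact Nat.zero_le _
    · simp
  have hq : 1 ≤ q := by
    have := (b ⟨0, hN⟩).isLt
    omega
  -- maximal good subset
  have hmm := Finset.exists_max_image
    (B.powerset.filter (fun C : Finset (Fin N → Fin q) => ∀ x ∈ C, ∀ y ∈ C, x ≠ y →
      N ≤ 2 * (Finset.univ.filter (fun i : Fin N => x i ≠ y i)).card)) Finset.card
    ⟨∅, by simp⟩
  obtain ⟨C, hC, hmax⟩ := hmm
  rw [Finset.mem_filter, Finset.mem_powerset] at hC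
  refine ⟨C, hC.1, hC.2, ?_⟩
  have hcov : B ⊆ C.biUnion (fun y => Finset.univ.filter (fun x : Fin N → Fin q =>
      (Finset.univ.filter (fun i => x i ≠ y i)).card ≤ N / 2)) := by
    intro x hx
    rw [Finset.mem_biUnion]
    by_cases hxC : x ∈ C
    · exact ⟨x, hxC, by simp⟩
    · by_contra hcon
      push Not at hcon
      have hfar : ∀ y ∈ C, N ≤ 2 * (Finset.univ.filter (fun i => x i ≠ y i)).card := by
        intro y hy
        have := hcon y hy
        rw [Finset.mem_filter] at this
        have h2 : ¬ (Finset.univ.filter (fun i => x i ≠ y i)).card ≤ N / 2 :=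
          fun h => this ⟨Finset.mem_univ _, h⟩
        omega
      have hsymm : ∀ y : Fin N → Fin q, (Finset.univ.filter (fun i => y i ≠ x i)).card
          = (Finset.univ.filter (fun i => x i ≠ y i)).card := by
        intro y
        congr 1
        ext i
        simp [eq_comm]
      have hins := hmax (insert x C) (by
        rw [Finset.mem_filter, Finset.mem_powerset]
        refine ⟨Finset.insert_subset hx hC.1, ?_⟩
        intro a ha c hc hac
        rw [Finset.mem_insert] at ha hc
        rcases ha with rfl | ha
        · rcases hc with rfl | hc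
          · exact absurd rfl hac
          · exact hfar c hc
        · rcases hc with rfl | hc
          · rw [hsymm a]
            exact hfar a ha
          · exact hC.2 a ha c hc hac)
      rw [Finset.card_insert_of_notMem hxC] at hins
      omega
  refine (Finset.card_le_card hcov).trans ?_
  exact Finset.card_biUnion_le_card_mul _ _ _ (fun y _ => code_ball_aux N q hq y)


end Pool.Agent.Helper116.TreeNo.W2
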