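import Mathlib
import Pool.Agent.Helper116.TreeDefs

set_option autoImplicit false

open MeasureTheory

namespace Pool.Agent.Helper116.TreeNo.W4


/-- block maximum of the leaf functionals -/
noncomputable def bM {ι : Type} [Fintype ι] (w : ℕ → ι → ℝ) (l b : ℕ) (X : ι → ℝ) : ℝ :=
  (Finset.range (2 ^ l)).sup' ⟨0, Finset.mem_range.mpr (Nat.two_pow_pos l)⟩
    (fun g => X ⬝ᵥ w (b * 2 ^ l + g))

/-- mean of the block maximum over `L` -/
noncomputable def bA {ι : Type} [Fintype ι] (L : Set (ι → ℝ)) (w : ℕ → ι → ℝ) (l b : ℕ) : ℝ :=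
  (∫ X in L, bM w l b X) / vol L

theorem bM_continuous {ι : Type} [Fintype ι] (w : ℕ → ι → ℝ) (l b : ℕ) :
    Continuous (bM w l b) := by
  unfold bM
  refine Continuous.finset_sup'_apply _ fun g _ => ?_
  unfold dotProduct
  fun_prop

theorem bM_convexOn {ι : Type} [Fintype ι] (w : ℕ → ι → ℝ) (l b : ℕ) :
    ConvexOn ℝ Set.univ (bM w l b) := by
  refine ⟨convex_univ, fun X _ Y _ p q hp hq _ => ?_⟩
  unfold bM
  apply Finset.sup'_le
  intro g hg
  rw [add_dotProduct, smul_dotProduct, smul_dotProduct]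
  exact add_le_add
    (mul_le_mul_of_nonneg_left (Finset.le_sup' (fun g => X ⬝ᵥ w (b * 2 ^ l + g)) hg) hp)
    (mul_le_mul_of_nonneg_left (Finset.le_sup' (fun g => Y ⬝ᵥ w (b * 2 ^ l + g)) hg) hq)

theorem le_bM {ι : Type} [Fintype ι] (w : ℕ → ι → ℝ) (l b u : ℕ) (hu : u / 2 ^ l = b)
    (X : ι → ℝ) : X ⬝ᵥ w u ≤ bM w l b X := by
  have h1 : b * 2 ^ l + u % 2 ^ l = u := by
    rw [← hu, mul_comm]; exact Nat.div_add_mod u (2 ^ l)
  have h2 := Finset.le_sup' (fun g => X ⬝ᵥ w (b * 2 ^ l + g))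
    (Finset.mem_range.mpr (Nat.mod_lt u (Nat.two_pow_pos l)))
  simp only [h1] at h2
  exact h2

theorem exists_eq_bM {ι : Type} [Fintype ι] (w : ℕ → ι → ℝ) (l b : ℕ) (X : ι → ℝ) :
    ∃ g < 2 ^ l, bM w l b X = X ⬝ᵥ w (b * 2 ^ l + g) := by
  obtain ⟨g, hg, he⟩ := Finset.exists_mem_eq_sup' (s := Finset.range (2 ^ l))
    ⟨0, Finset.mem_range.mpr (Nat.two_pow_pos l)⟩ (fun g => X ⬝ᵥ w (b * 2 ^ l + g))
  exact ⟨g, Finset.mem_range.mp hg, he⟩

theorem bM_abs_le {ι : Type} [Fintype ι] (L : Set (ι → ℝ))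
    (w : ℕ → ι → ℝ) (hw : ∀ g, ∀ X ∈ L, |X ⬝ᵥ w g| ≤ 1) (l b : ℕ) (X : ι → ℝ) (hX : X ∈ L) :
    |bM w l b X| ≤ 1 := by
  obtain ⟨g, _, he⟩ := exists_eq_bM w l b X
  rw [he]
  exact hw _ X hX

theorem bM_integrableOn {ι : Type} [Fintype ι] (L : Set (ι → ℝ)) (hL : SymBody L)
    (w : ℕ → ι → ℝ) (l b : ℕ) : IntegrableOn (bM w l b) L :=
  (bM_continuous w l b).continuousOn.integrableOn_compact hL.compact

theorem bM_mono {ι : Type} [Fintype ι] (w : ℕ → ι → ℝ) (l₁ l₂ b : ℕ) (h : l₁ ≤ l₂)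
    (X : ι → ℝ) : bM w l₁ b X ≤ bM w l₂ (b / 2 ^ (l₂ - l₁)) X := by
  obtain ⟨g, hg, he⟩ := exists_eq_bM w l₁ b X
  rw [he]
  apply le_bM
  have h1 : (b * 2 ^ l₁ + g) / 2 ^ l₁ = b := by
    rw [mul_comm, Nat.mul_add_div (Nat.two_pow_pos l₁), Nat.div_eq_of_lt hg, add_zero]
  have h2 : 2 ^ l₂ = 2 ^ l₁ * 2 ^ (l₂ - l₁) := by
    rw [← pow_add]; congr 1; omega
  rw [h2, ← Nat.div_div_eq_div_mul, h1]

theorem bA_abs_le {ι : Type} [Fintype ι] (L : Set (ι → ℝ)) (hL : SymBody L) (hv : 0 < vol L)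
    (w : ℕ → ι → ℝ) (hw : ∀ g, ∀ X ∈ L, |X ⬝ᵥ w g| ≤ 1) (l b : ℕ) : |bA L w l b| ≤ 1 := by
  unfold bA
  rw [abs_div, abs_of_pos hv, div_le_one hv]
  have h := norm_setIntegral_le_of_norm_le_const (μ := volume) (f := bM w l b) (s := L) (C := 1)
    hL.compact.measure_lt_top (fun X hX => bM_abs_le L w hw l b X hX)
  rw [one_mul] at h
  exact h

theorem bA_mono {ι : Type} [Fintype ι] (L : Set (ι → ℝ)) (hL : SymBody L) (hv : 0 < vol L)
    (w : ℕ → ι → ℝ) (hw : ∀ g, ∀ X ∈ L, |X ⬝ᵥ w g| ≤ 1) (l₁ l₂ b : ℕ) (h : l₁ ≤ l₂) :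
    bA L w l₁ b ≤ bA L w l₂ (b / 2 ^ (l₂ - l₁)) := by
  unfold bA
  apply div_le_div_of_nonneg_right _ hv.le
  exact integral_mono (bM_integrableOn L hL w l₁ b) (bM_integrableOn L hL w l₂ _)
    (fun X => bM_mono w l₁ l₂ b h X)

theorem window_sets {ι : Type} [Fintype ι] (L : Set (ι → ℝ)) (hL : SymBody L) (hv : 0 < vol L)
    (w : ℕ → ι → ℝ) (hw : ∀ g, ∀ X ∈ L, |X ⬝ᵥ w g| ≤ 1) (l₁ l₂ : ℕ) (hl : l₁ ≤ l₂)
    (N : ℕ) (hN : 0 < N) (s : ℕ) (η : ℝ) (hη : 0 < η) (β : Fin N → Fin (2 ^ (l₂ - l₁)))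
    (hβ : ∑ i : Fin N, (bA L w l₂ (s + i) - bA L w l₁ ((s + i) * 2 ^ (l₂ - l₁) + β i)) ≤
      η / 2 * N) :
    ∃ u : Fin N → ℕ, (∀ i, u i / 2 ^ l₁ = (s + i) * 2 ^ (l₂ - l₁) + β i) ∧
      (1 / 2) ^ (l₁ * N + 1) * vol L ≤
        vol {X | X ∈ L ∧ (∑ i : Fin N, bM w l₂ (s + i) X) / N - η ≤
          X ⬝ᵥ ((1 / N : ℝ) • ∑ i : Fin N, w (u i))} := by
  classical
  have hNr : (0 : ℝ) < N := by exact_mod_cast hN
  have hLm : MeasurableSet L := hL.compact.isClosed.measurableSet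
  have hLfin : volume L < ⊤ := hL.compact.measure_lt_top
  obtain ⟨bb, hbb⟩ : ∃ bb : Fin N → ℕ, ∀ i, bb i = (s + i) * 2 ^ (l₂ - l₁) + β i := ⟨_, fun i => rfl⟩
  obtain ⟨d, hd⟩ : ∃ d : (ι → ℝ) → ℝ, d = fun X => ∑ i : Fin N,
    (bM w l₂ (s + i) X - bM w l₁ (bb i) X) := ⟨_, rfl⟩
  have hdiv : ∀ i, bb i / 2 ^ (l₂ - l₁) = s + i := by
    intro i
    rw [hbb, mul_comm, Nat.mul_add_div (Nat.two_pow_pos _), Nat.div_eq_of_lt (β i).2, add_zero]
  have hd0 : ∀ X, 0 ≤ d X := by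
    intro X
    rw [hd]
    refine Finset.sum_nonneg fun i _ => ?_
    have := bM_mono w l₁ l₂ (bb i) hl X
    rw [hdiv] at this
    linarith
  have hdc : Continuous d := by
    rw [hd]
    exact continuous_finsetSum _ fun i _ => (bM_continuous _ _ _).sub (bM_continuous _ _ _)
  have hdint : IntegrableOn d L := hdc.continuousOn.integrableOn_compact hL.compact
  have hdI : ∫ X in L, d X ≤ η / 2 * N * vol L := by
    have e : ∫ X in L, d X = (∑ i : Fin N, (bA L w l₂ (s + i) - bA L w l₁ (bb i))) * vol L := by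
      rw [hd, integral_finsetSum, Finset.sum_mul]
      · refine Finset.sum_congr rfl fun i _ => ?_
        rw [integral_sub (bM_integrableOn L hL w _ _) (bM_integrableOn L hL w _ _)]
        unfold bA
        field_simp
      · intro i _
        exact (bM_integrableOn L hL w _ _).sub (bM_integrableOn L hL w _ _)
    rw [e]
    apply mul_le_mul_of_nonneg_right _ hv.le
    simp only [hbb]
    exact hβ
  -- Markov
  have hmarkov : η * N * (volume.restrict L).real {X | η * N ≤ d X} ≤ ∫ X in L, d X :=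
    mul_meas_ge_le_integral_of_nonneg (Filter.Eventually.of_forall hd0) hdint (η * N)
  have hbad : vol ({X | η * N ≤ d X} ∩ L) ≤ vol L / 2 := by
    rw [measureReal_restrict_apply' hLm] at hmarkov
    have h1 : η * N * vol ({X | η * N ≤ d X} ∩ L) ≤ η * N * (vol L / 2) := by
      refine hmarkov.trans (hdI.trans (le_of_eq ?_))
      ring
    exact le_of_mul_le_mul_left h1 (by positivity)
  have hgood : vol L / 2 ≤ vol {X | X ∈ L ∧ d X ≤ η * N} := by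
    have h1 : vol L ≤ vol ({X | η * N ≤ d X} ∩ L) + vol {X | X ∈ L ∧ d X ≤ η * N} := by
      have hsub : L ⊆ ({X | η * N ≤ d X} ∩ L) ∪ {X | X ∈ L ∧ d X ≤ η * N} := by
        intro X hX
        rcases le_total (η * N) (d X) with h | h
        · exact Or.inl ⟨h, hX⟩
        · exact Or.inr ⟨hX, h⟩
      have hfin : volume (({X | η * N ≤ d X} ∩ L) ∪ {X | X ∈ L ∧ d X ≤ η * N}) ≠ ⊤ := by
        refine ne_top_of_le_ne_top hLfin.ne (measure_mono ?_)
        rintro X (hX | hX)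
        · exact hX.2
        · exact hX.1
      exact (measureReal_mono hsub hfin).trans (measureReal_union_le _ _)
    linarith
  -- cover by tuples
  let Sg : (Fin N → Fin (2 ^ l₁)) → Set (ι → ℝ) := fun g =>
    {X | X ∈ L ∧ d X ≤ η * N ∧ ∀ i, bM w l₁ (bb i) X = X ⬝ᵥ w (bb i * 2 ^ l₁ + g i)}
  have hSgL : ∀ g, Sg g ⊆ L := fun g X hX => hX.1
  have hcover : {X | X ∈ L ∧ d X ≤ η * N} ⊆ ⋃ g, Sg g := by
    rintro X ⟨hX1, hX2⟩
    choose g hg he using fun i => exists_eq_bM w l₁ (bb i) X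
    rw [Set.mem_iUnion]
    exact ⟨fun i => ⟨g i, hg i⟩, hX1, hX2, he⟩
  have hsum : vol L / 2 ≤ ∑ g, vol (Sg g) := by
    refine hgood.trans (le_trans (measureReal_mono hcover ?_) (measureReal_iUnion_fintype_le _))
    exact ne_top_of_le_ne_top hLfin.ne (measure_mono (Set.iUnion_subset hSgL))
  have hex : ∃ g, (1 / 2) ^ (l₁ * N + 1) * vol L ≤ vol (Sg g) := by
    by_contra hcon
    push Not at hcon
    have hne : (Finset.univ : Finset (Fin N → Fin (2 ^ l₁))).Nonempty :=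
      ⟨fun _ => ⟨0, Nat.two_pow_pos l₁⟩, Finset.mem_univ _⟩
    have h1 : ∑ g, vol (Sg g) < ∑ _g : Fin N → Fin (2 ^ l₁), (1 / 2) ^ (l₁ * N + 1) * vol L :=
      Finset.sum_lt_sum_of_nonempty hne fun g _ => hcon g
    rw [Finset.sum_const, Finset.card_univ, Fintype.card_fun, Fintype.card_fin, Fintype.card_fin,
      nsmul_eq_mul] at h1
    have h2 : (((2 ^ l₁) ^ N : ℕ) : ℝ) * ((1 / 2) ^ (l₁ * N + 1) * vol L) = vol L / 2 := by
      push_cast
      rw [← pow_mul, pow_succ, one_div, inv_pow]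
      field_simp
    rw [h2] at h1
    linarith
  obtain ⟨g, hg⟩ := hex
  refine ⟨fun i => bb i * 2 ^ l₁ + g i, fun i => ?_, ?_⟩
  · beta_reduce
    rw [← hbb, mul_comm, Nat.mul_add_div (Nat.two_pow_pos l₁), Nat.div_eq_of_lt (g i).2, add_zero]
  · refine hg.trans (measureReal_mono ?_ ?_)
    · rintro X ⟨hX1, hX2, hX3⟩
      refine ⟨hX1, ?_⟩
      have e1 : X ⬝ᵥ ((1 / N : ℝ) • ∑ i : Fin N, w (bb i * 2 ^ l₁ + g i)) =
          (∑ i : Fin N, bM w l₁ (bb i) X) / N := by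
        rw [dotProduct_smul, dotProduct_sum, smul_eq_mul]
        simp only [hX3]
        ring
      rw [e1]
      have e2 : ∑ i : Fin N, bM w l₂ (s + i) X = d X + ∑ i : Fin N, bM w l₁ (bb i) X := by
        rw [hd]
        beta_reduce
        rw [Finset.sum_sub_distrib]
        ring
      rw [e2, add_div]
      have e3 : d X / N ≤ η := by
        rw [div_le_iff₀ hNr]
        exact hX2
      linarith
    · exact ne_top_of_le_ne_top hLfin.ne (measure_mono fun X hX => hX.1)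


end Pool.Agent.Helper116.TreeNo.W4
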