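import Mathlib
import Pool.Agent.Helper116.TreeDefs
import Pool.Agent.Helper116.TreeJ3
import Pool.Agent.Helper116.TreeJ5
import Pool.Agent.Helper116.TreeS3
import Pool.Agent.Helper116.TreeBM
import Pool.Agent.Helper116.TreeT1
import Pool.Agent.Helper116.TreeT3
import Pool.Agent.Helper116.TreeT5
import Pool.Agent.Helper116.TreeT6
import Pool.Agent.Helper116.TreeW1
import Pool.Agent.Helper116.TreeW2
import Pool.Agent.Helper116.TreeW4
import Pool.Agent.Helper116.TreeNum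

set_option autoImplicit false

open MeasureTheory

namespace Pool.Agent.Helper116.TreeNo

theorem star_final {ι I : Type} [Fintype ι] [DecidableEq ι] [Nonempty ι] [Fintype I] [DecidableEq I]
    [Nonempty I] (L : Set (ι → ℝ)) (hL : SymBody L) (h : (ι → ℝ) → ℝ)
    (hconv : ConvexOn ℝ Set.univ h)
    (hcont : Continuous h) (c : ℝ) (hc : 0 < c) (hc1 : c ≤ 1) (R : ℕ) (η : ℝ) (hη : 0 < η)
    (hη2 : η < (c / 8) ^ R / 2)
    (y : I → ι → ℝ) (hy : ∀ a, y a ∈ pol L) (hyh : ∀ a, ∀ X ∈ L, X ⬝ᵥ y a ≤ h X)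
    (hsep : ∀ a b, a ≠ b → ∃ X ∈ L, c ≤ X ⬝ᵥ (y a - y b))
    (κ : ℝ) (hκ : 0 < κ)
    (hvol : ∀ a, κ * vol L ≤ vol {X | X ∈ L ∧ h X - η ≤ X ⬝ᵥ y a}) :
    ((Fintype.card I : ℝ) * κ * (1 - η / ((c / 8) ^ R / 2)) ^ (Fintype.card ι) / 2) ^ R ≤
      (4 * (8 * Real.exp 4) / ((1 / 48000 : ℝ) ^ 2)) ^ (Fintype.card ι) / κ :=
  T6.star (fun K hK => J3.vol_pos_of_symBody K hK) (fun K hK => S3.symBody_pol K hK)
    (fun Λ h1 h2 h3 => T1.exists_sym_center Λ h1 h2 h3)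
    (fun Λ h1 h2 x h3 => T1.symBody_of_sym Λ h1 h2 x h3)
    (fun L Ω h1 h2 h3 h4 h5 c h6 h7 R J y y₀ h8 h9 h10 =>
      T3.packing_pow L Ω h1 h2 h3 h4 h5 c h6 h7 R J y y₀ h8 h9 h10)
    (fun L h1 Qa h2 h3 J n h4 h5 h6 => T5.overlap_bound L h1 Qa h2 h3 J n h4 h5 h6)
    (8 * Real.exp 4) ((1 / 48000 : ℝ) ^ 2) (by positivity) (by positivity) (J5.om_pos ι)
    (fun K hK => weak_santalo K hK) (fun K hK => bourgain_milman K hK)
    L hL h hconv hcont c hc hc1 R η hη hη2 y hy hyh hsep κ hκ hvol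

theorem G_bounds : (1:ℝ) ≤ 4 * (8 * Real.exp 4) / ((1 / 48000 : ℝ) ^ 2) ∧
    4 * (8 * Real.exp 4) / ((1 / 48000 : ℝ) ^ 2) ≤ (2:ℝ) ^ 43 := by
  have h1 : Real.exp 4 = Real.exp 1 ^ 4 := by rw [← Real.exp_nat_mul]; norm_num
  have h2 : Real.exp 1 < 3 := lt_trans Real.exp_one_lt_d9 (by norm_num)
  have h3 : Real.exp 4 ≤ 81 := by
    rw [h1]
    calc Real.exp 1 ^ 4 ≤ 3 ^ 4 := pow_le_pow_left₀ (Real.exp_pos _).le h2.le 4
      _ = 81 := by norm_num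
  have h4 : (1:ℝ) ≤ Real.exp 4 := Real.one_le_exp (by norm_num)
  have h5 : 4 * (8 * Real.exp 4) / ((1 / 48000 : ℝ) ^ 2) = 73728000000 * Real.exp 4 := by
    rw [div_eq_mul_inv]; norm_num; ring
  rw [h5]
  constructor
  · linarith
  · norm_num; linarith

theorem core (D₁ J H R m : ℕ) (l ν : ℕ → ℕ) (hD : 1 ≤ D₁) (hJ : 0 < J)
    (hl : ∀ j, l j = 2 ^ (3 + 7 * j)) (hν : ∀ j, ν j = 7 * (J - j) + 1)
    (hH : H = 2 ^ (7 * J + 13)) (hR : R = 8 * (344 * D₁ + 2)) (c : ℝ) (hc : 0 < c) (hc1 : c ≤ 1)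
    (η : ℝ) (hη : η = (c / 8) ^ R / 2 * (1 / (128 * (D₁ : ℝ)))) (hJ2 : 8 / η ≤ J)
    (hm0 : 0 < m) (hm : m ≤ D₁ * (2 * H))
    (w : ℕ → Fin m → ℝ) (L : Set (Fin m → ℝ)) (hL : SymBody L)
    (hw : ∀ g, ∀ X ∈ L, |X ⬝ᵥ w g| ≤ 1)
    (hsh : ∀ j < J, ∀ r < 2 ^ (H - l (j + 1) - ν j),
      ∀ x y : Fin (2 ^ ν j) → Fin (2 ^ (l (j + 1) - l j)),
      2 ^ ν j ≤ 2 * (Finset.univ.filter (fun i => x i ≠ y i)).card →
      ∀ u v : Fin (2 ^ ν j) → ℕ,
      (∀ i, u i / 2 ^ l j = (2 ^ ν j * r + i) * 2 ^ (l (j + 1) - l j) + x i) →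
      (∀ i, v i / 2 ^ l j = (2 ^ ν j * r + i) * 2 ^ (l (j + 1) - l j) + y i) →
      ∃ X ∈ L, c ≤ X ⬝ᵥ (((1 / (2 ^ ν j : ℕ) : ℝ) • ∑ i, w (u i)) -
        ((1 / (2 ^ ν j : ℕ) : ℝ) • ∑ i, w (v i)))) : False := by
  classical
  have : Nonempty (Fin m) := ⟨⟨0, hm0⟩⟩
  have hv : 0 < vol L := J3.vol_pos_of_symBody L hL
  have hs0 : 0 < (c / 8) ^ R / 2 := by positivity
  have hD0 : (0:ℝ) < D₁ := by exact_mod_cast hD
  have hη0 : 0 < η := by rw [hη]; positivity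
  have hηs : η < (c / 8) ^ R / 2 := by
    rw [hη]
    have : 1 / (128 * (D₁ : ℝ)) < 1 := by
      rw [div_lt_one (by positivity)]
      have : (1:ℝ) ≤ D₁ := by exact_mod_cast hD
      linarith
    nlinarith
  have hl2 : ∀ j, l (j + 1) = 128 * l j := by
    intro j
    rw [hl, hl]
    have : 3 + 7 * (j + 1) = 7 + (3 + 7 * j) := by ring
    rw [this, pow_add]; norm_num
  obtain ⟨j, hj, r, hr, B, hB, hβ⟩ := W1.window_choice H J hJ l ν
    (fun j _ => by rw [hl2]; omega)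
    (fun j hj => by
      rw [hl, hν, hH]
      have h1 : 2 ^ (3 + 7 * (j + 1)) ≤ 2 ^ (7 * J + 3) :=
        Nat.pow_le_pow_right (by norm_num) (by omega)
      have h2 : 7 * (J - j) + 1 ≤ 2 ^ (7 * J + 3) :=
        le_trans (by omega) (Nat.lt_two_pow_self (n := 7 * J + 3)).le
      have h3 : 2 ^ (7 * J + 13) = 1024 * 2 ^ (7 * J + 3) := by
        rw [show 7 * J + 13 = 10 + (7 * J + 3) by ring, pow_add]; norm_num
      omega)
    (fun a b => W4.bA L w a b) (fun a b => W4.bA_abs_le L hL hv w hw a b)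
    (fun l₁ l₂ b h => W4.bA_mono L hL hv w hw l₁ l₂ b h)
  have hle : l j ≤ l (j + 1) := by rw [hl2]; omega
  have hNpos : 0 < 2 ^ ν j := by positivity
  have hex : ∀ β : Fin (2 ^ ν j) → Fin (2 ^ (l (j + 1) - l j)), β ∈ B →
      ∃ u : Fin (2 ^ ν j) → ℕ,
        (∀ i, u i / 2 ^ l j = (2 ^ ν j * r + i) * 2 ^ (l (j + 1) - l j) + β i) ∧
        (1 / 2) ^ (l j * 2 ^ ν j + 1) * vol L ≤
          vol {X | X ∈ L ∧ (∑ i : Fin (2 ^ ν j), W4.bM w (l (j + 1)) (2 ^ ν j * r + i) X) /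
            (2 ^ ν j : ℕ) - η ≤
            X ⬝ᵥ ((1 / (2 ^ ν j : ℕ) : ℝ) • ∑ i : Fin (2 ^ ν j), w (u i))} := by
    intro β hβB
    refine W4.window_sets L hL hv w hw (l j) (l (j + 1)) hle (2 ^ ν j) hNpos (2 ^ ν j * r) η hη0 β ?_
    refine (hβ β hβB).trans ?_
    refine mul_le_mul_of_nonneg_right ?_ (by positivity)
    have hJ0 : (0:ℝ) < J := by exact_mod_cast hJ
    rw [div_le_iff₀ hη0] at hJ2
    rw [div_le_iff₀ hJ0]
    linarith
  choose! u hu1 hu2 using hex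
  obtain ⟨Cc, hCB, hCd, hCc⟩ := W2.code_exists (2 ^ ν j) (2 ^ (l (j + 1) - l j)) B
  have hν' : 2 ^ ν j = 2 * 2 ^ (7 * (J - j)) := by rw [hν, pow_succ]; ring
  have hlj : l (j + 1) - l j = 127 * l j := by rw [hl2]; omega
  have hCpos : 0 < Cc.card := by
    rcases Nat.eq_zero_or_pos Cc.card with h0 | h0
    · exfalso
      rw [h0, zero_mul] at hCc
      have : 0 < (2 ^ (l (j + 1) - l j)) ^ 2 ^ ν j := by positivity
      omega
    · exact h0
  have : Nonempty Cc := by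
    obtain ⟨x, hx⟩ := Finset.card_pos.mp hCpos
    exact ⟨⟨x, hx⟩⟩
  have hfin := star_final (I := Cc) L hL
    (fun X => (∑ i : Fin (2 ^ ν j), W4.bM w (l (j + 1)) (2 ^ ν j * r + i) X) / (2 ^ ν j : ℕ))
    (by
      have h1 : ConvexOn ℝ Set.univ (fun X => ∑ i : Fin (2 ^ ν j),
          W4.bM w (l (j + 1)) (2 ^ ν j * r + i) X) := by
        have h2 : ∀ s : Finset (Fin (2 ^ ν j)), ConvexOn ℝ Set.univ (fun X => ∑ i ∈ s,
            W4.bM w (l (j + 1)) (2 ^ ν j * r + i) X) := by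
          intro s
          induction s using Finset.induction_on with
          | empty => simpa using convexOn_const (0:ℝ) convex_univ
          | insert a s ha ih =>
            simp_rw [Finset.sum_insert ha]
            exact (W4.bM_convexOn w _ _).add ih
        exact h2 Finset.univ
      have h3 := h1.smul (c := ((2 ^ ν j : ℕ) : ℝ)⁻¹) (by positivity)
      refine h3.congr ?_
      intro X _
      simp only [smul_eq_mul]
      rw [div_eq_inv_mul])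
    (by
      refine Continuous.div_const ?_ _
      exact continuous_finsetSum _ (fun i _ => W4.bM_continuous w _ _))
    c hc hc1 R η hη0 hηs
    (fun β => (1 / (2 ^ ν j : ℕ) : ℝ) • ∑ i : Fin (2 ^ ν j), w (u β.1 i))
    (by
      rintro ⟨β, hβC⟩ X hX
      have hNR : (0:ℝ) < ((2 ^ ν j : ℕ) : ℝ) := by positivity
      rw [dotProduct_smul, dotProduct_sum, smul_eq_mul, one_div, inv_mul_le_iff₀ hNR, mul_one]
      calc ∑ i : Fin (2 ^ ν j), X ⬝ᵥ w (u β i) ≤ ∑ i : Fin (2 ^ ν j), (1:ℝ) :=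
            Finset.sum_le_sum (fun i _ => (abs_le.mp (hw _ X hX)).2)
        _ = _ := by simp)
    (by
      rintro ⟨β, hβC⟩ X hX
      have hNR : (0:ℝ) < ((2 ^ ν j : ℕ) : ℝ) := by positivity
      simp only
      rw [dotProduct_smul, dotProduct_sum, smul_eq_mul, one_div, div_eq_inv_mul]
      refine mul_le_mul_of_nonneg_left ?_ (by positivity)
      apply Finset.sum_le_sum
      intro i _
      apply W4.le_bM
      have h1 := hu1 β (hCB hβC) i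
      have h2 : 2 ^ l (j + 1) = 2 ^ l j * 2 ^ (l (j + 1) - l j) := by
        rw [← pow_add]; congr 1; omega
      rw [h2, ← Nat.div_div_eq_div_mul, h1, mul_comm, Nat.mul_add_div (by positivity),
        Nat.div_eq_of_lt (β i).2, add_zero])
    (by
      rintro ⟨β, hβC⟩ ⟨γ, hγC⟩ hne
      have hne' : β ≠ γ := fun h => hne (Subtype.ext h)
      exact hsh j hj r hr β γ (hCd β hβC γ hγC hne') (u β) (u γ) (hu1 β (hCB hβC))
        (hu1 γ (hCB hγC)))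
    ((1 / 2) ^ (l j * 2 ^ ν j + 1)) (by positivity)
    (by
      rintro ⟨β, hβC⟩
      exact hu2 β (hCB hβC))
  have hx : η / ((c / 8) ^ R / 2) = 1 / (128 * (D₁ : ℝ)) := by
    rw [hη]; field_simp
  rw [hx] at hfin
  simp only [Fintype.card_coe, Fintype.card_fin] at hfin
  obtain ⟨cc, hcc⟩ : ∃ cc, cc = Cc.card := ⟨_, rfl⟩
  obtain ⟨bb, hbb⟩ : ∃ bb, bb = B.card := ⟨_, rfl⟩
  rw [← hcc, hν'] at hfin
  rw [← hcc, ← hbb] at hCc
  rw [← hbb] at hB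
  have hl8 : 8 ≤ l j := by
    rw [hl]
    calc 8 = 2 ^ 3 := by norm_num
      _ ≤ 2 ^ (3 + 7 * j) := Nat.pow_le_pow_right (by norm_num) (by omega)
  refine numeric_contra D₁ (l j) (2 ^ (7 * (J - j))) m R cc hD hl8 Nat.one_le_two_pow ?_ hR ?_
    _ G_bounds.1 G_bounds.2 _ rfl hfin
  · rw [hH] at hm
    refine hm.trans (le_of_eq ?_)
    rw [hl]
    have : (2:ℕ) * 2 ^ (7 * J + 13) = 8 * (256 * (2 ^ (3 + 7 * j) * 2 ^ (7 * (J - j)))) := by
      have e1 : (8:ℕ) = 2 ^ 3 := by norm_num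
      have e2 : (256:ℕ) = 2 ^ 8 := by norm_num
      rw [e1, e2, ← pow_add, ← pow_add, ← pow_add, ← pow_succ']
      congr 1
      omega
    rw [this]; ring
  · have h1 : 2 ^ ν j / 2 = 2 ^ (7 * (J - j)) := by rw [hν']; simp
    rw [h1, hν', hlj] at hCc
    rw [hν', hlj] at hB
    exact hB.trans (Nat.mul_le_mul_left 2 hCc)

end Pool.Agent.Helper116.TreeNo
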