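import Mathlib

set_option autoImplicit false

namespace Pool.Agent.Helper116.TreeNo

theorem code_separation (n N q s l₁ G : ℕ) (hN : 0 < N) (node : ℕ → Fin n)
    (hnode : ∀ g < G, ∀ g' < G, node g = node g' → g = g')
    (x y : Fin N → Fin q) (hxy : N ≤ 2 * (Finset.univ.filter (fun i => x i ≠ y i)).card)
    (u v : Fin N → ℕ) (hu : ∀ i, u i < G) (hu' : ∀ i, u i / 2 ^ l₁ = (s + i) * q + x i)
    (hv : ∀ i, v i < G) (hv' : ∀ i, v i / 2 ^ l₁ = (s + i) * q + y i) :
    1 ≤ ∑ t : Fin n, |(1 / N : ℝ) * ∑ i, ((if node (u i) = t then (1:ℝ) else 0) -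
      (if node (v i) = t then (1:ℝ) else 0))| := by
  classical
  have key : ∀ (i i' : Fin N) (a b : Fin q), (s + i : ℕ) * q + a = (s + i') * q + b → i = i' ∧ a = b := by
    intro i i' a b h
    have hq : 0 < q := lt_of_le_of_lt (Nat.zero_le _) a.2
    have h1 : ((s + i : ℕ) * q + a) / q = s + i := by
      rw [mul_comm, Nat.mul_add_div hq, Nat.div_eq_of_lt a.2, add_zero]
    have h2 : ((s + i' : ℕ) * q + b) / q = s + i' := by
      rw [mul_comm, Nat.mul_add_div hq, Nat.div_eq_of_lt b.2, add_zero]
    rw [h] at h1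
    have h3 : (i : ℕ) = i' := by omega
    have h4 : i = i' := Fin.ext h3
    subst h4
    refine ⟨rfl, Fin.ext ?_⟩
    omega
  let φ : Fin n → ℝ := fun t => if (∃ i, x i ≠ y i ∧ node (u i) = t) then 1 else
    if (∃ i, x i ≠ y i ∧ node (v i) = t) then -1 else 0
  have hφ : ∀ t, |φ t| ≤ 1 := by
    intro t
    simp only [φ]
    split_ifs <;> simp
  have hφu : ∀ i, φ (node (u i)) = if x i ≠ y i then 1 else 0 := by
    intro i
    by_cases hi : x i ≠ y i
    · simp only [φ, hi, ne_eq, not_false_eq_true, if_true]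
      rw [if_pos ⟨i, hi, rfl⟩]
    · have h1 : ¬ ∃ i', x i' ≠ y i' ∧ node (u i') = node (u i) := by
        rintro ⟨i', hi', h⟩
        have h2 := hnode _ (hu i') _ (hu i) h
        have h3 : (s + i' : ℕ) * q + x i' = (s + i) * q + x i := by rw [← hu', ← hu', h2]
        obtain ⟨h4, _⟩ := key _ _ _ _ h3
        subst h4; exact hi hi'
      have h1' : ¬ ∃ i', x i' ≠ y i' ∧ node (v i') = node (u i) := by
        rintro ⟨i', hi', h⟩
        have h2 := hnode _ (hv i') _ (hu i) h
        have h3 : (s + i' : ℕ) * q + y i' = (s + i) * q + x i := by rw [← hv', ← hu', h2]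
        obtain ⟨h4, _⟩ := key _ _ _ _ h3
        subst h4; exact hi hi'
      simp only [φ]
      rw [if_neg h1, if_neg h1', if_neg hi]
  have hφv : ∀ i, φ (node (v i)) = if x i ≠ y i then -1 else 0 := by
    intro i
    have h1 : ¬ ∃ i', x i' ≠ y i' ∧ node (u i') = node (v i) := by
      rintro ⟨i', hi', h⟩
      have h2 := hnode _ (hu i') _ (hv i) h
      have h3 : (s + i' : ℕ) * q + x i' = (s + i) * q + y i := by rw [← hu', ← hv', h2]
      obtain ⟨h4, h5⟩ := key _ _ _ _ h3
      subst h4; exact hi' h5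
    by_cases hi : x i ≠ y i
    · simp only [φ]
      rw [if_neg h1, if_pos ⟨i, hi, rfl⟩, if_pos hi]
    · have h1' : ¬ ∃ i', x i' ≠ y i' ∧ node (v i') = node (v i) := by
        rintro ⟨i', hi', h⟩
        have h2 := hnode _ (hv i') _ (hv i) h
        have h3 : (s + i' : ℕ) * q + y i' = (s + i) * q + y i := by rw [← hv', ← hv', h2]
        obtain ⟨h4, _⟩ := key _ _ _ _ h3
        subst h4; exact hi hi'
      simp only [φ]
      rw [if_neg h1, if_neg h1', if_neg hi]
  have hN0 : (0:ℝ) < N := by exact_mod_cast hN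
  calc (1:ℝ) ≤ (1 / N : ℝ) * (2 * ((Finset.univ.filter (fun i => x i ≠ y i)).card : ℝ)) := by
        have : (N : ℝ) ≤ 2 * ((Finset.univ.filter (fun i => x i ≠ y i)).card : ℝ) := by
          exact_mod_cast hxy
        rw [one_div, ← div_eq_inv_mul, le_div_iff₀ hN0]; linarith
    _ = (1 / N : ℝ) * ∑ i, (φ (node (u i)) - φ (node (v i))) := by
        congr 1
        have : ∀ i, φ (node (u i)) - φ (node (v i)) = if x i ≠ y i then 2 else 0 := by
          intro i
          rw [hφu, hφv]; split_ifs <;> norm_num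
        simp_rw [this]
        rw [← Finset.sum_filter, Finset.sum_const, nsmul_eq_mul]; ring
    _ = ∑ t : Fin n, φ t * ((1 / N : ℝ) * ∑ i, ((if node (u i) = t then (1:ℝ) else 0) -
      (if node (v i) = t then (1:ℝ) else 0))) := by
        have h1 : ∀ t : Fin n, φ t * ((1 / N : ℝ) * ∑ i, ((if node (u i) = t then (1:ℝ) else 0) -
            (if node (v i) = t then (1:ℝ) else 0))) = (1 / N : ℝ) * ∑ i, (φ t * (if node (u i) = t then (1:ℝ) else 0) - φ t *
            (if node (v i) = t then (1:ℝ) else 0)) := by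
          intro t
          rw [Finset.mul_sum, Finset.mul_sum, Finset.mul_sum]
          apply Finset.sum_congr rfl; intro i _; ring
        simp_rw [h1]
        rw [← Finset.mul_sum, Finset.sum_comm]
        congr 1
        apply Finset.sum_congr rfl
        intro i _
        rw [Finset.sum_sub_distrib]
        simp
    _ ≤ _ := by
        apply Finset.sum_le_sum
        intro t _
        calc _ ≤ |φ t * ((1 / N : ℝ) * ∑ i, ((if node (u i) = t then (1:ℝ) else 0) -
              (if node (v i) = t then (1:ℝ) else 0)))| := le_abs_self _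
          _ = |φ t| * |(1 / N : ℝ) * ∑ i, ((if node (u i) = t then (1:ℝ) else 0) -
              (if node (v i) = t then (1:ℝ) else 0))| := abs_mul _ _
          _ ≤ 1 * |(1 / N : ℝ) * ∑ i, ((if node (u i) = t then (1:ℝ) else 0) -
              (if node (v i) = t then (1:ℝ) else 0))| := by
              gcongr; exact hφ t
          _ = _ := one_mul _

end Pool.Agent.Helper116.TreeNo
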