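import Mathlib
import Pool.Agent.Helper116.TreeDefs

set_option autoImplicit false

open MeasureTheory

namespace Pool.Agent.Helper116.TreeNo.W3


theorem h170_geo (ν : ℕ) : ∑ j ∈ Finset.range ν, 2 ^ (ν - j) + 2 = 2 ^ (ν + 1) := by
  induction ν with
  | zero => simp
  | succ ν ih =>
    rw [Finset.sum_range_succ']
    have : ∑ k ∈ Finset.range ν, 2 ^ (ν + 1 - (k + 1)) = ∑ j ∈ Finset.range ν, 2 ^ (ν - j) :=
      Finset.sum_congr rfl fun k _ => by rw [Nat.add_sub_add_right]
    rw [this, pow_succ 2 (ν + 1), ← ih, Nat.sub_zero]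
    have : 2 ^ (ν + 1) = ∑ j ∈ Finset.range ν, 2 ^ (ν - j) + 2 := ih.symm
    rw [this]
    ring

theorem h170_div (H s u : ℕ) (hs : s ≤ H) : (2 ^ H + u) / 2 ^ s = 2 ^ (H - s) + u / 2 ^ s := by
  have h1 : 2 ^ H = 2 ^ s * 2 ^ (H - s) := by rw [← pow_add]; congr 1; omega
  rw [h1, Nat.mul_add_div (by positivity)]

theorem rooted_hull (H ν l₂ r : ℕ) (h : l₂ + ν ≤ H) (hr : r < 2 ^ (H - l₂ - ν))
    (U : Finset ℕ) (hU : ∀ u ∈ U, 2 ^ ν * r ≤ u / 2 ^ l₂ ∧ u / 2 ^ l₂ < 2 ^ ν * (r + 1)) :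
    ∃ T : Finset ℕ, (∀ u ∈ U, 2 ^ H + u ∈ T) ∧ 1 ∈ T ∧
      (∀ t ∈ T, 1 ≤ t ∧ t < 2 ^ (H + 1)) ∧ (∀ t ∈ T, t ≠ 1 → t / 2 ∈ T) ∧
      T.card ≤ U.card * l₂ + 2 ^ (ν + 1) + H + 1 := by
  have hu : ∀ u ∈ U, u < 2 ^ H := by
    intro u hu
    have h1 := (hU u hu).2
    have h2 : 2 ^ ν * (r + 1) ≤ 2 ^ ν * 2 ^ (H - l₂ - ν) := Nat.mul_le_mul_left _ hr
    have h3 : 2 ^ ν * 2 ^ (H - l₂ - ν) = 2 ^ (H - l₂) := by rw [← pow_add]; congr 1; omega
    rw [h3] at h2
    have h4 : u / 2 ^ l₂ < 2 ^ (H - l₂) := lt_of_lt_of_le h1 h2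
    rw [Nat.div_lt_iff_lt_mul (by positivity)] at h4
    have h5 : 2 ^ (H - l₂) * 2 ^ l₂ = 2 ^ H := by rw [← pow_add]; congr 1; omega
    rwa [h5] at h4
  set T : Finset ℕ := insert 1 ((U ×ˢ Finset.range (H + 1)).image (fun p => (2 ^ H + p.1) / 2 ^ p.2)) with hT
  have hmem : ∀ t, t ∈ T ↔ t = 1 ∨ ∃ u ∈ U, ∃ s, s ≤ H ∧ (2 ^ H + u) / 2 ^ s = t := by
    intro t
    rw [hT, Finset.mem_insert, Finset.mem_image]
    constructor
    · rintro (h1 | ⟨⟨u, s⟩, h1, h2⟩)
      · exact Or.inl h1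
      · rw [Finset.mem_product, Finset.mem_range] at h1
        exact Or.inr ⟨u, h1.1, s, by have := h1.2; simp only at this; omega, h2⟩
    · rintro (h1 | ⟨u, h1, s, h2, h3⟩)
      · exact Or.inl h1
      · exact Or.inr ⟨(u, s), Finset.mem_product.2 ⟨h1, Finset.mem_range.2 (by simp only; omega)⟩, h3⟩
  refine ⟨T, ?_, ?_, ?_, ?_, ?_⟩
  · intro u hu'
    rw [hmem]
    exact Or.inr ⟨u, hu', 0, Nat.zero_le _, by simp⟩
  · rw [hmem]; exact Or.inl rfl
  · intro t ht
    rw [hmem] at ht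
    rcases ht with rfl | ⟨u, hu', s, hs, rfl⟩
    · exact ⟨le_rfl, Nat.one_lt_two_pow (by omega)⟩
    · constructor
      · rw [h170_div H s u hs]
        have : 1 ≤ 2 ^ (H - s) := Nat.one_le_two_pow
        exact this.trans (Nat.le_add_right _ _)
      · have h1 : (2 ^ H + u) / 2 ^ s ≤ 2 ^ H + u := Nat.div_le_self _ _
        have h2 := hu u hu'
        rw [pow_succ]
        omega
  · intro t ht ht1
    rw [hmem] at ht
    rcases ht with rfl | ⟨u, hu', s, hs, rfl⟩
    · exact absurd rfl ht1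
    · have hsH : s < H := by
        rcases Nat.lt_or_ge s H with h1 | h1
        · exact h1
        · exfalso
          have : s = H := by omega
          subst this
          apply ht1
          rw [h170_div s s u le_rfl, Nat.sub_self, Nat.div_eq_of_lt (hu u hu')]
          rfl
      rw [hmem]
      refine Or.inr ⟨u, hu', s + 1, hsH, ?_⟩
      rw [pow_succ, Nat.div_div_eq_div_mul]
  · set A1 : Finset ℕ := (U ×ˢ Finset.range l₂).image (fun p => (2 ^ H + p.1) / 2 ^ p.2) with hA1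
    set A2 : Finset ℕ := (Finset.range ν).biUnion (fun j => Finset.Ico (2 ^ (H - l₂ - j) + 2 ^ (ν - j) * r)
      (2 ^ (H - l₂ - j) + 2 ^ (ν - j) * (r + 1))) with hA2
    set A3 : Finset ℕ := (Finset.range (H - l₂ - ν + 1)).image
      (fun s => (2 ^ (H - l₂ - ν) + r) / 2 ^ s) with hA3
    have hsub : T ⊆ {1} ∪ (A1 ∪ (A2 ∪ A3)) := by
      intro t ht
      rw [hmem] at ht
      rcases ht with rfl | ⟨u, hu', s, hs, rfl⟩
      · exact Finset.mem_union_left _ (Finset.mem_singleton_self 1)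
      · refine Finset.mem_union_right _ ?_
        obtain ⟨hv1, hv2⟩ := hU u hu'
        rcases Nat.lt_or_ge s l₂ with h1 | h1
        · refine Finset.mem_union_left _ (Finset.mem_image.2 ⟨(u, s), ?_, rfl⟩)
          exact Finset.mem_product.2 ⟨hu', Finset.mem_range.2 h1⟩
        · refine Finset.mem_union_right _ ?_
          rcases Nat.lt_or_ge s (l₂ + ν) with h2 | h2
          · refine Finset.mem_union_left _ (Finset.mem_biUnion.2 ⟨s - l₂, Finset.mem_range.2 (by omega), ?_⟩)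
            rw [h170_div H s u hs, Finset.mem_Ico]
            have e1 : H - l₂ - (s - l₂) = H - s := by omega
            have e2 : 2 ^ s = 2 ^ l₂ * 2 ^ (s - l₂) := by rw [← pow_add]; congr 1; omega
            have e3 : 2 ^ ν = 2 ^ (ν - (s - l₂)) * 2 ^ (s - l₂) := by rw [← pow_add]; congr 1; omega
            rw [e1, e2, ← Nat.div_div_eq_div_mul]
            have hp : 0 < 2 ^ (s - l₂) := by positivity
            constructor
            · apply Nat.add_le_add_left
              rw [Nat.le_div_iff_mul_le hp]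
              calc 2 ^ (ν - (s - l₂)) * r * 2 ^ (s - l₂) = 2 ^ ν * r := by rw [e3]; ring
                _ ≤ _ := hv1
            · apply Nat.add_lt_add_left
              rw [Nat.div_lt_iff_lt_mul hp]
              calc u / 2 ^ l₂ < 2 ^ ν * (r + 1) := hv2
                _ = _ := by rw [e3]; ring
          · refine Finset.mem_union_right _ (Finset.mem_image.2 ⟨s - (l₂ + ν), Finset.mem_range.2 (by omega), ?_⟩)
            have e2 : 2 ^ s = 2 ^ (l₂ + ν) * 2 ^ (s - (l₂ + ν)) := by rw [← pow_add]; congr 1; omega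
            rw [e2, ← Nat.div_div_eq_div_mul, h170_div H (l₂ + ν) u h]
            have e3 : H - (l₂ + ν) = H - l₂ - ν := by omega
            have e4 : u / 2 ^ (l₂ + ν) = r := by
              rw [pow_add, ← Nat.div_div_eq_div_mul]
              apply Nat.div_eq_of_lt_le
              · rw [mul_comm]; exact hv1
              · rw [mul_comm]; exact hv2
            rw [e3, e4]
    have c1 : A1.card ≤ U.card * l₂ := by
      refine Finset.card_image_le.trans ?_
      rw [Finset.card_product, Finset.card_range]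
    have c2 : A2.card + 2 ≤ 2 ^ (ν + 1) := by
      have h1 : A2.card ≤ ∑ j ∈ Finset.range ν, 2 ^ (ν - j) := by
        refine Finset.card_biUnion_le.trans (Finset.sum_le_sum fun j _ => ?_)
        have : 2 ^ (ν - j) * (r + 1) = 2 ^ (ν - j) * r + 2 ^ (ν - j) := by ring
        rw [Nat.card_Ico, this, ← Nat.add_assoc, Nat.add_sub_cancel_left]
      have h2 := h170_geo ν
      omega
    have c3 : A3.card ≤ H - l₂ - ν + 1 := by
      refine Finset.card_image_le.trans ?_
      rw [Finset.card_range]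
    have c4 := Finset.card_le_card hsub
    have c5 := Finset.card_union_le {1} (A1 ∪ (A2 ∪ A3))
    have c6 := Finset.card_union_le A1 (A2 ∪ A3)
    have c7 := Finset.card_union_le A2 A3
    rw [Finset.card_singleton] at c5
    omega

theorem h170_ext (h k : ℕ) (hk : k ≤ 2 ^ h - 1) (d : ℕ) : ∀ T : Finset ℕ, 1 ∈ T →
    (∀ t ∈ T, 1 ≤ t ∧ t < 2 ^ h) → (∀ t ∈ T, t ≠ 1 → t / 2 ∈ T) → T.card + d = k →
    ∃ T' : Finset ℕ, T ⊆ T' ∧ (∀ t ∈ T', 1 ≤ t ∧ t < 2 ^ h) ∧ (∀ t ∈ T', t ≠ 1 → t / 2 ∈ T') ∧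
      T'.card = k := by
  induction d with
  | zero =>
    intro T h1 hT hp hc
    exact ⟨T, Finset.Subset.refl _, hT, hp, hc⟩
  | succ d ih =>
    intro T h1 hT hp hc
    have hex : ∃ t, (1 ≤ t ∧ t < 2 ^ h) ∧ t ∉ T := by
      by_contra hcon
      push Not at hcon
      have hsub : Finset.Ico 1 (2 ^ h) ⊆ T := by
        intro t ht
        rw [Finset.mem_Ico] at ht
        exact hcon t ht
      have := Finset.card_le_card hsub
      rw [Nat.card_Ico] at this
      omega
    classical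
    have hspec := Nat.find_spec hex
    set t := Nat.find hex with htdef
    have hmin : ∀ s, 1 ≤ s → s < t → s ∈ T := by
      intro s hs1 hs2
      by_contra hcon
      exact Nat.find_min hex hs2 ⟨⟨hs1, hs2.trans hspec.1.2⟩, hcon⟩
    have ht1 : t ≠ 1 := by
      intro h'
      apply hspec.2
      rw [h']; exact h1
    have q1 : ∀ s ∈ insert t T, 1 ≤ s ∧ s < 2 ^ h := by
      intro s hs
      rw [Finset.mem_insert] at hs
      rcases hs with hs | hs
      · rw [hs]; exact hspec.1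
      · exact hT s hs
    have q2 : ∀ s ∈ insert t T, s ≠ 1 → s / 2 ∈ insert t T := by
      intro s hs hs1
      rw [Finset.mem_insert] at hs
      rcases hs with hs | hs
      · rw [hs] at hs1 ⊢
        exact Finset.mem_insert_of_mem (hmin _ (by omega) (by omega))
      · exact Finset.mem_insert_of_mem (hp s hs hs1)
    have q3 : (insert t T).card + d = k := by
      rw [Finset.card_insert_of_notMem hspec.2]
      omega
    obtain ⟨T', g1, g2, g3, g4⟩ := ih (insert t T) (Finset.mem_insert_of_mem h1) q1 q2 q3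
    exact ⟨T', (Finset.subset_insert t T).trans g1, g2, g3, g4⟩

theorem rooted_extend (h k : ℕ) (hk : k ≤ 2 ^ h - 1) (T : Finset ℕ) (h1 : 1 ∈ T)
    (hT : ∀ t ∈ T, 1 ≤ t ∧ t < 2 ^ h) (hp : ∀ t ∈ T, t ≠ 1 → t / 2 ∈ T) (hc : T.card ≤ k) :
    ∃ T' : Finset (Fin (2 ^ h - 1)), T'.card = k ∧ (∃ r ∈ T', r.val = 0) ∧
      (∀ i ∈ T', i.val ≠ 0 → ∃ j ∈ T', j.val + 1 = (i.val + 1) / 2) ∧
      (∀ i : Fin (2 ^ h - 1), i.val + 1 ∈ T → i ∈ T') := by
  classical
  obtain ⟨S, g1, g2, g3, g4⟩ := h170_ext h k hk (k - T.card) T h1 hT hp (by omega)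
  refine ⟨Finset.univ.filter (fun i => i.val + 1 ∈ S), ?_, ?_, ?_, ?_⟩
  · rw [← g4]
    refine Finset.card_bij (fun i _ => i.val + 1) ?_ ?_ ?_
    · intro i hi
      exact (Finset.mem_filter.1 hi).2
    · intro i _ j _ hij
      exact Fin.ext (by simpa using hij)
    · intro t ht
      have h2 := g2 t ht
      refine ⟨⟨t - 1, by omega⟩, ?_, ?_⟩
      · rw [Finset.mem_filter]
        refine ⟨Finset.mem_univ _, ?_⟩
        have : t - 1 + 1 = t := by omega
        simp only [this]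
        exact ht
      · simp only
        omega
  · have h2 := hT 1 h1
    refine ⟨⟨0, by omega⟩, ?_, rfl⟩
    rw [Finset.mem_filter]
    exact ⟨Finset.mem_univ _, g1 h1⟩
  · intro i hi hi0
    have h2 := (Finset.mem_filter.1 hi).2
    have h3 := g3 _ h2 (by omega)
    have h4 := g2 _ h3
    refine ⟨⟨(i.val + 1) / 2 - 1, by omega⟩, ?_, ?_⟩
    · rw [Finset.mem_filter]
      refine ⟨Finset.mem_univ _, ?_⟩
      have : (i.val + 1) / 2 - 1 + 1 = (i.val + 1) / 2 := by omega
      simp only [this]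
      exact h3
    · simp only
      omega
  · intro i hi
    rw [Finset.mem_filter]
    exact ⟨Finset.mem_univ _, g1 hi⟩


end Pool.Agent.Helper116.TreeNo.W3
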