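import Mathlib
import Pool.Agent.Helper116.TreeDefs

set_option autoImplicit false

open MeasureTheory

namespace Pool.Agent.Helper116.TreeNo.W5



theorem null_space_prop (n m : ℕ) (C : ℝ) (A : Matrix (Fin m) (Fin n) ℝ)
    (R : (Fin m → ℝ) → (Fin n → ℝ)) (TT : Finset (Fin n) → Prop)
    (hR : ∀ x x' : Fin n → ℝ, (∃ T, TT T ∧ ∀ i, i ∉ T → x' i = 0) →
      ∑ i, |R (Matrix.mulVec A x) i - x i| ≤ C * ∑ i, |x' i - x i|)
    (T : Finset (Fin n)) (hT : TT T) (w : Fin n → ℝ) (hw : A.mulVec w = 0) :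
    ∑ i, |w i| ≤ C * ∑ i, (if i ∈ T then 0 else |w i|) := by
  classical
  set wT : Fin n → ℝ := fun i => if i ∈ T then w i else 0 with hwT
  set wc : Fin n → ℝ := fun i => if i ∈ T then 0 else -w i with hwc
  have hsum : wT = w + wc := by
    funext i; simp only [hwT, hwc, Pi.add_apply]; split_ifs <;> ring
  have hA : A.mulVec wT = A.mulVec wc := by
    rw [hsum, Matrix.mulVec_add, hw, zero_add]
  have h1 := hR wT wT ⟨T, hT, fun i hi => by simp [hwT, hi]⟩
  simp only [sub_self, abs_zero, Finset.sum_const_zero, mul_zero] at h1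
  have h2 : ∀ i, R (A.mulVec wT) i = wT i := by
    intro i
    have := (Finset.sum_eq_zero_iff_of_nonneg (fun i _ => abs_nonneg _)).mp
      (le_antisymm h1 (Finset.sum_nonneg (fun i _ => abs_nonneg _))) i (Finset.mem_univ _)
    exact sub_eq_zero.mp (abs_eq_zero.mp this)
  have h3 := hR wc 0 ⟨T, hT, fun i hi => rfl⟩
  rw [← hA] at h3
  have e1 : ∀ i, |R (A.mulVec wT) i - wc i| = |w i| := by
    intro i
    rw [h2 i]
    congr 1
    rw [hsum]; simp
  have e2 : ∀ i, |(0 : Fin n → ℝ) i - wc i| = if i ∈ T then 0 else |w i| := by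
    intro i
    simp only [hwc, Pi.zero_apply]
    split_ifs
    · simp
    · simp
  simp only [e1, e2] at h3
  exact h3

theorem dual_fun (n m : ℕ) (C : ℝ) (hC : 0 < C) (A : Matrix (Fin m) (Fin n) ℝ)
    (R : (Fin m → ℝ) → (Fin n → ℝ)) (TT : Finset (Fin n) → Prop)
    (hR : ∀ x x' : Fin n → ℝ, (∃ T, TT T ∧ ∀ i, i ∉ T → x' i = 0) →
      ∑ i, |R (Matrix.mulVec A x) i - x i| ≤ C * ∑ i, |x' i - x i|)
    (T : Finset (Fin n)) (hT : TT T) (z : Fin n → ℝ) (hz : ∀ i, i ∉ T → z i = 0) :
    ∃ g : (Fin n → ℝ) →ₗ[ℝ] ℝ, (∀ w, A.mulVec w = 0 → g w = 0) ∧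
      (∀ v, |g (Pi.single v 1)| ≤ 1) ∧ (1 / (C + 1)) * ∑ i, |z i| ≤ g z := by
  classical
  by_cases hz0 : z = 0
  · refine ⟨0, fun _ _ => rfl, fun v => by simp, ?_⟩
    subst hz0; simp
  have hNpos : 0 < ∑ i, |z i| := by
    obtain ⟨i, hi⟩ := Function.ne_iff.mp hz0
    exact Finset.sum_pos' (fun i _ => abs_nonneg _) ⟨i, Finset.mem_univ _, abs_pos.mpr hi⟩
  -- quotient norm estimate
  have hq : ∀ w, A.mulVec w = 0 → ∑ i, |z i| ≤ (C + 1) * ∑ i, |z i - w i| := by
    intro w hw
    have h1 := null_space_prop n m C A R TT hR T hT w hw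
    have h2 : ∑ i, (if i ∈ T then 0 else |w i|) ≤ ∑ i, |z i - w i| := by
      apply Finset.sum_le_sum
      intro i _
      split_ifs with hi
      · exact abs_nonneg _
      · rw [hz i hi, zero_sub, abs_neg]
    have h3 : ∑ i, |z i| ≤ ∑ i, |z i - w i| + ∑ i, |w i| := by
      rw [← Finset.sum_add_distrib]
      apply Finset.sum_le_sum
      intro i _
      have := abs_add_le (z i - w i) (w i)
      rwa [sub_add_cancel] at this
    nlinarith
  set ρ : ℝ := (1 / (C + 1)) * ∑ i, |z i| with hρ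
  have hρpos : 0 < ρ := by positivity
  set s : Set (Fin n → ℝ) := {x | ∑ i, |x i| < ρ} with hs
  set t : Set (Fin n → ℝ) := {y | A.mulVec (z - y) = 0} with ht
  have hsc : Convex ℝ s := by
    intro x hx y hy a b ha hb hab
    show ∑ i, |(a • x + b • y) i| < ρ
    have hle : ∑ i, |(a • x + b • y) i| ≤ a * ∑ i, |x i| + b * ∑ i, |y i| := by
      rw [Finset.mul_sum, Finset.mul_sum, ← Finset.sum_add_distrib]
      apply Finset.sum_le_sum
      intro i _
      simp only [Pi.add_apply, Pi.smul_apply, smul_eq_mul]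
      refine (abs_add_le _ _).trans ?_
      rw [abs_mul, abs_mul, abs_of_nonneg ha, abs_of_nonneg hb]
    have hx' : ∑ i, |x i| < ρ := hx
    have hy' : ∑ i, |y i| < ρ := hy
    have hm : a * ∑ i, |x i| + b * ∑ i, |y i| < ρ := by
      rcases ha.eq_or_lt with h0 | h0
      · subst h0
        have : b = 1 := by linarith
        subst this; linarith
      · calc a * ∑ i, |x i| + b * ∑ i, |y i| < a * ρ + b * ρ :=
              add_lt_add_of_lt_of_le (mul_lt_mul_of_pos_left hx' h0)
                (mul_le_mul_of_nonneg_left hy'.le hb)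
          _ = ρ := by rw [← add_mul, hab, one_mul]
    linarith
  have hso : IsOpen s := by
    apply isOpen_lt _ continuous_const
    exact continuous_finsetSum _ (fun i _ => (continuous_apply i).abs)
  have htc : Convex ℝ t := by
    intro x hx y hy a b ha hb hab
    show A.mulVec (z - (a • x + b • y)) = 0
    have : z - (a • x + b • y) = a • (z - x) + b • (z - y) := by
      rw [smul_sub, smul_sub]
      have : z = a • z + b • z := by rw [← add_smul, hab, one_smul]
      conv_lhs => rw [this]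
      abel
    rw [this, Matrix.mulVec_add, Matrix.mulVec_smul, Matrix.mulVec_smul]
    have hx' : A.mulVec (z - x) = 0 := hx
    have hy' : A.mulVec (z - y) = 0 := hy
    rw [hx', hy']; simp
  have hdisj : Disjoint s t := by
    rw [Set.disjoint_left]
    intro y hy1 hy2
    have h1 := hq (z - y) hy2
    have h2 : ∀ i, z i - (z - y) i = y i := by intro i; simp
    simp only [h2] at h1
    have h3 : ∑ i, |y i| < ρ := hy1
    rw [hρ] at h3
    have h4 : (C + 1) * ∑ i, |y i| < (C + 1) * (1 / (C + 1) * ∑ i, |z i|) :=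
      mul_lt_mul_of_pos_left h3 (by linarith)
    have h5 : (C + 1) * (1 / (C + 1) * ∑ i, |z i|) = ∑ i, |z i| := by field_simp
    linarith
  obtain ⟨f, u, hfs, hft⟩ := geometric_hahn_banach_open hsc hso htc hdisj
  have hu : 0 < u := by
    have := hfs 0 (by show ∑ i, |(0 : Fin n → ℝ) i| < ρ; simpa using hρpos)
    simpa using this
  have hfz : u ≤ f z := hft z (by show A.mulVec (z - z) = 0; simp)
  have hfw : ∀ w, A.mulVec w = 0 → f w = 0 := by
    intro w hw
    by_contra hne
    have h1 := hft (z - ((f z - u + 1) / f w) • w) (by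
      show A.mulVec (z - (z - ((f z - u + 1) / f w) • w)) = 0
      rw [sub_sub_cancel, Matrix.mulVec_smul, hw, smul_zero])
    rw [map_sub, map_smul, smul_eq_mul, div_mul_cancel₀ _ hne] at h1
    linarith
  have hfe : ∀ v, |f (Pi.single v 1)| * ρ ≤ u := by
    intro v
    by_contra hcon
    push Not at hcon
    have hfpos : 0 < |f (Pi.single v 1)| := by
      by_contra h0
      push Not at h0
      have : |f (Pi.single v 1)| = 0 := le_antisymm h0 (abs_nonneg _)
      rw [this] at hcon; linarith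
    set c : ℝ := u / f (Pi.single v 1) with hc
    have hfne : f (Pi.single v 1) ≠ 0 := abs_pos.mp hfpos
    have hcabs : |c| < ρ := by
      rw [hc, abs_div, abs_of_pos hu, div_lt_iff₀ hfpos]; linarith
    have h1 := hfs (c • Pi.single v 1) (by
      show ∑ i, |(c • (Pi.single v 1 : Fin n → ℝ)) i| < ρ
      have : ∀ i, |(c • (Pi.single v 1 : Fin n → ℝ)) i| = if i = v then |c| else 0 := by
        intro i
        by_cases hi : i = v
        · subst hi; simp
        · simp [hi]
      simp only [this]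
      simpa using hcabs)
    rw [map_smul, smul_eq_mul, hc, div_mul_cancel₀ _ hfne] at h1
    exact lt_irrefl _ h1
  refine ⟨(ρ / u) • (f : (Fin n → ℝ) →ₗ[ℝ] ℝ), ?_, ?_, ?_⟩
  · intro w hw
    simp [hfw w hw]
  · intro v
    have := hfe v
    simp only [LinearMap.smul_apply, ContinuousLinearMap.coe_coe, smul_eq_mul]
    rw [abs_mul, abs_of_pos (by positivity), div_mul_eq_mul_div, div_le_one hu]
    linarith
  · simp only [LinearMap.smul_apply, ContinuousLinearMap.coe_coe, smul_eq_mul]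
    rw [div_mul_eq_mul_div, le_div_iff₀ hu]
    exact mul_le_mul_of_nonneg_left hfz hρpos.le

theorem shatter_of_recovery (n m : ℕ) (C : ℝ) (hC : 0 < C) (A : Matrix (Fin m) (Fin n) ℝ)
    (R : (Fin m → ℝ) → (Fin n → ℝ)) (TT : Finset (Fin n) → Prop)
    (hR : ∀ x x' : Fin n → ℝ, (∃ T, TT T ∧ ∀ i, i ∉ T → x' i = 0) →
      ∑ i, |R (Matrix.mulVec A x) i - x i| ≤ C * ∑ i, |x' i - x i|) :
    ∃ m' : ℕ, m' ≤ m ∧ ∃ a : Fin n → (Fin m' → ℝ),
      SymBody {X : Fin m' → ℝ | ∀ v, |X ⬝ᵥ a v| ≤ 1} ∧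
      ∀ T, TT T → ∀ z : Fin n → ℝ, (∀ i, i ∉ T → z i = 0) →
        ∃ X : Fin m' → ℝ, (∀ v, |X ⬝ᵥ a v| ≤ 1) ∧
          (1 / (C + 1)) * ∑ i, |z i| ≤ X ⬝ᵥ (∑ i, z i • a i) := by
  classical
  let Q : Submodule ℝ (Fin m → ℝ) := LinearMap.range A.mulVecLin
  let m' := Module.finrank ℝ Q
  have hm' : m' ≤ m := by
    have := Submodule.finrank_le Q
    simpa using this
  let φ : Q ≃ₗ[ℝ] (Fin m' → ℝ) := (Module.finBasis ℝ Q).equivFun
  let L : (Fin n → ℝ) →ₗ[ℝ] (Fin m' → ℝ) := φ.toLinearMap ∘ₗ A.mulVecLin.rangeRestrict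
  have hLsurj : Function.Surjective L :=
    φ.surjective.comp A.mulVecLin.surjective_rangeRestrict
  have hLker : ∀ w, L w = 0 → A.mulVec w = 0 := by
    intro w hw
    have h1 : φ (A.mulVecLin.rangeRestrict w) = 0 := hw
    have h2 : A.mulVecLin.rangeRestrict w = 0 := by simpa using h1
    have h3 := congrArg Subtype.val h2
    simpa using h3
  let a : Fin n → (Fin m' → ℝ) := fun v => L (Pi.single v 1)
  have hLsum : ∀ z : Fin n → ℝ, L z = ∑ i, z i • a i := by
    intro z
    have : z = ∑ i, z i • (Pi.single i 1 : Fin n → ℝ) := by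
      funext j
      simp [Finset.sum_apply, Pi.single_apply]
    conv_lhs => rw [this]
    rw [map_sum]
    simp only [map_smul, a]
  have hdot : ∀ (X : Fin m' → ℝ) (z : Fin n → ℝ), X ⬝ᵥ L z = ∑ i, z i * (X ⬝ᵥ a i) := by
    intro X z
    rw [hLsum, dotProduct_sum]
    simp only [dotProduct_smul, smul_eq_mul]
  refine ⟨m', hm', a, ⟨?_, ?_, ?_, ?_⟩, ?_⟩
  · -- convex
    intro X hX Y hY p q hp hq hpq v
    have h1 : |X ⬝ᵥ a v| ≤ 1 := hX v
    have h2 : |Y ⬝ᵥ a v| ≤ 1 := hY v
    rw [add_dotProduct, smul_dotProduct, smul_dotProduct, smul_eq_mul, smul_eq_mul]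
    refine (abs_add_le _ _).trans ?_
    rw [abs_mul, abs_mul, abs_of_nonneg hp, abs_of_nonneg hq]
    nlinarith
  · -- compact
    choose y hy using fun j : Fin m' => hLsurj (Pi.single j 1)
    have hK : IsCompact (Set.pi Set.univ (fun j : Fin m' => Set.Icc (-(∑ i, |y j i|)) (∑ i, |y j i|))) :=
      isCompact_univ_pi (fun j => isCompact_Icc)
    refine hK.of_isClosed_subset ?_ ?_
    · have : {X : Fin m' → ℝ | ∀ v, |X ⬝ᵥ a v| ≤ 1} = ⋂ v, {X : Fin m' → ℝ | |X ⬝ᵥ a v| ≤ 1} := by
        ext X; simp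
      rw [this]
      refine isClosed_iInter fun v => isClosed_le ?_ continuous_const
      exact (continuous_id.dotProduct continuous_const).abs
    · intro X hX j _
      have hX' : ∀ v, |X ⬝ᵥ a v| ≤ 1 := hX
      have h1 : X j = X ⬝ᵥ L (y j) := by rw [hy j]; simp
      refine abs_le.mp ?_
      rw [h1, hdot]
      refine (Finset.abs_sum_le_sum_abs _ _).trans ?_
      apply Finset.sum_le_sum
      intro i _
      rw [abs_mul]
      exact mul_le_of_le_one_right (abs_nonneg _) (hX' i)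
  · intro X hX v
    have : |X ⬝ᵥ a v| ≤ 1 := hX v
    rwa [neg_dotProduct, abs_neg]
  · show ∀ᶠ X in nhds (0 : Fin m' → ℝ), ∀ v, |X ⬝ᵥ a v| ≤ 1
    rw [Filter.eventually_all]
    intro v
    have hcont : Continuous (fun X : Fin m' → ℝ => |X ⬝ᵥ a v|) :=
      (continuous_id.dotProduct continuous_const).abs
    have := (hcont.tendsto 0).eventually_lt_const (u := 1) (by simp)
    exact this.mono (fun X hX => hX.le)
  · intro T hT z hz
    obtain ⟨g, hg0, hg1, hg2⟩ := dual_fun n m C hC A R TT hR T hT z hz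
    have hmem : g ∈ LinearMap.range (L.dualMap) := by
      rw [LinearMap.range_dualMap_eq_dualAnnihilator_ker, Submodule.mem_dualAnnihilator]
      intro w hw
      exact hg0 w (hLker w hw)
    obtain ⟨h, hh⟩ := hmem
    have hh' : ∀ x, g x = h (L x) := fun x => by rw [← hh]; rfl
    let X : Fin m' → ℝ := fun j => h (Pi.single j 1)
    have hX : ∀ y, X ⬝ᵥ y = h y := by
      intro y
      have : y = ∑ j, y j • (Pi.single j 1 : Fin m' → ℝ) := by
        funext k
        simp [Finset.sum_apply, Pi.single_apply]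
      conv_rhs => rw [this]
      rw [map_sum]
      simp only [map_smul, smul_eq_mul, dotProduct, X]
      exact Finset.sum_congr rfl (fun j _ => mul_comm _ _)
    refine ⟨X, fun v => ?_, ?_⟩
    · rw [hX, ← hh']; exact hg1 v
    · rw [← hLsum, hX, ← hh']; exact hg2

end Pool.Agent.Helper116.TreeNo.W5
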