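import Mathlib
import Pool.Agent.Helper116.TreeDefs
import Pool.Agent.Helper116.TreeW3
import Pool.Agent.Helper116.TreeW5
import Pool.Agent.Helper116.TreeSep
import Pool.Agent.Helper116.TreeCore

set_option autoImplicit false

open MeasureTheory

namespace Pool.Agent.Helper116.TreeNo

/-- the rooted `k`-node sets of the frozen statement -/
def RT (h k : ℕ) (T : Finset (Fin (2 ^ h - 1))) : Prop :=
  T.card = k ∧ (∃ r ∈ T, r.val = 0) ∧
    (∀ i ∈ T, i.val ≠ 0 → ∃ j ∈ T, j.val + 1 = (i.val + 1) / 2)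

theorem sep_step (J H : ℕ) (l ν : ℕ → ℕ)
    (hl : ∀ j, l j = 2 ^ (3 + 7 * j)) (hν : ∀ j, ν j = 7 * (J - j) + 1)
    (hH : H = 2 ^ (7 * J + 13)) (m : ℕ) (a : Fin (2 ^ (H + 1) - 1) → Fin m → ℝ)
    (c : ℝ) (hc : 0 < c)
    (hshat : ∀ T, RT (H + 1) (2 * H) T → ∀ z : Fin (2 ^ (H + 1) - 1) → ℝ,
      (∀ i, i ∉ T → z i = 0) → ∃ X : Fin m → ℝ, (∀ v, |X ⬝ᵥ a v| ≤ 1) ∧
        c * ∑ i, |z i| ≤ X ⬝ᵥ (∑ i, z i • a i))
    (node : ℕ → Fin (2 ^ (H + 1) - 1)) (hnode : ∀ g < 2 ^ H, (node g).val + 1 = 2 ^ H + g)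
    (w : ℕ → Fin m → ℝ) (hw : ∀ g < 2 ^ H, w g = a (node g))
    (j : ℕ) (hj : j < J) (r : ℕ) (hr : r < 2 ^ (H - l (j + 1) - ν j))
    (x y : Fin (2 ^ ν j) → Fin (2 ^ (l (j + 1) - l j)))
    (hxy : 2 ^ ν j ≤ 2 * (Finset.univ.filter (fun i => x i ≠ y i)).card)
    (u v : Fin (2 ^ ν j) → ℕ)
    (hu : ∀ i, u i / 2 ^ l j = (2 ^ ν j * r + i) * 2 ^ (l (j + 1) - l j) + x i)
    (hv : ∀ i, v i / 2 ^ l j = (2 ^ ν j * r + i) * 2 ^ (l (j + 1) - l j) + y i) :
    ∃ X : Fin m → ℝ, (∀ v, |X ⬝ᵥ a v| ≤ 1) ∧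
      c ≤ X ⬝ᵥ (((1 / (2 ^ ν j : ℕ) : ℝ) • ∑ i, w (u i)) -
        ((1 / (2 ^ ν j : ℕ) : ℝ) • ∑ i, w (v i))) := by
  classical
  obtain ⟨N, hN⟩ : ∃ N, N = 2 ^ ν j := ⟨_, rfl⟩
  have hNpos : 0 < N := by rw [hN]; positivity
  have hl2 : l (j + 1) = 128 * l j := by
    rw [hl, hl]
    have : 3 + 7 * (j + 1) = 7 + (3 + 7 * j) := by ring
    rw [this, pow_add]; norm_num
  have hle : l j ≤ l (j + 1) := by rw [hl2]; omega
  have hHN : H = 4 * (N * l (j + 1)) := by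
    rw [hH, hN, hν, hl]
    have e1 : (4:ℕ) = 2 ^ 2 := by norm_num
    rw [e1, ← pow_add, ← pow_add]; congr 1; omega
  have hlν : l (j + 1) + ν j ≤ H := by
    have h1 : ν j < N := by rw [hN]; exact Nat.lt_two_pow_self
    have h2 : 1 ≤ l (j + 1) := by rw [hl]; exact Nat.one_le_two_pow
    rw [hHN]
    nlinarith
  -- block of height l (j+1)
  have hblk : ∀ (f : ℕ) (i : Fin (2 ^ ν j)) (b : Fin (2 ^ (l (j + 1) - l j))),
      f / 2 ^ l j = (2 ^ ν j * r + i) * 2 ^ (l (j + 1) - l j) + b →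
      f / 2 ^ l (j + 1) = 2 ^ ν j * r + i := by
    intro f i b hf
    have h2 : 2 ^ l (j + 1) = 2 ^ l j * 2 ^ (l (j + 1) - l j) := by
      rw [← pow_add]; congr 1; omega
    rw [h2, ← Nat.div_div_eq_div_mul, hf, mul_comm, Nat.mul_add_div (by positivity),
      Nat.div_eq_of_lt b.2, add_zero]
  have hrange : ∀ (f : ℕ) (i : Fin (2 ^ ν j)), f / 2 ^ l (j + 1) = 2 ^ ν j * r + i →
      (2 ^ ν j * r ≤ f / 2 ^ l (j + 1) ∧ f / 2 ^ l (j + 1) < 2 ^ ν j * (r + 1)) := by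
    intro f i hf
    rw [hf]
    have := i.2
    constructor
    · omega
    · rw [mul_add]; omega
  have hlt : ∀ (f : ℕ), f / 2 ^ l (j + 1) < 2 ^ ν j * (r + 1) → f < 2 ^ H := by
    intro f hf
    rw [Nat.div_lt_iff_lt_mul (by positivity)] at hf
    refine lt_of_lt_of_le hf ?_
    have h1 : 2 ^ H = 2 ^ ν j * 2 ^ (H - l (j + 1) - ν j) * 2 ^ l (j + 1) := by
      rw [← pow_add, ← pow_add]; congr 1; omega
    rw [h1]
    gcongr
    omega
  have hul : ∀ i, u i < 2 ^ H := fun i => hlt _ (hrange _ i (hblk _ i _ (hu i))).2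
  have hvl : ∀ i, v i < 2 ^ H := fun i => hlt _ (hrange _ i (hblk _ i _ (hv i))).2
  obtain ⟨T, hT1, hT2, hT3, hT4, hT5⟩ := W3.rooted_hull H (ν j) (l (j + 1)) r hlν hr
    (Finset.univ.image u ∪ Finset.univ.image v) (by
      intro g hg
      rcases Finset.mem_union.mp hg with hg | hg
      · obtain ⟨i, _, rfl⟩ := Finset.mem_image.mp hg
        exact hrange _ i (hblk _ i _ (hu i))
      · obtain ⟨i, _, rfl⟩ := Finset.mem_image.mp hg
        exact hrange _ i (hblk _ i _ (hv i)))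
  have hUc : (Finset.univ.image u ∪ Finset.univ.image v).card ≤ 2 * N := by
    refine (Finset.card_union_le _ _).trans ?_
    have h1 : (Finset.univ.image u).card ≤ N := by
      refine Finset.card_image_le.trans ?_
      simp [hN]
    have h2 : (Finset.univ.image v).card ≤ N := by
      refine Finset.card_image_le.trans ?_
      simp [hN]
    omega
  have hTc : T.card ≤ 2 * H := by
    refine hT5.trans ?_
    have h1 : (Finset.univ.image u ∪ Finset.univ.image v).card * l (j + 1) ≤ 2 * N * l (j + 1) :=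
      Nat.mul_le_mul_right _ hUc
    have h2 : 2 ^ (ν j + 1) = 2 * N := by rw [pow_succ, hN]; ring
    have h3 : 8 ≤ l (j + 1) := by
      rw [hl]
      calc 8 = 2 ^ 3 := by norm_num
        _ ≤ 2 ^ (3 + 7 * (j + 1)) := Nat.pow_le_pow_right (by norm_num) (by omega)
    have h4 : N * 8 ≤ N * l (j + 1) := Nat.mul_le_mul_left _ h3
    have h5 : 2 * N * l (j + 1) = 2 * (N * l (j + 1)) := by ring
    omega
  have hk : 2 * H ≤ 2 ^ (H + 1) - 1 := by
    have h1 : H < 2 ^ H := Nat.lt_two_pow_self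
    have h2 : 2 ^ (H + 1) = 2 * 2 ^ H := by rw [pow_succ]; ring
    omega
  obtain ⟨T', hT'1, hT'2, hT'3, hT'4⟩ := W3.rooted_extend (H + 1) (2 * H) hk T hT2 hT3 hT4 hTc
  have hnodeT : ∀ g ∈ (Finset.univ.image u ∪ Finset.univ.image v), g < 2 ^ H → node g ∈ T' := by
    intro g hg hgl
    apply hT'4
    rw [hnode g hgl]
    exact hT1 g hg
  obtain ⟨X, hX1, hX2⟩ := hshat T' ⟨hT'1, hT'2, hT'3⟩
    (fun t => (1 / (2 ^ ν j : ℕ) : ℝ) * ∑ i, ((if node (u i) = t then (1:ℝ) else 0) -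
      (if node (v i) = t then (1:ℝ) else 0))) (by
      intro t ht
      have h1 : ∀ i, node (u i) ≠ t := by
        intro i h
        apply ht
        rw [← h]
        exact hnodeT _ (Finset.mem_union_left _ (Finset.mem_image_of_mem _ (Finset.mem_univ _)))
          (hul i)
      have h2 : ∀ i, node (v i) ≠ t := by
        intro i h
        apply ht
        rw [← h]
        exact hnodeT _ (Finset.mem_union_right _ (Finset.mem_image_of_mem _ (Finset.mem_univ _)))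
          (hvl i)
      simp [h1, h2])
  refine ⟨X, hX1, ?_⟩
  have hsep := code_separation (2 ^ (H + 1) - 1) (2 ^ ν j) (2 ^ (l (j + 1) - l j)) (2 ^ ν j * r)
    (l j) (2 ^ H) (by positivity) node (by
      intro g hg g' hg' h
      have h1 := hnode g hg
      have h2 := hnode g' hg'
      rw [h] at h1
      omega) x y hxy u v hul hu hvl hv
  have hsum : (∑ t, ((1 / (2 ^ ν j : ℕ) : ℝ) * ∑ i, ((if node (u i) = t then (1:ℝ) else 0) -
      (if node (v i) = t then (1:ℝ) else 0))) • a t) =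
      (((1 / (2 ^ ν j : ℕ) : ℝ) • ∑ i, w (u i)) - ((1 / (2 ^ ν j : ℕ) : ℝ) • ∑ i, w (v i))) := by
    simp_rw [mul_smul, Finset.sum_smul, sub_smul, ite_smul, one_smul, zero_smul]
    rw [← Finset.smul_sum, ← smul_sub]
    congr 1
    rw [Finset.sum_comm, ← Finset.sum_sub_distrib]
    apply Finset.sum_congr rfl
    intro i _
    rw [Finset.sum_sub_distrib, hw _ (hul i), hw _ (hvl i)]
    simp
  rw [hsum] at hX2
  refine le_trans ?_ hX2
  calc c = c * 1 := (mul_one c).symm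
    _ ≤ _ := mul_le_mul_of_nonneg_left hsep hc.le

theorem main_false (C : ℝ) (hC : 0 < C) (D : ℕ)
    (hyp : ∀ h k : ℕ, 1 ≤ k → k ≤ 2 ^ h - 1 →
      ∃ m : ℕ, m ≤ D * k ∧ ∃ A : Matrix (Fin m) (Fin (2 ^ h - 1)) ℝ,
      ∃ R : (Fin m → ℝ) → (Fin (2 ^ h - 1) → ℝ),
        ∀ x x' : Fin (2 ^ h - 1) → ℝ,
          (∃ T : Finset (Fin (2 ^ h - 1)), RT h k T ∧ (∀ i, i ∉ T → x' i = 0)) →
          ∑ i, |R (Matrix.mulVec A x) i - x i| ≤ C * ∑ i, |x' i - x i|) : False := by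
  classical
  obtain ⟨D₁, hD₁⟩ : ∃ D₁, D₁ = D + 1 := ⟨_, rfl⟩
  obtain ⟨R, hR⟩ : ∃ R, R = 8 * (344 * D₁ + 2) := ⟨_, rfl⟩
  obtain ⟨c, hcdef⟩ : ∃ c : ℝ, c = 1 / (C + 1) := ⟨_, rfl⟩
  have hc : 0 < c := by rw [hcdef]; positivity
  have hc1 : c ≤ 1 := by
    rw [hcdef, div_le_one (by positivity)]; linarith
  obtain ⟨η, hη⟩ : ∃ η : ℝ, η = (c / 8) ^ R / 2 * (1 / (128 * (D₁ : ℝ))) := ⟨_, rfl⟩
  obtain ⟨J0, hJ0⟩ := exists_nat_ge (8 / η)
  obtain ⟨J, hJdef⟩ : ∃ J, J = J0 + 1 := ⟨_, rfl⟩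
  have hJ2 : 8 / η ≤ J := by
    rw [hJdef]; push_cast; linarith
  obtain ⟨H, hH⟩ : ∃ H, H = 2 ^ (7 * J + 13) := ⟨_, rfl⟩
  have hHpos : 1 ≤ H := by rw [hH]; exact Nat.one_le_two_pow
  have hk : 2 * H ≤ 2 ^ (H + 1) - 1 := by
    have h1 : H < 2 ^ H := Nat.lt_two_pow_self
    have h2 : 2 ^ (H + 1) = 2 * 2 ^ H := by rw [pow_succ]; ring
    omega
  obtain ⟨m0, hm0, A, RR, hrec⟩ := hyp (H + 1) (2 * H) (by omega) hk
  obtain ⟨m, hmm, a, hL, hshat⟩ := W5.shatter_of_recovery (2 ^ (H + 1) - 1) m0 C hC A RR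
    (RT (H + 1) (2 * H)) hrec
  rw [← hcdef] at hshat
  -- m positive
  have hmpos : 0 < m := by
    rcases Nat.eq_zero_or_pos m with h0 | h0
    · exfalso
      subst h0
      obtain ⟨T', hT'1, hT'2, hT'3, hT'4⟩ := W3.rooted_extend (H + 1) (2 * H) hk {1}
        (by simp) (by
          intro t ht
          rw [Finset.mem_singleton] at ht
          subst ht
          exact ⟨le_rfl, Nat.one_lt_two_pow (by omega)⟩)
        (by
          intro t ht h
          rw [Finset.mem_singleton] at ht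
          exact absurd ht h) (by simp; omega)
      obtain ⟨r, hr, hr0⟩ := hT'2
      obtain ⟨X, hX1, hX2⟩ := hshat T' ⟨hT'1, ⟨r, hr, hr0⟩, hT'3⟩ (fun i => if i = r then 1 else 0)
        (by
          intro i hi
          rw [if_neg]
          rintro rfl
          exact hi hr)
      have h1 : X ⬝ᵥ (∑ i, (if i = r then (1:ℝ) else 0) • a i) = 0 := by
        simp [dotProduct]
      rw [h1] at hX2
      have h2 : ∑ i : Fin (2 ^ (H + 1) - 1), |(if i = r then (1:ℝ) else 0)| = 1 := by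
        have : ∀ i : Fin (2 ^ (H + 1) - 1), |(if i = r then (1:ℝ) else 0)| =
            if i = r then (1:ℝ) else 0 := by
          intro i; split_ifs <;> simp
        simp_rw [this]
        simp
      rw [h2] at hX2
      linarith
    · exact h0
  have hn0 : 0 < 2 ^ (H + 1) - 1 := by omega
  obtain ⟨node, hnode⟩ : ∃ node : ℕ → Fin (2 ^ (H + 1) - 1),
      ∀ g < 2 ^ H, (node g).val + 1 = 2 ^ H + g := by
    refine ⟨fun g => if h : 2 ^ H + g - 1 < 2 ^ (H + 1) - 1 then ⟨2 ^ H + g - 1, h⟩ else ⟨0, hn0⟩, ?_⟩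
    intro g hg
    have h1 : 2 ^ (H + 1) = 2 * 2 ^ H := by rw [pow_succ]; ring
    have h2 : 0 < 2 ^ H := by positivity
    have h3 : 2 ^ H + g - 1 < 2 ^ (H + 1) - 1 := by omega
    simp only [h3, dif_pos]
    omega
  refine core D₁ J H R m (fun j => 2 ^ (3 + 7 * j)) (fun j => 7 * (J - j) + 1) (by omega) (by omega)
    (fun _ => rfl) (fun _ => rfl) hH hR c hc hc1 η hη hJ2 hmpos ?_
    (fun g => if g < 2 ^ H then a (node g) else 0) {X : Fin m → ℝ | ∀ v, |X ⬝ᵥ a v| ≤ 1} hL ?_ ?_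
  · refine hmm.trans (hm0.trans ?_)
    rw [hD₁]
    exact Nat.mul_le_mul_right _ (by omega)
  · intro g X hX
    split_ifs
    · exact hX _
    · simp
  · intro j hj r hr x y hxy u v hu hv
    exact sep_step J H (fun j => 2 ^ (3 + 7 * j)) (fun j => 7 * (J - j) + 1)
      (fun _ => rfl) (fun _ => rfl) hH m a c hc hshat node hnode
      (fun g => if g < 2 ^ H then a (node g) else 0) (fun g hg => if_pos hg) j hj r hr x y hxy u v hu hv

end Pool.Agent.Helper116.TreeNo
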