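import Mathlib

set_option autoImplicit false

namespace Pool.Agent.Helper116.TreeNo

theorem numeric_contra (D₁ l₁ N' m R cc : ℕ) (hD : 1 ≤ D₁) (hl : 8 ≤ l₁) (hN : 1 ≤ N')
    (hm : m ≤ 8 * D₁ * (256 * (l₁ * N'))) (hR : R = 8 * (344 * D₁ + 2))
    (hcc : (2 ^ (127 * l₁)) ^ (2 * N') ≤ 2 * (cc * (2 ^ (2 * N') * (2 ^ (127 * l₁)) ^ N')))
    (G : ℝ) (hG1 : 1 ≤ G) (hG : G ≤ 2 ^ 43) (x : ℝ) (hx : x = 1 / (128 * (D₁ : ℝ))) :
    ¬ (((cc : ℝ) * (1 / 2) ^ (l₁ * (2 * N') + 1) * (1 - x) ^ m / 2) ^ R ≤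
      G ^ m / (1 / 2) ^ (l₁ * (2 * N') + 1)) := by
  intro hcon
  set P := l₁ * N' with hP
  have hP8 : 8 ≤ P := by
    calc 8 = 8 * 1 := by norm_num
      _ ≤ l₁ * N' := Nat.mul_le_mul hl hN
  have hPN : 8 * N' ≤ P := Nat.mul_le_mul_right _ hl
  have hD0 : (0:ℝ) < D₁ := by exact_mod_cast hD
  -- code size
  have h1 : (2:ℝ) ^ (127 * P) ≤ cc * 2 ^ (2 * N' + 1) := by
    have h2 : (2 ^ (127 * l₁)) ^ N' * (2 ^ (127 * l₁)) ^ N' ≤
        (cc * 2 ^ (2 * N' + 1)) * (2 ^ (127 * l₁)) ^ N' := by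
      calc (2 ^ (127 * l₁)) ^ N' * (2 ^ (127 * l₁)) ^ N' = (2 ^ (127 * l₁)) ^ (2 * N') := by
            rw [two_mul, pow_add]
        _ ≤ _ := hcc
        _ = _ := by ring
    have h3 := Nat.le_of_mul_le_mul_right h2 (by positivity)
    have h4 : (2 ^ (127 * l₁)) ^ N' = 2 ^ (127 * P) := by
      rw [← pow_mul, hP, mul_assoc]
    rw [h4] at h3
    exact_mod_cast h3
  -- Bernoulli
  have hx0 : 0 ≤ x := by rw [hx]; positivity
  have hx1 : x ≤ 1 / 128 := by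
    rw [hx]
    apply one_div_le_one_div_of_le (by norm_num)
    have : (1:ℝ) ≤ D₁ := by exact_mod_cast hD
    linarith
  have hb : (1 / 2 : ℝ) ≤ (1 - x) ^ (64 * D₁) := by
    have := one_add_mul_le_pow (a := -x) (by linarith) (64 * D₁)
    have h5 : (1:ℝ) + ((64 * D₁ : ℕ) : ℝ) * (-x) = 1 / 2 := by
      rw [hx]; push_cast; field_simp; norm_num
    rw [h5] at this
    simpa [sub_eq_add_neg] using this
  have hb2 : (1 / 2 : ℝ) ^ (32 * P) ≤ (1 - x) ^ m := by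
    calc (1 / 2 : ℝ) ^ (32 * P) ≤ ((1 - x) ^ (64 * D₁)) ^ (32 * P) :=
          pow_le_pow_left₀ (by norm_num) hb _
      _ = (1 - x) ^ (64 * D₁ * (32 * P)) := by rw [← pow_mul]
      _ ≤ (1 - x) ^ m := by
          apply pow_le_pow_of_le_one (by linarith) (by linarith)
          calc m ≤ 8 * D₁ * (256 * P) := hm
            _ = 64 * D₁ * (32 * P) := by ring
  have h6 : (2:ℝ) ^ (32 * P) ≤ (cc : ℝ) * (1 / 2) ^ (l₁ * (2 * N') + 1) * (1 - x) ^ m / 2 := by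
    have e1 : l₁ * (2 * N') + 1 = 2 * P + 1 := by rw [hP]; ring
    rw [e1]
    have h7 : (2:ℝ) ^ (32 * P) * 2 ^ (32 * P) * 2 ^ (2 * P + 1) * 2 * 2 ^ (2 * N' + 1) ≤
        2 ^ (127 * P) := by
      rw [← pow_add, ← pow_add, ← pow_succ, ← pow_add]
      apply pow_le_pow_right₀ (by norm_num)
      omega
    have h8 : (2:ℝ) ^ (32 * P) * 2 ^ (32 * P) * 2 ^ (2 * P + 1) * 2 ≤ cc := by
      have h9 := h7.trans h1
      have : (0:ℝ) < 2 ^ (2 * N' + 1) := by positivity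
      exact le_of_mul_le_mul_right h9 this
    have h10 : (2:ℝ) ^ (32 * P) * 2 ^ (32 * P) ≤ (cc : ℝ) * (1 / 2) ^ (2 * P + 1) / 2 := by
      rw [one_div, inv_pow, ← div_eq_mul_inv, div_div, le_div_iff₀ (by positivity)]
      linarith [h8]
    calc (2:ℝ) ^ (32 * P) = (2:ℝ) ^ (32 * P) * 2 ^ (32 * P) * (1 / 2) ^ (32 * P) := by
          rw [mul_assoc, ← mul_pow]; norm_num
      _ ≤ ((cc : ℝ) * (1 / 2) ^ (2 * P + 1) / 2) * (1 - x) ^ m := by gcongr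
      _ = _ := by ring
  have h11 : (2:ℝ) ^ (32 * P * R) ≤ G ^ m / (1 / 2) ^ (l₁ * (2 * N') + 1) := by
    calc (2:ℝ) ^ (32 * P * R) = ((2:ℝ) ^ (32 * P)) ^ R := by rw [← pow_mul]
      _ ≤ _ := pow_le_pow_left₀ (by positivity) h6 _
      _ ≤ _ := hcon
  have h12 : G ^ m / (1 / 2) ^ (l₁ * (2 * N') + 1) ≤ 2 ^ (43 * (8 * D₁ * (256 * P)) + (2 * P + 1)) := by
    have e1 : l₁ * (2 * N') + 1 = 2 * P + 1 := by rw [hP]; ring
    rw [e1, one_div, inv_pow, div_inv_eq_mul,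
      pow_add 2 (43 * (8 * D₁ * (256 * P))) (2 * P + 1)]
    refine mul_le_mul_of_nonneg_right ?_ (by positivity)
    calc G ^ m ≤ G ^ (8 * D₁ * (256 * P)) := pow_le_pow_right₀ hG1 hm
      _ ≤ (2 ^ 43) ^ (8 * D₁ * (256 * P)) := pow_le_pow_left₀ (by linarith) hG _
      _ = _ := by rw [← pow_mul]
  have h13 := h11.trans h12
  have h14 : 32 * P * R ≤ 43 * (8 * D₁ * (256 * P)) + (2 * P + 1) :=
    (pow_le_pow_iff_right₀ (by norm_num : (1:ℝ) < 2)).mp h13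
  rw [hR] at h14
  have h15 : 32 * P * (8 * (344 * D₁ + 2)) = 43 * (8 * D₁ * (256 * P)) + 512 * P := by ring
  omega

end Pool.Agent.Helper116.TreeNo
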