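import Mathlib
import Pool.Agent.Helper116.TreeDefs

set_option autoImplicit false

open MeasureTheory

namespace Pool.Agent.Helper116.TreeNo.S2


theorem polar_proj {α β : Type} [Fintype α] [Fintype β] (Q : Set (α ⊕ β → ℝ)) (hQ : SymBody Q)
    (r : ℝ) (hr : 0 < r)
    (hsec : ∀ u : α → ℝ, Sum.elim u (0 : β → ℝ) ∈ Q → u ⬝ᵥ u ≤ r ^ 2)
    (w : α → ℝ) (hw : w ⬝ᵥ w ≤ (1 / r) ^ 2) :
    ∃ y ∈ pol Q, ∀ i, y (Sum.inl i) = w i := by
  classical
  have habs : Absorbent ℝ Q := absorbent_nhds_zero hQ.nhds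
  let L : (α ⊕ β → ℝ) →ₗ[ℝ] ℝ :=
    { toFun := fun z => ∑ i, z (Sum.inl i) * w i
      map_add' := fun x y => by
        rw [← Finset.sum_add_distrib]
        exact Finset.sum_congr rfl (fun i _ => by rw [Pi.add_apply, add_mul])
      map_smul' := fun c x => by
        rw [RingHom.id_apply, smul_eq_mul, Finset.mul_sum]
        exact Finset.sum_congr rfl (fun i _ => by rw [Pi.smul_apply, smul_eq_mul, mul_assoc]) }
  let p : Submodule ℝ (α ⊕ β → ℝ) :=
    { carrier := {z | ∀ j, z (Sum.inr j) = 0}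
      add_mem' := fun {x y} hx hy j => by rw [Pi.add_apply, hx j, hy j, add_zero]
      zero_mem' := fun j => rfl
      smul_mem' := fun c x hx j => by rw [Pi.smul_apply, hx j, smul_zero] }
  let f : (α ⊕ β → ℝ) →ₗ.[ℝ] ℝ := ⟨p, L.comp p.subtype⟩
  have hf : ∀ x : f.domain, f x ≤ gauge Q x := by
    rintro ⟨z, hz⟩
    show L z ≤ gauge Q z
    apply le_of_forall_gt_imp_ge_of_dense
    intro a ha
    obtain ⟨b, hb0, hba, q, hq, hqz⟩ := exists_lt_of_gauge_lt habs ha
    have hqz' : b • q = z := hqz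
    have hq0 : ∀ j, q (Sum.inr j) = 0 := by
      intro j
      have h1 : z (Sum.inr j) = 0 := hz j
      rw [← hqz', Pi.smul_apply, smul_eq_mul] at h1
      exact (mul_eq_zero.mp h1).resolve_left hb0.ne'
    have hqe : Sum.elim (fun i => q (Sum.inl i)) (0 : β → ℝ) = q := by
      funext k
      cases k with
      | inl i => rfl
      | inr j => exact (hq0 j).symm
    have hu := hsec (fun i => q (Sum.inl i)) (by rw [hqe]; exact hq)
    have hL : L z = b * ∑ i, q (Sum.inl i) * w i := by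
      rw [← hqz', map_smul, smul_eq_mul]
      rfl
    have hcs := Finset.sum_mul_sq_le_sq_mul_sq Finset.univ (fun i => q (Sum.inl i)) w
    have h2 : ∑ i, q (Sum.inl i) ^ 2 ≤ r ^ 2 := by
      refine le_trans (le_of_eq ?_) hu
      exact Finset.sum_congr rfl (fun i _ => sq _)
    have h3 : ∑ i, w i ^ 2 ≤ (1 / r) ^ 2 := by
      refine le_trans (le_of_eq ?_) hw
      exact Finset.sum_congr rfl (fun i _ => sq _)
    have h4 : (∑ i, q (Sum.inl i) * w i) ^ 2 ≤ 1 := by
      refine hcs.trans ?_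
      calc (∑ i, q (Sum.inl i) ^ 2) * ∑ i, w i ^ 2 ≤ r ^ 2 * (1 / r) ^ 2 :=
            mul_le_mul h2 h3 (Finset.sum_nonneg (fun i _ => sq_nonneg _)) (sq_nonneg _)
        _ = 1 := by field_simp
    have h5 : ∑ i, q (Sum.inl i) * w i ≤ 1 := by nlinarith
    rw [hL]
    nlinarith
  obtain ⟨g, hg1, hg2⟩ := exists_extension_of_le_sublinear f (gauge Q)
    (fun c hc x => by rw [gauge_smul_of_nonneg hc.le, smul_eq_mul])
    (fun x y => gauge_add_le hQ.convex habs x y) hf
  refine ⟨fun k => g (Pi.single k 1), ?_, ?_⟩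
  · intro x hx
    have h1 : x ⬝ᵥ (fun k => g (Pi.single k 1)) = g x := by
      have h2 : x = ∑ k, x k • (Pi.single k (1 : ℝ) : α ⊕ β → ℝ) := by
        funext j
        rw [Finset.sum_apply]
        simp [Pi.single_apply]
      conv_rhs => rw [h2]
      rw [map_sum]
      exact Finset.sum_congr rfl (fun k _ => by rw [map_smul, smul_eq_mul])
    rw [h1]
    exact (hg2 x).trans (gauge_le_one_of_mem hx)
  · intro i
    have hmem : (Pi.single (Sum.inl i) (1 : ℝ) : α ⊕ β → ℝ) ∈ p := by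
      intro j
      exact Pi.single_eq_of_ne (by simp) _
    have h1 := hg1 ⟨Pi.single (Sum.inl i) 1, hmem⟩
    have h2 : f ⟨Pi.single (Sum.inl i) 1, hmem⟩ = w i := by
      show ∑ i', (Pi.single (Sum.inl i) (1 : ℝ) : α ⊕ β → ℝ) (Sum.inl i') * w i' = w i
      rw [Finset.sum_eq_single i]
      · rw [Pi.single_eq_same, one_mul]
      · intro b _ hb
        rw [Pi.single_eq_of_ne (by simpa using hb), zero_mul]
      · intro h; exact absurd (Finset.mem_univ i) h
    rw [h2] at h1
    exact h1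


end Pool.Agent.Helper116.TreeNo.S2
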